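import Pool.Agent.H68.F7.Frame
import Pool.Graph.R_pool_sql_team_seeded_63374d34.N443.Core.Cls

/-! The bound for every admissible set function from the bounds for representatives. -/

set_option autoImplicit false
set_option maxRecDepth 100000
set_option maxHeartbeats 4000000
open Finset Equiv

namespace Pool.Agent.H68.F7

noncomputable section

open Pool.Agent.Y435.T7 (bt)
open Pool.Agent.N443 (mkN mkN_congr mkN_lt bt_mkN codeN act Cl Kp Inv7 Psi Psi_act cov cov_spec okP okP_spec wf2 ph2)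

def tr0 : List (ℕ × ℕ) := [(2, 3), (5, 6), (7, 8), (11, 12), (13, 14), (16, 17)]
def tr1 : List (ℕ × ℕ) := [(1, 2), (4, 5), (8, 9), (10, 11), (14, 15), (17, 18)]
def tr2 : List (ℕ × ℕ) := [(0, 1), (5, 7), (6, 8), (11, 13), (12, 14), (18, 19)]
def tr3 : List (ℕ × ℕ) := [(1, 4), (2, 5), (3, 6), (13, 16), (14, 17), (15, 18)]
def tr4 : List (ℕ × ℕ) := [(4, 10), (5, 11), (6, 12), (7, 13), (8, 14), (9, 15)]
theorem ot0 : okP 20 CQ tr0 (swap 0 1) = true := by decide +kernel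
theorem ot1 : okP 20 CQ tr1 (swap 1 2) = true := by decide +kernel
theorem ot2 : okP 20 CQ tr2 (swap 2 3) = true := by decide +kernel
theorem ot3 : okP 20 CQ tr3 (swap 3 4) = true := by decide +kernel
theorem ot4 : okP 20 CQ tr4 (swap 4 5) = true := by decide +kernel
/-- a word for the longest permutation -/
def WL : List (List (ℕ × ℕ)) := [tr0, tr1, tr0, tr2, tr1, tr0, tr3, tr2, tr1, tr0, tr4, tr3, tr2, tr1, tr0]

theorem WL_ok : ∀ l ∈ WL, ∃ σ, okP 20 CQ l σ = true := by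
  intro l hl
  simp only [WL, List.mem_cons, List.not_mem_nil, or_false] at hl
  rcases hl with rfl | rfl | rfl | rfl | rfl | rfl | rfl | rfl | rfl | rfl | rfl | rfl | rfl | rfl | rfl
  · exact ⟨_, ot0⟩
  · exact ⟨_, ot1⟩
  · exact ⟨_, ot0⟩
  · exact ⟨_, ot2⟩
  · exact ⟨_, ot1⟩
  · exact ⟨_, ot0⟩
  · exact ⟨_, ot3⟩
  · exact ⟨_, ot2⟩
  · exact ⟨_, ot1⟩
  · exact ⟨_, ot0⟩
  · exact ⟨_, ot4⟩
  · exact ⟨_, ot3⟩
  · exact ⟨_, ot2⟩
  · exact ⟨_, ot1⟩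
  · exact ⟨_, ot0⟩

variable {κ cC : ℕ} {F5 F3 : ℕ → ℕ → ℕ → ℕ}

/-- the value is bounded for all set functions with this code -/
def Good (κ cC : ℕ) (F5 F3 : ℕ → ℕ → ℕ → ℕ) (c : ℕ) : Prop :=
  ∀ g, Val κ g → codeN 20 CQ g = c → 48 * Psi (GG F5) g + SG (GH F3) g ≤ 48 * cC

theorem good_step (h7 : Inv7 (Val κ) (GG F5)) {l : List (ℕ × ℕ)} {σ : Perm (Fin 7)} (h : okP 20 CQ l σ = true) {c : ℕ}
    (hc : Good κ cC F5 F3 (ph2 l c)) : Good κ cC F5 F3 c := by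
  intro g hg e
  have h1 := hc (act σ g) (Val_cl κ g hg σ) (by rw [← e]; exact (okP_spec h hg.1).2.symm)
  rwa [Psi_act h7 hg σ, SG_act] at h1

theorem all_of (h7 : Inv7 (Val κ) (GG F5)) (h3 : Inv3 (Val κ) (GH F3)) (reps : List ℕ) (BP : List (List ℕ × Finset (Fin 7)))
    (hcov : cov 20 reps WL (BP.map Prod.fst) = true) (hlt : ∀ c ∈ reps, c < 2 ^ 20)
    (hBP : ∀ x ∈ BP, x.2.card = κ ∧ ∀ Q ∈ powersetCard 3 x.2, ∃ i ∈ x.1, i < 20 ∧ CQ.getD i ∅ = Q)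
    (hrep : ∀ c ∈ reps, ∀ i < 2 ^ 15, SV F5 F3 c i ≤ cC) {g : Finset (Fin 7) → ℕ} (hg : Val κ g) :
    48 * Psi (GG F5) g + SG (GH F3) g ≤ 48 * cC := by
  have h := cov_spec (G := Good κ cC F5 F3) hcov (fun c hc => ⟨hlt c hc, fun g hg e => by
      rw [← SV_eq h7 h3 hg]
      exact Nat.mul_le_mul_left _ (hrep _ (by rw [e]; exact hc) _ (mkN_lt fun _ => hg.1 _))⟩)
    (fun l hl => by obtain ⟨σ, h⟩ := WL_ok l hl; exact (okP_spec h hg.1).1)
    (fun l hl c _ hc => by obtain ⟨σ, h⟩ := WL_ok l hl; exact good_step h7 h hc)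
    (c := codeN 20 CQ g) (mkN_lt fun _ => hg.1 _)
  rcases h with h | ⟨l, hl, h⟩
  · exact h g hg rfl
  · exfalso
    obtain ⟨x, hx, rfl⟩ := List.mem_map.mp hl
    obtain ⟨h1, h2⟩ := hBP x hx
    obtain ⟨Q, hQ, h0⟩ := hg.2 x.2 h1
    obtain ⟨i, hi, hi2, hi3⟩ := h2 Q hQ
    have h3 := h i hi
    unfold codeN at h3
    rw [bt_mkN hi2 fun j => hg.1 _, hi3, h0] at h3
    omega

end

end Pool.Agent.H68.F7
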