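import Pool.Agent.H68.F7.Frame

/-! From the inequality for seven positions to the density. -/

set_option autoImplicit false
set_option maxRecDepth 100000
set_option maxHeartbeats 4000000
open Finset Equiv

namespace Pool.Agent.H68.F7

noncomputable section

open Pool.Agent.Y435.T7 (bt al)
open Pool.Agent.N443 (osum osum_eq mkN mkN_congr mkN_lt bt_mkN codeN act Cl Kp Inv7 Psi gv gv_act sum_act
  sum_Psi sum7 psd_sum sum_gv_perm card_tuples)
open Pool.Agent.H120R2.Clique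

variable {V : Type} [Fintype V] [DecidableEq V] {κ : ℕ}

/-- 3-uniform hypergraphs without a complete set of `κ` -/
structure Free (κ : ℕ) (H : Finset V → Prop) : Prop where
  c3 : ∀ Q, H Q → Q.card = 3
  f5 : ∀ P : Finset V, P.card = κ → ∃ Q ∈ powersetCard 3 P, ¬ H Q

omit [Fintype V] in
theorem gv_zero {H : Finset V → Prop} {u : Fin 7 → V} {Q : Finset (Fin 7)} (h : ¬ H (Q.image u)) : gv H u Q = 0 := by
  unfold gv; rw [if_neg h]

omit [Fintype V] in
theorem val_gv (hκ : 3 ≤ κ) {H : Finset V → Prop} (h : Free κ H) (u : Fin 7 → V) : Val κ (gv H u) := by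
  refine ⟨fun Q => by unfold gv; split_ifs <;> norm_num, fun P hP => ?_⟩
  by_cases hinj : Set.InjOn u P
  · obtain ⟨Q', hQ', hn⟩ := h.f5 (P.image u) (by rw [card_image_of_injOn hinj, hP])
    rw [mem_powersetCard] at hQ'
    have himg : (P.filter fun i => u i ∈ Q').image u = Q' := by
      ext x
      rw [mem_image]
      constructor
      · rintro ⟨i, hi, rfl⟩; exact (mem_filter.mp hi).2
      · intro hx
        obtain ⟨i, hi, rfl⟩ := mem_image.mp (hQ'.1 hx)
        exact ⟨i, mem_filter.mpr ⟨hi, hx⟩, rfl⟩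
    refine ⟨P.filter fun i => u i ∈ Q', ?_, gv_zero (by rw [himg]; exact hn)⟩
    rw [mem_powersetCard]
    refine ⟨filter_subset _ _, ?_⟩
    rw [← hQ'.2, ← himg, card_image_of_injOn]
    · rw [himg]
    · exact hinj.mono (by exact_mod_cast filter_subset _ _)
  · unfold Set.InjOn at hinj
    push Not at hinj
    obtain ⟨i, hi, j, hj, hij, hne⟩ := hinj
    have hi' : i ∈ P := hi
    have hj' : j ∈ P := hj
    have hex : ∃ k ∈ (P.erase i).erase j, True := by
      have hc : 0 < ((P.erase i).erase j).card := by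
        rw [card_erase_of_mem (mem_erase.mpr ⟨Ne.symm hne, hj'⟩), card_erase_of_mem hi', hP]
        omega
      obtain ⟨k, hk⟩ := card_pos.mp hc
      exact ⟨k, hk, trivial⟩
    obtain ⟨k, hk, -⟩ := hex
    rw [mem_erase, mem_erase] at hk
    obtain ⟨hkj, hki, hkP⟩ := hk
    refine ⟨{i, j, k}, mem_powersetCard.mpr ⟨?_, card_eq_three.mpr ⟨i, j, k, hne, Ne.symm hki, Ne.symm hkj, rfl⟩⟩, gv_zero ?_⟩
    · intro x hx
      rw [mem_insert, mem_insert, mem_singleton] at hx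
      rcases hx with rfl | rfl | rfl
      · exact hi'
      · exact hj'
      · exact hkP
    · intro hH
      have h3 := h.c3 _ hH
      rw [image_insert, image_insert, image_singleton, hij] at h3
      have h4 : ({u j, u j, u k} : Finset V).card ≤ 2 := by
        rw [insert_eq_of_mem (mem_insert_self _ _)]
        exact card_le_two
      omega

theorem hRM : ∀ j < 10, ∀ i ∈ RM.getD j ∅, i.val < 5 := by decide +kernel
theorem hRA : ∀ j < 10, ∀ i ∈ RA.getD j ∅, i.val < 6 := by decide +kernel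
theorem hQ1 : ∀ j < 9, ∀ i ∈ Q1.getD j ∅, i.val < 5 := by decide +kernel

omit [Fintype V] in
theorem code_gv {n : ℕ} {L : List (Finset (Fin 7))} {H : Finset V → Prop} {u u' : Fin 7 → V}
    (h : ∀ j < n, ∀ i ∈ L.getD j ∅, u i = u' i) : codeN n L (gv H u) = codeN n L (gv H u') :=
  mkN_congr fun j hj => by
    have : (L.getD j ∅).image u = (L.getD j ∅).image u' := image_congr fun i hi => h j hj i hi
    unfold gv; rw [this]

omit [Fintype V] [DecidableEq V] in
theorem vec5 {a b c d e x y x' y' : V} {i : Fin 7} (h : i.val < 5) :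
    (![a, b, c, d, e, x, y] : Fin 7 → V) i = (![a, b, c, d, e, x', y'] : Fin 7 → V) i := by
  fin_cases i
  all_goals simp at h ⊢
omit [Fintype V] [DecidableEq V] in
theorem vec6 {a b c d e x y y' : V} {i : Fin 7} (h : i.val < 6) :
    (![a, b, c, d, e, x, y] : Fin 7 → V) i = (![a, b, c, d, e, x, y'] : Fin 7 → V) i := by
  fin_cases i
  all_goals simp at h ⊢
omit [Fintype V] [DecidableEq V] in
theorem vecs (a b c d e x y : V) : (![a, b, c, d, e, x, y] : Fin 7 → V) ∘ (swap 5 6 : Perm (Fin 7)) = ![a, b, c, d, e, y, x] := by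
  have h : ∀ i : Fin 7, (swap 5 6 : Perm (Fin 7)) i = (![0, 1, 2, 3, 4, 6, 5] : Fin 7 → Fin 7) i := by decide +kernel
  funext i
  rw [Function.comp_apply, h]
  fin_cases i
  all_goals simp
omit [Fintype V] [DecidableEq V] in
theorem vecD (a b c d e x y : V) : (![a, b, c, d, e, x, y] : Fin 7 → V) ∘ (tD : Perm (Fin 7)) = ![a, b, c, x, y, d, e] := by
  have h : ∀ i : Fin 7, tD i = (![0, 1, 2, 5, 6, 3, 4] : Fin 7 → Fin 7) i := by decide +kernel
  funext i
  rw [Function.comp_apply, h]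
  fin_cases i
  all_goals simp

/-- number of triples of a mask -/
def pc (m : ℕ) : ℕ := osum (fun i => bt i m) 10

/-- the data of a certificate -/
structure Cert (κ : ℕ) (F5 F3 : ℕ → ℕ → ℕ → ℕ) (K5 : ℕ → ℕ) (a5 : ℕ → ℕ → ℕ → ℤ) (K3 : ℕ → ℕ) (a3 : ℕ → ℕ → ℕ → ℤ)
    (cC B5 B3 S : ℕ) : Prop where
  hP : ∀ g, Val κ g → 48 * Psi (GG F5) g + SG (GH F3) g ≤ 48 * cC
  h5 : ∀ g, Val κ g → (GG F5 g : ℤ) = B5 + S * (pc (codeN 10 RM g) : ℤ) + ∑ k ∈ range (K5 (codeN 10 RM g)),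
    a5 (codeN 10 RM g) (codeN 10 RA g) k * a5 (codeN 10 RM g) (codeN 10 RB g) k
  h3 : ∀ g, Val κ g → (GH F3 g : ℤ) = B3 + ∑ k ∈ range (K3 (g {0, 1, 2})),
    a3 (g {0, 1, 2}) (codeN 9 Q1 g) k * a3 (g {0, 1, 2}) (codeN 9 Q2 g) k

variable {F5 F3 : ℕ → ℕ → ℕ → ℕ} {K5 : ℕ → ℕ} {a5 : ℕ → ℕ → ℕ → ℤ} {K3 : ℕ → ℕ} {a3 : ℕ → ℕ → ℕ → ℤ} {cC B5 B3 S : ℕ}

theorem GG_lower (C : Cert κ F5 F3 K5 a5 K3 a3 cC B5 B3 S) (hκ : 3 ≤ κ) {H : Finset V → Prop} (h : Free κ H) :
    ∑ u : Fin 7 → V, ((B5 : ℤ) + S * (pc (codeN 10 RM (gv H u)) : ℤ)) ≤ ∑ u : Fin 7 → V, (GG F5 (gv H u) : ℤ) := by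
  rw [sum7, sum7 (V := V) fun u => (GG F5 (gv H u) : ℤ)]
  refine sum_le_sum fun a _ => sum_le_sum fun b _ => sum_le_sum fun c _ => sum_le_sum fun d _ => sum_le_sum fun e _ => ?_
  set m := codeN 10 RM (gv H ![a, b, c, d, e, a, a]) with hm
  have e1 : ∀ x y, codeN 10 RM (gv H ![a, b, c, d, e, x, y]) = m := fun x y => code_gv fun j hj i hi => vec5 (hRM j hj i hi)
  have e2 : ∀ x y, codeN 10 RA (gv H ![a, b, c, d, e, x, y]) = codeN 10 RA (gv H ![a, b, c, d, e, x, a]) := fun x y =>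
    code_gv fun j hj i hi => vec6 (hRA j hj i hi)
  have e3 : ∀ x y, codeN 10 RB (gv H ![a, b, c, d, e, x, y]) = codeN 10 RA (gv H ![a, b, c, d, e, y, a]) := fun x y => by
    rw [← RA_s5, gv_act, vecs, e2]
  have h1 : ∀ x y, (GG F5 (gv H ![a, b, c, d, e, x, y]) : ℤ) = ((B5 : ℤ) + S * (pc m : ℤ)) + ∑ k ∈ range (K5 m),
      a5 m (codeN 10 RA (gv H ![a, b, c, d, e, x, a])) k * a5 m (codeN 10 RA (gv H ![a, b, c, d, e, y, a])) k := by
    intro x y
    rw [C.h5 _ (val_gv hκ h _), e1, e2, e3]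
  have h2 := psd_sum (V := V) ((B5 : ℤ) + S * (pc m : ℤ)) (K5 m) fun x k => a5 m (codeN 10 RA (gv H ![a, b, c, d, e, x, a])) k
  refine le_trans (le_of_eq ?_) (h2.trans (le_of_eq ?_))
  · exact sum_congr rfl fun x _ => sum_congr rfl fun y _ => by rw [e1]
  · exact sum_congr rfl fun x _ => sum_congr rfl fun y _ => (h1 x y).symm

theorem GH_lower (C : Cert κ F5 F3 K5 a5 K3 a3 cC B5 B3 S) (hκ : 3 ≤ κ) {H : Finset V → Prop} (h : Free κ H) :
    ∑ _u : Fin 7 → V, (B3 : ℤ) ≤ ∑ u : Fin 7 → V, (GH F3 (gv H u) : ℤ) := by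
  rw [sum7, sum7 (V := V) fun u => (GH F3 (gv H u) : ℤ)]
  refine sum_le_sum fun a _ => sum_le_sum fun b _ => sum_le_sum fun c _ => ?_
  set r := gv H ![a, b, c, a, a, a, a] {0, 1, 2} with hr
  have e0 : ∀ d e x y : V, (({0, 1, 2} : Finset (Fin 7)).image ![a, b, c, d, e, x, y] : Finset V) = {a, b, c} := by
    intro d e x y
    rw [image_insert, image_insert, image_singleton]
    simp
  have e1 : ∀ d e x y, gv H ![a, b, c, d, e, x, y] {0, 1, 2} = r := by
    intro d e x y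
    rw [hr]
    unfold gv
    rw [e0, e0]
  have e2 : ∀ d e x y, codeN 9 Q1 (gv H ![a, b, c, d, e, x, y]) = codeN 9 Q1 (gv H ![a, b, c, d, e, a, a]) := fun d e x y =>
    code_gv fun j hj i hi => vec5 (hQ1 j hj i hi)
  have e3 : ∀ d e x y, codeN 9 Q2 (gv H ![a, b, c, d, e, x, y]) = codeN 9 Q1 (gv H ![a, b, c, x, y, a, a]) := fun d e x y => by
    rw [← Q1_s9, gv_act, vecD, e2]
  have h1 : ∀ d e x y, (GH F3 (gv H ![a, b, c, d, e, x, y]) : ℤ) = (B3 : ℤ) + ∑ k ∈ range (K3 r),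
      a3 r (codeN 9 Q1 (gv H ![a, b, c, d, e, a, a])) k * a3 r (codeN 9 Q1 (gv H ![a, b, c, x, y, a, a])) k := by
    intro d e x y
    rw [C.h3 _ (val_gv hκ h _), e1, e2, e3]
  have h2 := psd_sum (V := V × V) (B3 : ℤ) (K3 r) fun p k => a3 r (codeN 9 Q1 (gv H ![a, b, c, p.1, p.2, a, a])) k
  simp only [Fintype.sum_prod_type] at h2
  refine h2.trans (le_of_eq ?_)
  exact sum_congr rfl fun d _ => sum_congr rfl fun e _ => sum_congr rfl fun x _ => sum_congr rfl fun y _ => (h1 d e x y).symm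

/-- permutations for the triples of the roots -/
def sg : List (Perm (Fin 7)) := [1, swap 2 3, swap 1 3, swap 0 3, swap 2 4, swap 1 4, swap 0 4, swap 1 3 * swap 2 4,
  swap 0 3 * swap 2 4, swap 0 3 * swap 1 4]
theorem sg_ok : ∀ i < 10, RM.getD i ∅ = ({0, 1, 2} : Finset (Fin 7)).image (sg.getD i 1 : Perm (Fin 7)) := by decide +kernel

theorem pc_sum (H : Finset V → Prop) : ∑ u : Fin 7 → V, pc (codeN 10 RM (gv H u)) = 10 * ∑ u : Fin 7 → V, gv H u {0, 1, 2} := by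
  have hb : ∀ u : Fin 7 → V, ∀ Q, gv H u Q ≤ 1 := fun u Q => by unfold gv; split_ifs <;> norm_num
  have h1 : ∀ u : Fin 7 → V, pc (codeN 10 RM (gv H u)) = ∑ i ∈ range 10, gv H u (RM.getD i ∅) := by
    intro u
    unfold pc
    rw [osum_eq]
    exact sum_congr rfl fun i hi => bt_mkN (mem_range.mp hi) fun j => hb u _
  rw [sum_congr rfl fun u _ => h1 u, sum_comm]
  have h2 : ∀ i ∈ range 10, ∑ u : Fin 7 → V, gv H u (RM.getD i ∅) = ∑ u : Fin 7 → V, gv H u {0, 1, 2} := fun i hi => by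
    rw [sg_ok i (mem_range.mp hi)]
    exact sum_gv_perm H _ _
  rw [sum_congr rfl h2, sum_const, card_range, smul_eq_mul]

theorem core (C : Cert κ F5 F3 K5 a5 K3 a3 cC B5 B3 S) (hκ : 3 ≤ κ) {H : Finset V → Prop} (h : Free κ H) :
    210 * S * (∑ u : Fin 7 → V, gv H u {0, 1, 2}) + (21 * B5 + 105 * B3) * (Fintype.card V) ^ 7 ≤ cC * (Fintype.card V) ^ 7 := by
  have hU : ∀ c : ℕ, ∑ _u : Fin 7 → V, c = c * (Fintype.card V) ^ 7 := fun c => by
    rw [sum_const, card_univ, Fintype.card_fun, Fintype.card_fin, smul_eq_mul, mul_comm]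
  have hZ : ∀ c : ℤ, ∑ _u : Fin 7 → V, c = c * (Fintype.card V : ℤ) ^ 7 := fun c => by
    rw [sum_const, card_univ, Fintype.card_fun, Fintype.card_fin, nsmul_eq_mul, mul_comm]
    push_cast
    rfl
  have h1 : 48 * (21 * ∑ u : Fin 7 → V, GG F5 (gv H u)) + 5040 * ∑ u : Fin 7 → V, GH F3 (gv H u)
      ≤ 48 * cC * (Fintype.card V) ^ 7 := by
    rw [← sum_Psi, ← sum_SG, ← hU, mul_sum, ← sum_add_distrib]
    exact sum_le_sum fun u _ => C.hP _ (val_gv hκ h u)
  have h2 := GG_lower C hκ h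
  have h2' := GH_lower C hκ h
  have h3 : ∑ u : Fin 7 → V, ((B5 : ℤ) + S * (pc (codeN 10 RM (gv H u)) : ℤ)) = B5 * (Fintype.card V : ℤ) ^ 7 +
      S * (10 * ∑ u : Fin 7 → V, (gv H u {0, 1, 2} : ℤ)) := by
    rw [sum_add_distrib, hZ, ← mul_sum]
    have e1 : ∑ u : Fin 7 → V, (pc (codeN 10 RM (gv H u)) : ℤ) = 10 * ∑ u : Fin 7 → V, (gv H u {0, 1, 2} : ℤ) := by
      exact_mod_cast pc_sum H
    rw [e1]
  rw [hZ] at h2'
  have h4 : (48 : ℤ) * (21 * ∑ u : Fin 7 → V, (GG F5 (gv H u) : ℤ)) + 5040 * ∑ u : Fin 7 → V, (GH F3 (gv H u) : ℤ)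
      ≤ 48 * cC * (Fintype.card V : ℤ) ^ 7 := by
    exact_mod_cast h1
  rw [h3] at h2
  have h6 : (210 : ℤ) * S * ∑ u : Fin 7 → V, (gv H u {0, 1, 2} : ℤ) + (21 * B5 + 105 * B3) * (Fintype.card V : ℤ) ^ 7
      ≤ cC * (Fintype.card V : ℤ) ^ 7 := by
    linarith
  exact_mod_cast h6

omit [Fintype V] [DecidableEq V] in
theorem sum3 [Fintype V] {M : Type} [AddCommMonoid M] (f : (Fin 3 → V) → M) :
    ∑ u, f u = ∑ a, ∑ b, ∑ c, f ![a, b, c] := by
  let e : (Fin 3 → V) ≃ V × V × V :=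
    { toFun := fun u => (u 0, u 1, u 2)
      invFun := fun p => ![p.1, p.2.1, p.2.2]
      left_inv := by intro u; funext i; fin_cases i <;> rfl
      right_inv := by rintro ⟨a, b, c⟩; rfl }
  rw [Fintype.sum_equiv e f (fun p => f (e.symm p)) fun u => by rw [Equiv.symm_apply_apply]]
  simp only [Fintype.sum_prod_type]
  rfl

/-- hypergraphs without a complete set, counted -/
theorem edges (C : Cert κ F5 F3 K5 a5 K3 a3 cC B5 B3 S) (hκ : 3 ≤ κ) {n : ℕ} (hn : 0 < n) {G : Finset (Finset (Fin n))}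
    (hr : ∀ A ∈ G, A.card = 3) (hK : ¬ HasClique G 3 κ) :
    210 * S * (6 * G.card) + (21 * B5 + 105 * B3) * n ^ 3 ≤ cC * n ^ 3 := by
  have hF : Free κ (fun A : Finset (Fin n) => A ∈ G) := by
    refine ⟨hr, fun P hP => ?_⟩
    by_contra hcon
    push Not at hcon
    exact hK ⟨P, hP, fun Q hQ => hcon Q hQ⟩
  have h1 := core C hκ hF
  have h2 : ∑ u : Fin 7 → Fin n, gv (fun A : Finset (Fin n) => A ∈ G) u {0, 1, 2}
      = n ^ 4 * (univ.filter fun v : Fin 3 → Fin n => univ.image v ∈ G).card := by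
    rw [card_filter, sum3, sum7]
    simp only [mul_sum]
    refine sum_congr rfl fun a _ => sum_congr rfl fun b _ => sum_congr rfl fun c _ => ?_
    have h3 : ∀ d e x y : Fin n, gv (fun A : Finset (Fin n) => A ∈ G) ![a, b, c, d, e, x, y] {0, 1, 2} =
        if univ.image ![a, b, c] ∈ G then 1 else 0 := by
      intro d e x y
      have e1 : univ.image ![a, b, c] = {a, b, c} := by
        ext x
        simp only [mem_image, mem_univ, true_and, mem_insert, mem_singleton]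
        constructor
        · rintro ⟨i, rfl⟩
          fin_cases i <;> simp
        · rintro (rfl | rfl | rfl)
          · exact ⟨0, rfl⟩
          · exact ⟨1, rfl⟩
          · exact ⟨2, rfl⟩
      have e2 : (({0, 1, 2} : Finset (Fin 7)).image ![a, b, c, d, e, x, y] : Finset (Fin n)) = {a, b, c} := by
        rw [image_insert, image_insert, image_singleton]
        simp
      unfold gv
      rw [e1, e2]
      by_cases hm : ({a, b, c} : Finset (Fin n)) ∈ G
      · rw [if_pos hm]; exact (if_pos hm).symm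
      · rw [if_neg hm]; exact (if_neg hm).symm
    rw [sum_congr rfl fun d _ => sum_congr rfl fun e _ => sum_congr rfl fun x _ => sum_congr rfl fun y _ => h3 d e x y,
      sum_const, sum_const, sum_const, sum_const, card_univ, Fintype.card_fin, smul_eq_mul, smul_eq_mul, smul_eq_mul, smul_eq_mul]
    ring
  rw [h2, Fintype.card_fin] at h1
  have h3 := card_tuples (k := 3) G hr
  have hp : 0 < n ^ 4 := by positivity
  have h5 : n ^ 4 * (210 * S * (6 * G.card) + (21 * B5 + 105 * B3) * n ^ 3) ≤ n ^ 4 * (cC * n ^ 3) := by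
    have h6 : 210 * S * (n ^ 4 * (6 * G.card)) ≤ 210 * S * (n ^ 4 * (univ.filter fun v : Fin 3 → Fin n => univ.image v ∈ G).card) :=
      Nat.mul_le_mul_left _ (Nat.mul_le_mul_left _ h3)
    calc n ^ 4 * (210 * S * (6 * G.card) + (21 * B5 + 105 * B3) * n ^ 3)
        = 210 * S * (n ^ 4 * (6 * G.card)) + (21 * B5 + 105 * B3) * n ^ 7 := by ring
      _ ≤ 210 * S * (n ^ 4 * (univ.filter fun v : Fin 3 → Fin n => univ.image v ∈ G).card) + (21 * B5 + 105 * B3) * n ^ 7 :=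
          Nat.add_le_add_right h6 _
      _ ≤ cC * n ^ 7 := h1
      _ = _ := by ring
  exact Nat.le_of_mul_le_mul_left h5 hp

theorem main (C : Cert κ F5 F3 K5 a5 K3 a3 cC B5 B3 S) (hκ : 3 ≤ κ) {l : ℝ}
    (hl : (cC : ℝ) ≤ 210 * S * l + (21 * B5 + 105 * B3)) (hS : 0 < S) : turanDensity 3 κ ≤ l := by
  classical
  refine Pool.Agent.W843.Lnk.density_le fun n hn => ?_
  have hne : ((((univ : Finset (Fin n)).powersetCard 3).powerset).filter
      (fun G => ¬ HasClique G 3 κ)).Nonempty := by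
    refine ⟨∅, ?_⟩
    rw [mem_filter, mem_powerset]
    refine ⟨empty_subset _, ?_⟩
    rintro ⟨A, hA, hs⟩
    have : (A.powersetCard 3).Nonempty := powersetCard_nonempty.mpr (by omega)
    obtain ⟨x, hx⟩ := this
    exact absurd (hs hx) (by simp)
  obtain ⟨G, hG, he⟩ := Finset.exists_mem_eq_sup _ hne Finset.card
  have h2 : ex n 3 κ = G.card := by
    unfold ex
    rw [← he]
  rw [mem_filter, mem_powerset] at hG
  have h1 := edges C hκ hn (fun A hA => (mem_powersetCard.mp (hG.1 hA)).2) hG.2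
  rw [h2]
  have hf : ((Nat.factorial 3 : ℕ) : ℝ) = 6 := by norm_num [Nat.factorial]
  rw [hf]
  have h3 : (210 : ℝ) * S * (6 * G.card) + (21 * B5 + 105 * B3) * (n : ℝ) ^ 3 ≤ cC * (n : ℝ) ^ 3 := by exact_mod_cast h1
  have hp : (0 : ℝ) ≤ (n : ℝ) ^ 3 := by positivity
  have h4 : (cC : ℝ) * (n : ℝ) ^ 3 ≤ (210 * S * l + (21 * B5 + 105 * B3)) * (n : ℝ) ^ 3 := mul_le_mul_of_nonneg_right hl hp
  have hS' : (0 : ℝ) < 210 * S := by
    have : (0 : ℝ) < S := by exact_mod_cast hS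
    linarith
  have h5 : (210 : ℝ) * S * (6 * G.card) ≤ 210 * S * (l * (n : ℝ) ^ 3) := by linarith
  exact le_of_mul_le_mul_left h5 hS'

end

end Pool.Agent.H68.F7
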