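import Pool.Agent.H68.F7.Eng
import Pool.Agent.H68.F7.Dens
import Pool.Agent.H68.F7.Cov

/-! Checks of the tables and their meaning. -/

set_option autoImplicit false
set_option maxRecDepth 100000
set_option maxHeartbeats 4000000
set_option exponentiation.threshold 3000000
open Finset Equiv

namespace Pool.Agent.H68.F7

noncomputable section

open Pool.Agent.Y435.T7 (bt sb st cnd al d2 swp enc fld enc_congr enc_zero enc_succ enc_lt enc_add enc_mulc enc_nest enc_inj)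
open Pool.Agent.N443 (st_eq al_true cnd_and run3 run3_enc tot3 phi3 osum osum_eq codeN mkN bt_mkN act Cl Kp Inv7 Psi)

/-- columns of the whole table -/
def TK (BL : ℕ → ℕ → ℕ) (m k : ℕ) : ℕ := as6 640 (fun j => cx (BLs BL m j) k) 0
def TW (BL : ℕ → ℕ → ℕ) (GK : ℕ → ℕ) (m : ℕ) : ℕ := as6 640 (fun j => cw (BLs BL m j) (GK m)) 0

/-- check of the entries of a mask -/
def ckM (BL : ℕ → ℕ → ℕ) (GK cc : ℕ → ℕ) (of : ℕ → ℕ → ℕ) (BX : List (List ℕ × List ℕ)) (B5 S DM m : ℕ) : Bool :=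
  cnd (Nat.beq (Nat.land (TW BL GK m) (hmn 10 39)) 0)
  (cnd (Nat.beq (Nat.add (TW BL GK m) (osum (fun k => Nat.mul (TK BL m k) (of m k)) (Nat.mul 2 (GK m)))) (Nat.mul (vvN 10 m BX) (cc m)))
  (cnd (al (Nat.mul 2 (GK m)) (fun k => cnd (Nat.ble (Nat.mul 2 (of m k)) 262143)
    (Nat.beq (Nat.land (Nat.add (TK BL m k) (dn 10 (Nat.sub 262143 (Nat.mul 2 (of m k))))) (hmn 10 18)) 0) false))
  (cnd (Nat.ble (osum (fun k => Nat.mul 2 (Nat.mul (of m k) (of m k))) (Nat.mul 2 (GK m))) 549755813887)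
  (cnd (Nat.ble (Nat.mul 2 (cc m)) DM)
    (Nat.beq (Nat.mul 2 (cc m)) (Nat.add (osum (fun k => Nat.mul (of m k) (of m k)) (Nat.mul 2 (GK m))) (Nat.add B5 (Nat.mul S (pc m)))))
  false) false) false) false) false

/-- check of one mask and one exchange; `m'` is the image of the mask -/
def ckE (BL : ℕ → ℕ → ℕ) (of : ℕ → ℕ → ℕ) (qp : ℕ → ℕ → ℕ → ℕ) (BX : List (List ℕ × List ℕ)) (PT : ℕ → ℕ) (K m m' i : ℕ) : Bool :=
  al K (fun k => st (fun q => cnd (Nat.beq (of m' (Nat.div q 2)) (of m k)) (cnd (Nat.beq (Nat.mod q 2) 0)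
  (Nat.beq (PT (TK BL m' (Nat.div q 2))) (TK BL m k))
  (Nat.beq (Nat.add (TK BL m k) (PT (TK BL m' (Nat.div q 2)))) (Nat.mul (vvN 10 m BX) (Nat.mul 2 (of m k))))) false) (qp m i k))
def ckQ (qp iq : ℕ → ℕ → ℕ → ℕ) (K m i : ℕ) : Bool := al K (fun k => cnd (Nat.blt (Nat.div (qp m i k) 2) K)
  (cnd (Nat.beq (iq m i (Nat.div (qp m i k) 2)) k) (cnd (Nat.blt (iq m i k) K) (Nat.beq (Nat.div (qp m i (iq m i k)) 2) k)
  false) false) false)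
def ckI (BL : ℕ → ℕ → ℕ) (GK cc : ℕ → ℕ) (of : ℕ → ℕ → ℕ) (qp iq : ℕ → ℕ → ℕ → ℕ) (BX : List (List ℕ × List ℕ))
    (PT mi : ℕ → ℕ) (i m : ℕ) : Bool := cnd (ckQ qp iq (Nat.mul 2 (GK m)) m i) (cnd (Nat.beq (GK (mi m)) (GK m))
  (cnd (Nat.beq (cc (mi m)) (cc m)) (st (fun m' => ckE BL of qp BX PT (Nat.mul 2 (GK m)) m m' i) (mi m)) false) false) false
/-- the mask contains a complete set -/
def ckC (CL : List (List ℕ)) (m : ℕ) : Bool := @List.rec (List ℕ) (fun _ => Bool) false (fun l _ ih => cnd (Nat.beq (pb m l) 1) true ih) CL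
def ckA (BL : ℕ → ℕ → ℕ) (GK cc : ℕ → ℕ) (iv : ℕ → Bool) (of : ℕ → ℕ → ℕ) (qp iq : ℕ → ℕ → ℕ → ℕ) (BX : List (List ℕ × List ℕ))
    (CL : List (List ℕ)) (B5 S DM m : ℕ) : Bool := cnd (iv m) (ckC CL m) (cnd (ckM BL GK cc of BX B5 S DM m)
  (cnd (ckI BL GK cc of qp iq BX PT0 mi0 0 m) (cnd (ckI BL GK cc of qp iq BX PT1 mi1 1 m) (cnd (ckI BL GK cc of qp iq BX PT2 mi2 2 m)
  (ckI BL GK cc of qp iq BX PT3 mi3 3 m) false) false) false) false)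
def ckB (BL : ℕ → ℕ → ℕ) (GK cc : ℕ → ℕ) (iv : ℕ → Bool) (of : ℕ → ℕ → ℕ) (qp iq : ℕ → ℕ → ℕ → ℕ) (BX : List (List ℕ × List ℕ))
    (CL : List (List ℕ)) (B5 S DM n b : ℕ) : Bool := al n (fun j => st (ckA BL GK cc iv of qp iq BX CL B5 S DM) (Nat.add j b))

/-- columns for three roots -/
def TV (TG : ℕ → ℕ → ℕ) (b k : ℕ) : ℕ := Nat.land (Nat.shiftRight (TGs TG b (Nat.div k 2)) (Nat.mul 20 (Nat.mod k 2))) (dn 9 1048575)
def ck3M (TG : ℕ → ℕ → ℕ) (G3 cc3 : ℕ → ℕ) (of3 : ℕ → ℕ → ℕ) (BX3 : List (List ℕ × List ℕ)) (B3 DM3 b : ℕ) : Bool :=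
  cnd (Nat.beq (Nat.land (TG b (G3 b)) (hmn 9 39)) 0)
  (cnd (Nat.beq (Nat.add (TG b (G3 b)) (osum (fun k => Nat.mul (TV TG b k) (of3 b k)) (Nat.mul 2 (G3 b)))) (Nat.mul (vvN 9 b BX3) (cc3 b)))
  (cnd (al (Nat.mul 2 (G3 b)) (fun k => cnd (Nat.ble (Nat.mul 2 (of3 b k)) 262143)
    (Nat.beq (Nat.land (Nat.add (TV TG b k) (dn 9 (Nat.sub 262143 (Nat.mul 2 (of3 b k))))) (hmn 9 18)) 0) false))
  (cnd (Nat.ble (osum (fun k => Nat.mul 2 (Nat.mul (of3 b k) (of3 b k))) (Nat.mul 2 (G3 b))) 549755813887)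
  (cnd (Nat.ble (Nat.mul 2 (cc3 b)) DM3)
    (Nat.beq (Nat.mul 2 (cc3 b)) (Nat.add (osum (fun k => Nat.mul (of3 b k) (of3 b k)) (Nat.mul 2 (G3 b))) B3))
  false) false) false) false) false
def ck3E (TG : ℕ → ℕ → ℕ) (of3 : ℕ → ℕ → ℕ) (qp3 : ℕ → ℕ → ℕ → ℕ) (BX3 : List (List ℕ × List ℕ)) (PT : ℕ → ℕ) (K b i : ℕ) : Bool :=
  al K (fun k => st (fun q => cnd (Nat.beq (of3 b (Nat.div q 2)) (of3 b k)) (cnd (Nat.beq (Nat.mod q 2) 0)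
  (Nat.beq (PT (TV TG b (Nat.div q 2))) (TV TG b k))
  (Nat.beq (Nat.add (TV TG b k) (PT (TV TG b (Nat.div q 2)))) (Nat.mul (vvN 9 b BX3) (Nat.mul 2 (of3 b k))))) false) (qp3 b i k))
def ck3I (TG : ℕ → ℕ → ℕ) (G3 : ℕ → ℕ) (of3 : ℕ → ℕ → ℕ) (qp3 iq3 : ℕ → ℕ → ℕ → ℕ) (BX3 : List (List ℕ × List ℕ)) (PT : ℕ → ℕ) (i b : ℕ) : Bool :=
  cnd (ckQ qp3 iq3 (Nat.mul 2 (G3 b)) b i) (ck3E TG of3 qp3 BX3 PT (Nat.mul 2 (G3 b)) b i) false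
def ck3P (TG : ℕ → ℕ → ℕ) (G3 : ℕ → ℕ) (b : ℕ) : Bool := al (Nat.add (G3 b) 1) (fun g => Nat.beq (PG3 (TG b g)) (TG b g))
def ck3 (TG : ℕ → ℕ → ℕ) (G3 cc3 : ℕ → ℕ) (of3 : ℕ → ℕ → ℕ) (qp3 iq3 : ℕ → ℕ → ℕ → ℕ) (BX3 : List (List ℕ × List ℕ)) (B3 DM3 b : ℕ) : Bool :=
  cnd (ck3M TG G3 cc3 of3 BX3 B3 DM3 b) (cnd (ck3I TG G3 of3 qp3 iq3 BX3 PG0 0 b) (cnd (ck3I TG G3 of3 qp3 iq3 BX3 PG1 1 b)
  (ck3P TG G3 b) false) false) false

variable {BL : ℕ → ℕ → ℕ} {GK cc : ℕ → ℕ} {iv : ℕ → Bool} {of : ℕ → ℕ → ℕ} {qp iq : ℕ → ℕ → ℕ → ℕ} {BX : List (List ℕ × List ℕ)}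
  {CL : List (List ℕ)} {B5 S DM : ℕ}

theorem TK_eq (m k : ℕ) : TK BL m k = enc 40 10 (fun f => uu BL m f k) := by
  unfold TK
  rw [as6_eq0]
  have e : enc 640 6 (fun j => cx (BLs BL m j) k) = enc (40 * 2 ^ 4) 6 (fun j => enc 40 4 (fun x => uu BL m (x + 16 * j) k)) :=
    enc_congr fun j _ => by
      rw [BLs_eq, cx_eq]
      exact enc_congr fun x hx => (uu_mk m k hx).symm
  rw [e, enc_nest 40 4 (fun j x => uu BL m (x + 16 * j) k) 6]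
  refine enc_congr fun i _ => ?_
  show uu BL m (i % 2 ^ 4 + 16 * (i / 2 ^ 4)) k = uu BL m i k
  rw [show i % 2 ^ 4 + 16 * (i / 2 ^ 4) = i by norm_num; omega]
theorem TW_eq (m : ℕ) : TW BL GK m = enc 40 10 (fun f => ww BL GK m f) := by
  unfold TW
  rw [as6_eq0]
  have e : enc 640 6 (fun j => cw (BLs BL m j) (GK m)) = enc (40 * 2 ^ 4) 6 (fun j => enc 40 4 (fun x => ww BL GK m (x + 16 * j))) :=
    enc_congr fun j _ => by
      rw [BLs_eq, cw_eq]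
      exact enc_congr fun x hx => (ww_mk m hx).symm
  rw [e, enc_nest 40 4 (fun j x => ww BL GK m (x + 16 * j)) 6]
  refine enc_congr fun i _ => ?_
  show ww BL GK m (i % 2 ^ 4 + 16 * (i / 2 ^ 4)) = ww BL GK m i
  rw [show i % 2 ^ 4 + 16 * (i / 2 ^ 4) = i by norm_num; omega]

theorem uu_lt (m f k : ℕ) : uu BL m f k < 2 ^ 20 := uB_lt _ _ _
theorem ww_lt (m f : ℕ) : ww BL GK m f < 2 ^ 40 := wB_lt _ _ _
theorem uu_lt' (m f k : ℕ) : uu BL m f k < 2 ^ 40 := lt_trans (uu_lt m f k) (by norm_num)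

/-- the meaning of a check of a table of columns `U` with constant column `W` -/
structure Spc (K c DM D : ℕ) (o : ℕ → ℕ) (N : ℕ) (U : ℕ → ℕ → ℕ) (W v : ℕ → ℕ) : Prop where
  w39 : ∀ f < N, W f < 2 ^ 39
  rel : ∀ f < N, W f + ∑ k ∈ range K, o k * U f k = c * v f
  u2 : ∀ f < N, ∀ k < K, U f k ≤ 2 * o k
  u18 : ∀ f < N, ∀ k < K, U f k < 2 ^ 18
  o18 : ∀ k < K, 2 * o k ≤ 262143
  cD : 2 * c ≤ DM
  cc : 2 * c = ∑ k ∈ range K, o k * o k + D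

theorem spc_of {K c DM D n : ℕ} {o : ℕ → ℕ} {U : ℕ → ℕ → ℕ} {W v : ℕ → ℕ} (hUl : ∀ f k, U f k < 2 ^ 20) (hWl : ∀ f, W f < 2 ^ 40)
    (hv : ∀ f, v f ≤ 1) (hDM : DM < 2 ^ 40)
    (a1 : Nat.land (enc 40 n W) (hmn n 39) = 0)
    (a2 : enc 40 n W + ∑ k ∈ range K, enc 40 n (fun f => U f k) * o k = enc 40 n v * c)
    (a3 : ∀ k < K, 2 * o k ≤ 262143 ∧ Nat.land (enc 40 n (fun f => U f k) + dn n (262143 - 2 * o k)) (hmn n 18) = 0)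
    (a4 : ∑ k ∈ range K, 2 * (o k * o k) ≤ 549755813887) (a5 : 2 * c ≤ DM) (a6 : 2 * c = ∑ k ∈ range K, o k * o k + D) :
    Spc K c DM D o (2 ^ n) U W v := by
  have b1 : ∀ f < 2 ^ n, W f < 2 ^ 39 := fun f hf => dec_hm (fun f _ => hWl f) (by norm_num) a1 hf
  have b3 : ∀ f < 2 ^ n, ∀ k < K, U f k + (262143 - 2 * o k) < 2 ^ 18 := by
    intro f hf k hk
    obtain ⟨h1, h2⟩ := a3 k hk
    rw [dn_eq, enc_add] at h2
    refine dec_hm (φ := fun f => U f k + (262143 - 2 * o k)) (fun f _ => ?_) (by norm_num) h2 hf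
    have := hUl f k
    show U f k + (262143 - 2 * o k) < 2 ^ 40
    norm_num at this ⊢
    omega
  have c2 : ∀ f < 2 ^ n, ∀ k < K, U f k ≤ 2 * o k := fun f hf k hk => by
    have h1 := b3 f hf k hk
    have h2 := (a3 k hk).1
    norm_num at h1
    omega
  refine ⟨b1, ?_, c2, fun f hf k hk => ?_, fun k hk => (a3 k hk).1, a5, a6⟩
  · intro f hf
    have e1 : ∀ K, ∑ k ∈ range K, enc 40 n (fun f => U f k) * o k = enc 40 n (fun f => ∑ k ∈ range K, o k * U f k) := by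
      intro K
      induction K with
      | zero => simp [enc]
      | succ K ih =>
        rw [sum_range_succ, ih, enc_mulc, enc_add]
        exact enc_congr fun f _ => by rw [sum_range_succ, mul_comm (U f K)]
    rw [e1, enc_add, enc_mulc] at a2
    have h4 := dec (φ := fun f => W f + ∑ k ∈ range K, o k * U f k) (ψ := fun f => v f * c) ?_ ?_ a2 hf
    · rw [mul_comm c]
      exact h4
    · intro f hf
      have hs : ∑ k ∈ range K, o k * U f k ≤ ∑ k ∈ range K, 2 * (o k * o k) := sum_le_sum fun k hk => by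
        have := Nat.mul_le_mul_left (o k) (c2 f hf k (mem_range.mp hk))
        calc o k * U f k ≤ o k * (2 * o k) := this
          _ = 2 * (o k * o k) := by ring
      have h0 := b1 f hf
      show W f + ∑ k ∈ range K, o k * U f k < 2 ^ 40
      norm_num at h0 ⊢
      omega
    · intro f _
      have h7 : v f * c ≤ 1 * c := Nat.mul_le_mul_right _ (hv f)
      show v f * c < 2 ^ 40
      omega
  · have h1 := b3 f hf k hk
    omega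

theorem ckM_spec {m : ℕ} (hDM : DM < 2 ^ 40) (h : ckM BL GK cc of BX B5 S DM m = true) :
    Spc (2 * GK m) (cc m) DM (B5 + S * pc m) (of m) (2 ^ 10) (uu BL m) (ww BL GK m) (fun f => vv m f BX) := by
  obtain ⟨a1, h⟩ := cnd_and h
  obtain ⟨a2, h⟩ := cnd_and h
  obtain ⟨a3, h⟩ := cnd_and h
  obtain ⟨a4, h⟩ := cnd_and h
  obtain ⟨a5, a6⟩ := cnd_and h
  have b1 := Nat.eq_of_beq_eq_true a1
  rw [TW_eq] at b1
  have b2 := Nat.eq_of_beq_eq_true a2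
  rw [TW_eq, osum_eq, vvN_eq] at b2
  have b4 := Nat.le_of_ble_eq_true a4
  rw [osum_eq] at b4
  have b6 := Nat.eq_of_beq_eq_true a6
  rw [osum_eq] at b6
  refine spc_of (uu_lt m) (ww_lt m) (fun f => vv_le m f BX) hDM b1 ?_ ?_ b4 (Nat.le_of_ble_eq_true a5) b6
  · have b2' : enc 40 10 (fun f => ww BL GK m f) + ∑ k ∈ range (2 * GK m), TK BL m k * of m k = enc 40 10 (fun f => vv m f BX) * cc m := b2
    rw [sum_congr rfl (fun k _ => by rw [TK_eq m k] : ∀ k ∈ range (2 * GK m), TK BL m k * of m k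
      = enc 40 10 (fun f => uu BL m f k) * of m k)] at b2'
    exact b2'
  · intro k hk
    have h3 := al_true a3 hk
    obtain ⟨h4, h5⟩ := cnd_and h3
    refine ⟨Nat.le_of_ble_eq_true h4, ?_⟩
    have h6 := Nat.eq_of_beq_eq_true h5
    rw [TK_eq] at h6
    exact h6

/-- the relation of the columns under an exchange -/
def RK (N : ℕ) (U U' : ℕ → ℕ → ℕ) (v : ℕ → ℕ) (pf : ℕ → ℕ) (o k k' : ℕ) : Prop :=
  (∀ f < N, U' (pf f) k' = U f k) ∨ (∀ f < N, U f k + U' (pf f) k' = v f * (2 * o))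

theorem ckQ_spec {qp iq : ℕ → ℕ → ℕ → ℕ} {K m i : ℕ} (hQ : ckQ qp iq K m i = true) :
    ∀ k < K, qp m i k / 2 < K ∧ iq m i (qp m i k / 2) = k ∧ iq m i k < K ∧ qp m i (iq m i k) / 2 = k := by
  intro k hk
  have h4 := al_true hQ hk
  obtain ⟨a1, h4⟩ := cnd_and h4
  obtain ⟨a2, h4⟩ := cnd_and h4
  obtain ⟨a3, a4⟩ := cnd_and h4
  exact ⟨Nat.le_of_ble_eq_true a1, Nat.eq_of_beq_eq_true a2, Nat.le_of_ble_eq_true a3, Nat.eq_of_beq_eq_true a4⟩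

/-- one relation -/
theorem rk_of {n : ℕ} {U U' : ℕ → ℕ → ℕ} {v : ℕ → ℕ} {PT pf : ℕ → ℕ} {o o' k k' q : ℕ} (hP : PTs n PT pf) (hUl : ∀ f k, U f k < 2 ^ 20)
    (hUl' : ∀ f k, U' f k < 2 ^ 20) (hv : ∀ f, v f ≤ 1) (ho : 2 * o ≤ 262143)
    (h : cnd (Nat.beq o' o) (cnd (Nat.beq (Nat.mod q 2) 0) (Nat.beq (PT (enc 40 n fun f => U' f k')) (enc 40 n fun f => U f k))
      (Nat.beq (Nat.add (enc 40 n fun f => U f k) (PT (enc 40 n fun f => U' f k'))) (Nat.mul (enc 40 n v) (Nat.mul 2 o)))) false = true) :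
    o' = o ∧ RK (2 ^ n) U U' v pf o k k' := by
  obtain ⟨h0, h5⟩ := cnd_and h
  refine ⟨Nat.eq_of_beq_eq_true h0, ?_⟩
  have hlt : ∀ f k, U f k < 2 ^ 40 := fun f k => lt_trans (hUl f k) (by norm_num)
  have hlt' : ∀ f k, U' f k < 2 ^ 40 := fun f k => lt_trans (hUl' f k) (by norm_num)
  have eY : PT (enc 40 n fun f => U' f k') = enc 40 n (fun f => U' (pf f) k') := hP.1 (fun f => U' f k') fun i => hlt' _ _
  rw [eY] at h5
  by_cases hp : Nat.beq (Nat.mod q 2) 0 = true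
  · rw [hp, cnd_t] at h5
    left
    intro f hf
    exact dec (φ := fun f => U' (pf f) k') (ψ := fun f => U f k) (fun f _ => hlt' _ _) (fun f _ => hlt _ _)
      (Nat.eq_of_beq_eq_true h5) hf
  · rw [Bool.not_eq_true] at hp
    rw [hp, cnd_f] at h5
    right
    have h7 : enc 40 n (fun f => U f k + U' (pf f) k') = enc 40 n (fun f => v f * (2 * o)) := by
      rw [← enc_add, ← enc_mulc]; exact Nat.eq_of_beq_eq_true h5
    intro f hf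
    refine dec (φ := fun f => U f k + U' (pf f) k') (ψ := fun f => v f * (2 * o)) ?_ ?_ h7 hf
    · intro f _
      have a1 := hUl f k
      have a2 := hUl' (pf f) k'
      show U f k + U' (pf f) k' < 2 ^ 40
      norm_num at a1 a2 ⊢
      omega
    · intro f _
      have h8 : v f * (2 * o) ≤ 1 * (2 * o) := Nat.mul_le_mul_right _ (hv f)
      show v f * (2 * o) < 2 ^ 40
      norm_num
      omega

theorem ckI_spec {PT pf mi : ℕ → ℕ} {i m : ℕ} (h : ckI BL GK cc of qp iq BX PT mi i m = true) (hP : PTs 10 PT pf)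
    (ho : ∀ k < 2 * GK m, 2 * of m k ≤ 262143) :
    GK (mi m) = GK m ∧ cc (mi m) = cc m ∧
    (∀ k < 2 * GK m, qp m i k / 2 < 2 * GK m ∧ iq m i (qp m i k / 2) = k ∧ iq m i k < 2 * GK m ∧ qp m i (iq m i k) / 2 = k) ∧
    ∀ k < 2 * GK m, of (mi m) (qp m i k / 2) = of m k ∧
      RK (2 ^ 10) (uu BL m) (uu BL (mi m)) (fun f => vv m f BX) pf (of m k) k (qp m i k / 2) := by
  obtain ⟨hQ, h⟩ := cnd_and h
  obtain ⟨h1, h⟩ := cnd_and h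
  obtain ⟨h2, h3⟩ := cnd_and h
  refine ⟨Nat.eq_of_beq_eq_true h1, Nat.eq_of_beq_eq_true h2, ckQ_spec hQ, ?_⟩
  intro k hk
  rw [st_eq] at h3
  have h5 := al_true h3 hk
  simp only [st_eq] at h5
  rw [TK_eq, TK_eq, vvN_eq] at h5
  exact rk_of (q := qp m i k) hP (uu_lt m) (uu_lt (mi m)) (fun f => vv_le m f BX) (ho k hk) h5

/-- signed permutations of the columns preserve the value -/
theorem inv_of {N K c c' DM D D' DM' : ℕ} {o o' : ℕ → ℕ} {U U' : ℕ → ℕ → ℕ} {W W' v v' q q' : ℕ → ℕ} {pf : ℕ → ℕ} (S1 : Spc K c DM D o N U W v)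
    (S2 : Spc K c' DM' D' o' N U' W' v') (hc : c' = c) (hpf : ∀ f < N, pf f < N)
    (hQ : ∀ k < K, q k < K ∧ q' (q k) = k ∧ q' k < K ∧ q (q' k) = k)
    (hR : ∀ k < K, o' (q k) = o k ∧ RK N U U' v pf (o k) k (q k)) {f1 f2 : ℕ} (h1 : f1 < N) (h2 : f2 < N)
    (v1 : v f1 = 1) (v2 : v f2 = 1) (w1 : v' (pf f1) = 1) (w2 : v' (pf f2) = 1) :
    (∑ k ∈ range K, U' (pf f1) k * U' (pf f2) k) + (W' (pf f1) + W' (pf f2)) = (∑ k ∈ range K, U f1 k * U f2 k) + (W f1 + W f2) := by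
  have r1 := S1.rel f1 h1
  have r2 := S1.rel f2 h2
  have r3 := S2.rel _ (hpf f1 h1)
  have r4 := S2.rel _ (hpf f2 h2)
  rw [v1, mul_one] at r1
  rw [v2, mul_one] at r2
  rw [w1, mul_one] at r3
  rw [w2, mul_one] at r4
  have g1 := val_int r1 r2
  have g2 := val_int r3 r4
  have hs := val_inv (u1 := U f1) (u2 := U f2) (u1' := U' (pf f1)) (u2' := U' (pf f2)) hQ (fun k hk => by
    obtain ⟨e, r⟩ := hR k hk
    refine ⟨e, ?_⟩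
    rcases r with r | r
    · exact Or.inl ⟨r f1 h1, r f2 h2⟩
    · right
      have a1 := r f1 h1
      have a2 := r f2 h2
      rw [v1, one_mul] at a1
      rw [v2, one_mul] at a2
      exact ⟨a1, a2⟩)
  rw [hc, ← hs.1, ← hs.2, ← g1] at g2
  exact Nat.cast_injective (R := ℤ) g2

/-- the hypotheses on the tables of five roots -/
structure T5 (κ : ℕ) (BL : ℕ → ℕ → ℕ) (GK cc : ℕ → ℕ) (iv : ℕ → Bool) (of : ℕ → ℕ → ℕ) (qp iq : ℕ → ℕ → ℕ → ℕ)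
    (BX : List (List ℕ × List ℕ)) (CL : List (List ℕ)) (B5 S DM : ℕ) : Prop where
  hD : DM < 2 ^ 40
  hA : ∀ m < 1024, ckA BL GK cc iv of qp iq BX CL B5 S DM m = true
  hC : ∀ l ∈ CL, ∃ P : Finset (Fin 7), P.card = κ ∧ ∀ Q ∈ powersetCard 3 P, ∃ i ∈ l, i < 10 ∧ RM.getD i ∅ = Q
  hXA : ∀ x ∈ BX, ∃ P : Finset (Fin 7), P.card = κ ∧ ∀ Q ∈ powersetCard 3 P,
    (∃ i ∈ x.1, i < 10 ∧ RM.getD i ∅ = Q) ∨ ∃ i ∈ x.2, i < 10 ∧ RA.getD i ∅ = Q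
  hXB : ∀ x ∈ BX, ∃ P : Finset (Fin 7), P.card = κ ∧ ∀ Q ∈ powersetCard 3 P,
    (∃ i ∈ x.1, i < 10 ∧ RM.getD i ∅ = Q) ∨ ∃ i ∈ x.2, i < 10 ∧ RB.getD i ∅ = Q

variable {κ : ℕ}

theorem cnd_split {a b c : Bool} (h : cnd a b c = true) : (a = true ∧ b = true) ∨ (a = false ∧ c = true) := by
  cases a
  · exact Or.inr ⟨rfl, h⟩
  · exact Or.inl ⟨rfl, h⟩

theorem ckC_spec {CL : List (List ℕ)} {m : ℕ} (h : ckC CL m = true) : ∃ l ∈ CL, ∀ i ∈ l, bt i m = 1 := by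
  induction CL with
  | nil => exact absurd (show false = true from h) Bool.false_ne_true
  | cons a L ih =>
    rcases cnd_split (show cnd (Nat.beq (pb m a) 1) true (ckC L m) = true from h) with ⟨h1, -⟩ | ⟨-, h2⟩
    · refine ⟨a, List.mem_cons_self, pb_one ?_⟩
      rw [Nat.eq_of_beq_eq_true h1]; exact one_ne_zero
    · obtain ⟨x, hx, hp⟩ := ih h2
      exact ⟨x, List.mem_cons_of_mem _ hx, hp⟩

theorem T5.ivf (T : T5 κ BL GK cc iv of qp iq BX CL B5 S DM) {g : Finset (Fin 7) → ℕ} (hg : Val κ g) : iv (codeN 10 RM g) = false := by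
  by_contra hne
  rw [Bool.not_eq_false] at hne
  have h := T.hA (codeN 10 RM g) (code_lt (n := 10) (L := RM) hg.1)
  unfold ckA at h
  rw [hne, cnd_t] at h
  obtain ⟨l, hl, h1⟩ := ckC_spec h
  obtain ⟨P, hP, hQ⟩ := T.hC l hl
  obtain ⟨Q, hQ1, h0⟩ := hg.2 P hP
  obtain ⟨i, hi, hi10, rfl⟩ := hQ Q hQ1
  have h3 : bt i (codeN 10 RM g) = g (RM.getD i ∅) := bt_mkN hi10 fun j => hg.1 _
  rw [h1 i hi, h0] at h3
  exact absurd h3 (by norm_num)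

theorem T5.M (T : T5 κ BL GK cc iv of qp iq BX CL B5 S DM) {m : ℕ} (hm : m < 1024) (h : iv m = false) :
    Spc (2 * GK m) (cc m) DM (B5 + S * pc m) (of m) (2 ^ 10) (uu BL m) (ww BL GK m) (fun f => vv m f BX) ∧
    ckI BL GK cc of qp iq BX PT0 mi0 0 m = true ∧ ckI BL GK cc of qp iq BX PT1 mi1 1 m = true ∧
    ckI BL GK cc of qp iq BX PT2 mi2 2 m = true ∧ ckI BL GK cc of qp iq BX PT3 mi3 3 m = true := by
  have h1 := T.hA m hm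
  unfold ckA at h1
  rw [h, cnd_f] at h1
  obtain ⟨a1, h1⟩ := cnd_and h1
  obtain ⟨a2, h1⟩ := cnd_and h1
  obtain ⟨a3, h1⟩ := cnd_and h1
  obtain ⟨a4, a5⟩ := cnd_and h1
  exact ⟨ckM_spec T.hD a1, a2, a3, a4, a5⟩

theorem T5.sm (T : T5 κ BL GK cc iv of qp iq BX CL B5 S DM) : Sm5 BL GK iv := by
  intro m hm hi f hf
  have h := (T.M hm hi).1
  exact ⟨h.w39 f hf, fun k hk => h.u18 f hf k hk⟩

theorem T5.le (T : T5 κ BL GK cc iv of qp iq BX CL B5 S DM) {m : ℕ} (hm : m < 1024) {f1 f2 : ℕ} (h1 : f1 < 1024) (h2 : f2 < 1024) :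
    F5 BL GK iv m f1 f2 ≤ DM := by
  cases hi : iv m
  · rw [F5_false hi]
    have h := (T.M hm hi).1
    have key : ∀ f < 1024, ww BL GK m f + ∑ k ∈ range (2 * GK m), of m k * uu BL m f k ≤ cc m := fun f hf => by
      rw [h.rel f hf]
      calc _ ≤ cc m * 1 := Nat.mul_le_mul_left _ (vv_le m f BX)
        _ ≤ _ := by rw [mul_one]
    exact (val_le (h.u2 f1 h1) (h.u2 f2 h2) (key f1 h1) (key f2 h2)).trans h.cD
  · rw [F5_true hi]; exact Nat.zero_le _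

theorem T5.vA (T : T5 κ BL GK cc iv of qp iq BX CL B5 S DM) {g : Finset (Fin 7) → ℕ} (hg : Val κ g) :
    vv (codeN 10 RM g) (codeN 10 RA g) BX = 1 := by
  refine vv_one fun x hx => ?_
  obtain ⟨P, hP, hQ⟩ := T.hXA x hx
  obtain ⟨Q, hQ1, h0⟩ := hg.2 P hP
  rcases hQ Q hQ1 with ⟨i, hi, hi10, rfl⟩ | ⟨i, hi, hi10, rfl⟩
  · exact Or.inl ⟨i, hi, (bt_mkN hi10 fun j => hg.1 _).trans h0⟩
  · exact Or.inr ⟨i, hi, (bt_mkN hi10 fun j => hg.1 _).trans h0⟩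
theorem T5.vB (T : T5 κ BL GK cc iv of qp iq BX CL B5 S DM) {g : Finset (Fin 7) → ℕ} (hg : Val κ g) :
    vv (codeN 10 RM g) (codeN 10 RB g) BX = 1 := by
  refine vv_one fun x hx => ?_
  obtain ⟨P, hP, hQ⟩ := T.hXB x hx
  obtain ⟨Q, hQ1, h0⟩ := hg.2 P hP
  rcases hQ Q hQ1 with ⟨i, hi, hi10, rfl⟩ | ⟨i, hi, hi10, rfl⟩
  · exact Or.inl ⟨i, hi, (bt_mkN hi10 fun j => hg.1 _).trans h0⟩
  · exact Or.inr ⟨i, hi, (bt_mkN hi10 fun j => hg.1 _).trans h0⟩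

/-- invariance under an exchange of roots -/
theorem T5.step (T : T5 κ BL GK cc iv of qp iq BX CL B5 S DM) {PT pf mi : ℕ → ℕ} {i : ℕ} (hP : PTs 10 PT pf) {τ : Perm (Fin 7)}
    (hc : ∀ m < 1024, iv m = false → ckI BL GK cc of qp iq BX PT mi i m = true)
    (r1 : ∀ g : Finset (Fin 7) → ℕ, (∀ Q, g Q ≤ 1) → codeN 10 RM (act τ g) = mi (codeN 10 RM g))
    (r2 : ∀ g : Finset (Fin 7) → ℕ, (∀ Q, g Q ≤ 1) → codeN 10 RA (act τ g) = pf (codeN 10 RA g))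
    (r3 : ∀ g : Finset (Fin 7) → ℕ, (∀ Q, g Q ≤ 1) → codeN 10 RB (act τ g) = pf (codeN 10 RB g)) :
    Kp (Val κ) (GG (F5 BL GK iv)) τ := by
  intro g hg
  have hg' := Val_cl κ g hg τ
  have i1 := T.ivf hg
  have i2 := T.ivf hg'
  have a1 := T.vA hg'
  have b1 := T.vB hg'
  have hm := code_lt (n := 10) (L := RM) hg.1
  have hm' := code_lt (n := 10) (L := RM) hg'.1
  rw [r1 g hg.1] at i2 hm'
  rw [r1 g hg.1, r2 g hg.1] at a1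
  rw [r1 g hg.1, r3 g hg.1] at b1
  unfold GG
  rw [r1 g hg.1, r2 g hg.1, r3 g hg.1, F5_false i1, F5_false i2]
  have s1 := (T.M hm i1).1
  have s2 := (T.M hm' i2).1
  obtain ⟨e1, e2, hQ, hR⟩ := ckI_spec (hc _ hm i1) hP s1.o18
  rw [e1] at s2 ⊢
  exact inv_of s1 s2 e2 hP.2 hQ hR (code_lt hg.1) (code_lt hg.1) (T.vA hg) (T.vB hg) a1 b1

theorem T5.inv7 (T : T5 κ BL GK cc iv of qp iq BX CL B5 S DM) : Inv7 (Val κ) (GG (F5 BL GK iv)) := by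
  refine ⟨Val_cl κ, ?_, ?_, ?_, ?_, ?_⟩
  · exact T.step PTs0 (fun m hm h => (T.M hm h).2.1) (fun g => RM_s0) (fun g => RA_s0) (fun g => RB_s0)
  · exact T.step PTs1 (fun m hm h => (T.M hm h).2.2.1) (fun g => RM_s1) (fun g => RA_s1) (fun g => RB_s1)
  · exact T.step PTs2 (fun m hm h => (T.M hm h).2.2.2.1) (fun g => RM_s2) (fun g => RA_s2) (fun g => RB_s2)
  · exact T.step PTs3 (fun m hm h => (T.M hm h).2.2.2.2) (fun g => RM_s3) (fun g => RA_s3) (fun g => RB_s3)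
  · intro g _
    unfold GG
    rw [RM_s5, RA_s5, RB_s5, F5_comm]

theorem T5.val (T : T5 κ BL GK cc iv of qp iq BX CL B5 S DM) {g : Finset (Fin 7) → ℕ} (hg : Val κ g) :
    (GG (F5 BL GK iv) g : ℤ) = B5 + S * (pc (codeN 10 RM g) : ℤ) + ∑ k ∈ range (2 * GK (codeN 10 RM g)),
    ((uu BL (codeN 10 RM g) (codeN 10 RA g) k : ℤ) - of (codeN 10 RM g) k) * ((uu BL (codeN 10 RM g) (codeN 10 RB g) k : ℤ) - of (codeN 10 RM g) k) := by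
  have hm := code_lt (n := 10) (L := RM) hg.1
  have s := (T.M hm (T.ivf hg)).1
  have r1 := s.rel _ (code_lt (L := RA) hg.1)
  have r2 := s.rel _ (code_lt (L := RB) hg.1)
  rw [T.vA hg, mul_one] at r1
  rw [T.vB hg, mul_one] at r2
  have h := val_int r1 r2
  unfold GG
  rw [F5_false (T.ivf hg), h]
  have hc : ((2 * cc (codeN 10 RM g) : ℕ) : ℤ) = ((∑ k ∈ range (2 * GK (codeN 10 RM g)), of (codeN 10 RM g) k * of (codeN 10 RM g) k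
      + (B5 + S * pc (codeN 10 RM g)) : ℕ) : ℤ) := by rw [s.cc]
  push_cast at hc
  rw [hc]
  have e : ∑ k ∈ range (2 * GK (codeN 10 RM g)), (of (codeN 10 RM g) k : ℤ) ^ 2
      = ∑ k ∈ range (2 * GK (codeN 10 RM g)), (of (codeN 10 RM g) k : ℤ) * (of (codeN 10 RM g) k : ℤ) :=
    sum_congr rfl fun k _ => sq _
  rw [e]
  ring

/-! three roots -/

variable {TG : ℕ → ℕ → ℕ} {G3 cc3 : ℕ → ℕ} {of3 : ℕ → ℕ → ℕ} {qp3 iq3 : ℕ → ℕ → ℕ → ℕ} {BX3 : List (List ℕ × List ℕ)} {B3 DM3 : ℕ}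

theorem vu_lt (b f k : ℕ) : vu TG b f k < 2 ^ 20 := uT_lt _ _ _
theorem vw_lt (b f : ℕ) : vw TG G3 b f < 2 ^ 40 := wT_lt _ _

theorem TV_eq (b k : ℕ) : TV TG b k = enc 40 9 (fun f => vu TG b f k) := by
  unfold TV
  rw [dn_eq, TGs_eq]
  have h := km_eq (s := 40) (w := 20) (by norm_num) (by norm_num) (TG b (Nat.div k 2)) (Nat.mul 20 (Nat.mod k 2)) 9
  exact h

/-- the hypotheses on the tables of three roots -/
structure T3 (κ : ℕ) (TG : ℕ → ℕ → ℕ) (G3 cc3 : ℕ → ℕ) (of3 : ℕ → ℕ → ℕ) (qp3 iq3 : ℕ → ℕ → ℕ → ℕ)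
    (BX3 : List (List ℕ × List ℕ)) (B3 DM3 : ℕ) : Prop where
  hD : DM3 < 2 ^ 40
  hT : ∀ b g, TG b g < 2 ^ 20480
  hA : ∀ b < 2, ck3 TG G3 cc3 of3 qp3 iq3 BX3 B3 DM3 b = true
  hX1 : ∀ x ∈ BX3, ∃ P : Finset (Fin 7), P.card = κ ∧ ∀ Q ∈ powersetCard 3 P,
    (0 ∈ x.1 ∧ Q = {0, 1, 2}) ∨ ∃ i ∈ x.2, i < 9 ∧ Q1.getD i ∅ = Q
  hX2 : ∀ x ∈ BX3, ∃ P : Finset (Fin 7), P.card = κ ∧ ∀ Q ∈ powersetCard 3 P,
    (0 ∈ x.1 ∧ Q = {0, 1, 2}) ∨ ∃ i ∈ x.2, i < 9 ∧ Q2.getD i ∅ = Q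

theorem T3.M (T : T3 κ TG G3 cc3 of3 qp3 iq3 BX3 B3 DM3) {b : ℕ} (hb : b < 2) :
    Spc (2 * G3 b) (cc3 b) DM3 B3 (of3 b) (2 ^ 9) (vu TG b) (vw TG G3 b) (fun f => vv b f BX3) ∧
    ck3I TG G3 of3 qp3 iq3 BX3 PG0 0 b = true ∧ ck3I TG G3 of3 qp3 iq3 BX3 PG1 1 b = true ∧ ck3P TG G3 b = true := by
  obtain ⟨h, h1⟩ := cnd_and (T.hA b hb)
  obtain ⟨h2, h1⟩ := cnd_and h1
  obtain ⟨h3, h4⟩ := cnd_and h1
  refine ⟨?_, h2, h3, h4⟩
  obtain ⟨a1, h⟩ := cnd_and h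
  obtain ⟨a2, h⟩ := cnd_and h
  obtain ⟨a3, h⟩ := cnd_and h
  obtain ⟨a4, h⟩ := cnd_and h
  obtain ⟨a5, a6⟩ := cnd_and h
  have eW : TG b (G3 b) = enc 40 9 (vw TG G3 b) := enc_wT (T.hT b (G3 b))
  have b1 := Nat.eq_of_beq_eq_true a1
  rw [eW] at b1
  have b2 := Nat.eq_of_beq_eq_true a2
  rw [eW, osum_eq, vvN_eq] at b2
  have b4 := Nat.le_of_ble_eq_true a4
  rw [osum_eq] at b4
  have b6 := Nat.eq_of_beq_eq_true a6
  rw [osum_eq] at b6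
  refine spc_of (vu_lt b) (vw_lt b) (fun f => vv_le b f BX3) T.hD b1 ?_ ?_ b4 (Nat.le_of_ble_eq_true a5) b6
  · have b2' : enc 40 9 (vw TG G3 b) + ∑ k ∈ range (2 * G3 b), TV TG b k * of3 b k = enc 40 9 (fun f => vv b f BX3) * cc3 b := b2
    rw [sum_congr rfl (fun k _ => by rw [TV_eq b k] : ∀ k ∈ range (2 * G3 b), TV TG b k * of3 b k
      = enc 40 9 (fun f => vu TG b f k) * of3 b k)] at b2'
    exact b2'
  · intro k hk
    have h3 := al_true a3 hk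
    obtain ⟨h4, h5⟩ := cnd_and h3
    refine ⟨Nat.le_of_ble_eq_true h4, ?_⟩
    have h6 := Nat.eq_of_beq_eq_true h5
    rw [TV_eq] at h6
    exact h6

theorem T3.sm (T : T3 κ TG G3 cc3 of3 qp3 iq3 BX3 B3 DM3) : Sm3 TG G3 := by
  intro b hb f hf
  have h := (T.M hb).1
  exact ⟨h.w39 f hf, fun k hk => h.u18 f hf k hk⟩

theorem T3.le (T : T3 κ TG G3 cc3 of3 qp3 iq3 BX3 B3 DM3) {b : ℕ} (hb : b < 2) {f1 f2 : ℕ} (h1 : f1 < 512) (h2 : f2 < 512) :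
    F3 TG G3 b f1 f2 ≤ DM3 := by
  unfold F3
  have h := (T.M hb).1
  have key : ∀ f < 512, vw TG G3 b f + ∑ k ∈ range (2 * G3 b), of3 b k * vu TG b f k ≤ cc3 b := fun f hf => by
    rw [h.rel f hf]
    calc _ ≤ cc3 b * 1 := Nat.mul_le_mul_left _ (vv_le b f BX3)
      _ ≤ _ := by rw [mul_one]
  exact (val_le (h.u2 f1 h1) (h.u2 f2 h2) (key f1 h1) (key f2 h2)).trans h.cD

theorem bt_self {x : ℕ} (hx : x ≤ 1) : bt 0 x = x := by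
  rw [Pool.Agent.Y435.T7.bt_eq]
  rcases Nat.le_one_iff_eq_zero_or_eq_one.mp hx with rfl | rfl <;> rfl

theorem v3_of {L : List (Finset (Fin 7))} (hX : ∀ x ∈ BX3, ∃ P : Finset (Fin 7), P.card = κ ∧ ∀ Q ∈ powersetCard 3 P,
    (0 ∈ x.1 ∧ Q = {0, 1, 2}) ∨ ∃ i ∈ x.2, i < 9 ∧ L.getD i ∅ = Q) {g : Finset (Fin 7) → ℕ} (hg : Val κ g) :
    vv (g {0, 1, 2}) (codeN 9 L g) BX3 = 1 := by
  refine vv_one fun x hx => ?_
  obtain ⟨P, hP, hQ⟩ := hX x hx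
  obtain ⟨Q, hQ1, h0⟩ := hg.2 P hP
  rcases hQ Q hQ1 with ⟨hi, rfl⟩ | ⟨i, hi, hi10, rfl⟩
  · exact Or.inl ⟨0, hi, by rw [h0]; rfl⟩
  · exact Or.inr ⟨i, hi, (bt_mkN hi10 fun j => hg.1 _).trans h0⟩

theorem T3.v1 (T : T3 κ TG G3 cc3 of3 qp3 iq3 BX3 B3 DM3) {g : Finset (Fin 7) → ℕ} (hg : Val κ g) :
    vv (g {0, 1, 2}) (codeN 9 Q1 g) BX3 = 1 := v3_of T.hX1 hg
theorem T3.v2 (T : T3 κ TG G3 cc3 of3 qp3 iq3 BX3 B3 DM3) {g : Finset (Fin 7) → ℕ} (hg : Val κ g) :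
    vv (g {0, 1, 2}) (codeN 9 Q2 g) BX3 = 1 := v3_of T.hX2 hg

theorem lt2 {g : Finset (Fin 7) → ℕ} (hg : Val κ g) (Q : Finset (Fin 7)) : g Q < 2 := Nat.lt_succ_of_le (hg.1 Q)

/-- invariance under an exchange of roots -/
theorem T3.step (T : T3 κ TG G3 cc3 of3 qp3 iq3 BX3 B3 DM3) {PT pf : ℕ → ℕ} {i : ℕ} (hP : PTs 9 PT pf) {τ : Perm (Fin 7)}
    (hc : ∀ b < 2, ck3I TG G3 of3 qp3 iq3 BX3 PT i b = true)
    (r1 : ∀ g : Finset (Fin 7) → ℕ, act τ g {0, 1, 2} = g {0, 1, 2})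
    (r2 : ∀ g : Finset (Fin 7) → ℕ, (∀ Q, g Q ≤ 1) → codeN 9 Q1 (act τ g) = pf (codeN 9 Q1 g))
    (r3 : ∀ g : Finset (Fin 7) → ℕ, (∀ Q, g Q ≤ 1) → codeN 9 Q2 (act τ g) = pf (codeN 9 Q2 g)) :
    Kp (Val κ) (GH (F3 TG G3)) τ := by
  intro g hg
  have hg' := Val_cl κ g hg τ
  have a1 := T.v1 hg'
  have b1 := T.v2 hg'
  rw [r1, r2 g hg.1] at a1
  rw [r1, r3 g hg.1] at b1
  have hb := lt2 hg {0, 1, 2}
  unfold GH
  rw [r1, r2 g hg.1, r3 g hg.1]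
  have s1 := (T.M hb).1
  obtain ⟨hQ, hE⟩ := cnd_and (hc _ hb)
  have hQ' := ckQ_spec hQ
  have hR : ∀ k < 2 * G3 (g {0, 1, 2}), of3 (g {0, 1, 2}) (qp3 (g {0, 1, 2}) i k / 2) = of3 (g {0, 1, 2}) k ∧
      RK (2 ^ 9) (vu TG (g {0, 1, 2})) (vu TG (g {0, 1, 2})) (fun f => vv (g {0, 1, 2}) f BX3) pf (of3 (g {0, 1, 2}) k) k
        (qp3 (g {0, 1, 2}) i k / 2) := by
    intro k hk
    have h5 := al_true hE hk
    simp only [st_eq] at h5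
    rw [TV_eq, TV_eq, vvN_eq] at h5
    exact rk_of (q := qp3 (g {0, 1, 2}) i k) hP (vu_lt _) (vu_lt _) (fun f => vv_le _ f BX3) (s1.o18 k hk) h5
  exact inv_of s1 s1 rfl hP.2 hQ' hR (code_lt hg.1) (code_lt hg.1) (T.v1 hg) (T.v2 hg) a1 b1

theorem T3.p3 (T : T3 κ TG G3 cc3 of3 qp3 iq3 BX3 B3 DM3) {b : ℕ} (hb : b < 2) {f : ℕ} (hf : f < 512) :
    (∀ k < 2 * G3 b, vu TG b (pg3 f) k = vu TG b f k) ∧ vw TG G3 b (pg3 f) = vw TG G3 b f := by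
  have h := (T.M hb).2.2.2
  have key : ∀ g < G3 b + 1, ∀ f < 512, wT (TG b g) (pg3 f) = wT (TG b g) f := by
    intro g hg f hf
    have h1 := Nat.eq_of_beq_eq_true (al_true h hg)
    have e := enc_wT (T.hT b g)
    have h2 : PG3 (enc 40 9 (wT (TG b g))) = enc 40 9 (wT (TG b g)) := by rw [← e]; exact h1
    rw [PGs3.1 (wT (TG b g)) fun i => wT_lt _ _] at h2
    exact dec (φ := fun f => wT (TG b g) (pg3 f)) (ψ := wT (TG b g)) (fun f _ => wT_lt _ _) (fun f _ => wT_lt _ _) h2 hf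
  refine ⟨fun k hk => ?_, key _ (by omega) f hf⟩
  have h3 := key (k / 2) (by omega) f hf
  unfold vu
  rcases (show k % 2 = 0 ∨ k % 2 = 1 by omega) with h0 | h0
  · rw [h0, (uT_of_wT _ _).1, (uT_of_wT _ _).1, h3]
  · rw [h0, (uT_of_wT _ _).2, (uT_of_wT _ _).2, h3]

theorem T3.inv3 (T : T3 κ TG G3 cc3 of3 qp3 iq3 BX3 B3 DM3) : Inv3 (Val κ) (GH (F3 TG G3)) := by
  refine ⟨Val_cl κ, ?_, ?_, ?_, ?_, ?_⟩
  · exact T.step PGs0 (fun b hb => (T.M hb).2.1) r_s0 (fun g => Q1_s0) (fun g => Q2_s0)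
  · exact T.step PGs1 (fun b hb => (T.M hb).2.2.1) r_s1 (fun g => Q1_s1) (fun g => Q2_s1)
  · intro g hg
    unfold GH
    rw [r_s3, Q1_s3 hg.1, Q2_s3]
    obtain ⟨h1, h2⟩ := T.p3 (lt2 hg {0, 1, 2}) (code_lt (n := 9) (L := Q1) hg.1)
    unfold F3
    rw [h2]
    congr 1
    exact sum_congr rfl fun k hk => by rw [h1 k (mem_range.mp hk)]
  · intro g hg
    unfold GH
    rw [r_s5, Q2_s5 hg.1, Q1_s5]
    obtain ⟨h1, h2⟩ := T.p3 (lt2 hg {0, 1, 2}) (code_lt (n := 9) (L := Q2) hg.1)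
    unfold F3
    rw [h2]
    congr 1
    exact sum_congr rfl fun k hk => by rw [h1 k (mem_range.mp hk)]
  · intro g hg
    unfold GH
    rw [r_s9, Q1_s9, Q2_s9, F3_comm]

theorem T3.val (T : T3 κ TG G3 cc3 of3 qp3 iq3 BX3 B3 DM3) {g : Finset (Fin 7) → ℕ} (hg : Val κ g) :
    (GH (F3 TG G3) g : ℤ) = B3 + ∑ k ∈ range (2 * G3 (g {0, 1, 2})),
    ((vu TG (g {0, 1, 2}) (codeN 9 Q1 g) k : ℤ) - of3 (g {0, 1, 2}) k) * ((vu TG (g {0, 1, 2}) (codeN 9 Q2 g) k : ℤ) - of3 (g {0, 1, 2}) k) := by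
  have s := (T.M (lt2 hg {0, 1, 2})).1
  have r1 := s.rel _ (code_lt (L := Q1) hg.1)
  have r2 := s.rel _ (code_lt (L := Q2) hg.1)
  rw [T.v1 hg, mul_one] at r1
  rw [T.v2 hg, mul_one] at r2
  have h := val_int r1 r2
  unfold GH F3
  rw [h]
  have hc : ((2 * cc3 (g {0, 1, 2}) : ℕ) : ℤ) = ((∑ k ∈ range (2 * G3 (g {0, 1, 2})), of3 (g {0, 1, 2}) k * of3 (g {0, 1, 2}) k
      + B3 : ℕ) : ℤ) := by rw [s.cc]
  push_cast at hc
  rw [hc]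
  have e : ∑ k ∈ range (2 * G3 (g {0, 1, 2})), (of3 (g {0, 1, 2}) k : ℤ) ^ 2
      = ∑ k ∈ range (2 * G3 (g {0, 1, 2})), (of3 (g {0, 1, 2}) k : ℤ) * (of3 (g {0, 1, 2}) k : ℤ) :=
    sum_congr rfl fun k _ => sq _
  rw [e]
  ring

/-- the whole certificate -/
theorem cert_of (T : T5 κ BL GK cc iv of qp iq BX CL B5 S DM) (T' : T3 κ TG G3 cc3 of3 qp3 iq3 BX3 B3 DM3)
    (reps : List ℕ) (BP : List (List ℕ × Finset (Fin 7))) {cC : ℕ}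
    (hcov : Pool.Agent.N443.cov 20 reps WL (BP.map Prod.fst) = true) (hlt : ∀ c ∈ reps, c < 2 ^ 20)
    (hBP : ∀ x ∈ BP, x.2.card = κ ∧ ∀ Q ∈ powersetCard 3 x.2, ∃ i ∈ x.1, i < 20 ∧ CQ.getD i ∅ = Q)
    (hD5 : DM ≤ 2 ^ 34) (hD3 : DM3 ≤ 2 ^ 33) (hD : 21 * DM + 105 * DM3 + (549755813887 - cC) < 2 ^ 40) (hC : cC ≤ 549755813887)
    (hk : ∀ c ∈ reps, chk BL GK iv TG G3 cC c = true) :
    Cert κ (F5 BL GK iv) (F3 TG G3) (fun m => 2 * GK m) (fun m f k => (uu BL m f k : ℤ) - of m k) (fun b => 2 * G3 b)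
      (fun b f k => (vu TG b f k : ℤ) - of3 b k) cC B5 B3 S := by
  refine ⟨fun g hg => ?_, fun g hg => T.val hg, fun g hg => T'.val hg⟩
  exact all_of T.inv7 T'.inv3 reps BP hcov hlt hBP (fun c hc i hi => chk_spec (BK_eq T.sm T'.sm T'.hT)
    (fun m hm f1 h1 f2 h2 => T.le hm h1 h2) (fun b hb f1 h1 f2 h2 => T'.le hb h1 h2) hD5 hD3 hD hC (hk c hc) hi) hg

end

end Pool.Agent.H68.F7
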