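import Pool.Agent.H68.F7.WFin

/-! The bound for all numbers of vertices. -/

set_option autoImplicit false
set_option maxHeartbeats 4000000
open Finset Equiv

namespace Pool.Agent.H68.F7

noncomputable section

open Pool.Agent.Q113.Cov (T3 LL SE sp main_lagr T3_LL)
open Pool.Agent.Y435.T7 (bt)

variable {V : Type} [Fintype V] [DecidableEq V] {κ : ℕ}
variable {F5 F3 : ℕ → ℕ → ℕ → ℕ} {K5 : ℕ → ℕ} {a5 : ℕ → ℕ → ℕ → ℤ} {K3 : ℕ → ℕ} {a3 : ℕ → ℕ → ℕ → ℤ} {cC B5 B3 S : ℕ}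

/-- the check of a column -/
def spB (κ : ℕ) (a : ℕ → ℤ) (α β γ δ : ℤ) (z1 z2 p1 q1 p2 q2 p3 q3 r : ℕ) : Bool :=
  (List.range 512).all fun f =>
    !(bt z1 f == 0) || (!(bt z2 f == 0) || (!(bt p1 f == bt q1 f) || (!(bt p2 f == bt q2 f) || (!(bt p3 f == bt q3 f) ||
    ((κ == 4 && bt p1 f == 1 && bt p2 f == 1 && bt p3 f == 1 && bt r f == 1) ||
    decide (a f = α + β * (bt p3 f : ℤ) + γ * ((bt p1 f : ℤ) + (bt p2 f : ℤ)) + δ * (bt r f : ℤ)))))))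

theorem SpC_of {κ : ℕ} {a : ℕ → ℤ} {α β γ δ : ℤ} {z1 z2 p1 q1 p2 q2 p3 q3 r : ℕ}
    (h : spB κ a α β γ δ z1 z2 p1 q1 p2 q2 p3 q3 r = true) : SpC κ a α β γ δ z1 z2 p1 q1 p2 q2 p3 q3 r := by
  refine ⟨fun f hf h1 h2 h3 h4 h5 h6 => ?_⟩
  have h7 := List.all_eq_true.mp h f (List.mem_range.mpr hf)
  simp only [Bool.or_eq_true, Bool.not_eq_true', beq_eq_false_iff_ne, ne_eq, Bool.and_eq_true, beq_iff_eq, decide_eq_true_eq] at h7
  rcases h7 with h7 | h7 | h7 | h7 | h7 | h7 | h7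
  · exact absurd h1 h7
  · exact absurd h2 h7
  · exact absurd h3 h7
  · exact absurd h4 h7
  · exact absurd h5 h7
  · obtain ⟨⟨⟨⟨a1, a2⟩, a3⟩, a4⟩, a5⟩ := h7
    exact absurd ⟨a2, a3, a4, a5⟩ (h6 a1)
  · exact h7

/-- the tangent form of the bound -/
theorem tang (C : Cert κ F5 F3 K5 a5 K3 a3 cC B5 B3 S) (hκ : 3 ≤ κ) {H : Finset V → Prop} (h : Free κ H) {w : V → ℝ}
    (hw : ∀ v, 0 ≤ w v) (h1 : ∑ v, w v = 1) (hL : ∀ x, w x ≠ 0 → LW w H x = rho w H) {α β γ δ : ℤ} {k0 k1 k2 : ℕ}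
    (hk : k0 < K3 0 ∧ k1 < K3 0 ∧ k2 < K3 0 ∧ k0 ≠ k1 ∧ k0 ≠ k2 ∧ k1 ≠ k2)
    (h01 : SpC κ (fun f => a3 0 f k0) α β γ δ 0 2 1 5 3 6 4 7 8)
    (h02 : SpC κ (fun f => a3 0 f k1) α β γ δ 1 3 0 5 2 6 4 8 7)
    (h12 : SpC κ (fun f => a3 0 f k2) α β γ δ 5 6 0 1 2 3 7 8 4)
    {N : ℝ} (hN : 0 < N) (hp : 1 ≤ N * ∑ v, w v ^ 2) (c m τ : ℝ) (hm : m = β + 2 * γ + δ) (hc : c = α + m * τ) :
    (210 * (S : ℝ) * N + 630 * (c * m)) * rho w H
      ≤ ((cC : ℝ) - (21 * B5 + 105 * B3)) * N - 315 * (c ^ 2 - 2 * (c * m) * τ) := by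
  have hc1 := core_w C hκ h hw h1
  have hd := diag_ge (K3 := K3) (a3 := a3) h hw h1 hL hk h01 h02 h12
  have hp2 : 1 / N ≤ ∑ v, w v ^ 2 := by rw [div_le_iff₀ hN]; linarith
  have hd2 : 3 * (1 / N) * (α + (β + 2 * γ + δ) * rho w H) ^ 2 ≤ 3 * (∑ v, w v ^ 2) * (α + (β + 2 * γ + δ) * rho w H) ^ 2 :=
    mul_le_mul_of_nonneg_right (by linarith) (sq_nonneg _)
  rw [← hm] at hd hd2
  have hsq : c ^ 2 + 2 * (c * m) * (rho w H - τ) ≤ (α + m * rho w H) ^ 2 := by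
    rw [hc]
    nlinarith [sq_nonneg (m * (rho w H - τ))]
  have h3 : 210 * (S : ℝ) * rho w H + (21 * B5 + 105 * B3) + 315 * (1 / N) * (c ^ 2 + 2 * (c * m) * (rho w H - τ)) ≤ cC := by
    have := mul_le_mul_of_nonneg_left hsq (show 0 ≤ 315 * (1 / N) by positivity)
    linarith
  have h4 := mul_le_mul_of_nonneg_right h3 hN.le
  have e : (210 * (S : ℝ) * rho w H + (21 * B5 + 105 * B3) + 315 * (1 / N) * (c ^ 2 + 2 * (c * m) * (rho w H - τ))) * N
      = (210 * (S : ℝ) * rho w H + (21 * B5 + 105 * B3)) * N + 315 * (c ^ 2 + 2 * (c * m) * (rho w H - τ)) := by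
    field_simp
  rw [e] at h4
  linarith

/-- the number of members of a 3-graph -/
theorem card_bound {n : ℕ} (hn : 0 < n) {K : Finset (Finset (Fin n))} (h3 : ∀ e ∈ K, e.card = 3)
    (hK : ∀ P : Finset (Fin n), P.card = κ → ∃ Q ⊆ P, Q.card = 3 ∧ Q ∉ K) {τ : ℝ}
    (hb : ∀ H : Finset (Fin n) → Prop, Free κ H → ∀ w : Fin n → ℝ, (∀ v, 0 ≤ w v) → ∑ v, w v = 1 →
      (∀ x, w x ≠ 0 → LW w H x = rho w H) → 1 ≤ (n : ℝ) * ∑ v, w v ^ 2 → rho w H ≤ τ) :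
    6 * (K.card : ℝ) ≤ τ * (n : ℝ) ^ 3 := by
  have := covering (κ := κ) (N := n) (τ := τ) h3 hK (fun S _ => (card_le_univ S).trans (by rw [Fintype.card_fin])) hb
    (w := fun _ => 1) (fun _ => by norm_num)
  simpa using this

/-- Turán's number -/
theorem turan_num (n : ℕ) (t : ℕ) (ht : t = if n % 3 = 0 then (2 * (n / 3) - 1) * (n / 3 - 1) * (n / 3)
      else if n % 3 = 1 then (2 * (n / 3) - 1) * (n / 3) ^ 2 else (2 * (n / 3) + 1) * (n / 3) ^ 2) :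
    (5 / 54 : ℝ) * n ^ 3 - n ^ 2 / 6 - n / 9 ≤ (n.choose 3 : ℝ) - t := by
  have hc : (n.choose 3 : ℝ) = n * (n - 1) * (n - 2) / 6 := by
    rcases Nat.lt_or_ge n 3 with h | h
    · interval_cases n <;> norm_num [Nat.choose]
    · have h2 : 6 * n.choose 3 = n * (n - 1) * (n - 2) := by
        have := Nat.descFactorial_eq_factorial_mul_choose n 3
        rw [show Nat.factorial 3 = 6 from rfl] at this
        rw [← this]
        simp [Nat.descFactorial]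
        ring
      have h3 : (6 : ℝ) * (n.choose 3 : ℝ) = n * (n - 1) * (n - 2) := by
        have h4 : ((6 * n.choose 3 : ℕ) : ℝ) = ((n * (n - 1) * (n - 2) : ℕ) : ℝ) := by rw [h2]
        push_cast [Nat.cast_sub (show 1 ≤ n by omega), Nat.cast_sub (show 2 ≤ n by omega)] at h4
        linarith
      linarith
  obtain ⟨s, r, hr, hn⟩ : ∃ s r, r < 3 ∧ n = 3 * s + r := ⟨n / 3, n % 3, Nat.mod_lt _ (by norm_num), (Nat.div_add_mod n 3).symm⟩
  have hs : n / 3 = s := by omega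
  have hr' : n % 3 = r := by omega
  rw [hs, hr'] at ht
  rw [hc]
  interval_cases r
  · simp only [if_true] at ht
    rcases Nat.eq_zero_or_pos s with h0 | h0
    · subst h0
      subst hn
      simp at ht
      subst ht
      norm_num
    · have h4 : (t : ℝ) = (2 * s - 1) * (s - 1) * s := by
        rw [ht]
        push_cast [Nat.cast_sub (show 1 ≤ 2 * s by omega), Nat.cast_sub (show 1 ≤ s by omega)]
        ring
      rw [h4, hn]
      push_cast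
      nlinarith [(Nat.cast_nonneg s : (0 : ℝ) ≤ s)]
  · simp only [one_ne_zero, if_false, if_true] at ht
    rcases Nat.eq_zero_or_pos s with h0 | h0
    · subst h0
      subst hn
      simp at ht
      subst ht
      norm_num
    · have h4 : (t : ℝ) = (2 * s - 1) * s ^ 2 := by
        rw [ht]
        push_cast [Nat.cast_sub (show 1 ≤ 2 * s by omega)]
        ring
      rw [h4, hn]
      push_cast
      nlinarith [(Nat.cast_nonneg s : (0 : ℝ) ≤ s)]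
  · rw [if_neg (by norm_num), if_neg (by norm_num)] at ht
    have h4 : (t : ℝ) = (2 * s + 1) * s ^ 2 := by
      rw [ht]
      push_cast
      ring
    rw [h4, hn]
    push_cast
    nlinarith [(Nat.cast_nonneg s : (0 : ℝ) ≤ s)]

end

end Pool.Agent.H68.F7
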