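import Pool.Agent.H68.F7.Frame

/-! Kernel functions for the values of the steps and their meaning. -/

set_option autoImplicit false
set_option maxRecDepth 100000
set_option maxHeartbeats 4000000
set_option exponentiation.threshold 3000000
open Finset

namespace Pool.Agent.H68.F7

noncomputable section

open Pool.Agent.Y435.T7 (bt sb st cnd al d2 swp enc fld enc_congr enc_zero enc_succ enc_lt enc_add enc_mulc enc_nest)
open Pool.Agent.N443 (st_eq run3 run3_enc tot3 phi3 osum)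

/-- a block, arguments reduced first -/
def BLs (BL : ℕ → ℕ → ℕ) (m j : ℕ) : ℕ := st (fun m => st (fun j => BL m j) j) m
def OPm (BL : ℕ → ℕ → ℕ) (GK : ℕ → ℕ) (iv : ℕ → Bool) (m e f : ℕ) : ℕ :=
  cnd (iv m) 0 (st (fun G => OP G (BLs BL m f) (BLs BL m e)) (GK m))
def OPs (BL : ℕ → ℕ → ℕ) (GK : ℕ → ℕ) (iv : ℕ → Bool) (m e f : ℕ) : ℕ :=
  st (fun m => st (fun e => st (fun f => OPm BL GK iv m e f) f) e) m
def b14 (BL : ℕ → ℕ → ℕ) (GK : ℕ → ℕ) (iv : ℕ → Bool) (c : ℕ) : ℕ := as6 10240 (fun m' => OPs BL GK iv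
  (Nat.add (Nat.land c 15) (Nat.mul 16 m')) (Nat.land (Nat.shiftRight c 4) 63) (Nat.land (Nat.shiftRight c 10) 63)) 0
def OBm (BL : ℕ → ℕ → ℕ) (GK : ℕ → ℕ) (iv : ℕ → Bool) (m f p j : ℕ) : ℕ :=
  cnd (iv m) 0 (st (fun G => OB G (BLs BL m f) p (BLs BL m j)) (GK m))
def b10 (BL : ℕ → ℕ → ℕ) (GK : ℕ → ℕ) (iv : ℕ → Bool) (c : ℕ) : ℕ :=
  st (fun m => st (fun f => st (fun p => as6 640 (fun j => OBm BL GK iv m f p j) 0) (Nat.land (Nat.shiftRight c 10) 15))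
    (Nat.land (Nat.shiftRight c 14) 63)) (Nat.land c 1023)
def TGs (TG : ℕ → ℕ → ℕ) (b g : ℕ) : ℕ := st (fun b => st (fun g => TG b g) g) b
def THs (TG : ℕ → ℕ → ℕ) (b g : ℕ) : ℕ := st (fun b => st (fun g => run3 opD (TG b g)) g) b
def b11 (TG : ℕ → ℕ → ℕ) (G3 : ℕ → ℕ) (c : ℕ) : ℕ := st (fun c1 => st (fun c2 =>
  Nat.add (OQ (G3 0) (TGs TG 0) (TGs TG 0 (G3 0)) c1 c2) (Nat.shiftLeft (OQ (G3 1) (TGs TG 1) (TGs TG 1 (G3 1)) c1 c2) 40960))
  (Nat.land (Nat.shiftRight c 4) 15)) (Nat.land c 15)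
def b6 (TG : ℕ → ℕ → ℕ) (G3 : ℕ → ℕ) (c : ℕ) : ℕ := st (fun f => st (fun c3 => st (fun b =>
  OD (G3 b) (THs TG b) (TGs TG b) (THs TG b (G3 b)) (TGs TG b (G3 b)) c3 f)
  (Nat.land (Nat.shiftRight c 12) 1)) (Nat.land (Nat.shiftRight c 9) 7)) (Nat.land c 511)
def BK (BL : ℕ → ℕ → ℕ) (GK : ℕ → ℕ) (iv : ℕ → Bool) (TG : ℕ → ℕ → ℕ) (G3 : ℕ → ℕ) (k c : ℕ) : ℕ :=
  cnd (Nat.beq k 0) (b14 BL GK iv c) (cnd (Nat.beq k 1) (b10 BL GK iv c) (cnd (Nat.beq k 2) (b11 TG G3 c) (b6 TG G3 c)))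
/-- the check of a code -/
def chk (BL : ℕ → ℕ → ℕ) (GK : ℕ → ℕ) (iv : ℕ → Bool) (TG : ℕ → ℕ → ℕ) (G3 : ℕ → ℕ) (cC c : ℕ) : Bool :=
  Nat.beq (Nat.land (Nat.add (tot3 (BK BL GK iv TG G3) GS c) (dn 15 (Nat.sub 549755813887 cC))) (dn 15 549755813888)) 0

/-- entry of a column: mask, flag, column -/
def uu (BL : ℕ → ℕ → ℕ) (m f k : ℕ) : ℕ := uB (BL m (f / 16)) k (f % 16)
/-- entry of the constant column -/
def ww (BL : ℕ → ℕ → ℕ) (GK : ℕ → ℕ) (m f : ℕ) : ℕ := wB (BL m (f / 16)) (GK m) (f % 16)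
/-- the value of a mask and two flags -/
def F5 (BL : ℕ → ℕ → ℕ) (GK : ℕ → ℕ) (iv : ℕ → Bool) (m f1 f2 : ℕ) : ℕ :=
  cnd (iv m) 0 ((∑ k ∈ range (2 * GK m), uu BL m f1 k * uu BL m f2 k) + (ww BL GK m f1 + ww BL GK m f2))
/-- entries of the columns of three roots -/
def vu (TG : ℕ → ℕ → ℕ) (b f k : ℕ) : ℕ := uT (TG b (k / 2)) (k % 2) f
def vw (TG : ℕ → ℕ → ℕ) (G3 : ℕ → ℕ) (b f : ℕ) : ℕ := wT (TG b (G3 b)) f
def F3 (TG : ℕ → ℕ → ℕ) (G3 : ℕ → ℕ) (b f1 f2 : ℕ) : ℕ :=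
  (∑ k ∈ range (2 * G3 b), vu TG b f1 k * vu TG b f2 k) + (vw TG G3 b f1 + vw TG G3 b f2)

/-- small entries -/
def Sm5 (BL : ℕ → ℕ → ℕ) (GK : ℕ → ℕ) (iv : ℕ → Bool) : Prop := ∀ m < 1024, iv m = false → ∀ f < 1024,
  ww BL GK m f < 2 ^ 39 ∧ ∀ k < 2 * GK m, uu BL m f k < 2 ^ 18
def Sm3 (TG : ℕ → ℕ → ℕ) (G3 : ℕ → ℕ) : Prop := ∀ b < 2, ∀ f < 512, vw TG G3 b f < 2 ^ 39 ∧ ∀ k < 2 * G3 b, vu TG b f k < 2 ^ 18

variable {BL : ℕ → ℕ → ℕ} {GK : ℕ → ℕ} {iv : ℕ → Bool} {TG : ℕ → ℕ → ℕ} {G3 : ℕ → ℕ}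

theorem BLs_eq (m j : ℕ) : BLs BL m j = BL m j := by unfold BLs; rw [st_eq, st_eq]
theorem TGs_eq (b g : ℕ) : TGs TG b g = TG b g := by unfold TGs; rw [st_eq, st_eq]
theorem THs_eq (b g : ℕ) : THs TG b g = run3 opD (TG b g) := by unfold THs; rw [st_eq, st_eq]

theorem uu_mk (m k : ℕ) {j x : ℕ} (hx : x < 16) : uu BL m (x + 16 * j) k = uB (BL m j) k x := by
  unfold uu
  rw [show (x + 16 * j) / 16 = j by omega, show (x + 16 * j) % 16 = x by omega]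
theorem ww_mk (m : ℕ) {j x : ℕ} (hx : x < 16) : ww BL GK m (x + 16 * j) = wB (BL m j) (GK m) x := by
  unfold ww
  rw [show (x + 16 * j) / 16 = j by omega, show (x + 16 * j) % 16 = x by omega]

theorem F5_true {m : ℕ} (h : iv m = true) (f1 f2 : ℕ) : F5 BL GK iv m f1 f2 = 0 := by unfold F5; rw [h]; rfl
theorem F5_false {m : ℕ} (h : iv m = false) (f1 f2 : ℕ) : F5 BL GK iv m f1 f2 =
    (∑ k ∈ range (2 * GK m), uu BL m f1 k * uu BL m f2 k) + (ww BL GK m f1 + ww BL GK m f2) := by unfold F5; rw [h]; rfl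

theorem F5_comm (m f1 f2 : ℕ) : F5 BL GK iv m f1 f2 = F5 BL GK iv m f2 f1 := by
  cases h : iv m
  · rw [F5_false h, F5_false h, add_comm (ww BL GK m f1)]
    congr 1
    exact sum_congr rfl fun k _ => mul_comm _ _
  · rw [F5_true h, F5_true h]

theorem F3_comm (b f1 f2 : ℕ) : F3 TG G3 b f1 f2 = F3 TG G3 b f2 f1 := by
  unfold F3
  rw [add_comm (vw TG G3 b f1)]
  congr 1
  exact sum_congr rfl fun k _ => mul_comm _ _

theorem enc_zero_fun (n : ℕ) : enc 40 n (fun _ => 0) = 0 := by unfold enc; simp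

theorem OPm_eq (h : Sm5 BL GK iv) {m e f : ℕ} (hm : m < 1024) (he : e < 64) :
    OPm BL GK iv m e f = enc 40 8 (fun i => F5 BL GK iv m (i / 16 + 16 * e) (i % 16 + 16 * f)) := by
  unfold OPm
  cases hi : iv m
  · rw [cnd_f, st_eq, BLs_eq, BLs_eq]
    have h1 : ∀ t < 16, wB (BL m e) (GK m) t < 2 ^ 39 := fun t ht => by
      rw [← ww_mk (GK := GK) m ht]
      exact (h m hm hi _ (by omega)).1
    have h2 : ∀ k < 2 * GK m, ∀ t < 16, uB (BL m e) k t < 2 ^ 18 := fun k hk t ht => by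
      rw [← uu_mk m k ht]
      exact (h m hm hi _ (by omega)).2 k hk
    rw [OP_eq h2 h1]
    refine enc_congr fun i hi' => ?_
    have hi2 : i < 256 := hi'
    rw [F5_false hi, ww_mk m (Nat.mod_lt i (by norm_num)), ww_mk m (show i / 16 < 16 by omega)]
    have e1 : ∀ k, uu BL m (i / 16 + 16 * e) k = uB (BL m e) k (i / 16) := fun k => uu_mk m k (by omega)
    have e2 : ∀ k, uu BL m (i % 16 + 16 * f) k = uB (BL m f) k (i % 16) := fun k => uu_mk m k (by omega)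
    rw [add_comm (wB (BL m f) (GK m) (i % 16))]
    congr 1
    exact sum_congr rfl fun k _ => by rw [e1, e2, mul_comm]
  · rw [cnd_t, ← enc_zero_fun 8]
    exact enc_congr fun i _ => by rw [F5_true hi]

theorem OBm_eq {m f p j : ℕ} (hp : p < 16) :
    OBm BL GK iv m f p j = enc 40 4 (fun t => F5 BL GK iv m (p + 16 * f) (t + 16 * j)) := by
  unfold OBm
  cases hi : iv m
  · rw [cnd_f, st_eq, BLs_eq, BLs_eq, OB_eq]
    refine enc_congr fun t ht => ?_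
    rw [F5_false hi, ww_mk m hp, ww_mk m ht]
    rw [add_comm (wB (BL m j) (GK m) t)]
    congr 1
    exact sum_congr rfl fun k _ => by rw [uu_mk m k hp, uu_mk m k ht, mul_comm]
  · rw [cnd_t, ← enc_zero_fun 4]
    exact enc_congr fun i _ => by rw [F5_true hi]

theorem b14_eq (h : Sm5 BL GK iv) (c : ℕ) : b14 BL GK iv c = enc 40 14 (Bv (F5 BL GK iv) (F3 TG G3) 0 c) := by
  unfold b14
  rw [as6_eq0]
  have e1 : Nat.land (Nat.shiftRight c 4) 63 = c / 16 % 64 := by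
    show (c >>> 4) &&& (2 ^ 6 - 1) = _
    rw [Nat.and_two_pow_sub_one_eq_mod, Nat.shiftRight_eq_div_pow]
  have e2 : Nat.land (Nat.shiftRight c 10) 63 = c / 1024 % 64 := by
    show (c >>> 10) &&& (2 ^ 6 - 1) = _
    rw [Nat.and_two_pow_sub_one_eq_mod, Nat.shiftRight_eq_div_pow]
  have e4 : Nat.land c 15 = c % 16 := by
    show c &&& (2 ^ 4 - 1) = _
    rw [Nat.and_two_pow_sub_one_eq_mod]
  rw [e1, e2, e4]
  have h1 : enc 10240 6 (fun m' => OPs BL GK iv (Nat.add (c % 16) (Nat.mul 16 m')) (c / 16 % 64) (c / 1024 % 64))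
      = enc 10240 6 (fun m' => enc 40 8 (fun i => F5 BL GK iv (c % 16 + 16 * m') (i / 16 + 16 * (c / 16 % 64)) (i % 16 + 16 * (c / 1024 % 64)))) := by
    refine enc_congr fun m' hm => ?_
    have hm' : m' < 64 := hm
    unfold OPs
    rw [st_eq, st_eq, st_eq, show Nat.add (c % 16) (Nat.mul 16 m') = c % 16 + 16 * m' from rfl]
    exact OPm_eq h (by omega) (by omega)
  rw [h1, show 10240 = 40 * 2 ^ 8 from rfl, enc_nest 40 8 _ 6]
  refine enc_congr fun i hi => ?_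
  have hi' : i < 16384 := hi
  unfold Bv
  rw [if_pos rfl]
  have b1 : i % 2 ^ 8 / 16 = i / 16 % 16 := by norm_num; omega
  have b2 : i % 2 ^ 8 % 16 = i % 16 := by norm_num
  have b3 : i / 2 ^ 8 = i / 256 := by norm_num
  rw [b1, b2, b3]

theorem b10_eq (c : ℕ) : b10 BL GK iv c = enc 40 10 (Bv (F5 BL GK iv) (F3 TG G3) 1 c) := by
  unfold b10
  rw [st_eq, st_eq, st_eq, as6_eq0]
  have e0 : Nat.land c 1023 = c % 1024 := by
    show c &&& (2 ^ 10 - 1) = _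
    rw [Nat.and_two_pow_sub_one_eq_mod]
  have e1 : Nat.land (Nat.shiftRight c 10) 15 = c / 1024 % 16 := by
    show (c >>> 10) &&& (2 ^ 4 - 1) = _
    rw [Nat.and_two_pow_sub_one_eq_mod, Nat.shiftRight_eq_div_pow]
  have e2 : Nat.land (Nat.shiftRight c 14) 63 = c / 16384 % 64 := by
    show (c >>> 14) &&& (2 ^ 6 - 1) = _
    rw [Nat.and_two_pow_sub_one_eq_mod, Nat.shiftRight_eq_div_pow]
  rw [e0, e1, e2]
  have h1 : enc 640 6 (fun j => OBm BL GK iv (c % 1024) (c / 16384 % 64) (c / 1024 % 16) j)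
      = enc 640 6 (fun j => enc 40 4 (fun t => F5 BL GK iv (c % 1024) (c / 1024 % 16 + 16 * (c / 16384 % 64)) (t + 16 * j))) :=
    enc_congr fun j _ => OBm_eq (by omega)
  rw [h1, show 640 = 40 * 2 ^ 4 from rfl, enc_nest 40 4 _ 6]
  refine enc_congr fun i hi => ?_
  unfold Bv
  rw [if_neg (by norm_num), if_pos rfl]
  have b1 : i % 2 ^ 4 + 16 * (i / 2 ^ 4) = i := by norm_num; omega
  have b2 : c / 1024 % 16 + 16 * (c / 16384 % 64) = c / 1024 % 1024 := by omega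
  rw [b1, b2]

theorem OQ_F3 (h : Sm3 TG G3) {b : ℕ} (hb : b < 2) {c1 c2 : ℕ} (hc2 : c2 < 16) :
    OQ (G3 b) (TGs TG b) (TGs TG b (G3 b)) c1 c2 = enc 40 10 (fun i => F3 TG G3 b (i % 32 + 32 * c1) (i / 32 + 32 * c2)) := by
  have e : TGs TG b = TG b := by funext g; exact TGs_eq b g
  rw [e]
  have h1 : ∀ g < G3 b, ∀ t < 32, uT (TG b g) 1 (32 * c2 + t) < 2 ^ 18 := fun g hg t ht => by
    have h2 := (h b hb (32 * c2 + t) (by omega)).2 (2 * g + 1) (by omega)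
    unfold vu at h2
    rw [show (2 * g + 1) / 2 = g by omega, show (2 * g + 1) % 2 = 1 by omega] at h2
    exact h2
  have h2 : ∀ t < 32, wT (TG b (G3 b)) (32 * c2 + t) < 2 ^ 39 := fun t ht => (h b hb (32 * c2 + t) (by omega)).1
  rw [OQ_eq h1 h2]
  refine enc_congr fun i _ => ?_
  unfold F3 vu vw
  rw [add_comm (32 * c1), add_comm (32 * c2)]

theorem b11_eq (h : Sm3 TG G3) (c : ℕ) : b11 TG G3 c = enc 40 11 (Bv (F5 BL GK iv) (F3 TG G3) 2 c) := by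
  unfold b11
  rw [st_eq, st_eq]
  have e0 : Nat.land c 15 = c % 16 := by
    show c &&& (2 ^ 4 - 1) = _
    rw [Nat.and_two_pow_sub_one_eq_mod]
  have e1 : Nat.land (Nat.shiftRight c 4) 15 = c / 16 % 16 := by
    show (c >>> 4) &&& (2 ^ 4 - 1) = _
    rw [Nat.and_two_pow_sub_one_eq_mod, Nat.shiftRight_eq_div_pow]
  have a0 : OQ (G3 0) (TGs TG 0) (TGs TG 0 (G3 0)) (c % 16) (c / 16 % 16) = enc 40 10 (Bv (F5 BL GK iv) (F3 TG G3) 2 c) := by
    rw [OQ_F3 h (by norm_num) (by omega)]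
    refine enc_congr fun i hi => ?_
    have hi' : i < 1024 := hi
    unfold Bv
    rw [if_neg (by norm_num), if_neg (by norm_num), if_pos rfl, show i / 1024 = 0 by omega, show i / 32 % 32 = i / 32 by omega]
  have a1 : OQ (G3 1) (TGs TG 1) (TGs TG 1 (G3 1)) (c % 16) (c / 16 % 16)
      = enc 40 10 (fun i => Bv (F5 BL GK iv) (F3 TG G3) 2 c (2 ^ 10 + i)) := by
    rw [OQ_F3 h (by norm_num) (by omega)]
    refine enc_congr fun i hi => ?_
    have hi' : i < 1024 := hi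
    unfold Bv
    have a1 : (2 ^ 10 + i) / 1024 = 1 := by norm_num; omega
    have a2 : (2 ^ 10 + i) % 32 = i % 32 := by norm_num; omega
    have a3 : (2 ^ 10 + i) / 32 % 32 = i / 32 := by norm_num; omega
    rw [if_neg (by norm_num), if_neg (by norm_num), if_pos rfl, a1, a2, a3]
  rw [e0, e1, a0, a1]
  generalize Bv (F5 BL GK iv) (F3 TG G3) 2 c = φ
  have hs : ∀ x y : ℕ, Nat.add x (Nat.shiftLeft y 40960) = x + y * 2 ^ (40 * 2 ^ 10) := fun x y => by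
    rw [show (40 * 2 ^ 10 : ℕ) = 40960 by norm_num, ← Nat.shiftLeft_eq]; rfl
  rw [hs]
  exact (enc_succ 40 10 φ).symm

theorem enc_wT {N : ℕ} (hN : N < 2 ^ 20480) : N = enc 40 9 (wT N) := by
  have h1 : Nat.land N (enc 40 9 (fun _ => 2 ^ 40 - 1)) = enc 40 9 (fun y => N / 2 ^ (40 * y) % 2 ^ 40) := km_eq0 (by norm_num) (by norm_num) N 9
  have h2 : Nat.land N (enc 40 9 (fun _ => 2 ^ 40 - 1)) = N := by
    rw [← ones_enc]
    show N &&& (2 ^ 20480 - 1) = N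
    rw [Nat.and_two_pow_sub_one_eq_mod, Nat.mod_eq_of_lt hN]
  exact h2.symm.trans h1

theorem uT_of_wT (N f : ℕ) : uT N 0 f = wT N f % 2 ^ 20 ∧ uT N 1 f = wT N f / 2 ^ 20 :=
  ⟨(wT_lo N f).symm, (wT_hi N f).symm⟩

theorem wT_enc {F : ℕ → ℕ} (hF : ∀ i < 2 ^ 9, F i < 2 ^ 40) {f : ℕ} (hf : f < 512) : wT (enc 40 9 F) f = F f := by
  have h := Pool.Agent.Y435.T7.fld_enc (s := 40) (by norm_num) hF (show f < 2 ^ 9 from hf)
  rw [← h]
  rfl

theorem TH_w {N : ℕ} (hN : N < 2 ^ 20480) {f : ℕ} (hf : f < 512) : wT (run3 opD N) f = wT N (phi3 opD f) := by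
  conv_lhs => rw [enc_wT hN]
  rw [run3_enc opD opD_wf fun i _ => wT_lt N i]
  exact wT_enc (fun i _ => wT_lt N _) hf

theorem TH_u {N : ℕ} (hN : N < 2 ^ 20480) {f : ℕ} (hf : f < 512) (h : ℕ) (hh : h < 2) :
    uT (run3 opD N) h f = uT N h (phi3 opD f) := by
  have e := TH_w hN hf
  rcases (show h = 0 ∨ h = 1 by omega) with rfl | rfl
  · rw [(uT_of_wT _ _).1, (uT_of_wT _ _).1, e]
  · rw [(uT_of_wT _ _).2, (uT_of_wT _ _).2, e]

theorem b6_eq (hT : ∀ b g, TG b g < 2 ^ 20480) (c : ℕ) : b6 TG G3 c = enc 40 6 (Bv (F5 BL GK iv) (F3 TG G3) 3 c) := by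
  unfold b6
  rw [st_eq, st_eq, st_eq]
  have e0 : Nat.land c 511 = c % 512 := by
    show c &&& (2 ^ 9 - 1) = _
    rw [Nat.and_two_pow_sub_one_eq_mod]
  have e1 : Nat.land (Nat.shiftRight c 9) 7 = c / 512 % 8 := by
    show (c >>> 9) &&& (2 ^ 3 - 1) = _
    rw [Nat.and_two_pow_sub_one_eq_mod, Nat.shiftRight_eq_div_pow]
  have e2 : Nat.land (Nat.shiftRight c 12) 1 = c / 4096 % 2 := by
    show (c >>> 12) &&& (2 ^ 1 - 1) = _
    rw [Nat.and_two_pow_sub_one_eq_mod, Nat.shiftRight_eq_div_pow]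
  rw [e0, e1, e2, OD_eq]
  refine enc_congr fun t ht => ?_
  have ht' : t < 64 := ht
  unfold Bv
  rw [if_neg (by norm_num), if_neg (by norm_num), if_neg (by norm_num)]
  unfold F3 vu vw
  have hb : 64 * (c / 512 % 8) + t < 512 := by omega
  rw [THs_eq, TGs_eq, TH_w (hT _ _) hb, add_comm (wT (TG (c / 4096 % 2) (G3 (c / 4096 % 2))) (phi3 opD _)), add_comm t]
  congr 1
  refine sum_congr rfl fun k _ => ?_
  rw [THs_eq, TGs_eq, TH_u (hT _ _) hb _ (Nat.mod_lt _ (by norm_num)), mul_comm]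

theorem BK_eq (h5 : Sm5 BL GK iv) (h3 : Sm3 TG G3) (hT : ∀ b g, TG b g < 2 ^ 20480) (k c : ℕ) :
    BK BL GK iv TG G3 k c = enc 40 (NN k) (Bv (F5 BL GK iv) (F3 TG G3) k c) := by
  unfold BK NN
  rcases Nat.lt_or_ge k 3 with hk | hk
  · rcases (show k = 0 ∨ k = 1 ∨ k = 2 by omega) with rfl | rfl | rfl
    · rw [show Nat.beq 0 0 = true from rfl, cnd_t, if_pos rfl, b14_eq (TG := TG) (G3 := G3) h5]
    · rw [show Nat.beq 1 0 = false from rfl, show Nat.beq 1 1 = true from rfl, cnd_f, cnd_t, if_neg (by norm_num), if_pos rfl,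
        b10_eq (TG := TG) (G3 := G3)]
    · rw [show Nat.beq 2 0 = false from rfl, show Nat.beq 2 1 = false from rfl, show Nat.beq 2 2 = true from rfl, cnd_f, cnd_f, cnd_t,
        if_neg (by norm_num), if_neg (by norm_num), if_pos rfl, b11_eq (BL := BL) (GK := GK) (iv := iv) h3]
  · have hb : ∀ j < 3, Nat.beq k j = false := fun j hj => by
      rw [← Bool.not_eq_true]; exact fun hh => by have := Nat.eq_of_beq_eq_true hh; omega
    rw [hb 0 (by norm_num), hb 1 (by norm_num), hb 2 (by norm_num), cnd_f, cnd_f, cnd_f, if_neg (by omega), if_neg (by omega),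
      if_neg (by omega), b6_eq (BL := BL) (GK := GK) (iv := iv) hT]
    refine enc_congr fun i _ => ?_
    unfold Bv
    rw [if_neg (by norm_num), if_neg (by norm_num), if_neg (by norm_num), if_neg (by omega), if_neg (by omega), if_neg (by omega)]

end

end Pool.Agent.H68.F7
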