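import Pool.Graph.R_pool_sql_team_seeded_63374d34.N443.Core.Blk
import Pool.Graph.R_pool_sql_team_seeded_63374d34.N443.Core.Run3

/-! Fields of packed numbers: blocks of sixteen and thirty-two entries, spreading, products. -/

set_option autoImplicit false
set_option maxRecDepth 100000
set_option exponentiation.threshold 200000
set_option maxHeartbeats 4000000
open Finset

namespace Pool.Agent.H68.F7

open Pool.Agent.Y435.T7 (bt sb st cnd al d2 swp enc fld enc_congr enc_zero enc_succ enc_lt enc_add enc_mulc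
  enc_prod enc_nest enc_testBit fld_testBit fld_lt fld_enc enc_fld fld_fld enc_inj land_ones land_ones0 swp_enc sb_lt)
open Pool.Agent.N443 (st_eq al_true cnd_and enc_const_succ osum osum_eq osum_enc)

noncomputable section

/-- masked extraction at a stride -/
theorem km_eq {s w : ℕ} (hs : 0 < s) (hw : w ≤ s) (X sh n : ℕ) :
    Nat.land (Nat.shiftRight X sh) (enc s n (fun _ => 2 ^ w - 1)) = enc s n (fun y => X / 2 ^ (sh + s * y) % 2 ^ w) := by
  have hpw : 2 ^ w ≤ 2 ^ s := Nat.pow_le_pow_right (by norm_num) hw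
  refine Nat.eq_of_testBit_eq fun t => ?_
  have h40 : ∀ i < 2 ^ n, (fun _ : ℕ => 2 ^ w - 1) i < 2 ^ s := fun i _ =>
    lt_of_lt_of_le (Nat.sub_lt (by positivity) one_pos) hpw
  have hfl : ∀ i < 2 ^ n, (fun y => X / 2 ^ (sh + s * y) % 2 ^ w) i < 2 ^ s := fun i _ =>
    lt_of_lt_of_le (Nat.mod_lt _ (by positivity)) hpw
  show ((X >>> sh) &&& _).testBit t = _
  rw [Nat.testBit_and, Nat.testBit_shiftRight, enc_testBit hs h40, enc_testBit hs hfl,
    Nat.testBit_two_pow_sub_one, Nat.testBit_mod_two_pow, Nat.testBit_div_two_pow]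
  have e : sh + t = t % s + (sh + s * (t / s)) := by
    have := Nat.mod_add_div t s
    omega
  rw [e]
  generalize X.testBit _ = u
  cases decide (t / s < 2 ^ n) <;> cases decide (t % s < w) <;> cases u <;> rfl

theorem km_eq0 {s w : ℕ} (hs : 0 < s) (hw : w ≤ s) (X n : ℕ) :
    Nat.land X (enc s n (fun _ => 2 ^ w - 1)) = enc s n (fun y => X / 2 ^ (s * y) % 2 ^ w) := by
  have h := km_eq hs hw X 0 n
  have h0 : Nat.shiftRight X 0 = X := rfl
  rw [h0] at h
  rw [h]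
  exact enc_congr fun i _ => by rw [zero_add]

/-! constants -/

def ON640 : ℕ := Nat.sub (Nat.pow 2 640) 1
/-- `enc 40 4 (2 ^ 20 - 1)` -/
def MLO : ℕ := d2 320 (d2 160 (d2 80 (d2 40 1048575)))
/-- `enc 640 4 (2 ^ 40 - 1)` -/
def MK16 : ℕ := d2 5120 (d2 2560 (d2 1280 (d2 640 1099511627775)))
/-- `enc 640 4 (2 ^ 20 - 1)` -/
def MSL : ℕ := d2 5120 (d2 2560 (d2 1280 (d2 640 1048575)))
/-- `enc 640 4 1` -/
def OS16 : ℕ := d2 5120 (d2 2560 (d2 1280 (d2 640 1)))
/-- `enc 40 4 1` -/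
def ON16 : ℕ := d2 320 (d2 160 (d2 80 (d2 40 1)))
/-- `enc 600 4 1` -/
def C600 : ℕ := d2 4800 (d2 2400 (d2 1200 (d2 600 1)))
/-- `enc 40 5 (2 ^ 20 - 1)` -/
def MLO32 : ℕ := d2 640 MLO
/-- `enc 40 5 (2 ^ 40 - 1)` -/
def ON1280 : ℕ := Nat.sub (Nat.pow 2 1280) 1
/-- `enc 1280 5 (2 ^ 40 - 1)` -/
def MK32 : ℕ := d2 20480 (d2 10240 (d2 5120 (d2 2560 (d2 1280 1099511627775))))
/-- `enc 1280 5 (2 ^ 20 - 1)` -/
def MSL32 : ℕ := d2 20480 (d2 10240 (d2 5120 (d2 2560 (d2 1280 1048575))))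
/-- `enc 1280 5 1` -/
def OS32 : ℕ := d2 20480 (d2 10240 (d2 5120 (d2 2560 (d2 1280 1))))
/-- `enc 40 5 1` -/
def ON32 : ℕ := d2 640 ON16
/-- `enc 1240 5 1` -/
def C1240 : ℕ := d2 19840 (d2 9920 (d2 4960 (d2 2480 (d2 1240 1))))
/-- `enc 40 6 (2 ^ 20 - 1)` -/
def MLO64 : ℕ := d2 1280 MLO32
/-- `enc 40 6 1` -/
def ON64 : ℕ := d2 1280 ON32
def ON2560 : ℕ := Nat.sub (Nat.pow 2 2560) 1
def ON20480 : ℕ := Nat.sub (Nat.pow 2 20480) 1

theorem ones_enc (s n : ℕ) : 2 ^ (s * 2 ^ n) - 1 = enc s n (fun _ => 2 ^ s - 1) := by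
  induction n with
  | zero => rw [enc_zero, pow_zero, mul_one]
  | succ n ih =>
    rw [enc_const_succ, ← ih]
    show _ = (2 ^ (s * 2 ^ n) - 1) + (2 ^ (s * 2 ^ n) - 1) <<< (s * 2 ^ n)
    rw [Nat.shiftLeft_eq, pow_succ 2 n, ← mul_assoc, mul_two, pow_add]
    have : 1 ≤ 2 ^ (s * 2 ^ n) := Nat.one_le_two_pow
    obtain ⟨k, hk⟩ := Nat.exists_eq_add_of_le this
    rw [hk, Nat.add_sub_cancel_left]
    have e : (1 + k) * (1 + k) = 1 + (k + k * (1 + k)) := by ring
    rw [e, Nat.add_sub_cancel_left]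

theorem ON640_eq : ON640 = enc 40 4 (fun _ => 2 ^ 40 - 1) := ones_enc 40 4
theorem ON1280_eq : ON1280 = enc 40 5 (fun _ => 2 ^ 40 - 1) := ones_enc 40 5
theorem ON2560_eq : ON2560 = enc 40 6 (fun _ => 2 ^ 40 - 1) := ones_enc 40 6
theorem ON20480_eq : ON20480 = enc 40 9 (fun _ => 2 ^ 40 - 1) := ones_enc 40 9
theorem MLO_eq : MLO = enc 40 4 (fun _ => 2 ^ 20 - 1) := by
  iterate 4 rw [enc_const_succ]
  rw [enc_zero]; rfl
theorem MK16_eq : MK16 = enc 640 4 (fun _ => 2 ^ 40 - 1) := by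
  iterate 4 rw [enc_const_succ]
  rw [enc_zero]; rfl
theorem MSL_eq : MSL = enc 640 4 (fun _ => 2 ^ 20 - 1) := by
  iterate 4 rw [enc_const_succ]
  rw [enc_zero]; rfl
theorem OS16_eq : OS16 = enc 640 4 (fun _ => 1) := by
  iterate 4 rw [enc_const_succ]
  rw [enc_zero]; rfl
theorem ON16_eq : ON16 = enc 40 4 (fun _ => 1) := by
  iterate 4 rw [enc_const_succ]
  rw [enc_zero]; rfl
theorem C600_eq : C600 = enc 600 4 (fun _ => 1) := by
  iterate 4 rw [enc_const_succ]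
  rw [enc_zero]; rfl
theorem MLO32_eq : MLO32 = enc 40 5 (fun _ => 2 ^ 20 - 1) := by
  iterate 5 rw [enc_const_succ]
  rw [enc_zero]; rfl
theorem MK32_eq : MK32 = enc 1280 5 (fun _ => 2 ^ 40 - 1) := by
  iterate 5 rw [enc_const_succ]
  rw [enc_zero]; rfl
theorem MSL32_eq : MSL32 = enc 1280 5 (fun _ => 2 ^ 20 - 1) := by
  iterate 5 rw [enc_const_succ]
  rw [enc_zero]; rfl
theorem OS32_eq : OS32 = enc 1280 5 (fun _ => 1) := by
  iterate 5 rw [enc_const_succ]
  rw [enc_zero]; rfl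
theorem ON32_eq : ON32 = enc 40 5 (fun _ => 1) := by
  iterate 5 rw [enc_const_succ]
  rw [enc_zero]; rfl
theorem C1240_eq : C1240 = enc 1240 5 (fun _ => 1) := by
  iterate 5 rw [enc_const_succ]
  rw [enc_zero]; rfl
theorem MLO64_eq : MLO64 = enc 40 6 (fun _ => 2 ^ 20 - 1) := by
  iterate 6 rw [enc_const_succ]
  rw [enc_zero]; rfl
theorem ON64_eq : ON64 = enc 40 6 (fun _ => 1) := by
  iterate 6 rw [enc_const_succ]
  rw [enc_zero]; rfl

/-! halves of fields -/

theorem lo_eq (X a : ℕ) : X / 2 ^ a % 2 ^ 40 % 2 ^ 20 = X / 2 ^ a % 2 ^ 20 :=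
  Nat.mod_mod_of_dvd _ (pow_dvd_pow 2 (by norm_num))
theorem hi_eq (X a : ℕ) : X / 2 ^ a % 2 ^ 40 / 2 ^ 20 = X / 2 ^ (a + 20) % 2 ^ 20 := by
  rw [show (2 : ℕ) ^ 40 = 2 ^ 20 * 2 ^ 20 by norm_num, Nat.mod_mul_right_div_self, Nat.div_div_eq_div_mul, ← pow_add]
theorem hi_eq' (X a : ℕ) : X / 2 ^ a % 2 ^ 40 / 2 ^ 20 % 2 ^ 20 = X / 2 ^ (a + 20) % 2 ^ 20 := by
  rw [hi_eq, Nat.mod_mod]

/-! blocks of sixteen entries -/

/-- column `k` of a block -/
def cx (B k : ℕ) : ℕ := Nat.land (Nat.shiftRight B (Nat.add (Nat.mul 640 (Nat.div k 2)) (Nat.mul 20 (Nat.mod k 2)))) MLO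
/-- the constant column of a block -/
def cw (B G : ℕ) : ℕ := Nat.land (Nat.shiftRight B (Nat.mul 640 G)) ON640
/-- entry of a column -/
def uB (B k t : ℕ) : ℕ := B / 2 ^ (640 * (k / 2) + 20 * (k % 2) + 40 * t) % 2 ^ 20
/-- entry of the constant column -/
def wB (B G t : ℕ) : ℕ := B / 2 ^ (640 * G + 40 * t) % 2 ^ 40

theorem uB_lt (B k t : ℕ) : uB B k t < 2 ^ 20 := Nat.mod_lt _ (by positivity)
theorem wB_lt (B G t : ℕ) : wB B G t < 2 ^ 40 := Nat.mod_lt _ (by positivity)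

theorem cx_eq (B k : ℕ) : cx B k = enc 40 4 (uB B k) := by
  unfold cx
  rw [MLO_eq]
  exact km_eq (by norm_num) (by norm_num) _ _ _
theorem cw_eq (B G : ℕ) : cw B G = enc 40 4 (wB B G) := by
  unfold cw
  rw [ON640_eq]
  exact km_eq (by norm_num) (by norm_num) _ _ _

/-! spreading of sixteen entries -/

/-- coefficients of the product -/
def gc (f : ℕ → ℕ) (s : ℕ) : ℕ := ∑ i ∈ range 16, ∑ j ∈ range 16, if i + 15 * j = s then f i else 0

theorem gc_cnt : al 256 (fun s => Nat.ble (osum (fun i => osum (fun j => cnd (Nat.beq (Nat.add i (Nat.mul 15 j)) s) 1 0) 16) 16) 2) = true := by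
  decide +kernel

theorem cnd_ite (a b x : ℕ) : cnd (Nat.beq a b) x 0 = if a = b then x else 0 := by
  by_cases h : a = b
  · rw [if_pos h, h, Nat.beq_refl]; rfl
  · have : Nat.beq a b = false := by
      rw [← Bool.not_eq_true]; exact fun hh => h (Nat.eq_of_beq_eq_true hh)
    rw [if_neg h, this]; rfl

theorem gc_lt {f : ℕ → ℕ} (hf : ∀ i < 16, f i < 2 ^ 39) {s : ℕ} (hs : s < 256) : gc f s < 2 ^ 40 := by
  have h1 := Nat.le_of_ble_eq_true (al_true gc_cnt hs)
  simp only [osum_eq, cnd_ite] at h1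
  have h2 : gc f s ≤ (2 ^ 39 - 1) * ∑ i ∈ range 16, ∑ j ∈ range 16, (if Nat.add i (Nat.mul 15 j) = s then 1 else 0) := by
    unfold gc
    rw [mul_sum]
    refine sum_le_sum fun i hi => ?_
    rw [mul_sum]
    refine sum_le_sum fun j _ => ?_
    show (if i + 15 * j = s then f i else 0) ≤ (2 ^ 39 - 1) * (if i + 15 * j = s then 1 else 0)
    have := hf i (mem_range.mp hi)
    split_ifs
    · rw [mul_one]; omega
    · simp
  have h3 := Nat.mul_le_mul_left (2 ^ 39 - 1) h1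
  have h4 : (2 ^ 39 - 1) * 2 < 2 ^ 40 := by norm_num
  omega

theorem gc_diag (f : ℕ → ℕ) {y : ℕ} (hy : y < 16) : gc f (16 * y) = f y := by
  unfold gc
  have key : ∀ i ∈ range 16, (∑ j ∈ range 16, if i + 15 * j = 16 * y then f i else 0) = if i = y then f y else 0 := by
    intro i hi
    have hi' := mem_range.mp hi
    by_cases h : i = y
    · subst h
      rw [if_pos rfl, sum_eq_single i]
      · rw [if_pos (by ring)]
      · intro j hj hne
        have hj' := mem_range.mp hj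
        rw [if_neg (by omega)]
      · intro hn; exact absurd hi hn
    · rw [if_neg h]
      refine sum_eq_zero fun j hj => ?_
      have hj' := mem_range.mp hj
      rw [if_neg (by omega)]
  rw [sum_congr rfl key, sum_ite_eq' (range 16) y, if_pos (mem_range.mpr hy)]

theorem gen_gc (f : ℕ → ℕ) (b : ℕ) : (∑ i ∈ range 16, f i * b ^ i) * (∑ j ∈ range 16, b ^ (15 * j))
    = ∑ s ∈ range 256, gc f s * b ^ s := by
  have e1 : ∑ s ∈ range 256, gc f s * b ^ s
      = ∑ i ∈ range 16, ∑ j ∈ range 16, ∑ s ∈ range 256, (if i + 15 * j = s then f i else 0) * b ^ s := by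
    unfold gc
    simp only [sum_mul]
    rw [sum_comm]
    refine sum_congr rfl fun i _ => ?_
    rw [sum_comm]
  rw [e1, sum_mul_sum]
  refine sum_congr rfl fun i hi => sum_congr rfl fun j hj => ?_
  have hi' := mem_range.mp hi
  have hj' := mem_range.mp hj
  have e2 : ∀ s ∈ range 256, (if i + 15 * j = s then f i else 0) * b ^ s = if i + 15 * j = s then f i * b ^ (i + 15 * j) else 0 := by
    intro s _
    split_ifs with h
    · rw [h]
    · rw [zero_mul]
  rw [sum_congr rfl e2, sum_ite_eq, if_pos (mem_range.mpr (by omega)), mul_assoc, ← pow_add]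

theorem prod_gc (f : ℕ → ℕ) : enc 40 4 f * C600 = enc 40 8 (gc f) := by
  rw [C600_eq]
  have h := gen_gc f (2 ^ 40)
  have a1 : enc 40 4 f = ∑ i ∈ range 16, f i * (2 ^ 40) ^ i := by
    show ∑ i ∈ range 16, f i * 2 ^ (40 * i) = _
    exact sum_congr rfl fun i _ => by rw [pow_mul]
  have a2 : enc 600 4 (fun _ => 1) = ∑ j ∈ range 16, (2 ^ 40) ^ (15 * j) := by
    show ∑ i ∈ range 16, 1 * 2 ^ (600 * i) = _
    exact sum_congr rfl fun i _ => by
      have e : 600 * i = 40 * (15 * i) := by ring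
      rw [one_mul, e, pow_mul]
  have a3 : enc 40 8 (gc f) = ∑ s ∈ range 256, gc f s * (2 ^ 40) ^ s := by
    show ∑ s ∈ range 256, gc f s * 2 ^ (40 * s) = _
    exact sum_congr rfl fun i _ => by rw [pow_mul]
  rw [a1, a2, a3]
  exact h

theorem pg_fld {f : ℕ → ℕ} (hf : ∀ i < 16, f i < 2 ^ 39) {y : ℕ} (hy : y < 16) :
    enc 40 4 f * C600 / 2 ^ (640 * y) % 2 ^ 40 = f y := by
  rw [prod_gc]
  have h := fld_enc (s := 40) (n := 8) (f := gc f) (by norm_num) (fun s hs => gc_lt hf hs) (i := 16 * y) (by norm_num; omega)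
  rw [gc_diag f hy] at h
  unfold fld at h
  rw [show 640 * y = 40 * (16 * y) by ring]
  exact h

theorem spread_lo {f : ℕ → ℕ} (hf : ∀ i < 16, f i < 2 ^ 39) :
    Nat.land (Nat.mul (enc 40 4 f) C600) MSL = enc 640 4 (fun t => f t % 2 ^ 20) := by
  rw [MSL_eq, km_eq0 (by norm_num) (by norm_num)]
  refine enc_congr fun y hy => ?_
  have h := pg_fld hf (y := y) hy
  show enc 40 4 f * C600 / 2 ^ (640 * y) % 2 ^ 20 = _
  rw [← h, lo_eq]
theorem spread_hi {f : ℕ → ℕ} (hf : ∀ i < 16, f i < 2 ^ 39) :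
    Nat.land (Nat.shiftRight (Nat.mul (enc 40 4 f) C600) 20) MSL = enc 640 4 (fun t => f t / 2 ^ 20 % 2 ^ 20) := by
  rw [MSL_eq, km_eq (by norm_num) (by norm_num)]
  refine enc_congr fun y hy => ?_
  have h := pg_fld hf (y := y) hy
  show enc 40 4 f * C600 / 2 ^ (20 + 640 * y) % 2 ^ 20 = _
  rw [← h, hi_eq', add_comm 20]
theorem spread_w {f : ℕ → ℕ} (hf : ∀ i < 16, f i < 2 ^ 39) :
    Nat.land (Nat.mul (enc 40 4 f) C600) MK16 = enc 640 4 f := by
  rw [MK16_eq, km_eq0 (by norm_num) (by norm_num)]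
  refine enc_congr fun y hy => ?_
  have h := pg_fld hf (y := y) hy
  show enc 40 4 f * C600 / 2 ^ (640 * y) % 2 ^ 40 = _
  rw [h]

/-! spreading of thirty-two entries -/

/-- coefficients of the product -/
def gd (f : ℕ → ℕ) (s : ℕ) : ℕ := ∑ i ∈ range 32, ∑ j ∈ range 32, if i + 31 * j = s then f i else 0

theorem gd_cnt : al 1024 (fun s => Nat.ble (osum (fun i => osum (fun j => cnd (Nat.beq (Nat.add i (Nat.mul 31 j)) s) 1 0) 32) 32) 2) = true := by
  decide +kernel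

theorem gd_lt {f : ℕ → ℕ} (hf : ∀ i < 32, f i < 2 ^ 39) {s : ℕ} (hs : s < 1024) : gd f s < 2 ^ 40 := by
  have h1 := Nat.le_of_ble_eq_true (al_true gd_cnt hs)
  simp only [osum_eq, cnd_ite] at h1
  have h2 : gd f s ≤ (2 ^ 39 - 1) * ∑ i ∈ range 32, ∑ j ∈ range 32, (if Nat.add i (Nat.mul 31 j) = s then 1 else 0) := by
    unfold gd
    rw [mul_sum]
    refine sum_le_sum fun i hi => ?_
    rw [mul_sum]
    refine sum_le_sum fun j _ => ?_
    show (if i + 31 * j = s then f i else 0) ≤ (2 ^ 39 - 1) * (if i + 31 * j = s then 1 else 0)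
    have := hf i (mem_range.mp hi)
    split_ifs
    · rw [mul_one]; omega
    · simp
  have h3 := Nat.mul_le_mul_left (2 ^ 39 - 1) h1
  have h4 : (2 ^ 39 - 1) * 2 < 2 ^ 40 := by norm_num
  omega

theorem gd_diag (f : ℕ → ℕ) {y : ℕ} (hy : y < 32) : gd f (32 * y) = f y := by
  unfold gd
  have key : ∀ i ∈ range 32, (∑ j ∈ range 32, if i + 31 * j = 32 * y then f i else 0) = if i = y then f y else 0 := by
    intro i hi
    have hi' := mem_range.mp hi
    by_cases h : i = y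
    · subst h
      rw [if_pos rfl, sum_eq_single i]
      · rw [if_pos (by ring)]
      · intro j hj hne
        have hj' := mem_range.mp hj
        rw [if_neg (by omega)]
      · intro hn; exact absurd hi hn
    · rw [if_neg h]
      refine sum_eq_zero fun j hj => ?_
      have hj' := mem_range.mp hj
      rw [if_neg (by omega)]
  rw [sum_congr rfl key, sum_ite_eq' (range 32) y, if_pos (mem_range.mpr hy)]

theorem gen_gd (f : ℕ → ℕ) (b : ℕ) : (∑ i ∈ range 32, f i * b ^ i) * (∑ j ∈ range 32, b ^ (31 * j))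
    = ∑ s ∈ range 1024, gd f s * b ^ s := by
  have e1 : ∑ s ∈ range 1024, gd f s * b ^ s
      = ∑ i ∈ range 32, ∑ j ∈ range 32, ∑ s ∈ range 1024, (if i + 31 * j = s then f i else 0) * b ^ s := by
    unfold gd
    simp only [sum_mul]
    rw [sum_comm]
    refine sum_congr rfl fun i _ => ?_
    rw [sum_comm]
  rw [e1, sum_mul_sum]
  refine sum_congr rfl fun i hi => sum_congr rfl fun j hj => ?_
  have hi' := mem_range.mp hi
  have hj' := mem_range.mp hj
  have e2 : ∀ s ∈ range 1024, (if i + 31 * j = s then f i else 0) * b ^ s = if i + 31 * j = s then f i * b ^ (i + 31 * j) else 0 := by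
    intro s _
    split_ifs with h
    · rw [h]
    · rw [zero_mul]
  rw [sum_congr rfl e2, sum_ite_eq, if_pos (mem_range.mpr (by omega)), mul_assoc, ← pow_add]

theorem prod_gd (f : ℕ → ℕ) : enc 40 5 f * C1240 = enc 40 10 (gd f) := by
  rw [C1240_eq]
  have h := gen_gd f (2 ^ 40)
  have a1 : enc 40 5 f = ∑ i ∈ range 32, f i * (2 ^ 40) ^ i := by
    show ∑ i ∈ range 32, f i * 2 ^ (40 * i) = _
    exact sum_congr rfl fun i _ => by rw [pow_mul]
  have a2 : enc 1240 5 (fun _ => 1) = ∑ j ∈ range 32, (2 ^ 40) ^ (31 * j) := by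
    show ∑ i ∈ range 32, 1 * 2 ^ (1240 * i) = _
    exact sum_congr rfl fun i _ => by
      have e : 1240 * i = 40 * (31 * i) := by ring
      rw [one_mul, e, pow_mul]
  have a3 : enc 40 10 (gd f) = ∑ s ∈ range 1024, gd f s * (2 ^ 40) ^ s := by
    show ∑ s ∈ range 1024, gd f s * 2 ^ (40 * s) = _
    exact sum_congr rfl fun i _ => by rw [pow_mul]
  rw [a1, a2, a3]
  exact h

theorem pd_fld {f : ℕ → ℕ} (hf : ∀ i < 32, f i < 2 ^ 39) {y : ℕ} (hy : y < 32) :
    enc 40 5 f * C1240 / 2 ^ (1280 * y) % 2 ^ 40 = f y := by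
  rw [prod_gd]
  have h := fld_enc (s := 40) (n := 10) (f := gd f) (by norm_num) (fun s hs => gd_lt hf hs) (i := 32 * y) (by norm_num; omega)
  rw [gd_diag f hy] at h
  unfold fld at h
  rw [show 1280 * y = 40 * (32 * y) by ring]
  exact h

theorem spread_lo32 {f : ℕ → ℕ} (hf : ∀ i < 32, f i < 2 ^ 39) :
    Nat.land (Nat.mul (enc 40 5 f) C1240) MSL32 = enc 1280 5 (fun t => f t % 2 ^ 20) := by
  rw [MSL32_eq, km_eq0 (by norm_num) (by norm_num)]
  refine enc_congr fun y hy => ?_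
  have h := pd_fld hf (y := y) hy
  show enc 40 5 f * C1240 / 2 ^ (1280 * y) % 2 ^ 20 = _
  rw [← h, lo_eq]
theorem spread_hi32 {f : ℕ → ℕ} (hf : ∀ i < 32, f i < 2 ^ 39) :
    Nat.land (Nat.shiftRight (Nat.mul (enc 40 5 f) C1240) 20) MSL32 = enc 1280 5 (fun t => f t / 2 ^ 20 % 2 ^ 20) := by
  rw [MSL32_eq, km_eq (by norm_num) (by norm_num)]
  refine enc_congr fun y hy => ?_
  have h := pd_fld hf (y := y) hy
  show enc 40 5 f * C1240 / 2 ^ (20 + 1280 * y) % 2 ^ 20 = _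
  rw [← h, hi_eq', add_comm 20]
theorem spread_w32 {f : ℕ → ℕ} (hf : ∀ i < 32, f i < 2 ^ 39) :
    Nat.land (Nat.mul (enc 40 5 f) C1240) MK32 = enc 1280 5 f := by
  rw [MK32_eq, km_eq0 (by norm_num) (by norm_num)]
  refine enc_congr fun y hy => ?_
  have h := pd_fld hf (y := y) hy
  show enc 40 5 f * C1240 / 2 ^ (1280 * y) % 2 ^ 40 = _
  rw [h]

end

end Pool.Agent.H68.F7
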