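import Pool.Agent.H68.F7.Steps

/-! The frames: values of the steps in terms of set functions; the total. -/

set_option autoImplicit false
set_option maxRecDepth 100000
set_option maxHeartbeats 4000000
set_option exponentiation.threshold 3000000
open Finset Equiv

namespace Pool.Agent.H68.F7

noncomputable section

open Pool.Agent.Y435.T7 (bt sb st cnd al d2 enc enc_congr enc_add enc_inj)
open Pool.Agent.N443 (mkN mkN_add mkN_div mkN_mod mkN_congr bt_mkN mkN_lt codeN act act_act act_one Cl Kp Inv7 Psi Psi_list pr Stp Grp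
  fl3 tot3 phi3 phi3_lt phi3_mkN tau3 pcd encLand enc_eq_zero ltLand bt_le)

/-- the values of the steps -/
def Bv (F5 F3 : ℕ → ℕ → ℕ → ℕ) (k c i : ℕ) : ℕ :=
  if k = 0 then F5 (c % 16 + 16 * (i / 256)) (i / 16 % 16 + 16 * (c / 16 % 64)) (i % 16 + 16 * (c / 1024 % 64))
  else if k = 1 then F5 (c % 1024) (c / 1024 % 1024) i
  else if k = 2 then F3 (i / 1024) (i % 32 + 32 * (c % 16)) (i / 32 % 32 + 32 * (c / 16 % 16))
  else F3 (c / 4096 % 2) (c % 512) (phi3 opD (i + 64 * (c / 512 % 8)))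

/-- the values of a set function -/
def GG (F5 : ℕ → ℕ → ℕ → ℕ) (g : Finset (Fin 7) → ℕ) : ℕ := F5 (codeN 10 RM g) (codeN 10 RA g) (codeN 10 RB g)
def GH (F3 : ℕ → ℕ → ℕ → ℕ) (g : Finset (Fin 7) → ℕ) : ℕ := F3 (g {0, 1, 2}) (codeN 9 Q1 g) (codeN 9 Q2 g)

theorem dv {n : ℕ} {b : ℕ → ℕ} (hb : ∀ j, b j ≤ 1) (k r : ℕ) (h : k + r ≤ n) : mkN n b / 2 ^ k % 2 ^ r = mkN r (fun j => b (j + k)) := by
  rw [mkN_div (by omega) hb, mkN_mod (by omega) fun j => hb _]

theorem cong {n : ℕ} {g : Finset (Fin 7) → ℕ} (A B : ℕ → Finset (Fin 7)) (h : ∀ j < n, A j = B j) :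
    mkN n (fun j => g (A j)) = mkN n (fun j => g (B j)) := mkN_congr fun j hj => by rw [h j hj]

variable {F5 F3 : ℕ → ℕ → ℕ → ℕ}

theorem Bv_eq0 {g : Finset (Fin 7) → ℕ} (hg : ∀ Q, g Q ≤ 1) : Bv F5 F3 0 (codeN 16 CL0 g) (codeN 14 LL0 g) = GG F5 (act al0 g) := by
  have hc : ∀ j, (fun j => g (CL0.getD j ∅)) j ≤ 1 := fun j => hg _
  have hl : ∀ j, (fun j => g (LL0.getD j ∅)) j ≤ 1 := fun j => hg _
  have spl : ∀ (L : List (Finset (Fin 7))) (h : Finset (Fin 7) → ℕ),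
      codeN 10 L h = mkN 4 (fun j => h (L.getD j ∅)) + 16 * mkN 6 (fun j => h (L.getD (j + 4) ∅)) := fun L h => mkN_add 4 6 _
  have c0 : codeN 16 CL0 g % 16 = mkN 4 (fun j => g (CL0.getD j ∅)) := mkN_mod (k := 4) (by norm_num) hc
  have c1 : codeN 16 CL0 g / 16 % 64 = mkN 6 (fun j => g (CL0.getD (j + 4) ∅)) := dv hc 4 6 (by norm_num)
  have c2 : codeN 16 CL0 g / 1024 % 64 = mkN 6 (fun j => g (CL0.getD (j + 10) ∅)) := dv hc 10 6 (by norm_num)
  have l0 : codeN 14 LL0 g % 16 = mkN 4 (fun j => g (LL0.getD j ∅)) := mkN_mod (k := 4) (by norm_num) hl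
  have l1 : codeN 14 LL0 g / 16 % 16 = mkN 4 (fun j => g (LL0.getD (j + 4) ∅)) := dv hl 4 4 (by norm_num)
  have l2 : codeN 14 LL0 g / 256 = mkN 6 (fun j => g (LL0.getD (j + 8) ∅)) := mkN_div (k := 8) (by norm_num) hl
  have e1 : codeN 16 CL0 g % 16 + 16 * (codeN 14 LL0 g / 256) = codeN 10 RM (act al0 g) := by
    rw [c0, l2, spl]
    exact congrArg₂ (fun a b => a + 16 * b) (cong _ _ (by decide +kernel)) (cong _ _ (by decide +kernel))
  have e2 : codeN 14 LL0 g / 16 % 16 + 16 * (codeN 16 CL0 g / 16 % 64) = codeN 10 RA (act al0 g) := by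
    rw [l1, c1, spl]
    exact congrArg₂ (fun a b => a + 16 * b) (cong _ _ (by decide +kernel)) (cong _ _ (by decide +kernel))
  have e3 : codeN 14 LL0 g % 16 + 16 * (codeN 16 CL0 g / 1024 % 64) = codeN 10 RB (act al0 g) := by
    rw [l0, c2, spl]
    exact congrArg₂ (fun a b => a + 16 * b) (cong _ _ (by decide +kernel)) (cong _ _ (by decide +kernel))
  unfold Bv GG
  rw [if_pos rfl, e1, e2, e3]

theorem Bv_eq1 {g : Finset (Fin 7) → ℕ} (hg : ∀ Q, g Q ≤ 1) : Bv F5 F3 1 (codeN 20 CL1 g) (codeN 10 RB g) = GG F5 g := by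
  have hc : ∀ j, (fun j => g (CL1.getD j ∅)) j ≤ 1 := fun j => hg _
  have c0 : codeN 20 CL1 g % 1024 = mkN 10 (fun j => g (CL1.getD j ∅)) := mkN_mod (k := 10) (by norm_num) hc
  have c1 : codeN 20 CL1 g / 1024 % 1024 = mkN 10 (fun j => g (CL1.getD (j + 10) ∅)) := dv hc 10 10 (by norm_num)
  have e1 : codeN 20 CL1 g % 1024 = codeN 10 RM g := by
    rw [c0]; exact cong _ _ (by decide +kernel)
  have e2 : codeN 20 CL1 g / 1024 % 1024 = codeN 10 RA g := by
    rw [c1]; exact cong _ _ (by decide +kernel)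
  unfold Bv GG
  rw [if_neg (by norm_num), if_pos rfl, e1, e2]

theorem Bv_eq2 {g : Finset (Fin 7) → ℕ} (hg : ∀ Q, g Q ≤ 1) : Bv F5 F3 2 (codeN 8 CL2 g) (codeN 11 LL2 g) = GH F3 (act al2 g) := by
  have hc : ∀ j, (fun j => g (CL2.getD j ∅)) j ≤ 1 := fun j => hg _
  have hl : ∀ j, (fun j => g (LL2.getD j ∅)) j ≤ 1 := fun j => hg _
  have spl : ∀ (L : List (Finset (Fin 7))) (h : Finset (Fin 7) → ℕ),
      codeN 9 L h = mkN 5 (fun j => h (L.getD j ∅)) + 32 * mkN 4 (fun j => h (L.getD (j + 5) ∅)) := fun L h => mkN_add 5 4 _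
  have c0 : codeN 8 CL2 g % 16 = mkN 4 (fun j => g (CL2.getD j ∅)) := mkN_mod (k := 4) (by norm_num) hc
  have c1 : codeN 8 CL2 g / 16 % 16 = mkN 4 (fun j => g (CL2.getD (j + 4) ∅)) := dv hc 4 4 (by norm_num)
  have l0 : codeN 11 LL2 g % 32 = mkN 5 (fun j => g (LL2.getD j ∅)) := mkN_mod (k := 5) (by norm_num) hl
  have l1 : codeN 11 LL2 g / 32 % 32 = mkN 5 (fun j => g (LL2.getD (j + 5) ∅)) := dv hl 5 5 (by norm_num)
  have l2 : codeN 11 LL2 g / 1024 = mkN 1 (fun j => g (LL2.getD (j + 10) ∅)) := mkN_div (k := 10) (by norm_num) hl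
  have e1 : codeN 11 LL2 g / 1024 = act al2 g {0, 1, 2} := by
    rw [l2]
    have h1 : mkN 1 (fun j => g (LL2.getD (j + 10) ∅)) = g (LL2.getD 10 ∅) := by simp [mkN]
    rw [h1]
    unfold act
    congr 1
    decide +kernel
  have e2 : codeN 11 LL2 g % 32 + 32 * (codeN 8 CL2 g % 16) = codeN 9 Q1 (act al2 g) := by
    rw [l0, c0, spl]
    exact congrArg₂ (fun a b => a + 32 * b) (cong _ _ (by decide +kernel)) (cong _ _ (by decide +kernel))
  have e3 : codeN 11 LL2 g / 32 % 32 + 32 * (codeN 8 CL2 g / 16 % 16) = codeN 9 Q2 (act al2 g) := by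
    rw [l1, c1, spl]
    exact congrArg₂ (fun a b => a + 32 * b) (cong _ _ (by decide +kernel)) (cong _ _ (by decide +kernel))
  unfold Bv GH
  rw [if_neg (by norm_num), if_neg (by norm_num), if_pos rfl, e1, e2, e3]

theorem Bv_eq3 {g : Finset (Fin 7) → ℕ} (hg : ∀ Q, g Q ≤ 1) : Bv F5 F3 3 (codeN 13 CL3 g) (codeN 6 LL3 g) = GH F3 g := by
  have hc : ∀ j, (fun j => g (CL3.getD j ∅)) j ≤ 1 := fun j => hg _
  have c0 : codeN 13 CL3 g % 512 = mkN 9 (fun j => g (CL3.getD j ∅)) := mkN_mod (k := 9) (by norm_num) hc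
  have c1 : codeN 13 CL3 g / 512 % 8 = mkN 3 (fun j => g (CL3.getD (j + 9) ∅)) := dv hc 9 3 (by norm_num)
  have c2 : codeN 13 CL3 g / 4096 % 2 = mkN 1 (fun j => g (CL3.getD (j + 12) ∅)) := dv hc 12 1 (by norm_num)
  have e1 : codeN 13 CL3 g / 4096 % 2 = g {0, 1, 2} := by
    rw [c2]
    have h1 : mkN 1 (fun j => g (CL3.getD (j + 12) ∅)) = g (CL3.getD 12 ∅) := by simp [mkN]
    rw [h1]
    rfl
  have e2 : codeN 13 CL3 g % 512 = codeN 9 Q1 g := by
    rw [c0]; exact cong _ _ (by decide +kernel)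
  have e3 : phi3 opD (codeN 6 LL3 g + 64 * (codeN 13 CL3 g / 512 % 8)) = codeN 9 Q2 g := by
    have h1 : codeN 6 LL3 g + 64 * (codeN 13 CL3 g / 512 % 8) = mkN 9 (fun j => g (LQ.getD j ∅)) := by
      have h2 : mkN 9 (fun j => g (LQ.getD j ∅)) = mkN 6 (fun j => g (LQ.getD j ∅)) + 64 * mkN 3 (fun j => g (LQ.getD (j + 6) ∅)) :=
        mkN_add 6 3 _
      rw [h2, c1]
      exact congrArg₂ (fun a b => a + 64 * b) (cong _ _ (by decide +kernel)) (cong _ _ (by decide +kernel))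
    rw [h1, phi3_mkN opD opD_wf fun j => hg _]
    exact mkN_congr fun j hj => by rw [opD_tau j hj]
  unfold Bv GH
  rw [if_neg (by norm_num), if_neg (by norm_num), if_neg (by norm_num), e1, e2, e3]

/-- the value of a code and a link -/
def SV (F5 F3 : ℕ → ℕ → ℕ → ℕ) (c i : ℕ) : ℕ := ((fl3 GS).map fun s => Bv F5 F3 s.1 (pcd s.2.1 c) (phi3 s.2.2 i)).sum

theorem opD_lt {i : ℕ} (hi : i < 512) : phi3 opD i < 512 := phi3_lt (nf := 9) opD opD_wf (n := 9) hi

theorem Bv_le {D5 D3 : ℕ} (h5 : ∀ m < 1024, ∀ f1 < 1024, ∀ f2 < 1024, F5 m f1 f2 ≤ D5)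
    (h3 : ∀ b < 2, ∀ f1 < 512, ∀ f2 < 512, F3 b f1 f2 ≤ D3) (k c i : ℕ) (hi : i < 2 ^ NN k) :
    Bv F5 F3 k c i ≤ if k < 2 then D5 else D3 := by
  unfold Bv NN at *
  by_cases k0 : k = 0
  · subst k0
    rw [if_pos rfl] at hi
    rw [if_pos rfl, if_pos (by norm_num)]
    norm_num at hi
    exact h5 _ (by omega) _ (by omega) _ (by omega)
  by_cases k1 : k = 1
  · subst k1
    rw [if_neg k0, if_pos rfl] at hi
    rw [if_neg k0, if_pos rfl, if_pos (by norm_num)]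
    norm_num at hi
    exact h5 _ (by omega) _ (by omega) _ (by omega)
  by_cases k2 : k = 2
  · subst k2
    rw [if_neg k0, if_neg k1, if_pos rfl] at hi
    rw [if_neg k0, if_neg k1, if_pos rfl, if_neg (by norm_num)]
    norm_num at hi
    exact h3 _ (by omega) _ (by omega) _ (by omega)
  · rw [if_neg k0, if_neg k1, if_neg k2] at hi
    rw [if_neg k0, if_neg k1, if_neg k2, if_neg (by omega)]
    norm_num at hi
    exact h3 _ (by omega) _ (by omega) _ (opD_lt (by omega))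

theorem tot_eq {BK : ℕ → ℕ → ℕ} {D5 D3 : ℕ} (hB : ∀ k c, BK k c = enc 40 (NN k) (Bv F5 F3 k c))
    (h5 : ∀ m < 1024, ∀ f1 < 1024, ∀ f2 < 1024, F5 m f1 f2 ≤ D5) (h3 : ∀ b < 2, ∀ f1 < 512, ∀ f2 < 512, F3 b f1 f2 ≤ D3)
    (hD5 : D5 ≤ 2 ^ 34) (hD3 : D3 ≤ 2 ^ 33) (c : ℕ) : tot3 BK GS c = enc 40 15 (SV F5 F3 c) := by
  refine tot3_enc (M := MM) hB (fun k c i hi => (Bv_le h5 h3 k c i hi).trans ?_) MM_lt GS GS_wf c
  unfold MM
  split_ifs <;> omega

theorem SV_le {D5 D3 : ℕ} (h5 : ∀ m < 1024, ∀ f1 < 1024, ∀ f2 < 1024, F5 m f1 f2 ≤ D5)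
    (h3 : ∀ b < 2, ∀ f1 < 512, ∀ f2 < 512, F3 b f1 f2 ≤ D3) (c : ℕ) {i : ℕ} (hi : i < 2 ^ 15) : SV F5 F3 c i ≤ 21 * D5 + 105 * D3 := by
  unfold SV
  rw [← SP_fst, List.map_map]
  have h1 : (SP.map ((fun s => Bv F5 F3 s.1 (pcd s.2.1 c) (phi3 s.2.2 i)) ∘ Prod.fst)).sum
      ≤ (SP.map fun x => if x.1.1 < 2 then D5 else D3).sum :=
    List.sum_le_sum fun x hx => Bv_le h5 h3 _ _ _ (phi3_lt _ (okS_spec (SP_ok x hx) (g := fun _ => 0) (fun _ => by norm_num)).1 hi)
  refine h1.trans (le_of_eq ?_)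
  have h2 : ∀ L : List (Stp × Perm (Fin 7)), (L.map fun x => if x.1.1 < 2 then D5 else D3).sum
      = (L.filter fun x => decide (x.1.1 < 2)).length * D5 + (L.filter fun x => !decide (x.1.1 < 2)).length * D3 := by
    intro L
    induction L with
    | nil => simp
    | cons x L ih =>
      rw [List.map_cons, List.sum_cons, ih]
      by_cases h : x.1.1 < 2
      · rw [if_pos h, List.filter_cons_of_pos (by simpa using h), List.filter_cons_of_neg (by simpa using h), List.length_cons]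
        ring
      · rw [if_neg h, List.filter_cons_of_neg (by simpa using h), List.filter_cons_of_pos (by simpa using h), List.length_cons]
        ring
  rw [h2]
  have e1 : (SP.filter fun x => decide (x.1.1 < 2)).length = 21 := by decide +kernel
  have e2 : (SP.filter fun x => !decide (x.1.1 < 2)).length = 105 := by decide +kernel
  rw [e1, e2]

variable {κ : ℕ}

theorem SV_eq (h7 : Inv7 (Val κ) (GG F5)) (h3 : Inv3 (Val κ) (GH F3)) {g : Finset (Fin 7) → ℕ} (hg : Val κ g) :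
    48 * SV F5 F3 (codeN 20 CQ g) (codeN 15 LF g) = 48 * Psi (GG F5) g + SG (GH F3) g := by
  rw [Psi_list h7 PL5 PL5_nodup PL5_len hg, SG_list h3 PL3 PL3_nodup PL3_len hg, ← mul_add]
  refine congrArg (fun x => 48 * x) ?_
  unfold SV
  rw [← SP_fst, ← PL5_eq, ← PL3_eq]
  have key : ∀ L : List (Stp × Perm (Fin 7)), (∀ x ∈ L, okS (NN x.1.1) 15 20 CQ (CLk x.1.1) (LLk x.1.1) LF x.1 x.2 = true) →
      ((L.map Prod.fst).map fun s => Bv F5 F3 s.1 (pcd s.2.1 (codeN 20 CQ g)) (phi3 s.2.2 (codeN 15 LF g))).sum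
      = ((L.flatMap f5).map fun σ => GG F5 (act σ g)).sum + ((L.flatMap f3).map fun σ => GH F3 (act σ g)).sum := by
    intro L
    induction L with
    | nil => intro _; rfl
    | cons x L ih =>
      intro hL
      rw [List.map_cons, List.map_cons, List.sum_cons, List.flatMap_cons, List.flatMap_cons, List.map_append, List.map_append,
        List.sum_append, List.sum_append, ih fun y hy => hL y (List.mem_cons_of_mem _ hy)]
      obtain ⟨-, h2, h3⟩ := okS_spec (hL x List.mem_cons_self) hg.1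
      have hx := (Val_cl κ g hg x.2).1
      have e : Bv F5 F3 x.1.1 (pcd x.1.2.1 (codeN 20 CQ g)) (phi3 x.1.2.2 (codeN 15 LF g))
          = ((f5 x).map fun σ => GG F5 (act σ g)).sum + ((f3 x).map fun σ => GH F3 (act σ g)).sum := by
        rw [h2, h3]
        unfold f5 f3 CLk LLk NN
        by_cases k0 : x.1.1 = 0
        · simp only [k0, if_true]
          have := Bv_eq0 (F5 := F5) (F3 := F3) hx
          rw [act_act] at this
          simpa [show CL0.length = 16 from rfl] using this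
        by_cases k1 : x.1.1 = 1
        · simp only [k1, if_true, if_neg (show ¬ (1 : ℕ) = 0 by norm_num)]
          have := Bv_eq1 (F5 := F5) (F3 := F3) hx
          simpa [show CL1.length = 20 from rfl] using this
        by_cases k2 : x.1.1 = 2
        · simp only [k2, if_true, if_neg (show ¬ (2 : ℕ) = 0 by norm_num), if_neg (show ¬ (2 : ℕ) = 1 by norm_num)]
          have := Bv_eq2 (F5 := F5) (F3 := F3) hx
          rw [act_act] at this
          simpa [show CL2.length = 8 from rfl] using this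
        · simp only [k0, k1, k2, if_false]
          have := Bv_eq3 (F5 := F5) (F3 := F3) hx
          have e3 : ∀ c i, Bv F5 F3 x.1.1 c i = Bv F5 F3 3 c i := by
            intro c i
            unfold Bv
            simp only [k0, k1, k2, if_false, if_neg (show ¬ (3 : ℕ) = 0 by norm_num), if_neg (show ¬ (3 : ℕ) = 1 by norm_num),
              if_neg (show ¬ (3 : ℕ) = 2 by norm_num)]
          rw [e3]
          simpa [show CL3.length = 13 from rfl] using this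
      rw [e]
      omega
  exact key SP SP_ok

/-- the check of a code -/
theorem chk_spec {BK : ℕ → ℕ → ℕ} {D5 D3 cC : ℕ} (hB : ∀ k c, BK k c = enc 40 (NN k) (Bv F5 F3 k c))
    (h5 : ∀ m < 1024, ∀ f1 < 1024, ∀ f2 < 1024, F5 m f1 f2 ≤ D5) (h3 : ∀ b < 2, ∀ f1 < 512, ∀ f2 < 512, F3 b f1 f2 ≤ D3)
    (hD5 : D5 ≤ 2 ^ 34) (hD3 : D3 ≤ 2 ^ 33) (hD : 21 * D5 + 105 * D3 + (549755813887 - cC) < 2 ^ 40) (hC : cC ≤ 549755813887) {c : ℕ}
    (h : Nat.beq (Nat.land (Nat.add (tot3 BK GS c) (dn 15 (Nat.sub 549755813887 cC))) (dn 15 549755813888)) 0 = true)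
    {i : ℕ} (hi : i < 2 ^ 15) : SV F5 F3 c i ≤ cC := by
  rw [tot_eq hB h5 h3 hD5 hD3, dn_eq, dn_eq] at h
  have h1 := Nat.eq_of_beq_eq_true h
  have e1 : Nat.add (enc 40 15 (SV F5 F3 c)) (enc 40 15 (fun _ => Nat.sub 549755813887 cC)) =
      enc 40 15 (fun i => SV F5 F3 c i + Nat.sub 549755813887 cC) := enc_add _ _ _ _
  have e2 : Nat.sub 549755813887 cC = 549755813887 - cC := rfl
  have hlt : ∀ i < 2 ^ 15, (fun i => SV F5 F3 c i + Nat.sub 549755813887 cC) i < 2 ^ 40 := fun i hi => by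
    have := SV_le h5 h3 c hi
    show SV F5 F3 c i + Nat.sub 549755813887 cC < 2 ^ 40
    rw [e2]
    omega
  have hk : ∀ i < 2 ^ 15, (fun _ : ℕ => 549755813888) i < 2 ^ 40 := fun i _ => by norm_num
  rw [e1, encLand (by norm_num) hlt hk] at h1
  have h2 := enc_eq_zero (by norm_num) (fun i hi => lt_of_le_of_lt (Nat.and_le_left (n := SV F5 F3 c i + Nat.sub 549755813887 cC)) (hlt i hi)) h1 hi
  have h3 := ltLand (x := SV F5 F3 c i + Nat.sub 549755813887 cC) (w := 39) (hlt i hi) (by norm_num) h2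
  rw [e2] at h3
  norm_num at h3
  omega

end

end Pool.Agent.H68.F7
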