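import Pool.Agent.H68.F7.Op
import Pool.Graph.R_pool_sql_team_seeded_63374d34.N443.Core.Cls

/-! Repeated entries, vectors of bits, vectors of admissible entries. -/

set_option autoImplicit false
set_option maxRecDepth 100000
set_option exponentiation.threshold 200000
set_option maxHeartbeats 4000000
open Finset

namespace Pool.Agent.H68.F7

open Pool.Agent.Y435.T7 (bt sb st cnd al d2 swp as1 as2 as3 as4 enc fld enc_congr enc_zero enc_succ enc_lt enc_add enc_mulc
  enc_prod enc_nest enc_testBit fld_testBit fld_lt fld_enc enc_fld fld_fld enc_inj land_ones land_ones0 swp_enc sb_lt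
  bt_lt bt_add bt_add_self bt01)
open Pool.Agent.N443 (st_eq al_true cnd_and enc_const_succ enc_rep as_step as4_eq osum osum_eq osum_enc encLand enc_eq_zero
  ltLand bt_le)

noncomputable section

def as5 (s : ℕ) (F : ℕ → ℕ) (k : ℕ) : ℕ := Nat.add (as4 s F k) (Nat.shiftLeft (as4 s F (Nat.add k 16)) (Nat.mul s 16))
def as6 (s : ℕ) (F : ℕ → ℕ) (k : ℕ) : ℕ := Nat.add (as5 s F k) (Nat.shiftLeft (as5 s F (Nat.add k 32)) (Nat.mul s 32))

theorem as6_eq0 (s : ℕ) (F : ℕ → ℕ) : as6 s F 0 = enc s 6 F := by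
  have h5 : ∀ k, as5 s F k = enc s 5 (fun j => F (k + j)) := as_step (as4_eq s F)
  have h6 : as6 s F 0 = enc s 6 (fun j => F (0 + j)) := as_step h5 0
  exact h6.trans (enc_congr fun i _ => by rw [zero_add])

/-- repeated entries -/
def dn (n x : ℕ) : ℕ := @Nat.rec (fun _ => ℕ) x (fun k ih => d2 (Nat.mul 40 (Nat.pow 2 k)) ih) n

theorem dn_eq (n x : ℕ) : dn n x = enc 40 n (fun _ => x) := by
  induction n with
  | zero => rw [enc_zero]; rfl
  | succ n ih =>
    rw [enc_const_succ, ← ih]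
    rfl

/-- entries: bit `p` of the index -/
def IB (p n : ℕ) : ℕ := @Nat.rec (fun _ => ℕ) 0 (fun k v => cnd (Nat.beq k p)
  (Nat.shiftLeft (dn k 1) (Nat.mul 40 (Nat.pow 2 k))) (d2 (Nat.mul 40 (Nat.pow 2 k)) v)) n

theorem bt_mod (p n i : ℕ) (h : p < n) : bt p (i % 2 ^ n) = bt p i := by
  rw [Pool.Agent.Y435.T7.bt_eq, Pool.Agent.Y435.T7.bt_eq]
  obtain ⟨r, rfl⟩ : ∃ r, n = p + (r + 1) := ⟨n - p - 1, by omega⟩
  rw [pow_add, Nat.mod_mul_right_div_self, pow_succ', Nat.mod_mul_right_mod]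

theorem IB_eq (p n : ℕ) : IB p n = enc 40 n (bt p) := by
  induction n with
  | zero => rw [enc_zero]; show 0 = _; rw [bt_lt (by positivity)]
  | succ n ih =>
    have e : IB p (n + 1) = cnd (Nat.beq n p) (Nat.shiftLeft (dn n 1) (Nat.mul 40 (Nat.pow 2 n)))
      (d2 (Nat.mul 40 (Nat.pow 2 n)) (IB p n)) := rfl
    rw [e]
    by_cases h : n = p
    · subst h
      rw [Nat.beq_refl, cnd_t, enc_succ, dn_eq]
      have e1 : enc 40 n (bt n) = 0 := by
        have : enc 40 n (bt n) = enc 40 n (fun _ => 0) := enc_congr fun j hj => bt_lt hj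
        rw [this]; simp [enc]
      have e2 : enc 40 n (fun i => bt n (2 ^ n + i)) = enc 40 n (fun _ => 1) := enc_congr fun j hj => bt_add_self hj
      rw [e1, e2, zero_add]
      show (enc 40 n (fun _ => 1)) <<< (40 * 2 ^ n) = _
      rw [Nat.shiftLeft_eq]
    · have hb : Nat.beq n p = false := by
        rw [← Bool.not_eq_true]; exact fun hh => h (Nat.eq_of_beq_eq_true hh)
      rw [hb, cnd_f, ih]
      refine (enc_rep 40 n (bt p)).trans (enc_congr fun i hi => ?_)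
      rcases lt_trichotomy p n with h1 | h1 | h1
      · exact bt_mod p n i h1
      · exact absurd h1.symm h
      · have h2 : 2 ^ (n + 1) ≤ 2 ^ p := Nat.pow_le_pow_right (by norm_num) h1
        have h3 : 2 ^ n ≤ 2 ^ p := Nat.pow_le_pow_right (by norm_num) h1.le
        have h4 : i % 2 ^ n < 2 ^ n := Nat.mod_lt _ (by positivity)
        rw [bt_lt (by omega), bt_lt (by omega)]

/-- one if all bits of a list are one -/
def pb (f : ℕ) (l : List ℕ) : ℕ := @List.rec ℕ (fun _ => ℕ) 1 (fun p _ ih => Nat.land (bt p f) ih) l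

theorem pb_le (f : ℕ) (l : List ℕ) : pb f l ≤ 1 := by
  cases l with
  | nil => exact le_refl _
  | cons p l =>
    show bt p f &&& pb f l ≤ 1
    exact Nat.and_le_left.trans (bt_le p f)

theorem pb_one {f : ℕ} {l : List ℕ} (h : pb f l ≠ 0) : ∀ p ∈ l, bt p f = 1 := by
  induction l with
  | nil => intro p hp; exact absurd hp List.not_mem_nil
  | cons q l ih =>
    have h' : bt q f &&& pb f l ≠ 0 := h
    rcases bt01 q f with h0 | h1
    · rw [h0, Nat.zero_and] at h'; exact absurd rfl h'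
    · have h2 : pb f l ≠ 0 := by
        intro h0; rw [h0, Nat.and_zero] at h'; exact h' rfl
      intro p hp
      rcases List.mem_cons.mp hp with rfl | hp
      · exact h1
      · exact ih h2 p hp

/-- entries: one if all bits of a list are one -/
def lnd (n : ℕ) (l : List ℕ) : ℕ := @List.rec ℕ (fun _ => ℕ) (dn n 1) (fun p _ ih => Nat.land (IB p n) ih) l

theorem lnd_eq (n : ℕ) (l : List ℕ) : lnd n l = enc 40 n (fun f => pb f l) := by
  induction l with
  | nil => exact dn_eq n 1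
  | cons p l ih =>
    have e : lnd n (p :: l) = Nat.land (IB p n) (lnd n l) := rfl
    rw [e, ih, IB_eq, encLand (by norm_num)]
    · rfl
    · intro i _
      exact lt_of_le_of_lt (bt_le p i) (by norm_num)
    · intro i _
      exact lt_of_le_of_lt (pb_le i l) (by norm_num)

/-- entries: one for the admissible flags -/
def vvN (n m : ℕ) (BX : List (List ℕ × List ℕ)) : ℕ := @List.rec (List ℕ × List ℕ) (fun _ => ℕ) (dn n 1) (fun x _ ih =>
  Nat.land (cnd (Nat.beq (pb m x.1) 1) (Nat.sub (dn n 1) (lnd n x.2)) (dn n 1)) ih) BX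
def vv (m f : ℕ) (BX : List (List ℕ × List ℕ)) : ℕ := @List.rec (List ℕ × List ℕ) (fun _ => ℕ) 1 (fun x _ ih =>
  Nat.land (cnd (Nat.beq (pb m x.1) 1) (Nat.sub 1 (pb f x.2)) 1) ih) BX

theorem enc_sub (n : ℕ) (f g : ℕ → ℕ) (h : ∀ i < 2 ^ n, g i ≤ f i) : enc 40 n f - enc 40 n g = enc 40 n (fun i => f i - g i) := by
  have h1 : enc 40 n g + enc 40 n (fun i => f i - g i) = enc 40 n f := by
    rw [enc_add]
    exact enc_congr fun i hi => by have := h i hi; omega
  omega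

theorem vv_cons (m f : ℕ) (x : List ℕ × List ℕ) (BX : List (List ℕ × List ℕ)) : vv m f (x :: BX) =
    Nat.land (cnd (Nat.beq (pb m x.1) 1) (Nat.sub 1 (pb f x.2)) 1) (vv m f BX) := rfl

theorem vv_le (m f : ℕ) (BX : List (List ℕ × List ℕ)) : vv m f BX ≤ 1 := by
  induction BX with
  | nil => exact le_refl _
  | cons x BX ih =>
    rw [vv_cons]
    exact (Nat.and_le_right (n := cnd (Nat.beq (pb m x.1) 1) (Nat.sub 1 (pb f x.2)) 1)).trans ih

theorem vvN_eq (n m : ℕ) (BX : List (List ℕ × List ℕ)) : vvN n m BX = enc 40 n (fun f => vv m f BX) := by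
  induction BX with
  | nil => exact dn_eq n 1
  | cons x BX ih =>
    have e : vvN n m (x :: BX) = Nat.land (cnd (Nat.beq (pb m x.1) 1) (Nat.sub (dn n 1) (lnd n x.2)) (dn n 1)) (vvN n m BX) := rfl
    have e2 : cnd (Nat.beq (pb m x.1) 1) (Nat.sub (dn n 1) (lnd n x.2)) (dn n 1)
        = enc 40 n (fun f => cnd (Nat.beq (pb m x.1) 1) (Nat.sub 1 (pb f x.2)) 1) := by
      cases Nat.beq (pb m x.1) 1
      · exact dn_eq n 1
      · rw [cnd_t, dn_eq, lnd_eq]
        exact enc_sub n _ _ fun i _ => pb_le i _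
    rw [e, ih, e2, encLand (by norm_num)]
    · rfl
    · intro i _
      refine lt_of_le_of_lt (b := 1) ?_ (by norm_num)
      cases Nat.beq (pb m x.1) 1
      · exact le_refl _
      · exact Nat.sub_le _ _
    · intro i _
      exact lt_of_le_of_lt (vv_le m i BX) (by norm_num)

theorem vv_one {m f : ℕ} {BX : List (List ℕ × List ℕ)}
    (h : ∀ x ∈ BX, (∃ i ∈ x.1, bt i m = 0) ∨ ∃ i ∈ x.2, bt i f = 0) : vv m f BX = 1 := by
  induction BX with
  | nil => rfl
  | cons x BX ih =>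
    rw [vv_cons, ih fun y hy => h y (List.mem_cons_of_mem _ hy)]
    have e : cnd (Nat.beq (pb m x.1) 1) (Nat.sub 1 (pb f x.2)) 1 = 1 := by
      rcases h x List.mem_cons_self with ⟨i, hi, h0⟩ | ⟨i, hi, h0⟩
      · have : pb m x.1 = 0 := by
          by_contra hne
          have := pb_one hne i hi
          omega
        rw [this]; rfl
      · have : pb f x.2 = 0 := by
          by_contra hne
          have := pb_one hne i hi
          omega
        rw [this]
        cases Nat.beq (pb m x.1) 1 <;> rfl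
    rw [e]; rfl

/-- mask of the upper bits of the entries -/
def hmn (n w : ℕ) : ℕ := dn n (Nat.sub 1099511627776 (Nat.pow 2 w))

theorem hmn_eq (n w : ℕ) : hmn n w = enc 40 n (fun _ => 2 ^ 40 - 2 ^ w) := dn_eq n _

theorem dec {n : ℕ} {φ ψ : ℕ → ℕ} (hφ : ∀ f < 2 ^ n, φ f < 2 ^ 40) (hψ : ∀ f < 2 ^ n, ψ f < 2 ^ 40)
    (h : enc 40 n φ = enc 40 n ψ) {f : ℕ} (hf : f < 2 ^ n) : φ f = ψ f :=
  enc_inj (s := 40) (n := n) (by norm_num) hφ hψ h hf

theorem dec_hm {n : ℕ} {φ : ℕ → ℕ} (hφ : ∀ f < 2 ^ n, φ f < 2 ^ 40) {w : ℕ} (hw : w ≤ 40)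
    (h : Nat.land (enc 40 n φ) (hmn n w) = 0) {f : ℕ} (hf : f < 2 ^ n) : φ f < 2 ^ w := by
  have hk : ∀ i < 2 ^ n, (fun _ : ℕ => 2 ^ 40 - 2 ^ w) i < 2 ^ 40 := fun i _ => Nat.sub_lt (by positivity) (by positivity)
  rw [hmn_eq, encLand (by norm_num) hφ hk] at h
  have h2 := enc_eq_zero (by norm_num) (fun i hi => lt_of_le_of_lt (Nat.and_le_left (n := φ i)) (hφ i hi)) h hf
  exact ltLand (hφ f hf) hw h2

/-! forms -/

theorem val_int {K : ℕ} {o u1 u2 : ℕ → ℕ} {w1 w2 c : ℕ} (h1 : w1 + ∑ k ∈ range K, o k * u1 k = c)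
    (h2 : w2 + ∑ k ∈ range K, o k * u2 k = c) :
    ((∑ k ∈ range K, u1 k * u2 k + (w1 + w2) : ℕ) : ℤ) = 2 * c - ∑ k ∈ range K, (o k : ℤ) ^ 2 +
      ∑ k ∈ range K, ((u1 k : ℤ) - o k) * ((u2 k : ℤ) - o k) := by
  have r1 : (w1 : ℤ) = c - ∑ k ∈ range K, (o k : ℤ) * u1 k := by
    have : ((w1 + ∑ k ∈ range K, o k * u1 k : ℕ) : ℤ) = (c : ℤ) := by rw [h1]
    push_cast at this
    linarith
  have r2 : (w2 : ℤ) = c - ∑ k ∈ range K, (o k : ℤ) * u2 k := by
    have : ((w2 + ∑ k ∈ range K, o k * u2 k : ℕ) : ℤ) = (c : ℤ) := by rw [h2]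
    push_cast at this
    linarith
  have h3 : ∑ k ∈ range K, ((u1 k : ℤ) - o k) * ((u2 k : ℤ) - o k)
      = ∑ k ∈ range K, (u1 k : ℤ) * (u2 k : ℤ) - ∑ k ∈ range K, (o k : ℤ) * u1 k
        - ∑ k ∈ range K, (o k : ℤ) * u2 k + ∑ k ∈ range K, (o k : ℤ) ^ 2 := by
    rw [← sum_sub_distrib, ← sum_sub_distrib, ← sum_add_distrib]
    exact sum_congr rfl fun k _ => by ring
  push_cast
  rw [h3, r1, r2]
  ring

theorem val_le {K : ℕ} {o u1 u2 : ℕ → ℕ} {w1 w2 c : ℕ} (g1 : ∀ k < K, u1 k ≤ 2 * o k) (g2 : ∀ k < K, u2 k ≤ 2 * o k)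
    (h1 : w1 + ∑ k ∈ range K, o k * u1 k ≤ c) (h2 : w2 + ∑ k ∈ range K, o k * u2 k ≤ c) :
    ∑ k ∈ range K, u1 k * u2 k + (w1 + w2) ≤ 2 * c := by
  have h3 : ∑ k ∈ range K, u1 k * u2 k ≤ ∑ k ∈ range K, o k * u1 k + ∑ k ∈ range K, o k * u2 k := by
    rw [← sum_add_distrib]
    refine sum_le_sum fun k hk => ?_
    have a1 := g1 k (mem_range.mp hk)
    have a2 := g2 k (mem_range.mp hk)
    rcases le_total (u1 k) (o k) with b1 | b1
    · rcases le_total (u2 k) (o k) with b2 | b2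
      · nlinarith
      · obtain ⟨d, hd⟩ := Nat.exists_eq_add_of_le b1
        obtain ⟨e, he⟩ := Nat.exists_eq_add_of_le b2
        nlinarith
    · rcases le_total (u2 k) (o k) with b2 | b2
      · obtain ⟨d, hd⟩ := Nat.exists_eq_add_of_le b1
        obtain ⟨e, he⟩ := Nat.exists_eq_add_of_le b2
        nlinarith
      · obtain ⟨d, hd⟩ := Nat.exists_eq_add_of_le b1
        obtain ⟨e, he⟩ := Nat.exists_eq_add_of_le b2
        obtain ⟨d', hd'⟩ := Nat.exists_eq_add_of_le a1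
        nlinarith
  omega

/-- invariance of the form under a signed permutation of the columns -/
theorem val_inv {K : ℕ} {o o' u1 u2 u1' u2' q iq : ℕ → ℕ}
    (hQ : ∀ k < K, q k < K ∧ iq (q k) = k ∧ iq k < K ∧ q (iq k) = k)
    (hR : ∀ k < K, o' (q k) = o k ∧ ((u1' (q k) = u1 k ∧ u2' (q k) = u2 k) ∨
      (u1 k + u1' (q k) = 2 * o k ∧ u2 k + u2' (q k) = 2 * o k))) :
    ∑ k ∈ range K, ((u1 k : ℤ) - o k) * ((u2 k : ℤ) - o k) = ∑ k ∈ range K, ((u1' k : ℤ) - o' k) * ((u2' k : ℤ) - o' k) ∧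
    ∑ k ∈ range K, (o k : ℤ) ^ 2 = ∑ k ∈ range K, (o' k : ℤ) ^ 2 := by
  constructor
  · refine sum_nbij' q iq ?_ ?_ ?_ ?_ ?_
    · intro k hk; exact mem_range.mpr (hQ k (mem_range.mp hk)).1
    · intro k hk; exact mem_range.mpr (hQ k (mem_range.mp hk)).2.2.1
    · intro k hk; exact (hQ k (mem_range.mp hk)).2.1
    · intro k hk; exact (hQ k (mem_range.mp hk)).2.2.2
    · intro k hk
      obtain ⟨e, r⟩ := hR k (mem_range.mp hk)
      rw [e]
      rcases r with ⟨r1, r2⟩ | ⟨r1, r2⟩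
      · rw [r1, r2]
      · have b1 : (u1' (q k) : ℤ) = 2 * o k - u1 k := by
          have : ((u1 k + u1' (q k) : ℕ) : ℤ) = ((2 * o k : ℕ) : ℤ) := by rw [r1]
          push_cast at this
          linarith
        have b2 : (u2' (q k) : ℤ) = 2 * o k - u2 k := by
          have : ((u2 k + u2' (q k) : ℕ) : ℤ) = ((2 * o k : ℕ) : ℤ) := by rw [r2]
          push_cast at this
          linarith
        rw [b1, b2]
        ring
  · refine sum_nbij' q iq ?_ ?_ ?_ ?_ ?_
    · intro k hk; exact mem_range.mpr (hQ k (mem_range.mp hk)).1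
    · intro k hk; exact mem_range.mpr (hQ k (mem_range.mp hk)).2.2.1
    · intro k hk; exact (hQ k (mem_range.mp hk)).2.1
    · intro k hk; exact (hQ k (mem_range.mp hk)).2.2.2
    · intro k hk
      rw [(hR k (mem_range.mp hk)).1]

end

end Pool.Agent.H68.F7
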