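import Pool.Graph.R_pool_sql_team_seeded_63374d34.N443.Core.Psi

/-! Sums over all permutations of the positions against sums over representatives: three roots and two pairs. -/

set_option autoImplicit false
set_option maxRecDepth 100000
open Finset Equiv

namespace Pool.Agent.H68.F7

open Pool.Agent.N443 (act act_one act_act Cl Kp Kp_mul Kp_one gv sum_act)

/-- the label of a permutation: the set of the roots and the two pairs -/
def lab (τ : Perm (Fin 7)) : Finset (Fin 7) × Finset (Finset (Fin 7)) :=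
  (({0, 1, 2} : Finset (Fin 7)).image τ, ({{3, 4}, {5, 6}} : Finset (Finset (Fin 7))).image fun X => X.image τ)

/-- numbers for labels -/
def kl (x : Finset (Fin 7) × Finset (Finset (Fin 7))) : ℕ := (∑ i ∈ x.1, 2 ^ i.val) + 128 * ∑ X ∈ x.2, (∑ i ∈ X, 2 ^ i.val) ^ 2
/-- numbers for permutations -/
def key (σ : Perm (Fin 7)) : ℕ :=
  (σ 0).val + 7 * ((σ 1).val + 7 * ((σ 2).val + 7 * ((σ 3).val + 7 * ((σ 4).val + 7 * ((σ 5).val + 7 * (σ 6).val)))))

def t01 : Perm (Fin 7) := ⟨![1, 0, 2, 3, 4, 5, 6], ![1, 0, 2, 3, 4, 5, 6], by decide, by decide⟩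
def t12 : Perm (Fin 7) := ⟨![0, 2, 1, 3, 4, 5, 6], ![0, 2, 1, 3, 4, 5, 6], by decide, by decide⟩
def t34 : Perm (Fin 7) := ⟨![0, 1, 2, 4, 3, 5, 6], ![0, 1, 2, 4, 3, 5, 6], by decide, by decide⟩
def t56 : Perm (Fin 7) := ⟨![0, 1, 2, 3, 4, 6, 5], ![0, 1, 2, 3, 4, 6, 5], by decide, by decide⟩
def tD : Perm (Fin 7) := ⟨![0, 1, 2, 5, 6, 3, 4], ![0, 1, 2, 5, 6, 3, 4], by decide, by decide⟩
def e0 : Perm (Fin 7) := ⟨![0, 1, 2, 3, 4, 5, 6], ![0, 1, 2, 3, 4, 5, 6], by decide, by decide⟩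
def e1 : Perm (Fin 7) := ⟨![1, 0, 2, 3, 4, 5, 6], ![1, 0, 2, 3, 4, 5, 6], by decide, by decide⟩
def e2 : Perm (Fin 7) := ⟨![0, 2, 1, 3, 4, 5, 6], ![0, 2, 1, 3, 4, 5, 6], by decide, by decide⟩
def e3 : Perm (Fin 7) := ⟨![0, 1, 2, 4, 3, 5, 6], ![0, 1, 2, 4, 3, 5, 6], by decide, by decide⟩
def e4 : Perm (Fin 7) := ⟨![0, 1, 2, 3, 4, 6, 5], ![0, 1, 2, 3, 4, 6, 5], by decide, by decide⟩
def e5 : Perm (Fin 7) := ⟨![0, 1, 2, 5, 6, 3, 4], ![0, 1, 2, 5, 6, 3, 4], by decide, by decide⟩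
def e6 : Perm (Fin 7) := ⟨![2, 0, 1, 3, 4, 5, 6], ![1, 2, 0, 3, 4, 5, 6], by decide, by decide⟩
def e7 : Perm (Fin 7) := ⟨![1, 0, 2, 4, 3, 5, 6], ![1, 0, 2, 4, 3, 5, 6], by decide, by decide⟩
def e8 : Perm (Fin 7) := ⟨![1, 0, 2, 3, 4, 6, 5], ![1, 0, 2, 3, 4, 6, 5], by decide, by decide⟩
def e9 : Perm (Fin 7) := ⟨![1, 0, 2, 5, 6, 3, 4], ![1, 0, 2, 5, 6, 3, 4], by decide, by decide⟩
def e10 : Perm (Fin 7) := ⟨![1, 2, 0, 3, 4, 5, 6], ![2, 0, 1, 3, 4, 5, 6], by decide, by decide⟩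
def e11 : Perm (Fin 7) := ⟨![0, 2, 1, 4, 3, 5, 6], ![0, 2, 1, 4, 3, 5, 6], by decide, by decide⟩
def e12 : Perm (Fin 7) := ⟨![0, 2, 1, 3, 4, 6, 5], ![0, 2, 1, 3, 4, 6, 5], by decide, by decide⟩
def e13 : Perm (Fin 7) := ⟨![0, 2, 1, 5, 6, 3, 4], ![0, 2, 1, 5, 6, 3, 4], by decide, by decide⟩
def e14 : Perm (Fin 7) := ⟨![0, 1, 2, 4, 3, 6, 5], ![0, 1, 2, 4, 3, 6, 5], by decide, by decide⟩
def e15 : Perm (Fin 7) := ⟨![0, 1, 2, 6, 5, 3, 4], ![0, 1, 2, 5, 6, 4, 3], by decide, by decide⟩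
def e16 : Perm (Fin 7) := ⟨![0, 1, 2, 5, 6, 4, 3], ![0, 1, 2, 6, 5, 3, 4], by decide, by decide⟩
def e17 : Perm (Fin 7) := ⟨![2, 1, 0, 3, 4, 5, 6], ![2, 1, 0, 3, 4, 5, 6], by decide, by decide⟩
def e18 : Perm (Fin 7) := ⟨![2, 0, 1, 4, 3, 5, 6], ![1, 2, 0, 4, 3, 5, 6], by decide, by decide⟩
def e19 : Perm (Fin 7) := ⟨![2, 0, 1, 3, 4, 6, 5], ![1, 2, 0, 3, 4, 6, 5], by decide, by decide⟩
def e20 : Perm (Fin 7) := ⟨![2, 0, 1, 5, 6, 3, 4], ![1, 2, 0, 5, 6, 3, 4], by decide, by decide⟩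
def e21 : Perm (Fin 7) := ⟨![1, 0, 2, 4, 3, 6, 5], ![1, 0, 2, 4, 3, 6, 5], by decide, by decide⟩
def e22 : Perm (Fin 7) := ⟨![1, 0, 2, 6, 5, 3, 4], ![1, 0, 2, 5, 6, 4, 3], by decide, by decide⟩
def e23 : Perm (Fin 7) := ⟨![1, 0, 2, 5, 6, 4, 3], ![1, 0, 2, 6, 5, 3, 4], by decide, by decide⟩
def e24 : Perm (Fin 7) := ⟨![1, 2, 0, 4, 3, 5, 6], ![2, 0, 1, 4, 3, 5, 6], by decide, by decide⟩
def e25 : Perm (Fin 7) := ⟨![1, 2, 0, 3, 4, 6, 5], ![2, 0, 1, 3, 4, 6, 5], by decide, by decide⟩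
def e26 : Perm (Fin 7) := ⟨![1, 2, 0, 5, 6, 3, 4], ![2, 0, 1, 5, 6, 3, 4], by decide, by decide⟩
def e27 : Perm (Fin 7) := ⟨![0, 2, 1, 4, 3, 6, 5], ![0, 2, 1, 4, 3, 6, 5], by decide, by decide⟩
def e28 : Perm (Fin 7) := ⟨![0, 2, 1, 6, 5, 3, 4], ![0, 2, 1, 5, 6, 4, 3], by decide, by decide⟩
def e29 : Perm (Fin 7) := ⟨![0, 2, 1, 5, 6, 4, 3], ![0, 2, 1, 6, 5, 3, 4], by decide, by decide⟩
def e30 : Perm (Fin 7) := ⟨![0, 1, 2, 6, 5, 4, 3], ![0, 1, 2, 6, 5, 4, 3], by decide, by decide⟩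
def e31 : Perm (Fin 7) := ⟨![2, 1, 0, 4, 3, 5, 6], ![2, 1, 0, 4, 3, 5, 6], by decide, by decide⟩
def e32 : Perm (Fin 7) := ⟨![2, 1, 0, 3, 4, 6, 5], ![2, 1, 0, 3, 4, 6, 5], by decide, by decide⟩
def e33 : Perm (Fin 7) := ⟨![2, 1, 0, 5, 6, 3, 4], ![2, 1, 0, 5, 6, 3, 4], by decide, by decide⟩
def e34 : Perm (Fin 7) := ⟨![2, 0, 1, 4, 3, 6, 5], ![1, 2, 0, 4, 3, 6, 5], by decide, by decide⟩
def e35 : Perm (Fin 7) := ⟨![2, 0, 1, 6, 5, 3, 4], ![1, 2, 0, 5, 6, 4, 3], by decide, by decide⟩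
def e36 : Perm (Fin 7) := ⟨![2, 0, 1, 5, 6, 4, 3], ![1, 2, 0, 6, 5, 3, 4], by decide, by decide⟩
def e37 : Perm (Fin 7) := ⟨![1, 0, 2, 6, 5, 4, 3], ![1, 0, 2, 6, 5, 4, 3], by decide, by decide⟩
def e38 : Perm (Fin 7) := ⟨![1, 2, 0, 4, 3, 6, 5], ![2, 0, 1, 4, 3, 6, 5], by decide, by decide⟩
def e39 : Perm (Fin 7) := ⟨![1, 2, 0, 6, 5, 3, 4], ![2, 0, 1, 5, 6, 4, 3], by decide, by decide⟩
def e40 : Perm (Fin 7) := ⟨![1, 2, 0, 5, 6, 4, 3], ![2, 0, 1, 6, 5, 3, 4], by decide, by decide⟩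
def e41 : Perm (Fin 7) := ⟨![0, 2, 1, 6, 5, 4, 3], ![0, 2, 1, 6, 5, 4, 3], by decide, by decide⟩
def e42 : Perm (Fin 7) := ⟨![2, 1, 0, 4, 3, 6, 5], ![2, 1, 0, 4, 3, 6, 5], by decide, by decide⟩
def e43 : Perm (Fin 7) := ⟨![2, 1, 0, 6, 5, 3, 4], ![2, 1, 0, 5, 6, 4, 3], by decide, by decide⟩
def e44 : Perm (Fin 7) := ⟨![2, 1, 0, 5, 6, 4, 3], ![2, 1, 0, 6, 5, 3, 4], by decide, by decide⟩
def e45 : Perm (Fin 7) := ⟨![2, 0, 1, 6, 5, 4, 3], ![1, 2, 0, 6, 5, 4, 3], by decide, by decide⟩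
def e46 : Perm (Fin 7) := ⟨![1, 2, 0, 6, 5, 4, 3], ![2, 0, 1, 6, 5, 4, 3], by decide, by decide⟩
def e47 : Perm (Fin 7) := ⟨![2, 1, 0, 6, 5, 4, 3], ![2, 1, 0, 6, 5, 4, 3], by decide, by decide⟩

/-- the stabilizer -/
def S48 : List (Perm (Fin 7)) := [e0, e1, e2, e3, e4, e5, e6, e7, e8, e9, e10, e11, e12, e13, e14, e15, e16, e17, e18, e19, e20, e21, e22, e23, e24, e25, e26, e27, e28, e29, e30, e31, e32, e33, e34, e35, e36, e37, e38, e39, e40, e41, e42, e43, e44, e45, e46, e47]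

theorem S48_len : S48.length = 48 := rfl
theorem S48_nodup : S48.Nodup := List.Nodup.of_map key (by decide +kernel)
theorem S48_lab : ∀ s ∈ S48, ({0, 1, 2} : Finset (Fin 7)).image s = {0, 1, 2} ∧
    ({{3, 4}, {5, 6}} : Finset (Finset (Fin 7))).image (fun X => X.image s) = {{3, 4}, {5, 6}} := by
  simp only [S48, List.forall_mem_cons, List.not_mem_nil, false_implies, implies_true, and_true]
  exact ⟨by decide +kernel, by decide +kernel, by decide +kernel, by decide +kernel, by decide +kernel, by decide +kernel, by decide +kernel, by decide +kernel, by decide +kernel, by decide +kernel, by decide +kernel, by decide +kernel, by decide +kernel, by decide +kernel, by decide +kernel, by decide +kernel, by decide +kernel, by decide +kernel, by decide +kernel, by decide +kernel, by decide +kernel, by decide +kernel, by decide +kernel, by decide +kernel, by decide +kernel, by decide +kernel, by decide +kernel, by decide +kernel,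 by decide +kernel, by decide +kernel, by decide +kernel, by decide +kernel, by decide +kernel, by decide +kernel, by decide +kernel, by decide +kernel, by decide +kernel, by decide +kernel, by decide +kernel, by decide +kernel, by decide +kernel, by decide +kernel, by decide +kernel, by decide +kernel, by decide +kernel, by decide +kernel, by decide +kernel, by decide +kernel⟩
theorem m1 : e1 = t01 * e0 := by decide +kernel
theorem m2 : e2 = t12 * e0 := by decide +kernel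
theorem m3 : e3 = t34 * e0 := by decide +kernel
theorem m4 : e4 = t56 * e0 := by decide +kernel
theorem m5 : e5 = tD * e0 := by decide +kernel
theorem m6 : e6 = t12 * e1 := by decide +kernel
theorem m7 : e7 = t34 * e1 := by decide +kernel
theorem m8 : e8 = t56 * e1 := by decide +kernel
theorem m9 : e9 = tD * e1 := by decide +kernel
theorem m10 : e10 = t01 * e2 := by decide +kernel
theorem m11 : e11 = t34 * e2 := by decide +kernel
theorem m12 : e12 = t56 * e2 := by decide +kernel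
theorem m13 : e13 = tD * e2 := by decide +kernel
theorem m14 : e14 = t56 * e3 := by decide +kernel
theorem m15 : e15 = tD * e3 := by decide +kernel
theorem m16 : e16 = tD * e4 := by decide +kernel
theorem m17 : e17 = t01 * e6 := by decide +kernel
theorem m18 : e18 = t34 * e6 := by decide +kernel
theorem m19 : e19 = t56 * e6 := by decide +kernel
theorem m20 : e20 = tD * e6 := by decide +kernel
theorem m21 : e21 = t56 * e7 := by decide +kernel
theorem m22 : e22 = tD * e7 := by decide +kernel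
theorem m23 : e23 = tD * e8 := by decide +kernel
theorem m24 : e24 = t34 * e10 := by decide +kernel
theorem m25 : e25 = t56 * e10 := by decide +kernel
theorem m26 : e26 = tD * e10 := by decide +kernel
theorem m27 : e27 = t56 * e11 := by decide +kernel
theorem m28 : e28 = tD * e11 := by decide +kernel
theorem m29 : e29 = tD * e12 := by decide +kernel
theorem m30 : e30 = tD * e14 := by decide +kernel
theorem m31 : e31 = t34 * e17 := by decide +kernel
theorem m32 : e32 = t56 * e17 := by decide +kernel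
theorem m33 : e33 = tD * e17 := by decide +kernel
theorem m34 : e34 = t56 * e18 := by decide +kernel
theorem m35 : e35 = tD * e18 := by decide +kernel
theorem m36 : e36 = tD * e19 := by decide +kernel
theorem m37 : e37 = tD * e21 := by decide +kernel
theorem m38 : e38 = t56 * e24 := by decide +kernel
theorem m39 : e39 = tD * e24 := by decide +kernel
theorem m40 : e40 = tD * e25 := by decide +kernel
theorem m41 : e41 = tD * e27 := by decide +kernel
theorem m42 : e42 = t56 * e31 := by decide +kernel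
theorem m43 : e43 = tD * e31 := by decide +kernel
theorem m44 : e44 = tD * e32 := by decide +kernel
theorem m45 : e45 = tD * e34 := by decide +kernel
theorem m46 : e46 = tD * e38 := by decide +kernel
theorem m47 : e47 = tD * e42 := by decide +kernel
theorem m0 : e0 = 1 := by decide +kernel

theorem lab_mul {s : Perm (Fin 7)} (hs : s ∈ S48) (τ : Perm (Fin 7)) : lab (τ * s) = lab τ := by
  obtain ⟨h1, h2⟩ := S48_lab s hs
  unfold lab
  refine Prod.ext ?_ ?_
  · show ({0, 1, 2} : Finset (Fin 7)).image (τ * s) = ({0, 1, 2} : Finset (Fin 7)).image τ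
    conv_rhs => rw [← h1]
    rw [image_image]
    rfl
  · show ({{3, 4}, {5, 6}} : Finset (Finset (Fin 7))).image (fun X => X.image (τ * s)) =
      ({{3, 4}, {5, 6}} : Finset (Finset (Fin 7))).image (fun X => X.image τ)
    conv_rhs => rw [← h2]
    rw [image_image]
    refine image_congr fun X _ => ?_
    show X.image (τ * s) = (X.image s).image τ
    rw [image_image]
    rfl

variable {P : (Finset (Fin 7) → ℕ) → Prop} {G : (Finset (Fin 7) → ℕ) → ℕ}

/-- hypotheses on a value of a set function -/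
structure Inv3 (P : (Finset (Fin 7) → ℕ) → Prop) (G : (Finset (Fin 7) → ℕ) → ℕ) : Prop where
  cl : Cl P
  h0 : Kp P G t01
  h1 : Kp P G t12
  h3 : Kp P G t34
  h5 : Kp P G t56
  h9 : Kp P G tD

theorem Kp_S48 (h : Inv3 P G) : ∀ s ∈ S48, Kp P G s := by
  have k0 : Kp P G e0 := by rw [m0]; exact Kp_one
  have k1 : Kp P G e1 := by rw [m1]; exact Kp_mul h.cl h.h0 k0
  have k2 : Kp P G e2 := by rw [m2]; exact Kp_mul h.cl h.h1 k0
  have k3 : Kp P G e3 := by rw [m3]; exact Kp_mul h.cl h.h3 k0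
  have k4 : Kp P G e4 := by rw [m4]; exact Kp_mul h.cl h.h5 k0
  have k5 : Kp P G e5 := by rw [m5]; exact Kp_mul h.cl h.h9 k0
  have k6 : Kp P G e6 := by rw [m6]; exact Kp_mul h.cl h.h1 k1
  have k7 : Kp P G e7 := by rw [m7]; exact Kp_mul h.cl h.h3 k1
  have k8 : Kp P G e8 := by rw [m8]; exact Kp_mul h.cl h.h5 k1
  have k9 : Kp P G e9 := by rw [m9]; exact Kp_mul h.cl h.h9 k1
  have k10 : Kp P G e10 := by rw [m10]; exact Kp_mul h.cl h.h0 k2
  have k11 : Kp P G e11 := by rw [m11]; exact Kp_mul h.cl h.h3 k2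
  have k12 : Kp P G e12 := by rw [m12]; exact Kp_mul h.cl h.h5 k2
  have k13 : Kp P G e13 := by rw [m13]; exact Kp_mul h.cl h.h9 k2
  have k14 : Kp P G e14 := by rw [m14]; exact Kp_mul h.cl h.h5 k3
  have k15 : Kp P G e15 := by rw [m15]; exact Kp_mul h.cl h.h9 k3
  have k16 : Kp P G e16 := by rw [m16]; exact Kp_mul h.cl h.h9 k4
  have k17 : Kp P G e17 := by rw [m17]; exact Kp_mul h.cl h.h0 k6
  have k18 : Kp P G e18 := by rw [m18]; exact Kp_mul h.cl h.h3 k6
  have k19 : Kp P G e19 := by rw [m19]; exact Kp_mul h.cl h.h5 k6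
  have k20 : Kp P G e20 := by rw [m20]; exact Kp_mul h.cl h.h9 k6
  have k21 : Kp P G e21 := by rw [m21]; exact Kp_mul h.cl h.h5 k7
  have k22 : Kp P G e22 := by rw [m22]; exact Kp_mul h.cl h.h9 k7
  have k23 : Kp P G e23 := by rw [m23]; exact Kp_mul h.cl h.h9 k8
  have k24 : Kp P G e24 := by rw [m24]; exact Kp_mul h.cl h.h3 k10
  have k25 : Kp P G e25 := by rw [m25]; exact Kp_mul h.cl h.h5 k10
  have k26 : Kp P G e26 := by rw [m26]; exact Kp_mul h.cl h.h9 k10
  have k27 : Kp P G e27 := by rw [m27]; exact Kp_mul h.cl h.h5 k11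
  have k28 : Kp P G e28 := by rw [m28]; exact Kp_mul h.cl h.h9 k11
  have k29 : Kp P G e29 := by rw [m29]; exact Kp_mul h.cl h.h9 k12
  have k30 : Kp P G e30 := by rw [m30]; exact Kp_mul h.cl h.h9 k14
  have k31 : Kp P G e31 := by rw [m31]; exact Kp_mul h.cl h.h3 k17
  have k32 : Kp P G e32 := by rw [m32]; exact Kp_mul h.cl h.h5 k17
  have k33 : Kp P G e33 := by rw [m33]; exact Kp_mul h.cl h.h9 k17
  have k34 : Kp P G e34 := by rw [m34]; exact Kp_mul h.cl h.h5 k18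
  have k35 : Kp P G e35 := by rw [m35]; exact Kp_mul h.cl h.h9 k18
  have k36 : Kp P G e36 := by rw [m36]; exact Kp_mul h.cl h.h9 k19
  have k37 : Kp P G e37 := by rw [m37]; exact Kp_mul h.cl h.h9 k21
  have k38 : Kp P G e38 := by rw [m38]; exact Kp_mul h.cl h.h5 k24
  have k39 : Kp P G e39 := by rw [m39]; exact Kp_mul h.cl h.h9 k24
  have k40 : Kp P G e40 := by rw [m40]; exact Kp_mul h.cl h.h9 k25
  have k41 : Kp P G e41 := by rw [m41]; exact Kp_mul h.cl h.h9 k27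
  have k42 : Kp P G e42 := by rw [m42]; exact Kp_mul h.cl h.h5 k31
  have k43 : Kp P G e43 := by rw [m43]; exact Kp_mul h.cl h.h9 k31
  have k44 : Kp P G e44 := by rw [m44]; exact Kp_mul h.cl h.h9 k32
  have k45 : Kp P G e45 := by rw [m45]; exact Kp_mul h.cl h.h9 k34
  have k46 : Kp P G e46 := by rw [m46]; exact Kp_mul h.cl h.h9 k38
  have k47 : Kp P G e47 := by rw [m47]; exact Kp_mul h.cl h.h9 k42
  simp only [S48, List.forall_mem_cons, List.not_mem_nil, false_implies, implies_true, and_true]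
  exact ⟨k0, k1, k2, k3, k4, k5, k6, k7, k8, k9, k10, k11, k12, k13, k14, k15, k16, k17, k18, k19, k20, k21, k22, k23, k24, k25, k26, k27, k28, k29, k30, k31, k32, k33, k34, k35, k36, k37, k38, k39, k40, k41, k42, k43, k44, k45, k46, k47⟩

/-- the sum over all permutations -/
def SG (G : (Finset (Fin 7) → ℕ) → ℕ) (g : Finset (Fin 7) → ℕ) : ℕ := ∑ σ : Perm (Fin 7), G (act σ g)

theorem SG_act (G : (Finset (Fin 7) → ℕ) → ℕ) (g : Finset (Fin 7) → ℕ) (τ : Perm (Fin 7)) : SG G (act τ g) = SG G g := by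
  unfold SG
  rw [← Equiv.sum_comp (Equiv.mulLeft τ) (fun σ => G (act σ g))]
  refine sum_congr rfl fun σ _ => ?_
  rw [act_act]
  rfl

theorem SG_list (h : Inv3 P G) (L : List (Perm (Fin 7))) (hn : (L.map lab).Nodup) (hl : L.length = 105)
    {g : Finset (Fin 7) → ℕ} (hg : P g) : SG G g = 48 * (L.map fun σ => G (act σ g)).sum := by
  have hL : L.Nodup := List.Nodup.of_map _ hn
  set X : Finset (Perm (Fin 7) × Perm (Fin 7)) := L.toFinset ×ˢ S48.toFinset with hX
  have hinj : Set.InjOn (fun p : Perm (Fin 7) × Perm (Fin 7) => p.1 * p.2) X := by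
    rintro ⟨τ, s⟩ h1 ⟨τ', s'⟩ h2 he
    rw [hX, coe_product, Set.mem_prod] at h1 h2
    have a1 : τ ∈ L := List.mem_toFinset.mp h1.1
    have a2 : s ∈ S48 := List.mem_toFinset.mp h1.2
    have a3 : τ' ∈ L := List.mem_toFinset.mp h2.1
    have a4 : s' ∈ S48 := List.mem_toFinset.mp h2.2
    have he' : τ * s = τ' * s' := he
    have e1 : lab τ = lab τ' := by rw [← lab_mul a2 τ, he', lab_mul a4]
    have e2 : τ = τ' := List.inj_on_of_nodup_map hn a1 a3 e1
    subst e2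
    have e3 : s = s' := mul_left_cancel he'
    rw [e3]
  have hcard : X.card = 5040 := by
    rw [hX, card_product, List.toFinset_card_of_nodup hL, List.toFinset_card_of_nodup S48_nodup, hl, S48_len]
  have himg : X.image (fun p : Perm (Fin 7) × Perm (Fin 7) => p.1 * p.2) = univ := by
    refine eq_univ_of_card _ ?_
    rw [card_image_of_injOn hinj, hcard, Fintype.card_perm, Fintype.card_fin]
    norm_num [Nat.factorial]
  unfold SG
  rw [← himg, sum_image hinj, hX, sum_product]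
  have e : ∀ τ ∈ L.toFinset, ∑ s ∈ S48.toFinset, G (act (τ * s) g) = 48 * G (act τ g) := by
    intro τ _
    have : ∀ s ∈ S48.toFinset, G (act (τ * s) g) = G (act τ g) := by
      intro s hs
      rw [← act_act]
      exact Kp_S48 h s (List.mem_toFinset.mp hs) _ (h.cl g hg τ)
    rw [sum_congr rfl this, sum_const, List.toFinset_card_of_nodup S48_nodup, S48_len, smul_eq_mul]
  rw [sum_congr rfl e, ← mul_sum, List.sum_toFinset _ hL]

variable {V : Type} [Fintype V] [DecidableEq V]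

theorem sum_SG (H : Finset V → Prop) (G : (Finset (Fin 7) → ℕ) → ℕ) :
    ∑ u : Fin 7 → V, SG G (gv H u) = 5040 * ∑ u : Fin 7 → V, G (gv H u) := by
  unfold SG
  rw [sum_comm, sum_congr rfl fun σ _ => sum_act H σ G, sum_const, card_univ, Fintype.card_perm, Fintype.card_fin, smul_eq_mul]
  norm_num [Nat.factorial]

end Pool.Agent.H68.F7
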