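import Pool.Agent.H68.F7.Fld

/-! Products of blocks. -/

set_option autoImplicit false
set_option maxRecDepth 100000
set_option exponentiation.threshold 200000
set_option maxHeartbeats 4000000
open Finset

namespace Pool.Agent.H68.F7

open Pool.Agent.Y435.T7 (bt sb st cnd al d2 swp enc fld enc_congr enc_zero enc_succ enc_lt enc_add enc_mulc
  enc_prod enc_nest enc_testBit fld_testBit fld_lt fld_enc enc_fld fld_fld enc_inj land_ones land_ones0 swp_enc sb_lt)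
open Pool.Agent.N443 (st_eq al_true cnd_and enc_const_succ osum osum_eq osum_enc mul_out)

noncomputable section

/-- the products of two columns -/
def og (X Y : ℕ) : ℕ := Nat.add (Nat.mul (Nat.land X MLO) (Nat.land Y MSL))
  (Nat.mul (Nat.land (Nat.shiftRight X 20) MLO) (Nat.land (Nat.shiftRight Y 20) MSL))
def gr (b g : ℕ) : ℕ := Nat.mul (Nat.land (Nat.shiftRight b (Nat.mul 640 g)) ON640) C600
def ops (G a b : ℕ) : ℕ := osum (fun g => og (Nat.shiftRight a (Nat.mul 640 g)) (gr b g)) G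

def O1 (a b : ℕ) : ℕ := (Nat.add 0 (Nat.add (Nat.mul (Nat.land (Nat.shiftRight a 0) MLO) (Nat.land (Nat.mul (Nat.land (Nat.shiftRight b 0) ON640) C600) MSL)) (Nat.mul (Nat.land (Nat.shiftRight (Nat.shiftRight a 0) 20) MLO) (Nat.land (Nat.shiftRight (Nat.mul (Nat.land (Nat.shiftRight b 0) ON640) C600) 20) MSL))))
def O2 (a b : ℕ) : ℕ := (Nat.add (Nat.add 0 (Nat.add (Nat.mul (Nat.land (Nat.shiftRight a 0) MLO) (Nat.land (Nat.mul (Nat.land (Nat.shiftRight b 0) ON640) C600) MSL)) (Nat.mul (Nat.land (Nat.shiftRight (Nat.shiftRight a 0) 20) MLO) (Nat.land (Nat.shiftRight (Nat.mul (Nat.land (Nat.shiftRight b 0) ON640) C600) 20) MSL)))) (Nat.add (Nat.mul (Nat.land (Nat.shiftRight a 640) MLO) (Nat.land (Nat.mul (Nat.land (Nat.shiftRight b 640) ON640) C600) MSL)) (Nat.mul (Nat.land (Nat.shiftRight (Nat.shiftRight a 640) 20) MLO) (Nat.land (Nat.shiftRight (Nat.mul (Nat.land (Nat.shiftRight b 640) ON640) C600) 20) MSL))))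
def O3 (a b : ℕ) : ℕ := (Nat.add (Nat.add (Nat.add 0 (Nat.add (Nat.mul (Nat.land (Nat.shiftRight a 0) MLO) (Nat.land (Nat.mul (Nat.land (Nat.shiftRight b 0) ON640) C600) MSL)) (Nat.mul (Nat.land (Nat.shiftRight (Nat.shiftRight a 0) 20) MLO) (Nat.land (Nat.shiftRight (Nat.mul (Nat.land (Nat.shiftRight b 0) ON640) C600) 20) MSL)))) (Nat.add (Nat.mul (Nat.land (Nat.shiftRight a 640) MLO) (Nat.land (Nat.mul (Nat.land (Nat.shiftRight b 640) ON640) C600) MSL)) (Nat.mul (Nat.land (Nat.shiftRight (Nat.shiftRight a 640) 20) MLO) (Nat.land (Nat.shiftRight (Nat.mul (Nat.land (Nat.shiftRight b 640) ON640) C600) 20) MSL)))) (Nat.add (Nat.mul (Nat.land (Nat.shiftRight a 1280) MLO) (Nat.land (Nat.mul (Nat.land (Nat.shiftRight b 1280) ON640) C600) MSL)) (Nat.mul (Nat.land (Nat.shiftRight (Nat.shiftRight a 1280) 20) MLO) (Nat.land (Nat.shiftRight (Nat.mul (Nat.land (Nat.shiftRight b 1280) ON640) C600) 20) MSL))))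
def O4 (a b : ℕ) : ℕ := (Nat.add (Nat.add (Nat.add (Nat.add 0 (Nat.add (Nat.mul (Nat.land (Nat.shiftRight a 0) MLO) (Nat.land (Nat.mul (Nat.land (Nat.shiftRight b 0) ON640) C600) MSL)) (Nat.mul (Nat.land (Nat.shiftRight (Nat.shiftRight a 0) 20) MLO) (Nat.land (Nat.shiftRight (Nat.mul (Nat.land (Nat.shiftRight b 0) ON640) C600) 20) MSL)))) (Nat.add (Nat.mul (Nat.land (Nat.shiftRight a 640) MLO) (Nat.land (Nat.mul (Nat.land (Nat.shiftRight b 640) ON640) C600) MSL)) (Nat.mul (Nat.land (Nat.shiftRight (Nat.shiftRight a 640) 20) MLO) (Nat.land (Nat.shiftRight (Nat.mul (Nat.land (Nat.shiftRight b 640) ON640) C600) 20) MSL)))) (Nat.add (Nat.mul (Nat.land (Nat.shiftRight a 1280) MLO) (Nat.land (Nat.mul (Nat.land (Nat.shiftRight b 1280) ON640) C600) MSL)) (Nat.mul (Nat.land (Nat.shiftRight (Nat.shiftRight a 1280) 20) MLO) (Nat.land (Nat.shiftRight (Nat.mul (Nat.land (Nat.shiftRight b 1280) ON640) C600) 20) MSL)))) (Nat.add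 (Nat.mul (Nat.land (Nat.shiftRight a 1920) MLO) (Nat.land (Nat.mul (Nat.land (Nat.shiftRight b 1920) ON640) C600) MSL)) (Nat.mul (Nat.land (Nat.shiftRight (Nat.shiftRight a 1920) 20) MLO) (Nat.land (Nat.shiftRight (Nat.mul (Nat.land (Nat.shiftRight b 1920) ON640) C600) 20) MSL))))
def O5 (a b : ℕ) : ℕ := (Nat.add (Nat.add (Nat.add (Nat.add (Nat.add 0 (Nat.add (Nat.mul (Nat.land (Nat.shiftRight a 0) MLO) (Nat.land (Nat.mul (Nat.land (Nat.shiftRight b 0) ON640) C600) MSL)) (Nat.mul (Nat.land (Nat.shiftRight (Nat.shiftRight a 0) 20) MLO) (Nat.land (Nat.shiftRight (Nat.mul (Nat.land (Nat.shiftRight b 0) ON640) C600) 20) MSL)))) (Nat.add (Nat.mul (Nat.land (Nat.shiftRight a 640) MLO) (Nat.land (Nat.mul (Nat.land (Nat.shiftRight b 640) ON640) C600) MSL)) (Nat.mul (Nat.land (Nat.shiftRight (Nat.shiftRight a 640) 20) MLO) (Nat.land (Nat.shiftRight (Nat.mul (Nat.land (Nat.shiftRight b 640) ON640) C600) 20) MSL)))) (Nat.add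 (Nat.mul (Nat.land (Nat.shiftRight a 1280) MLO) (Nat.land (Nat.mul (Nat.land (Nat.shiftRight b 1280) ON640) C600) MSL)) (Nat.mul (Nat.land (Nat.shiftRight (Nat.shiftRight a 1280) 20) MLO) (Nat.land (Nat.shiftRight (Nat.mul (Nat.land (Nat.shiftRight b 1280) ON640) C600) 20) MSL)))) (Nat.add (Nat.mul (Nat.land (Nat.shiftRight a 1920) MLO) (Nat.land (Nat.mul (Nat.land (Nat.shiftRight b 1920) ON640) C600) MSL)) (Nat.mul (Nat.land (Nat.shiftRight (Nat.shiftRight a 1920) 20) MLO) (Nat.land (Nat.shiftRight (Nat.mul (Nat.land (Nat.shiftRight b 1920) ON640) C600) 20) MSL)))) (Nat.add (Nat.mul (Nat.land (Nat.shiftRight a 2560) MLO) (Nat.land (Nat.mul (Nat.land (Nat.shiftRight b 2560) ON640) C600) MSL)) (Nat.mul (Nat.land (Nat.shiftRight (Nat.shiftRight a 2560) 20) MLO) (Nat.land (Nat.shiftRight (Nat.mul (Nat.land (Nat.shiftRight b 2560) ON640) C600) 20) MSL))))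
def O6 (a b : ℕ) : ℕ := (Nat.add (Nat.add (Nat.add (Nat.add (Nat.add (Nat.add 0 (Nat.add (Nat.mul (Nat.land (Nat.shiftRight a 0) MLO) (Nat.land (Nat.mul (Nat.land (Nat.shiftRight b 0) ON640) C600) MSL)) (Nat.mul (Nat.land (Nat.shiftRight (Nat.shiftRight a 0) 20) MLO) (Nat.land (Nat.shiftRight (Nat.mul (Nat.land (Nat.shiftRight b 0) ON640) C600) 20) MSL)))) (Nat.add (Nat.mul (Nat.land (Nat.shiftRight a 640) MLO) (Nat.land (Nat.mul (Nat.land (Nat.shiftRight b 640) ON640) C600) MSL)) (Nat.mul (Nat.land (Nat.shiftRight (Nat.shiftRight a 640) 20) MLO) (Nat.land (Nat.shiftRight (Nat.mul (Nat.land (Nat.shiftRight b 640) ON640) C600) 20) MSL)))) (Nat.add (Nat.mul (Nat.land (Nat.shiftRight a 1280) MLO) (Nat.land (Nat.mul (Nat.land (Nat.shiftRight b 1280) ON640) C600) MSL)) (Nat.mul (Nat.land (Nat.shiftRight (Nat.shiftRight a 1280) 20) MLO) (Nat.land (Nat.shiftRight (Nat.mul (Nat.land (Nat.shiftRight b 1280) ON640) C600)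 20) MSL)))) (Nat.add (Nat.mul (Nat.land (Nat.shiftRight a 1920) MLO) (Nat.land (Nat.mul (Nat.land (Nat.shiftRight b 1920) ON640) C600) MSL)) (Nat.mul (Nat.land (Nat.shiftRight (Nat.shiftRight a 1920) 20) MLO) (Nat.land (Nat.shiftRight (Nat.mul (Nat.land (Nat.shiftRight b 1920) ON640) C600) 20) MSL)))) (Nat.add (Nat.mul (Nat.land (Nat.shiftRight a 2560) MLO) (Nat.land (Nat.mul (Nat.land (Nat.shiftRight b 2560) ON640) C600) MSL)) (Nat.mul (Nat.land (Nat.shiftRight (Nat.shiftRight a 2560) 20) MLO) (Nat.land (Nat.shiftRight (Nat.mul (Nat.land (Nat.shiftRight b 2560) ON640) C600) 20) MSL)))) (Nat.add (Nat.mul (Nat.land (Nat.shiftRight a 3200) MLO) (Nat.land (Nat.mul (Nat.land (Nat.shiftRight b 3200) ON640) C600) MSL)) (Nat.mul (Nat.land (Nat.shiftRight (Nat.shiftRight a 3200) 20) MLO) (Nat.land (Nat.shiftRight (Nat.mul (Nat.land (Nat.shiftRight b 3200) ON640) C600) 20) MSL))))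
def O7 (a b : ℕ) : ℕ := (Nat.add (Nat.add (Nat.add (Nat.add (Nat.add (Nat.add (Nat.add 0 (Nat.add (Nat.mul (Nat.land (Nat.shiftRight a 0) MLO) (Nat.land (Nat.mul (Nat.land (Nat.shiftRight b 0) ON640) C600) MSL)) (Nat.mul (Nat.land (Nat.shiftRight (Nat.shiftRight a 0) 20) MLO) (Nat.land (Nat.shiftRight (Nat.mul (Nat.land (Nat.shiftRight b 0) ON640) C600) 20) MSL)))) (Nat.add (Nat.mul (Nat.land (Nat.shiftRight a 640) MLO) (Nat.land (Nat.mul (Nat.land (Nat.shiftRight b 640) ON640) C600) MSL)) (Nat.mul (Nat.land (Nat.shiftRight (Nat.shiftRight a 640) 20) MLO) (Nat.land (Nat.shiftRight (Nat.mul (Nat.land (Nat.shiftRight b 640) ON640) C600) 20) MSL)))) (Nat.add (Nat.mul (Nat.land (Nat.shiftRight a 1280) MLO) (Nat.land (Nat.mul (Nat.land (Nat.shiftRight b 1280) ON640) C600) MSL)) (Nat.mul (Nat.land (Nat.shiftRight (Nat.shiftRight a 1280) 20) MLO) (Nat.land (Nat.shiftRight (Nat.mul (Nat.land (Nat.shiftRight b 1280)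 ON640) C600) 20) MSL)))) (Nat.add (Nat.mul (Nat.land (Nat.shiftRight a 1920) MLO) (Nat.land (Nat.mul (Nat.land (Nat.shiftRight b 1920) ON640) C600) MSL)) (Nat.mul (Nat.land (Nat.shiftRight (Nat.shiftRight a 1920) 20) MLO) (Nat.land (Nat.shiftRight (Nat.mul (Nat.land (Nat.shiftRight b 1920) ON640) C600) 20) MSL)))) (Nat.add (Nat.mul (Nat.land (Nat.shiftRight a 2560) MLO) (Nat.land (Nat.mul (Nat.land (Nat.shiftRight b 2560) ON640) C600) MSL)) (Nat.mul (Nat.land (Nat.shiftRight (Nat.shiftRight a 2560) 20) MLO) (Nat.land (Nat.shiftRight (Nat.mul (Nat.land (Nat.shiftRight b 2560) ON640) C600) 20) MSL)))) (Nat.add (Nat.mul (Nat.land (Nat.shiftRight a 3200) MLO) (Nat.land (Nat.mul (Nat.land (Nat.shiftRight b 3200) ON640) C600) MSL)) (Nat.mul (Nat.land (Nat.shiftRight (Nat.shiftRight a 3200) 20) MLO) (Nat.land (Nat.shiftRight (Nat.mul (Nat.land (Nat.shiftRight b 3200) ON640) C600) 20) MSL)))) (Nat.add (Nat.mul (Nat.land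 (Nat.shiftRight a 3840) MLO) (Nat.land (Nat.mul (Nat.land (Nat.shiftRight b 3840) ON640) C600) MSL)) (Nat.mul (Nat.land (Nat.shiftRight (Nat.shiftRight a 3840) 20) MLO) (Nat.land (Nat.shiftRight (Nat.mul (Nat.land (Nat.shiftRight b 3840) ON640) C600) 20) MSL))))
def O8 (a b : ℕ) : ℕ := (Nat.add (Nat.add (Nat.add (Nat.add (Nat.add (Nat.add (Nat.add (Nat.add 0 (Nat.add (Nat.mul (Nat.land (Nat.shiftRight a 0) MLO) (Nat.land (Nat.mul (Nat.land (Nat.shiftRight b 0) ON640) C600) MSL)) (Nat.mul (Nat.land (Nat.shiftRight (Nat.shiftRight a 0) 20) MLO) (Nat.land (Nat.shiftRight (Nat.mul (Nat.land (Nat.shiftRight b 0) ON640) C600) 20) MSL)))) (Nat.add (Nat.mul (Nat.land (Nat.shiftRight a 640) MLO) (Nat.land (Nat.mul (Nat.land (Nat.shiftRight b 640) ON640) C600) MSL)) (Nat.mul (Nat.land (Nat.shiftRight (Nat.shiftRight a 640) 20) MLO) (Nat.land (Nat.shiftRight (Nat.mul (Nat.land (Nat.shiftRight b 640) ON640) C600) 20) MSL))))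 (Nat.add (Nat.mul (Nat.land (Nat.shiftRight a 1280) MLO) (Nat.land (Nat.mul (Nat.land (Nat.shiftRight b 1280) ON640) C600) MSL)) (Nat.mul (Nat.land (Nat.shiftRight (Nat.shiftRight a 1280) 20) MLO) (Nat.land (Nat.shiftRight (Nat.mul (Nat.land (Nat.shiftRight b 1280) ON640) C600) 20) MSL)))) (Nat.add (Nat.mul (Nat.land (Nat.shiftRight a 1920) MLO) (Nat.land (Nat.mul (Nat.land (Nat.shiftRight b 1920) ON640) C600) MSL)) (Nat.mul (Nat.land (Nat.shiftRight (Nat.shiftRight a 1920) 20) MLO) (Nat.land (Nat.shiftRight (Nat.mul (Nat.land (Nat.shiftRight b 1920) ON640) C600) 20) MSL)))) (Nat.add (Nat.mul (Nat.land (Nat.shiftRight a 2560) MLO) (Nat.land (Nat.mul (Nat.land (Nat.shiftRight b 2560) ON640) C600) MSL)) (Nat.mul (Nat.land (Nat.shiftRight (Nat.shiftRight a 2560) 20) MLO) (Nat.land (Nat.shiftRight (Nat.mul (Nat.land (Nat.shiftRight b 2560) ON640) C600) 20) MSL)))) (Nat.add (Nat.mul (Nat.land (Nat.shiftRight a 3200)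 MLO) (Nat.land (Nat.mul (Nat.land (Nat.shiftRight b 3200) ON640) C600) MSL)) (Nat.mul (Nat.land (Nat.shiftRight (Nat.shiftRight a 3200) 20) MLO) (Nat.land (Nat.shiftRight (Nat.mul (Nat.land (Nat.shiftRight b 3200) ON640) C600) 20) MSL)))) (Nat.add (Nat.mul (Nat.land (Nat.shiftRight a 3840) MLO) (Nat.land (Nat.mul (Nat.land (Nat.shiftRight b 3840) ON640) C600) MSL)) (Nat.mul (Nat.land (Nat.shiftRight (Nat.shiftRight a 3840) 20) MLO) (Nat.land (Nat.shiftRight (Nat.mul (Nat.land (Nat.shiftRight b 3840) ON640) C600) 20) MSL)))) (Nat.add (Nat.mul (Nat.land (Nat.shiftRight a 4480) MLO) (Nat.land (Nat.mul (Nat.land (Nat.shiftRight b 4480) ON640) C600) MSL)) (Nat.mul (Nat.land (Nat.shiftRight (Nat.shiftRight a 4480) 20) MLO) (Nat.land (Nat.shiftRight (Nat.mul (Nat.land (Nat.shiftRight b 4480) ON640) C600) 20) MSL))))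
def O9 (a b : ℕ) : ℕ := (Nat.add (Nat.add (Nat.add (Nat.add (Nat.add (Nat.add (Nat.add (Nat.add (Nat.add 0 (Nat.add (Nat.mul (Nat.land (Nat.shiftRight a 0) MLO) (Nat.land (Nat.mul (Nat.land (Nat.shiftRight b 0) ON640) C600) MSL)) (Nat.mul (Nat.land (Nat.shiftRight (Nat.shiftRight a 0) 20) MLO) (Nat.land (Nat.shiftRight (Nat.mul (Nat.land (Nat.shiftRight b 0) ON640) C600) 20) MSL)))) (Nat.add (Nat.mul (Nat.land (Nat.shiftRight a 640) MLO) (Nat.land (Nat.mul (Nat.land (Nat.shiftRight b 640) ON640) C600) MSL)) (Nat.mul (Nat.land (Nat.shiftRight (Nat.shiftRight a 640) 20) MLO) (Nat.land (Nat.shiftRight (Nat.mul (Nat.land (Nat.shiftRight b 640) ON640) C600) 20) MSL)))) (Nat.add (Nat.mul (Nat.land (Nat.shiftRight a 1280) MLO) (Nat.land (Nat.mul (Nat.land (Nat.shiftRight b 1280) ON640) C600) MSL)) (Nat.mul (Nat.land (Nat.shiftRight (Nat.shiftRight a 1280) 20) MLO) (Nat.land (Nat.shiftRight (Nat.mul (Nat.land (Nat.shiftRight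 b 1280) ON640) C600) 20) MSL)))) (Nat.add (Nat.mul (Nat.land (Nat.shiftRight a 1920) MLO) (Nat.land (Nat.mul (Nat.land (Nat.shiftRight b 1920) ON640) C600) MSL)) (Nat.mul (Nat.land (Nat.shiftRight (Nat.shiftRight a 1920) 20) MLO) (Nat.land (Nat.shiftRight (Nat.mul (Nat.land (Nat.shiftRight b 1920) ON640) C600) 20) MSL)))) (Nat.add (Nat.mul (Nat.land (Nat.shiftRight a 2560) MLO) (Nat.land (Nat.mul (Nat.land (Nat.shiftRight b 2560) ON640) C600) MSL)) (Nat.mul (Nat.land (Nat.shiftRight (Nat.shiftRight a 2560) 20) MLO) (Nat.land (Nat.shiftRight (Nat.mul (Nat.land (Nat.shiftRight b 2560) ON640) C600) 20) MSL)))) (Nat.add (Nat.mul (Nat.land (Nat.shiftRight a 3200) MLO) (Nat.land (Nat.mul (Nat.land (Nat.shiftRight b 3200) ON640) C600) MSL)) (Nat.mul (Nat.land (Nat.shiftRight (Nat.shiftRight a 3200) 20) MLO) (Nat.land (Nat.shiftRight (Nat.mul (Nat.land (Nat.shiftRight b 3200) ON640) C600) 20) MSL)))) (Nat.add (Nat.mul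 (Nat.land (Nat.shiftRight a 3840) MLO) (Nat.land (Nat.mul (Nat.land (Nat.shiftRight b 3840) ON640) C600) MSL)) (Nat.mul (Nat.land (Nat.shiftRight (Nat.shiftRight a 3840) 20) MLO) (Nat.land (Nat.shiftRight (Nat.mul (Nat.land (Nat.shiftRight b 3840) ON640) C600) 20) MSL)))) (Nat.add (Nat.mul (Nat.land (Nat.shiftRight a 4480) MLO) (Nat.land (Nat.mul (Nat.land (Nat.shiftRight b 4480) ON640) C600) MSL)) (Nat.mul (Nat.land (Nat.shiftRight (Nat.shiftRight a 4480) 20) MLO) (Nat.land (Nat.shiftRight (Nat.mul (Nat.land (Nat.shiftRight b 4480) ON640) C600) 20) MSL)))) (Nat.add (Nat.mul (Nat.land (Nat.shiftRight a 5120) MLO) (Nat.land (Nat.mul (Nat.land (Nat.shiftRight b 5120) ON640) C600) MSL)) (Nat.mul (Nat.land (Nat.shiftRight (Nat.shiftRight a 5120) 20) MLO) (Nat.land (Nat.shiftRight (Nat.mul (Nat.land (Nat.shiftRight b 5120) ON640) C600) 20) MSL))))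
def O10 (a b : ℕ) : ℕ := (Nat.add (Nat.add (Nat.add (Nat.add (Nat.add (Nat.add (Nat.add (Nat.add (Nat.add (Nat.add 0 (Nat.add (Nat.mul (Nat.land (Nat.shiftRight a 0) MLO) (Nat.land (Nat.mul (Nat.land (Nat.shiftRight b 0) ON640) C600) MSL)) (Nat.mul (Nat.land (Nat.shiftRight (Nat.shiftRight a 0) 20) MLO) (Nat.land (Nat.shiftRight (Nat.mul (Nat.land (Nat.shiftRight b 0) ON640) C600) 20) MSL)))) (Nat.add (Nat.mul (Nat.land (Nat.shiftRight a 640) MLO) (Nat.land (Nat.mul (Nat.land (Nat.shiftRight b 640) ON640) C600) MSL)) (Nat.mul (Nat.land (Nat.shiftRight (Nat.shiftRight a 640) 20) MLO) (Nat.land (Nat.shiftRight (Nat.mul (Nat.land (Nat.shiftRight b 640) ON640) C600) 20) MSL)))) (Nat.add (Nat.mul (Nat.land (Nat.shiftRight a 1280) MLO) (Nat.land (Nat.mul (Nat.land (Nat.shiftRight b 1280) ON640) C600) MSL)) (Nat.mul (Nat.land (Nat.shiftRight (Nat.shiftRight a 1280) 20) MLO) (Nat.land (Nat.shiftRight (Nat.mul (Nat.land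 (Nat.shiftRight b 1280) ON640) C600) 20) MSL)))) (Nat.add (Nat.mul (Nat.land (Nat.shiftRight a 1920) MLO) (Nat.land (Nat.mul (Nat.land (Nat.shiftRight b 1920) ON640) C600) MSL)) (Nat.mul (Nat.land (Nat.shiftRight (Nat.shiftRight a 1920) 20) MLO) (Nat.land (Nat.shiftRight (Nat.mul (Nat.land (Nat.shiftRight b 1920) ON640) C600) 20) MSL)))) (Nat.add (Nat.mul (Nat.land (Nat.shiftRight a 2560) MLO) (Nat.land (Nat.mul (Nat.land (Nat.shiftRight b 2560) ON640) C600) MSL)) (Nat.mul (Nat.land (Nat.shiftRight (Nat.shiftRight a 2560) 20) MLO) (Nat.land (Nat.shiftRight (Nat.mul (Nat.land (Nat.shiftRight b 2560) ON640) C600) 20) MSL)))) (Nat.add (Nat.mul (Nat.land (Nat.shiftRight a 3200) MLO) (Nat.land (Nat.mul (Nat.land (Nat.shiftRight b 3200) ON640) C600) MSL)) (Nat.mul (Nat.land (Nat.shiftRight (Nat.shiftRight a 3200) 20) MLO) (Nat.land (Nat.shiftRight (Nat.mul (Nat.land (Nat.shiftRight b 3200) ON640) C600) 20) MSL))))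 (Nat.add (Nat.mul (Nat.land (Nat.shiftRight a 3840) MLO) (Nat.land (Nat.mul (Nat.land (Nat.shiftRight b 3840) ON640) C600) MSL)) (Nat.mul (Nat.land (Nat.shiftRight (Nat.shiftRight a 3840) 20) MLO) (Nat.land (Nat.shiftRight (Nat.mul (Nat.land (Nat.shiftRight b 3840) ON640) C600) 20) MSL)))) (Nat.add (Nat.mul (Nat.land (Nat.shiftRight a 4480) MLO) (Nat.land (Nat.mul (Nat.land (Nat.shiftRight b 4480) ON640) C600) MSL)) (Nat.mul (Nat.land (Nat.shiftRight (Nat.shiftRight a 4480) 20) MLO) (Nat.land (Nat.shiftRight (Nat.mul (Nat.land (Nat.shiftRight b 4480) ON640) C600) 20) MSL)))) (Nat.add (Nat.mul (Nat.land (Nat.shiftRight a 5120) MLO) (Nat.land (Nat.mul (Nat.land (Nat.shiftRight b 5120) ON640) C600) MSL)) (Nat.mul (Nat.land (Nat.shiftRight (Nat.shiftRight a 5120) 20) MLO) (Nat.land (Nat.shiftRight (Nat.mul (Nat.land (Nat.shiftRight b 5120) ON640) C600) 20) MSL)))) (Nat.add (Nat.mul (Nat.land (Nat.shiftRight a 5760)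 MLO) (Nat.land (Nat.mul (Nat.land (Nat.shiftRight b 5760) ON640) C600) MSL)) (Nat.mul (Nat.land (Nat.shiftRight (Nat.shiftRight a 5760) 20) MLO) (Nat.land (Nat.shiftRight (Nat.mul (Nat.land (Nat.shiftRight b 5760) ON640) C600) 20) MSL))))
def O11 (a b : ℕ) : ℕ := (Nat.add (Nat.add (Nat.add (Nat.add (Nat.add (Nat.add (Nat.add (Nat.add (Nat.add (Nat.add (Nat.add 0 (Nat.add (Nat.mul (Nat.land (Nat.shiftRight a 0) MLO) (Nat.land (Nat.mul (Nat.land (Nat.shiftRight b 0) ON640) C600) MSL)) (Nat.mul (Nat.land (Nat.shiftRight (Nat.shiftRight a 0) 20) MLO) (Nat.land (Nat.shiftRight (Nat.mul (Nat.land (Nat.shiftRight b 0) ON640) C600) 20) MSL)))) (Nat.add (Nat.mul (Nat.land (Nat.shiftRight a 640) MLO) (Nat.land (Nat.mul (Nat.land (Nat.shiftRight b 640) ON640) C600) MSL)) (Nat.mul (Nat.land (Nat.shiftRight (Nat.shiftRight a 640) 20) MLO) (Nat.land (Nat.shiftRight (Nat.mul (Nat.land (Nat.shiftRight b 640) ON640) C600) 20)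 MSL)))) (Nat.add (Nat.mul (Nat.land (Nat.shiftRight a 1280) MLO) (Nat.land (Nat.mul (Nat.land (Nat.shiftRight b 1280) ON640) C600) MSL)) (Nat.mul (Nat.land (Nat.shiftRight (Nat.shiftRight a 1280) 20) MLO) (Nat.land (Nat.shiftRight (Nat.mul (Nat.land (Nat.shiftRight b 1280) ON640) C600) 20) MSL)))) (Nat.add (Nat.mul (Nat.land (Nat.shiftRight a 1920) MLO) (Nat.land (Nat.mul (Nat.land (Nat.shiftRight b 1920) ON640) C600) MSL)) (Nat.mul (Nat.land (Nat.shiftRight (Nat.shiftRight a 1920) 20) MLO) (Nat.land (Nat.shiftRight (Nat.mul (Nat.land (Nat.shiftRight b 1920) ON640) C600) 20) MSL)))) (Nat.add (Nat.mul (Nat.land (Nat.shiftRight a 2560) MLO) (Nat.land (Nat.mul (Nat.land (Nat.shiftRight b 2560) ON640) C600) MSL)) (Nat.mul (Nat.land (Nat.shiftRight (Nat.shiftRight a 2560) 20) MLO) (Nat.land (Nat.shiftRight (Nat.mul (Nat.land (Nat.shiftRight b 2560) ON640) C600) 20) MSL)))) (Nat.add (Nat.mul (Nat.land (Nat.shiftRight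 a 3200) MLO) (Nat.land (Nat.mul (Nat.land (Nat.shiftRight b 3200) ON640) C600) MSL)) (Nat.mul (Nat.land (Nat.shiftRight (Nat.shiftRight a 3200) 20) MLO) (Nat.land (Nat.shiftRight (Nat.mul (Nat.land (Nat.shiftRight b 3200) ON640) C600) 20) MSL)))) (Nat.add (Nat.mul (Nat.land (Nat.shiftRight a 3840) MLO) (Nat.land (Nat.mul (Nat.land (Nat.shiftRight b 3840) ON640) C600) MSL)) (Nat.mul (Nat.land (Nat.shiftRight (Nat.shiftRight a 3840) 20) MLO) (Nat.land (Nat.shiftRight (Nat.mul (Nat.land (Nat.shiftRight b 3840) ON640) C600) 20) MSL)))) (Nat.add (Nat.mul (Nat.land (Nat.shiftRight a 4480) MLO) (Nat.land (Nat.mul (Nat.land (Nat.shiftRight b 4480) ON640) C600) MSL)) (Nat.mul (Nat.land (Nat.shiftRight (Nat.shiftRight a 4480) 20) MLO) (Nat.land (Nat.shiftRight (Nat.mul (Nat.land (Nat.shiftRight b 4480) ON640) C600) 20) MSL)))) (Nat.add (Nat.mul (Nat.land (Nat.shiftRight a 5120) MLO) (Nat.land (Nat.mul (Nat.land (Nat.shiftRight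 b 5120) ON640) C600) MSL)) (Nat.mul (Nat.land (Nat.shiftRight (Nat.shiftRight a 5120) 20) MLO) (Nat.land (Nat.shiftRight (Nat.mul (Nat.land (Nat.shiftRight b 5120) ON640) C600) 20) MSL)))) (Nat.add (Nat.mul (Nat.land (Nat.shiftRight a 5760) MLO) (Nat.land (Nat.mul (Nat.land (Nat.shiftRight b 5760) ON640) C600) MSL)) (Nat.mul (Nat.land (Nat.shiftRight (Nat.shiftRight a 5760) 20) MLO) (Nat.land (Nat.shiftRight (Nat.mul (Nat.land (Nat.shiftRight b 5760) ON640) C600) 20) MSL)))) (Nat.add (Nat.mul (Nat.land (Nat.shiftRight a 6400) MLO) (Nat.land (Nat.mul (Nat.land (Nat.shiftRight b 6400) ON640) C600) MSL)) (Nat.mul (Nat.land (Nat.shiftRight (Nat.shiftRight a 6400) 20) MLO) (Nat.land (Nat.shiftRight (Nat.mul (Nat.land (Nat.shiftRight b 6400) ON640) C600) 20) MSL))))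
def O12 (a b : ℕ) : ℕ := (Nat.add (Nat.add (Nat.add (Nat.add (Nat.add (Nat.add (Nat.add (Nat.add (Nat.add (Nat.add (Nat.add (Nat.add 0 (Nat.add (Nat.mul (Nat.land (Nat.shiftRight a 0) MLO) (Nat.land (Nat.mul (Nat.land (Nat.shiftRight b 0) ON640) C600) MSL)) (Nat.mul (Nat.land (Nat.shiftRight (Nat.shiftRight a 0) 20) MLO) (Nat.land (Nat.shiftRight (Nat.mul (Nat.land (Nat.shiftRight b 0) ON640) C600) 20) MSL)))) (Nat.add (Nat.mul (Nat.land (Nat.shiftRight a 640) MLO) (Nat.land (Nat.mul (Nat.land (Nat.shiftRight b 640) ON640) C600) MSL)) (Nat.mul (Nat.land (Nat.shiftRight (Nat.shiftRight a 640) 20) MLO) (Nat.land (Nat.shiftRight (Nat.mul (Nat.land (Nat.shiftRight b 640) ON640) C600) 20) MSL)))) (Nat.add (Nat.mul (Nat.land (Nat.shiftRight a 1280) MLO) (Nat.land (Nat.mul (Nat.land (Nat.shiftRight b 1280) ON640) C600) MSL)) (Nat.mul (Nat.land (Nat.shiftRight (Nat.shiftRight a 1280) 20) MLO) (Nat.land (Nat.shiftRight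 (Nat.mul (Nat.land (Nat.shiftRight b 1280) ON640) C600) 20) MSL)))) (Nat.add (Nat.mul (Nat.land (Nat.shiftRight a 1920) MLO) (Nat.land (Nat.mul (Nat.land (Nat.shiftRight b 1920) ON640) C600) MSL)) (Nat.mul (Nat.land (Nat.shiftRight (Nat.shiftRight a 1920) 20) MLO) (Nat.land (Nat.shiftRight (Nat.mul (Nat.land (Nat.shiftRight b 1920) ON640) C600) 20) MSL)))) (Nat.add (Nat.mul (Nat.land (Nat.shiftRight a 2560) MLO) (Nat.land (Nat.mul (Nat.land (Nat.shiftRight b 2560) ON640) C600) MSL)) (Nat.mul (Nat.land (Nat.shiftRight (Nat.shiftRight a 2560) 20) MLO) (Nat.land (Nat.shiftRight (Nat.mul (Nat.land (Nat.shiftRight b 2560) ON640) C600) 20) MSL)))) (Nat.add (Nat.mul (Nat.land (Nat.shiftRight a 3200) MLO) (Nat.land (Nat.mul (Nat.land (Nat.shiftRight b 3200) ON640) C600) MSL)) (Nat.mul (Nat.land (Nat.shiftRight (Nat.shiftRight a 3200) 20) MLO) (Nat.land (Nat.shiftRight (Nat.mul (Nat.land (Nat.shiftRight b 3200) ON640)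 C600) 20) MSL)))) (Nat.add (Nat.mul (Nat.land (Nat.shiftRight a 3840) MLO) (Nat.land (Nat.mul (Nat.land (Nat.shiftRight b 3840) ON640) C600) MSL)) (Nat.mul (Nat.land (Nat.shiftRight (Nat.shiftRight a 3840) 20) MLO) (Nat.land (Nat.shiftRight (Nat.mul (Nat.land (Nat.shiftRight b 3840) ON640) C600) 20) MSL)))) (Nat.add (Nat.mul (Nat.land (Nat.shiftRight a 4480) MLO) (Nat.land (Nat.mul (Nat.land (Nat.shiftRight b 4480) ON640) C600) MSL)) (Nat.mul (Nat.land (Nat.shiftRight (Nat.shiftRight a 4480) 20) MLO) (Nat.land (Nat.shiftRight (Nat.mul (Nat.land (Nat.shiftRight b 4480) ON640) C600) 20) MSL)))) (Nat.add (Nat.mul (Nat.land (Nat.shiftRight a 5120) MLO) (Nat.land (Nat.mul (Nat.land (Nat.shiftRight b 5120) ON640) C600) MSL)) (Nat.mul (Nat.land (Nat.shiftRight (Nat.shiftRight a 5120) 20) MLO) (Nat.land (Nat.shiftRight (Nat.mul (Nat.land (Nat.shiftRight b 5120) ON640) C600) 20) MSL)))) (Nat.add (Nat.mul (Nat.land (Nat.shiftRight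 a 5760) MLO) (Nat.land (Nat.mul (Nat.land (Nat.shiftRight b 5760) ON640) C600) MSL)) (Nat.mul (Nat.land (Nat.shiftRight (Nat.shiftRight a 5760) 20) MLO) (Nat.land (Nat.shiftRight (Nat.mul (Nat.land (Nat.shiftRight b 5760) ON640) C600) 20) MSL)))) (Nat.add (Nat.mul (Nat.land (Nat.shiftRight a 6400) MLO) (Nat.land (Nat.mul (Nat.land (Nat.shiftRight b 6400) ON640) C600) MSL)) (Nat.mul (Nat.land (Nat.shiftRight (Nat.shiftRight a 6400) 20) MLO) (Nat.land (Nat.shiftRight (Nat.mul (Nat.land (Nat.shiftRight b 6400) ON640) C600) 20) MSL)))) (Nat.add (Nat.mul (Nat.land (Nat.shiftRight a 7040) MLO) (Nat.land (Nat.mul (Nat.land (Nat.shiftRight b 7040) ON640) C600) MSL)) (Nat.mul (Nat.land (Nat.shiftRight (Nat.shiftRight a 7040) 20) MLO) (Nat.land (Nat.shiftRight (Nat.mul (Nat.land (Nat.shiftRight b 7040) ON640) C600) 20) MSL))))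
def O13 (a b : ℕ) : ℕ := (Nat.add (Nat.add (Nat.add (Nat.add (Nat.add (Nat.add (Nat.add (Nat.add (Nat.add (Nat.add (Nat.add (Nat.add (Nat.add 0 (Nat.add (Nat.mul (Nat.land (Nat.shiftRight a 0) MLO) (Nat.land (Nat.mul (Nat.land (Nat.shiftRight b 0) ON640) C600) MSL)) (Nat.mul (Nat.land (Nat.shiftRight (Nat.shiftRight a 0) 20) MLO) (Nat.land (Nat.shiftRight (Nat.mul (Nat.land (Nat.shiftRight b 0) ON640) C600) 20) MSL)))) (Nat.add (Nat.mul (Nat.land (Nat.shiftRight a 640) MLO) (Nat.land (Nat.mul (Nat.land (Nat.shiftRight b 640) ON640) C600) MSL)) (Nat.mul (Nat.land (Nat.shiftRight (Nat.shiftRight a 640) 20) MLO) (Nat.land (Nat.shiftRight (Nat.mul (Nat.land (Nat.shiftRight b 640) ON640) C600) 20) MSL)))) (Nat.add (Nat.mul (Nat.land (Nat.shiftRight a 1280) MLO) (Nat.land (Nat.mul (Nat.land (Nat.shiftRight b 1280) ON640) C600) MSL)) (Nat.mul (Nat.land (Nat.shiftRight (Nat.shiftRight a 1280) 20) MLO) (Nat.land (Nat.shiftRight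 (Nat.mul (Nat.land (Nat.shiftRight b 1280) ON640) C600) 20) MSL)))) (Nat.add (Nat.mul (Nat.land (Nat.shiftRight a 1920) MLO) (Nat.land (Nat.mul (Nat.land (Nat.shiftRight b 1920) ON640) C600) MSL)) (Nat.mul (Nat.land (Nat.shiftRight (Nat.shiftRight a 1920) 20) MLO) (Nat.land (Nat.shiftRight (Nat.mul (Nat.land (Nat.shiftRight b 1920) ON640) C600) 20) MSL)))) (Nat.add (Nat.mul (Nat.land (Nat.shiftRight a 2560) MLO) (Nat.land (Nat.mul (Nat.land (Nat.shiftRight b 2560) ON640) C600) MSL)) (Nat.mul (Nat.land (Nat.shiftRight (Nat.shiftRight a 2560) 20) MLO) (Nat.land (Nat.shiftRight (Nat.mul (Nat.land (Nat.shiftRight b 2560) ON640) C600) 20) MSL)))) (Nat.add (Nat.mul (Nat.land (Nat.shiftRight a 3200) MLO) (Nat.land (Nat.mul (Nat.land (Nat.shiftRight b 3200) ON640) C600) MSL)) (Nat.mul (Nat.land (Nat.shiftRight (Nat.shiftRight a 3200) 20) MLO) (Nat.land (Nat.shiftRight (Nat.mul (Nat.land (Nat.shiftRight b 3200) ON640)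 C600) 20) MSL)))) (Nat.add (Nat.mul (Nat.land (Nat.shiftRight a 3840) MLO) (Nat.land (Nat.mul (Nat.land (Nat.shiftRight b 3840) ON640) C600) MSL)) (Nat.mul (Nat.land (Nat.shiftRight (Nat.shiftRight a 3840) 20) MLO) (Nat.land (Nat.shiftRight (Nat.mul (Nat.land (Nat.shiftRight b 3840) ON640) C600) 20) MSL)))) (Nat.add (Nat.mul (Nat.land (Nat.shiftRight a 4480) MLO) (Nat.land (Nat.mul (Nat.land (Nat.shiftRight b 4480) ON640) C600) MSL)) (Nat.mul (Nat.land (Nat.shiftRight (Nat.shiftRight a 4480) 20) MLO) (Nat.land (Nat.shiftRight (Nat.mul (Nat.land (Nat.shiftRight b 4480) ON640) C600) 20) MSL)))) (Nat.add (Nat.mul (Nat.land (Nat.shiftRight a 5120) MLO) (Nat.land (Nat.mul (Nat.land (Nat.shiftRight b 5120) ON640) C600) MSL)) (Nat.mul (Nat.land (Nat.shiftRight (Nat.shiftRight a 5120) 20) MLO) (Nat.land (Nat.shiftRight (Nat.mul (Nat.land (Nat.shiftRight b 5120) ON640) C600) 20) MSL)))) (Nat.add (Nat.mul (Nat.land (Nat.shiftRight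 a 5760) MLO) (Nat.land (Nat.mul (Nat.land (Nat.shiftRight b 5760) ON640) C600) MSL)) (Nat.mul (Nat.land (Nat.shiftRight (Nat.shiftRight a 5760) 20) MLO) (Nat.land (Nat.shiftRight (Nat.mul (Nat.land (Nat.shiftRight b 5760) ON640) C600) 20) MSL)))) (Nat.add (Nat.mul (Nat.land (Nat.shiftRight a 6400) MLO) (Nat.land (Nat.mul (Nat.land (Nat.shiftRight b 6400) ON640) C600) MSL)) (Nat.mul (Nat.land (Nat.shiftRight (Nat.shiftRight a 6400) 20) MLO) (Nat.land (Nat.shiftRight (Nat.mul (Nat.land (Nat.shiftRight b 6400) ON640) C600) 20) MSL)))) (Nat.add (Nat.mul (Nat.land (Nat.shiftRight a 7040) MLO) (Nat.land (Nat.mul (Nat.land (Nat.shiftRight b 7040) ON640) C600) MSL)) (Nat.mul (Nat.land (Nat.shiftRight (Nat.shiftRight a 7040) 20) MLO) (Nat.land (Nat.shiftRight (Nat.mul (Nat.land (Nat.shiftRight b 7040) ON640) C600) 20) MSL)))) (Nat.add (Nat.mul (Nat.land (Nat.shiftRight a 7680) MLO) (Nat.land (Nat.mul (Nat.land (Nat.shiftRight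 b 7680) ON640) C600) MSL)) (Nat.mul (Nat.land (Nat.shiftRight (Nat.shiftRight a 7680) 20) MLO) (Nat.land (Nat.shiftRight (Nat.mul (Nat.land (Nat.shiftRight b 7680) ON640) C600) 20) MSL))))

theorem O1_eq (a b : ℕ) : O1 a b = ops 1 a b := rfl
theorem O2_eq (a b : ℕ) : O2 a b = ops 2 a b := rfl
theorem O3_eq (a b : ℕ) : O3 a b = ops 3 a b := rfl
theorem O4_eq (a b : ℕ) : O4 a b = ops 4 a b := rfl
theorem O5_eq (a b : ℕ) : O5 a b = ops 5 a b := rfl
theorem O6_eq (a b : ℕ) : O6 a b = ops 6 a b := rfl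
theorem O7_eq (a b : ℕ) : O7 a b = ops 7 a b := rfl
theorem O8_eq (a b : ℕ) : O8 a b = ops 8 a b := rfl
theorem O9_eq (a b : ℕ) : O9 a b = ops 9 a b := rfl
theorem O10_eq (a b : ℕ) : O10 a b = ops 10 a b := rfl
theorem O11_eq (a b : ℕ) : O11 a b = ops 11 a b := rfl
theorem O12_eq (a b : ℕ) : O12 a b = ops 12 a b := rfl
theorem O13_eq (a b : ℕ) : O13 a b = ops 13 a b := rfl

/-- the sum of the products of the columns -/
def opu (G a b : ℕ) : ℕ := (cnd (Nat.beq G 7) (O7 a b) (cnd (Nat.beq G 6) (O6 a b) (cnd (Nat.beq G 5) (O5 a b) (cnd (Nat.beq G 4) (O4 a b) (cnd (Nat.beq G 8) (O8 a b) (cnd (Nat.beq G 3) (O3 a b) (cnd (Nat.beq G 2) (O2 a b) (cnd (Nat.beq G 1) (O1 a b) (cnd (Nat.beq G 9) (O9 a b) (cnd (Nat.beq G 10) (O10 a b) (cnd (Nat.beq G 11) (O11 a b) (cnd (Nat.beq G 12) (O12 a b) (cnd (Nat.beq G 13) (O13 a b) (ops G a b))))))))))))))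

theorem cnd_t {α : Type} (x y : α) : cnd true x y = x := rfl
theorem cnd_f {α : Type} (x y : α) : cnd false x y = y := rfl

theorem cnd_opu {G n : ℕ} {x y z : ℕ} (h : n = G → x = z) (h2 : y = z) : cnd (Nat.beq G n) x y = z := by
  by_cases e : G = n
  · subst e
    rw [Nat.beq_refl, cnd_t]
    exact h rfl
  · have : Nat.beq G n = false := by
      rw [← Bool.not_eq_true]; exact fun hh => e (Nat.eq_of_beq_eq_true hh)
    rw [this, cnd_f, h2]

theorem opu_eq (G a b : ℕ) : opu G a b = ops G a b := by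
  unfold opu
  refine cnd_opu (fun h => by rw [← h]; exact O7_eq a b) ?_
  refine cnd_opu (fun h => by rw [← h]; exact O6_eq a b) ?_
  refine cnd_opu (fun h => by rw [← h]; exact O5_eq a b) ?_
  refine cnd_opu (fun h => by rw [← h]; exact O4_eq a b) ?_
  refine cnd_opu (fun h => by rw [← h]; exact O8_eq a b) ?_
  refine cnd_opu (fun h => by rw [← h]; exact O3_eq a b) ?_
  refine cnd_opu (fun h => by rw [← h]; exact O2_eq a b) ?_
  refine cnd_opu (fun h => by rw [← h]; exact O1_eq a b) ?_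
  refine cnd_opu (fun h => by rw [← h]; exact O9_eq a b) ?_
  refine cnd_opu (fun h => by rw [← h]; exact O10_eq a b) ?_
  refine cnd_opu (fun h => by rw [← h]; exact O11_eq a b) ?_
  refine cnd_opu (fun h => by rw [← h]; exact O12_eq a b) ?_
  refine cnd_opu (fun h => by rw [← h]; exact O13_eq a b) ?_
  rfl

/-- all values for a pair of blocks -/
def OP (G a b : ℕ) : ℕ := Nat.add (opu G a b)
  (Nat.add (Nat.mul (cw a G) OS16) (Nat.mul ON16 (Nat.land (Nat.mul (cw b G) C600) MK16)))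

theorem shr_shr (a m n : ℕ) : Nat.shiftRight (Nat.shiftRight a m) n = Nat.shiftRight a (m + n) :=
  (Nat.shiftRight_add a m n).symm

theorem uB_even (a g t : ℕ) : uB a (2 * g) t = a / 2 ^ (640 * g + 40 * t) % 2 ^ 20 := by
  unfold uB
  have e : 640 * (2 * g / 2) + 20 * (2 * g % 2) + 40 * t = 640 * g + 40 * t := by omega
  rw [e]
theorem uB_odd (a g t : ℕ) : uB a (2 * g + 1) t = a / 2 ^ (640 * g + 20 + 40 * t) % 2 ^ 20 := by
  unfold uB
  have e : 640 * ((2 * g + 1) / 2) + 20 * ((2 * g + 1) % 2) + 40 * t = 640 * g + 20 + 40 * t := by omega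
  rw [e]

theorem x_even (a g : ℕ) : Nat.land (Nat.shiftRight a (Nat.mul 640 g)) MLO = enc 40 4 (uB a (2 * g)) := by
  rw [MLO_eq, km_eq (by norm_num) (by norm_num)]
  exact enc_congr fun t _ => (uB_even a g t).symm
theorem x_odd (a g : ℕ) : Nat.land (Nat.shiftRight (Nat.shiftRight a (Nat.mul 640 g)) 20) MLO = enc 40 4 (uB a (2 * g + 1)) := by
  rw [shr_shr, MLO_eq, km_eq (by norm_num) (by norm_num)]
  exact enc_congr fun t _ => (uB_odd a g t).symm

/-- fields of a group -/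
def gB (b g t : ℕ) : ℕ := b / 2 ^ (640 * g + 40 * t) % 2 ^ 40

theorem gB_lo (b g t : ℕ) : gB b g t % 2 ^ 20 = uB b (2 * g) t := by
  rw [uB_even]; exact lo_eq _ _
theorem gB_hi (b g t : ℕ) : gB b g t / 2 ^ 20 = uB b (2 * g + 1) t := by
  rw [uB_odd, show 640 * g + 20 + 40 * t = 640 * g + 40 * t + 20 by ring]; exact hi_eq _ _

theorem gB_lt {b g t : ℕ} (h : uB b (2 * g + 1) t < 2 ^ 18) : gB b g t < 2 ^ 39 := by
  have h1 := Nat.mod_add_div (gB b g t) (2 ^ 20)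
  have h2 : gB b g t % 2 ^ 20 < 2 ^ 20 := Nat.mod_lt _ (by positivity)
  rw [gB_hi] at h1
  norm_num at h h1 h2 ⊢
  omega

theorem gr_eq (b g : ℕ) : gr b g = Nat.mul (enc 40 4 (gB b g)) C600 := by
  unfold gr
  rw [ON640_eq, km_eq (by norm_num) (by norm_num)]
  rfl

theorem og_eq {a b g : ℕ} (h : ∀ t < 16, uB b (2 * g + 1) t < 2 ^ 18) :
    og (Nat.shiftRight a (Nat.mul 640 g)) (gr b g) = enc 40 8 (fun i =>
      uB a (2 * g) (i % 16) * uB b (2 * g) (i / 16) + uB a (2 * g + 1) (i % 16) * uB b (2 * g + 1) (i / 16)) := by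
  have hg : ∀ t < 16, gB b g t < 2 ^ 39 := fun t ht => gB_lt (h t ht)
  unfold og
  rw [x_even, x_odd, gr_eq, spread_lo hg, spread_hi hg, mul_out 4, mul_out 4]
  show enc 40 8 _ + enc 40 8 _ = _
  rw [enc_add]
  refine enc_congr fun i hi => ?_
  rw [gB_lo, gB_hi, Nat.mod_eq_of_lt (uB_lt b _ _)]
  ring

theorem sum_two (f : ℕ → ℕ) (G : ℕ) : ∑ g ∈ range G, (f (2 * g) + f (2 * g + 1)) = ∑ k ∈ range (2 * G), f k := by
  induction G with
  | zero => rfl
  | succ G ih =>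
    rw [sum_range_succ, ih, show 2 * (G + 1) = 2 * G + 1 + 1 by ring, sum_range_succ, sum_range_succ, add_assoc]

theorem ops_eq {G a b : ℕ} (h : ∀ k < 2 * G, ∀ t < 16, uB b k t < 2 ^ 18) :
    ops G a b = enc 40 8 (fun i => ∑ k ∈ range (2 * G), uB a k (i % 16) * uB b k (i / 16)) := by
  unfold ops
  rw [osum_enc (s := 40) (n := 8) _ (fun g i => uB a (2 * g) (i % 16) * uB b (2 * g) (i / 16)
    + uB a (2 * g + 1) (i % 16) * uB b (2 * g + 1) (i / 16)) G fun g hg => og_eq fun t ht => h _ (by omega) t ht]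
  exact enc_congr fun i _ => sum_two (fun k => uB a k (i % 16) * uB b k (i / 16)) G

theorem OP_eq {G a b : ℕ} (h : ∀ k < 2 * G, ∀ t < 16, uB b k t < 2 ^ 18) (hw : ∀ t < 16, wB b G t < 2 ^ 39) :
    OP G a b = enc 40 8 (fun i => (∑ k ∈ range (2 * G), uB a k (i % 16) * uB b k (i / 16))
      + (wB a G (i % 16) + wB b G (i / 16))) := by
  unfold OP
  rw [opu_eq, ops_eq h, cw_eq, cw_eq, spread_w hw]
  have h2 : Nat.mul (enc 40 4 (wB a G)) OS16 = enc 40 8 (fun i => wB a G (i % 16)) := by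
    rw [OS16_eq]
    refine (mul_out 4 _ _).trans (enc_congr fun i _ => one_mul _)
  have h3 : Nat.mul ON16 (enc 640 4 (wB b G)) = enc 40 8 (fun i => wB b G (i / 16)) := by
    rw [ON16_eq]
    refine (mul_out 4 _ _).trans (enc_congr fun i _ => mul_one _)
  rw [h2, h3]
  show enc 40 8 _ + (enc 40 8 _ + enc 40 8 _) = _
  rw [enc_add, enc_add]

/-! a record against a block -/

def sc (a k p : ℕ) : ℕ := Nat.land (Nat.shiftRight a (Nat.add (Nat.mul 640 (Nat.div k 2)) (Nat.add (Nat.mul 20 (Nat.mod k 2)) (Nat.mul 40 p)))) 1048575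
def sw (a G p : ℕ) : ℕ := Nat.land (Nat.shiftRight a (Nat.add (Nat.mul 640 G) (Nat.mul 40 p))) 1099511627775

theorem sc_eq (a k p : ℕ) : sc a k p = uB a k p := by
  show (a >>> (640 * (k / 2) + (20 * (k % 2) + 40 * p))) &&& (2 ^ 20 - 1) = _
  rw [Nat.and_two_pow_sub_one_eq_mod, Nat.shiftRight_eq_div_pow, ← add_assoc]
  rfl
theorem sw_eq (a G p : ℕ) : sw a G p = wB a G p := by
  show (a >>> (640 * G + 40 * p)) &&& (2 ^ 40 - 1) = _
  rw [Nat.and_two_pow_sub_one_eq_mod, Nat.shiftRight_eq_div_pow]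
  rfl

/-- the values of a record and a block -/
def OB (G a p b : ℕ) : ℕ := Nat.add (osum (fun g => Nat.add
    (Nat.mul (Nat.land (Nat.shiftRight b (Nat.mul 640 g)) MLO) (sc a (Nat.mul 2 g) p))
    (Nat.mul (Nat.land (Nat.shiftRight (Nat.shiftRight b (Nat.mul 640 g)) 20) MLO) (sc a (Nat.add (Nat.mul 2 g) 1) p))) G)
  (Nat.add (cw b G) (Nat.mul ON16 (sw a G p)))

theorem OB_eq (G a p b : ℕ) : OB G a p b = enc 40 4 (fun t => (∑ k ∈ range (2 * G), uB b k t * uB a k p)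
    + (wB b G t + wB a G p)) := by
  unfold OB
  have h1 : ∀ g < G, Nat.add (Nat.mul (Nat.land (Nat.shiftRight b (Nat.mul 640 g)) MLO) (sc a (Nat.mul 2 g) p))
      (Nat.mul (Nat.land (Nat.shiftRight (Nat.shiftRight b (Nat.mul 640 g)) 20) MLO) (sc a (Nat.add (Nat.mul 2 g) 1) p))
      = enc 40 4 (fun t => uB b (2 * g) t * uB a (2 * g) p + uB b (2 * g + 1) t * uB a (2 * g + 1) p) := by
    intro g _
    rw [x_even, x_odd, sc_eq, sc_eq]
    show enc 40 4 _ * uB a (2 * g) p + enc 40 4 _ * uB a (2 * g + 1) p = _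
    rw [enc_mulc, enc_mulc, enc_add]
  rw [osum_enc (s := 40) (n := 4) _ (fun g t => uB b (2 * g) t * uB a (2 * g) p + uB b (2 * g + 1) t * uB a (2 * g + 1) p) G h1,
    cw_eq, ON16_eq, sw_eq]
  show enc 40 4 _ + (enc 40 4 _ + enc 40 4 _ * _) = _
  rw [enc_mulc, enc_add, enc_add]
  refine enc_congr fun t _ => ?_
  rw [sum_two (fun k => uB b k t * uB a k p) G, one_mul]

/-! long columns -/

/-- entry of a column of a group -/
def uT (N h f : ℕ) : ℕ := N / 2 ^ (20 * h + 40 * f) % 2 ^ 20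
/-- entry of a constant column -/
def wT (W f : ℕ) : ℕ := W / 2 ^ (40 * f) % 2 ^ 40

theorem uT_lt (N h f : ℕ) : uT N h f < 2 ^ 20 := Nat.mod_lt _ (by positivity)
theorem wT_lt (W f : ℕ) : wT W f < 2 ^ 40 := Nat.mod_lt _ (by positivity)

theorem wT_lo (N f : ℕ) : wT N f % 2 ^ 20 = uT N 0 f := by
  unfold wT uT
  rw [mul_zero, zero_add]; exact lo_eq _ _
theorem wT_hi (N f : ℕ) : wT N f / 2 ^ 20 = uT N 1 f := by
  unfold wT uT
  rw [mul_one, add_comm 20]; exact hi_eq _ _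
theorem wT_lt39 {N f : ℕ} (h : uT N 1 f < 2 ^ 18) : wT N f < 2 ^ 39 := by
  have h1 := Nat.mod_add_div (wT N f) (2 ^ 20)
  have h2 : wT N f % 2 ^ 20 < 2 ^ 20 := Nat.mod_lt _ (by positivity)
  rw [wT_hi] at h1
  norm_num at h h1 h2 ⊢
  omega

/-- the products of two columns of a group -/
def og3 (N c1 c2 : ℕ) : ℕ := Nat.add
  (Nat.mul (Nat.land (Nat.shiftRight N (Nat.mul 1280 c1)) MLO32)
    (Nat.land (Nat.mul (Nat.land (Nat.shiftRight N (Nat.mul 1280 c2)) ON1280) C1240) MSL32))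
  (Nat.mul (Nat.land (Nat.shiftRight (Nat.shiftRight N (Nat.mul 1280 c1)) 20) MLO32)
    (Nat.land (Nat.shiftRight (Nat.mul (Nat.land (Nat.shiftRight N (Nat.mul 1280 c2)) ON1280) C1240) 20) MSL32))
def ow3 (W c1 c2 : ℕ) : ℕ := Nat.add
  (Nat.mul (Nat.land (Nat.shiftRight W (Nat.mul 1280 c1)) ON1280) OS32)
  (Nat.mul ON32 (Nat.land (Nat.mul (Nat.land (Nat.shiftRight W (Nat.mul 1280 c2)) ON1280) C1240) MK32))

theorem mul_out32 (n : ℕ) (f g : ℕ → ℕ) : Nat.mul (enc 40 5 g) (enc 1280 n f) = enc 40 (n + 5) (fun i => f (i / 32) * g (i % 32)) := by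
  show enc 40 5 g * enc 1280 n f = _
  rw [mul_comm]
  exact enc_prod 40 5 f g n

theorem bl32 (N c : ℕ) : Nat.land (Nat.shiftRight N (Nat.mul 1280 c)) ON1280 = enc 40 5 (fun t => wT N (32 * c + t)) := by
  rw [ON1280_eq, km_eq (by norm_num) (by norm_num)]
  refine enc_congr fun t _ => ?_
  unfold wT
  rw [show 40 * (32 * c + t) = Nat.mul 1280 c + 40 * t by show _ = 1280 * c + 40 * t; ring]

theorem og3_eq {N c1 c2 : ℕ} (h : ∀ t < 32, uT N 1 (32 * c2 + t) < 2 ^ 18) :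
    og3 N c1 c2 = enc 40 10 (fun i => uT N 0 (32 * c1 + i % 32) * uT N 0 (32 * c2 + i / 32)
      + uT N 1 (32 * c1 + i % 32) * uT N 1 (32 * c2 + i / 32)) := by
  have hg : ∀ t < 32, (fun t => wT N (32 * c2 + t)) t < 2 ^ 39 := fun t ht => wT_lt39 (h t ht)
  unfold og3
  rw [bl32, spread_lo32 hg, spread_hi32 hg, shr_shr, MLO32_eq, km_eq (by norm_num) (by norm_num),
    km_eq (by norm_num) (by norm_num), mul_out32 5, mul_out32 5]
  show enc 40 10 _ + enc 40 10 _ = _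
  rw [enc_add]
  refine enc_congr fun i hi => ?_
  rw [wT_lo, wT_hi, Nat.mod_eq_of_lt (uT_lt N 1 _)]
  have e0 : N / 2 ^ (Nat.mul 1280 c1 + 40 * (i % 32)) % 2 ^ 20 = uT N 0 (32 * c1 + i % 32) := by
    unfold uT
    rw [show 20 * 0 + 40 * (32 * c1 + i % 32) = Nat.mul 1280 c1 + 40 * (i % 32) by show _ = 1280 * c1 + _; ring]
  have e1 : N / 2 ^ (Nat.mul 1280 c1 + 20 + 40 * (i % 32)) % 2 ^ 20 = uT N 1 (32 * c1 + i % 32) := by
    unfold uT
    rw [show 20 * 1 + 40 * (32 * c1 + i % 32) = Nat.mul 1280 c1 + 20 + 40 * (i % 32) by show _ = 1280 * c1 + _ + _; ring]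
  rw [e0, e1]
  ring

theorem ow3_eq {W c1 c2 : ℕ} (h : ∀ t < 32, wT W (32 * c2 + t) < 2 ^ 39) :
    ow3 W c1 c2 = enc 40 10 (fun i => wT W (32 * c1 + i % 32) + wT W (32 * c2 + i / 32)) := by
  unfold ow3
  rw [bl32, bl32, spread_w32 h, OS32_eq, ON32_eq, mul_out32 5, mul_out32 5]
  show enc 40 10 _ + enc 40 10 _ = _
  rw [enc_add]
  exact enc_congr fun i _ => by rw [one_mul, mul_one]

/-- all values for a pair of blocks of thirty-two -/
def OQ (G : ℕ) (TG : ℕ → ℕ) (W c1 c2 : ℕ) : ℕ := Nat.add (osum (fun g => og3 (TG g) c1 c2) G) (ow3 W c1 c2)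

theorem OQ_eq {G : ℕ} {TG : ℕ → ℕ} {W c1 c2 : ℕ} (h : ∀ g < G, ∀ t < 32, uT (TG g) 1 (32 * c2 + t) < 2 ^ 18)
    (hw : ∀ t < 32, wT W (32 * c2 + t) < 2 ^ 39) :
    OQ G TG W c1 c2 = enc 40 10 (fun i => (∑ k ∈ range (2 * G), uT (TG (k / 2)) (k % 2) (32 * c1 + i % 32)
      * uT (TG (k / 2)) (k % 2) (32 * c2 + i / 32)) + (wT W (32 * c1 + i % 32) + wT W (32 * c2 + i / 32))) := by
  unfold OQ
  rw [osum_enc (s := 40) (n := 10) _ (fun g i => uT (TG g) 0 (32 * c1 + i % 32) * uT (TG g) 0 (32 * c2 + i / 32)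
      + uT (TG g) 1 (32 * c1 + i % 32) * uT (TG g) 1 (32 * c2 + i / 32)) G (fun g hg => og3_eq (h g hg)), ow3_eq hw]
  show enc 40 10 _ + enc 40 10 _ = _
  rw [enc_add]
  refine enc_congr fun i _ => ?_
  rw [← sum_two (fun k => uT (TG (k / 2)) (k % 2) (32 * c1 + i % 32) * uT (TG (k / 2)) (k % 2) (32 * c2 + i / 32)) G]
  congr 1
  refine sum_congr rfl fun g _ => ?_
  have a1 : 2 * g / 2 = g := by omega
  have a2 : 2 * g % 2 = 0 := by omega
  have a3 : (2 * g + 1) / 2 = g := by omega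
  have a4 : (2 * g + 1) % 2 = 1 := by omega
  rw [a1, a2, a3, a4]

/-- the values of a record against sixty-four entries: `T` is the rearranged group -/
def od3 (T N c f : ℕ) : ℕ := Nat.add
  (Nat.mul (Nat.land (Nat.shiftRight T (Nat.mul 2560 c)) MLO64) (Nat.land (Nat.shiftRight N (Nat.mul 40 f)) 1048575))
  (Nat.mul (Nat.land (Nat.shiftRight (Nat.shiftRight T (Nat.mul 2560 c)) 20) MLO64)
    (Nat.land (Nat.shiftRight N (Nat.add 20 (Nat.mul 40 f))) 1048575))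
def odw (TW W c f : ℕ) : ℕ := Nat.add (Nat.land (Nat.shiftRight TW (Nat.mul 2560 c)) ON2560)
  (Nat.mul ON64 (Nat.land (Nat.shiftRight W (Nat.mul 40 f)) 1099511627775))
def OD (G : ℕ) (TT TG : ℕ → ℕ) (TW W c f : ℕ) : ℕ := Nat.add (osum (fun g => od3 (TT g) (TG g) c f) G) (odw TW W c f)

theorem od3_eq (T N c f : ℕ) : od3 T N c f = enc 40 6 (fun t => uT T 0 (64 * c + t) * uT N 0 f + uT T 1 (64 * c + t) * uT N 1 f) := by
  unfold od3
  have h0 : Nat.land (Nat.shiftRight N (Nat.mul 40 f)) 1048575 = uT N 0 f := by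
    show (N >>> (40 * f)) &&& (2 ^ 20 - 1) = _
    rw [Nat.and_two_pow_sub_one_eq_mod, Nat.shiftRight_eq_div_pow]
    unfold uT
    rw [mul_zero, zero_add]
  have h1 : Nat.land (Nat.shiftRight N (Nat.add 20 (Nat.mul 40 f))) 1048575 = uT N 1 f := by
    show (N >>> (20 + 40 * f)) &&& (2 ^ 20 - 1) = _
    rw [Nat.and_two_pow_sub_one_eq_mod, Nat.shiftRight_eq_div_pow]
    rfl
  rw [h0, h1, shr_shr, MLO64_eq, km_eq (by norm_num) (by norm_num), km_eq (by norm_num) (by norm_num)]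
  show enc 40 6 _ * _ + enc 40 6 _ * _ = _
  rw [enc_mulc, enc_mulc, enc_add]
  refine enc_congr fun t _ => ?_
  have e0 : T / 2 ^ (Nat.mul 2560 c + 40 * t) % 2 ^ 20 = uT T 0 (64 * c + t) := by
    unfold uT
    rw [show 20 * 0 + 40 * (64 * c + t) = Nat.mul 2560 c + 40 * t by show _ = 2560 * c + _; ring]
  have e1 : T / 2 ^ (Nat.mul 2560 c + 20 + 40 * t) % 2 ^ 20 = uT T 1 (64 * c + t) := by
    unfold uT
    rw [show 20 * 1 + 40 * (64 * c + t) = Nat.mul 2560 c + 20 + 40 * t by show _ = 2560 * c + _ + _; ring]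
  rw [e0, e1]

theorem odw_eq (TW W c f : ℕ) : odw TW W c f = enc 40 6 (fun t => wT TW (64 * c + t) + wT W f) := by
  unfold odw
  have h0 : Nat.land (Nat.shiftRight W (Nat.mul 40 f)) 1099511627775 = wT W f := by
    show (W >>> (40 * f)) &&& (2 ^ 40 - 1) = _
    rw [Nat.and_two_pow_sub_one_eq_mod, Nat.shiftRight_eq_div_pow]
    rfl
  rw [h0, ON2560_eq, ON64_eq, km_eq (by norm_num) (by norm_num)]
  show enc 40 6 _ + enc 40 6 _ * _ = _
  rw [enc_mulc, enc_add]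
  refine enc_congr fun t _ => ?_
  have e0 : TW / 2 ^ (Nat.mul 2560 c + 40 * t) % 2 ^ 40 = wT TW (64 * c + t) := by
    unfold wT
    rw [show 40 * (64 * c + t) = Nat.mul 2560 c + 40 * t by show _ = 2560 * c + _; ring]
  rw [e0, one_mul]

theorem OD_eq (G : ℕ) (TT TG : ℕ → ℕ) (TW W c f : ℕ) :
    OD G TT TG TW W c f = enc 40 6 (fun t => (∑ k ∈ range (2 * G), uT (TT (k / 2)) (k % 2) (64 * c + t)
      * uT (TG (k / 2)) (k % 2) f) + (wT TW (64 * c + t) + wT W f)) := by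
  unfold OD
  rw [osum_enc (s := 40) (n := 6) _ (fun g t => uT (TT g) 0 (64 * c + t) * uT (TG g) 0 f
      + uT (TT g) 1 (64 * c + t) * uT (TG g) 1 f) G (fun g _ => od3_eq _ _ _ _), odw_eq]
  show enc 40 6 _ + enc 40 6 _ = _
  rw [enc_add]
  refine enc_congr fun t _ => ?_
  rw [← sum_two (fun k => uT (TT (k / 2)) (k % 2) (64 * c + t) * uT (TG (k / 2)) (k % 2) f) G]
  congr 1
  refine sum_congr rfl fun g _ => ?_
  have a1 : 2 * g / 2 = g := by omega
  have a2 : 2 * g % 2 = 0 := by omega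
  have a3 : (2 * g + 1) / 2 = g := by omega
  have a4 : (2 * g + 1) % 2 = 1 := by omega
  rw [a1, a2, a3, a4]

end

end Pool.Agent.H68.F7
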