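import Pool.Graph.R_pool_sql_team_seeded_63374d34.N443.Core.Run3

/-! Sums of steps of several kinds. -/

set_option autoImplicit false
set_option maxRecDepth 100000
open Finset

namespace Pool.Agent.H68.F7

open Pool.Agent.Y435.T7 (bt sb st cnd al d2 swp enc fld enc_congr enc_zero enc_succ enc_lt enc_add)
open Pool.Agent.N443 (st_eq pcd pcd_mkN mkN mkN_congr codeN act Stp Grp run3 run3_enc wf3 phi3 phi3_lt phi3_append phi3_mkN tau3
  tot1 tot3 fl3)

theorem tot1_enc {N : ℕ → ℕ} {n1 : ℕ} {B : ℕ → ℕ → ℕ} {Bv : ℕ → ℕ → ℕ → ℕ} (hB : ∀ k c, B k c = enc 40 (N k) (Bv k c))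
    (hlt : ∀ k c i, i < 2 ^ N k → Bv k c i < 2 ^ 40) (l : List Stp) (hl : ∀ s ∈ l, wf3 n1 s.2.2 (N s.1) = true) (c : ℕ) :
    tot1 B l c = enc 40 n1 (fun i => (l.map fun s => Bv s.1 (pcd s.2.1 c) (phi3 s.2.2 i)).sum) := by
  induction l with
  | nil => simp [tot1, enc]
  | cons s l ih =>
    have e : tot1 B (s :: l) c = st (fun c => run3 s.2.2 (B s.1 c)) (pcd s.2.1 c) + tot1 B l c := rfl
    rw [e, st_eq, ih fun s hs => hl s (List.mem_cons_of_mem _ hs), hB, run3_enc _ (hl s List.mem_cons_self) (hlt _ _), enc_add]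
    exact enc_congr fun i _ => by rw [List.map_cons, List.sum_cons]

/-- well-formed groups -/
def wfG (N M : ℕ → ℕ) (nf : ℕ) (gs : List Grp) : Bool := gs.all fun g =>
  decide ((g.2.1.map fun s => M s.1).sum < 2 ^ 40) &&
  (g.2.1.all (fun s => wf3 g.1 s.2.2 (N s.1)) && wf3 nf g.2.2 g.1)

theorem le_sumM {N M : ℕ → ℕ} {Bv : ℕ → ℕ → ℕ → ℕ} (hlt : ∀ k c i, i < 2 ^ N k → Bv k c i ≤ M k) {n1 c i : ℕ} (hi : i < 2 ^ n1)
    (l : List Stp) (hs : ∀ s ∈ l, wf3 n1 s.2.2 (N s.1) = true) :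
    (l.map fun s => Bv s.1 (pcd s.2.1 c) (phi3 s.2.2 i)).sum ≤ (l.map fun s => M s.1).sum := by
  induction l with
  | nil => simp
  | cons s l ihl =>
    rw [List.map_cons, List.sum_cons, List.map_cons, List.sum_cons]
    exact Nat.add_le_add (hlt _ _ _ (phi3_lt _ (hs s List.mem_cons_self) hi)) (ihl fun s hs' => hs s (List.mem_cons_of_mem _ hs'))

theorem tot3_enc {N M : ℕ → ℕ} {nf : ℕ} {B : ℕ → ℕ → ℕ} {Bv : ℕ → ℕ → ℕ → ℕ} (hB : ∀ k c, B k c = enc 40 (N k) (Bv k c))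
    (hlt : ∀ k c i, i < 2 ^ N k → Bv k c i ≤ M k) (hM : ∀ k, M k < 2 ^ 40) (gs : List Grp)
    (hg : wfG N M nf gs = true) (c : ℕ) :
    tot3 B gs c = enc 40 nf (fun i => ((fl3 gs).map fun s => Bv s.1 (pcd s.2.1 c) (phi3 s.2.2 i)).sum) := by
  induction gs with
  | nil => simp [tot3, fl3, enc]
  | cons g gs ih =>
    have e : tot3 B (g :: gs) c = run3 g.2.2 (tot1 B g.2.1 c) + tot3 B gs c := rfl
    have hg' : (decide ((g.2.1.map fun s => M s.1).sum < 2 ^ 40) &&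
        (g.2.1.all (fun s => wf3 g.1 s.2.2 (N s.1)) && wf3 nf g.2.2 g.1)) = true ∧ wfG N M nf gs = true := by
      unfold wfG at hg
      rw [List.all_cons, Bool.and_eq_true] at hg
      exact hg
    obtain ⟨hg1, hg2⟩ := hg'
    rw [Bool.and_eq_true, Bool.and_eq_true, decide_eq_true_eq, List.all_eq_true] at hg1
    obtain ⟨h1, h2, h3⟩ := hg1
    rw [e, ih hg2, tot1_enc hB (fun k c i hi => lt_of_le_of_lt (hlt k c i hi) (hM k)) g.2.1 h2,
      run3_enc _ h3, enc_add]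
    · refine enc_congr fun i _ => ?_
      unfold fl3
      rw [List.flatMap_cons, List.map_append, List.sum_append, List.map_map]
      congr 2
      refine List.map_congr_left fun s _ => ?_
      show _ = Bv s.1 (pcd s.2.1 c) (phi3 (s.2.2 ++ g.2.2) i)
      rw [phi3_append]
    · intro i hi
      exact lt_of_le_of_lt (le_sumM hlt hi g.2.1 h2) h1

/-- a step is right for a permutation: `CL` lists the triples of the code, `LL` those of the index -/
def okS (n0 nf nc : ℕ) (CQ CL LL LF : List (Finset (Fin 7))) (s : Stp) (σ : Equiv.Perm (Fin 7)) : Bool :=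
  wf3 nf s.2.2 n0 && (decide (s.2.1.length = CL.length) && (s.2.1.all (fun i => decide (i < nc)) &&
    ((List.range CL.length).all (fun j => decide (CQ.getD (s.2.1.getD j 0) ∅ = (CL.getD j ∅).image σ)) &&
      (List.range n0).all (fun j => decide (LF.getD (tau3 s.2.2 j) ∅ = (LL.getD j ∅).image σ)))))

theorem okS_spec {n0 nf nc : ℕ} {CQ CL LL LF : List (Finset (Fin 7))} {s : Stp} {σ : Equiv.Perm (Fin 7)}
    (h : okS n0 nf nc CQ CL LL LF s σ = true) {g : Finset (Fin 7) → ℕ} (hg : ∀ Q, g Q ≤ 1) :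
    wf3 nf s.2.2 n0 = true ∧ pcd s.2.1 (codeN nc CQ g) = codeN CL.length CL (act σ g) ∧
      phi3 s.2.2 (codeN nf LF g) = codeN n0 LL (act σ g) := by
  simp only [okS, Bool.and_eq_true, decide_eq_true_eq, List.all_eq_true, List.mem_range] at h
  obtain ⟨h1, h2, h3, h4, h5⟩ := h
  refine ⟨h1, ?_, ?_⟩
  · unfold codeN
    rw [pcd_mkN (fun j => hg _) _ h3, h2]
    exact mkN_congr fun j hj => by rw [h4 j hj]; rfl
  · unfold codeN
    rw [phi3_mkN _ h1 fun j => hg _]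
    exact mkN_congr fun j hj => by rw [h5 j hj]; rfl

end Pool.Agent.H68.F7
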