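import Pool.Agent.H68.F7.Val
import Pool.Agent.H68.F7.Tot

/-! The steps: 126 configurations in 21 groups. -/

set_option autoImplicit false
set_option maxRecDepth 100000
set_option maxHeartbeats 4000000
open Finset Equiv

namespace Pool.Agent.H68.F7

noncomputable section

open Pool.Agent.N443 (Stp Grp fl3 tau3 pr wf3)

def s0 : Stp := (0, [19, 15, 18, 9, 13, 16, 7, 11, 2, 5, 14, 17, 8, 12, 3, 6], [(14, 4, 11), (14, 5, 12), (14, 6, 13)])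
def p0 : Perm (Fin 7) := ⟨![5, 3, 4, 2, 0, 1, 6], ![4, 5, 3, 1, 2, 0, 6], by decide, by decide⟩
def s1 : Stp := (2, [8, 19, 14, 17, 9, 7, 2, 5], [(11, 0, 4), (11, 1, 4), (11, 2, 4), (11, 3, 7), (11, 4, 8), (11, 7, 9), (11, 11, 11), (12, 12, 3), (13, 13, 4)])
def p1 : Perm (Fin 7) := ⟨![3, 4, 1, 5, 2, 0, 6], ![5, 2, 4, 0, 1, 3, 6], by decide, by decide⟩
def s2 : Stp := (2, [7, 19, 13, 16, 9, 8, 3, 6], [(11, 1, 7), (11, 2, 8), (11, 3, 9), (11, 11, 4), (12, 12, 0), (13, 13, 7)])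
def p2 : Perm (Fin 7) := ⟨![3, 4, 0, 5, 2, 1, 6], ![2, 5, 4, 0, 1, 3, 6], by decide, by decide⟩
def s3 : Stp := (2, [16, 19, 13, 7, 18, 17, 12, 6], [(11, 0, 7), (11, 2, 8), (11, 3, 9), (11, 4, 5), (11, 9, 10), (11, 11, 7), (12, 12, 5), (13, 13, 1)])
def p3 : Perm (Fin 7) := ⟨![5, 4, 0, 3, 2, 1, 6], ![2, 5, 4, 3, 1, 0, 6], by decide, by decide⟩
def s4 : Stp := (0, [19, 14, 17, 8, 15, 18, 9, 12, 3, 6, 13, 16, 7, 10, 1, 4], [(14, 0, 11), (14, 1, 12), (14, 2, 13)])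
def p4 : Perm (Fin 7) := ⟨![5, 3, 4, 1, 2, 0, 6], ![5, 3, 4, 1, 2, 0, 6], by decide, by decide⟩
def s5 : Stp := (2, [3, 8, 6, 9, 1, 14, 10, 13], [(11, 0, 7), (11, 1, 10), (11, 3, 5), (11, 4, 6), (11, 5, 10), (11, 11, 9), (12, 12, 4), (13, 13, 13)])
def p5 : Perm (Fin 7) := ⟨![1, 3, 2, 4, 0, 5, 6], ![4, 0, 2, 1, 3, 5, 6], by decide, by decide⟩
def s6 : Stp := (2, [9, 19, 15, 18, 7, 8, 1, 4], [(11, 0, 5), (11, 1, 7), (11, 2, 8), (11, 3, 9), (11, 6, 7), (11, 11, 11), (12, 12, 0), (13, 13, 7)])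
def p6 : Perm (Fin 7) := ⟨![3, 4, 2, 5, 0, 1, 6], ![4, 5, 2, 0, 1, 3, 6], by decide, by decide⟩
def s7 : Stp := (2, [14, 13, 10, 1, 15, 19, 18, 9], [(11, 3, 4), (11, 4, 5), (11, 5, 6), (11, 6, 9), (11, 7, 9), (11, 8, 10), (11, 11, 2), (12, 12, 7), (13, 13, 13)])
def p7 : Perm (Fin 7) := ⟨![5, 3, 1, 0, 2, 4, 6], ![3, 2, 4, 1, 5, 0, 6], by decide, by decide⟩
def s8 : Stp := (0, [17, 6, 18, 12, 4, 16, 10, 5, 0, 11, 8, 19, 14, 9, 3, 15], [(14, 0, 10), (14, 2, 8), (14, 3, 5), (14, 4, 13), (14, 6, 11)])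
def p8 : Perm (Fin 7) := ⟨![4, 1, 5, 2, 0, 3, 6], ![4, 1, 3, 5, 0, 2, 6], by decide, by decide⟩
def s9 : Stp := (2, [3, 12, 14, 15, 6, 0, 4, 5], [(11, 0, 2), (11, 1, 2), (11, 2, 5), (11, 3, 7), (11, 4, 7), (11, 7, 8), (11, 11, 11), (12, 12, 10), (13, 13, 9)])
def p9 : Perm (Fin 7) := ⟨![1, 2, 3, 5, 4, 0, 6], ![5, 0, 1, 2, 4, 3, 6], by decide, by decide⟩
def s10 : Stp := (2, [18, 11, 5, 16, 12, 15, 3, 14], [(11, 0, 6), (11, 1, 9), (11, 2, 5), (11, 4, 10), (11, 5, 7), (11, 11, 3), (12, 12, 2), (13, 13, 10)])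
def p10 : Perm (Fin 7) := ⟨![2, 5, 4, 0, 1, 3, 6], ![3, 4, 0, 5, 2, 1, 6], by decide, by decide⟩
def s11 : Stp := (2, [16, 17, 4, 10, 18, 19, 9, 15], [(11, 0, 3), (11, 3, 4), (11, 4, 6), (11, 5, 9), (11, 6, 9), (11, 7, 9), (11, 9, 10), (11, 11, 1), (12, 12, 12), (13, 13, 7)])
def p11 : Perm (Fin 7) := ⟨![4, 5, 0, 1, 2, 3, 6], ![2, 3, 4, 5, 0, 1, 6], by decide, by decide⟩
def s12 : Stp := (0, [14, 15, 3, 12, 13, 1, 10, 2, 11, 0, 19, 8, 17, 9, 18, 6], [(14, 0, 10), (14, 1, 9), (14, 3, 6), (14, 4, 12), (14, 5, 11)])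
def p12 : Perm (Fin 7) := ⟨![3, 5, 1, 2, 0, 4, 6], ![4, 2, 3, 0, 5, 1, 6], by decide, by decide⟩
def s13 : Stp := (2, [0, 3, 1, 2, 6, 12, 17, 18], [(11, 0, 7), (11, 1, 2), (11, 2, 5), (11, 3, 7), (11, 4, 8), (11, 5, 7), (11, 11, 11), (12, 12, 8), (13, 13, 10)])
def p13 : Perm (Fin 7) := ⟨![1, 2, 0, 3, 4, 5, 6], ![2, 0, 1, 3, 4, 5, 6], by decide, by decide⟩
def s14 : Stp := (2, [8, 14, 17, 19, 1, 3, 0, 2], [(11, 0, 2), (11, 1, 10), (11, 3, 5), (11, 4, 7), (11, 5, 8), (11, 7, 9), (11, 11, 11), (12, 12, 6), (13, 13, 4)])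
def p14 : Perm (Fin 7) := ⟨![1, 3, 4, 5, 0, 2, 6], ![4, 0, 5, 1, 2, 3, 6], by decide, by decide⟩
def s15 : Stp := (2, [14, 19, 17, 8, 13, 15, 11, 2], [(11, 2, 4), (11, 3, 5), (11, 4, 7), (11, 5, 8), (11, 7, 9), (11, 8, 10), (11, 11, 3), (12, 12, 6), (13, 13, 13)])
def p15 : Perm (Fin 7) := ⟨![5, 3, 1, 4, 0, 2, 6], ![4, 2, 5, 1, 3, 0, 6], by decide, by decide⟩
def s16 : Stp := (0, [8, 3, 6, 9, 1, 4, 7, 0, 2, 5, 14, 17, 19, 12, 15, 18], [(14, 1, 8), (14, 2, 9), (14, 3, 4), (14, 5, 12), (14, 6, 13)])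
def p16 : Perm (Fin 7) := ⟨![1, 3, 4, 2, 0, 5, 6], ![4, 0, 3, 1, 2, 5, 6], by decide, by decide⟩
def s17 : Stp := (2, [14, 3, 12, 15, 1, 8, 4, 7], [(11, 1, 10), (11, 2, 7), (11, 3, 5), (11, 8, 10), (11, 11, 7), (12, 12, 6), (13, 13, 9)])
def p17 : Perm (Fin 7) := ⟨![1, 3, 5, 2, 0, 4, 6], ![4, 0, 3, 1, 5, 2, 6], by decide, by decide⟩
def s18 : Stp := (2, [8, 17, 14, 19, 6, 4, 0, 5], [(11, 0, 2), (11, 1, 2), (11, 2, 10), (11, 3, 7), (11, 4, 8), (11, 7, 9), (11, 11, 5), (12, 12, 12), (13, 13, 4)])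
def p18 : Perm (Fin 7) := ⟨![1, 4, 3, 5, 2, 0, 6], ![5, 0, 4, 2, 1, 3, 6], by decide, by decide⟩
def s19 : Stp := (2, [18, 6, 12, 17, 9, 5, 2, 7], [(11, 0, 4), (11, 1, 9), (11, 2, 3), (11, 6, 10), (11, 11, 3), (12, 12, 1), (13, 13, 8)])
def p19 : Perm (Fin 7) := ⟨![2, 4, 5, 1, 3, 0, 6], ![5, 3, 0, 4, 1, 2, 6], by decide, by decide⟩
def s20 : Stp := (0, [19, 13, 16, 7, 15, 18, 9, 11, 2, 5, 14, 17, 8, 10, 1, 4], [])
def p20 : Perm (Fin 7) := ⟨![5, 3, 4, 0, 2, 1, 6], ![3, 5, 4, 1, 2, 0, 6], by decide, by decide⟩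
def s21 : Stp := (2, [16, 4, 10, 17, 5, 7, 2, 9], [(11, 0, 4), (11, 1, 7), (11, 2, 3), (11, 5, 9), (11, 7, 9), (11, 8, 10), (11, 11, 4), (12, 12, 1), (13, 13, 8)])
def p21 : Perm (Fin 7) := ⟨![0, 4, 5, 1, 2, 3, 6], ![0, 3, 4, 5, 1, 2, 6], by decide, by decide⟩
def s22 : Stp := (2, [10, 13, 1, 14, 16, 11, 5, 18], [(11, 0, 1), (11, 1, 4), (11, 3, 4), (11, 4, 8), (11, 6, 9), (11, 11, 10), (12, 12, 2), (13, 13, 5)])
def p22 : Perm (Fin 7) := ⟨![0, 5, 1, 3, 4, 2, 6], ![0, 2, 5, 3, 4, 1, 6], by decide, by decide⟩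
def s23 : Stp := (2, [18, 16, 5, 11, 17, 19, 8, 14], [(11, 0, 6), (11, 1, 9), (11, 2, 5), (11, 4, 9), (11, 7, 9), (11, 9, 10), (11, 11, 3), (12, 12, 12), (13, 13, 5)])
def p23 : Perm (Fin 7) := ⟨![4, 5, 2, 0, 1, 3, 6], ![3, 4, 2, 5, 0, 1, 6], by decide, by decide⟩
def s24 : Stp := (0, [18, 11, 16, 5, 15, 19, 9, 13, 2, 7, 12, 17, 6, 10, 0, 4], [(14, 4, 8), (14, 6, 10), (14, 7, 12)])
def p24 : Perm (Fin 7) := ⟨![5, 2, 4, 0, 3, 1, 6], ![3, 5, 1, 4, 2, 0, 6], by decide, by decide⟩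
def s25 : Stp := (2, [10, 11, 0, 12, 16, 13, 7, 19], [(11, 0, 1), (11, 1, 4), (11, 2, 7), (11, 3, 4), (11, 6, 10), (11, 9, 10), (11, 11, 6), (12, 12, 2), (13, 13, 5)])
def p25 : Perm (Fin 7) := ⟨![0, 5, 1, 2, 4, 3, 6], ![0, 2, 3, 5, 4, 1, 6], by decide, by decide⟩
def s26 : Stp := (2, [12, 11, 10, 0, 15, 18, 19, 9], [(11, 3, 4), (11, 4, 10), (11, 5, 6), (11, 6, 8), (11, 7, 10), (11, 9, 10), (11, 11, 2), (12, 12, 12), (13, 13, 13)])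
def p26 : Perm (Fin 7) := ⟨![5, 2, 1, 0, 3, 4, 6], ![3, 2, 1, 4, 5, 0, 6], by decide, by decide⟩
def s27 : Stp := (2, [12, 18, 6, 17, 11, 15, 2, 13], [(11, 0, 1), (11, 2, 4), (11, 3, 9), (11, 4, 10), (11, 5, 7), (11, 6, 10), (11, 11, 10), (12, 12, 3), (13, 13, 13)])
def p27 : Perm (Fin 7) := ⟨![2, 5, 1, 4, 0, 3, 6], ![4, 2, 0, 5, 3, 1, 6], by decide, by decide⟩
def s28 : Stp := (0, [15, 13, 11, 2, 19, 18, 9, 16, 7, 5, 14, 12, 3, 10, 1, 0], [(14, 4, 9), (14, 5, 10), (14, 7, 13)])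
def p28 : Perm (Fin 7) := ⟨![5, 3, 2, 0, 4, 1, 6], ![3, 5, 2, 1, 4, 0, 6], by decide, by decide⟩
def s29 : Stp := (2, [11, 0, 12, 10, 2, 5, 9, 7], [(11, 0, 4), (11, 6, 7), (11, 7, 10), (11, 9, 10), (11, 11, 1), (12, 12, 9), (13, 13, 8)])
def p29 : Perm (Fin 7) := ⟨![2, 0, 5, 1, 3, 4, 6], ![1, 3, 0, 4, 5, 2, 6], by decide, by decide⟩
def s30 : Stp := (2, [3, 15, 12, 14, 9, 2, 5, 7], [(11, 0, 4), (11, 2, 4), (11, 3, 8), (11, 5, 10), (11, 6, 10), (11, 11, 11), (12, 12, 3), (13, 13, 9)])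
def p30 : Perm (Fin 7) := ⟨![2, 3, 1, 5, 4, 0, 6], ![5, 2, 0, 1, 4, 3, 6], by decide, by decide⟩
def s31 : Stp := (2, [14, 15, 12, 3, 13, 19, 16, 7], [(11, 2, 4), (11, 3, 5), (11, 7, 9), (11, 8, 10), (11, 11, 3), (12, 12, 6), (13, 13, 7)])
def p31 : Perm (Fin 7) := ⟨![5, 3, 1, 2, 0, 4, 6], ![4, 2, 3, 1, 5, 0, 6], by decide, by decide⟩
def s32 : Stp := (0, [9, 2, 5, 7, 15, 18, 19, 11, 13, 16, 3, 6, 8, 0, 1, 4], [(14, 5, 8), (14, 6, 9), (14, 7, 11)])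
def p32 : Perm (Fin 7) := ⟨![2, 3, 4, 0, 5, 1, 6], ![3, 5, 0, 1, 2, 4, 6], by decide, by decide⟩
def s33 : Stp := (2, [7, 4, 1, 8, 5, 16, 11, 18], [(11, 1, 4), (11, 2, 3), (11, 4, 9), (11, 5, 7), (11, 8, 10), (11, 9, 10), (11, 11, 5), (12, 12, 0), (13, 13, 8)])
def p33 : Perm (Fin 7) := ⟨![0, 4, 3, 1, 2, 5, 6], ![0, 3, 4, 2, 1, 5, 6], by decide, by decide⟩
def s34 : Stp := (2, [3, 2, 0, 1, 9, 15, 18, 19], [(11, 2, 3), (11, 3, 4), (11, 4, 7), (11, 5, 10), (11, 6, 10), (11, 11, 11), (12, 12, 2), (13, 13, 13)])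
def p34 : Perm (Fin 7) := ⟨![2, 3, 1, 0, 4, 5, 6], ![3, 2, 0, 1, 4, 5, 6], by decide, by decide⟩
def s35 : Stp := (2, [5, 6, 0, 4, 9, 18, 15, 19], [(11, 0, 2), (11, 2, 3), (11, 3, 4), (11, 4, 7), (11, 6, 10), (11, 8, 9), (11, 11, 11), (12, 12, 12), (13, 13, 1)])
def p35 : Perm (Fin 7) := ⟨![2, 4, 0, 1, 3, 5, 6], ![2, 3, 0, 4, 1, 5, 6], by decide, by decide⟩
def s36 : Stp := (0, [17, 10, 16, 4, 12, 18, 6, 11, 0, 5, 14, 19, 8, 13, 1, 7], [(14, 0, 8), (14, 2, 10), (14, 3, 12)])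
def p36 : Perm (Fin 7) := ⟨![5, 1, 4, 0, 2, 3, 6], ![3, 1, 4, 5, 2, 0, 6], by decide, by decide⟩
def s37 : Stp := (2, [0, 4, 6, 5, 10, 1, 14, 13], [(11, 0, 5), (11, 1, 7), (11, 3, 10), (11, 4, 6), (11, 8, 9), (11, 11, 4), (12, 12, 9), (13, 13, 10)])
def p37 : Perm (Fin 7) := ⟨![1, 0, 2, 4, 5, 3, 6], ![1, 0, 2, 5, 3, 4, 6], by decide, by decide⟩
def s38 : Stp := (2, [0, 10, 12, 11, 4, 1, 8, 7], [(11, 0, 2), (11, 1, 7), (11, 2, 5), (11, 3, 10), (11, 9, 10), (11, 11, 9), (12, 12, 8), (13, 13, 6)])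
def p38 : Perm (Fin 7) := ⟨![1, 0, 2, 5, 4, 3, 6], ![1, 0, 2, 5, 4, 3, 6], by decide, by decide⟩
def s39 : Stp := (2, [4, 8, 7, 1, 6, 17, 18, 12], [(11, 0, 8), (11, 1, 3), (11, 2, 10), (11, 4, 9), (11, 5, 6), (11, 7, 9), (11, 11, 11), (12, 12, 7), (13, 13, 8)])
def p39 : Perm (Fin 7) := ⟨![4, 1, 0, 3, 2, 5, 6], ![2, 1, 4, 3, 0, 5, 6], by decide, by decide⟩
def s40 : Stp := (0, [14, 13, 10, 1, 15, 12, 3, 11, 2, 0, 19, 17, 8, 16, 7, 4], [(14, 0, 9), (14, 1, 10), (14, 3, 13)])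
def p40 : Perm (Fin 7) := ⟨![5, 3, 1, 0, 2, 4, 6], ![3, 2, 4, 1, 5, 0, 6], by decide, by decide⟩
def s41 : Stp := (2, [1, 7, 4, 8, 2, 13, 11, 15], [(11, 0, 10), (11, 2, 4), (11, 3, 10), (11, 4, 9), (11, 5, 6), (11, 6, 7), (11, 11, 6), (12, 12, 0), (13, 13, 9)])
def p41 : Perm (Fin 7) := ⟨![0, 3, 1, 4, 2, 5, 6], ![0, 2, 4, 1, 3, 5, 6], by decide, by decide⟩
def s42 : Stp := (2, [10, 16, 17, 4, 11, 13, 15, 2], [(11, 1, 3), (11, 2, 4), (11, 4, 5), (11, 5, 9), (11, 6, 8), (11, 7, 8), (11, 11, 10), (12, 12, 6), (13, 13, 1)])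
def p42 : Perm (Fin 7) := ⟨![5, 0, 1, 4, 2, 3, 6], ![1, 2, 4, 5, 3, 0, 6], by decide, by decide⟩
def s43 : Stp := (2, [12, 10, 0, 11, 17, 14, 8, 19], [(11, 0, 10), (11, 1, 7), (11, 2, 5), (11, 3, 5), (11, 4, 7), (11, 6, 10), (11, 9, 10), (11, 11, 5), (12, 12, 12), (13, 13, 13)])
def p43 : Perm (Fin 7) := ⟨![1, 5, 2, 0, 4, 3, 6], ![3, 0, 2, 5, 4, 1, 6], by decide, by decide⟩
def s44 : Stp := (0, [8, 1, 4, 7, 3, 6, 9, 0, 2, 5, 14, 17, 19, 10, 13, 16], [(14, 1, 8), (14, 2, 9), (14, 3, 11)])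
def p44 : Perm (Fin 7) := ⟨![1, 3, 4, 0, 2, 5, 6], ![3, 0, 4, 1, 2, 5, 6], by decide, by decide⟩
def s45 : Stp := (2, [0, 1, 3, 2, 10, 4, 17, 16], [(11, 0, 5), (11, 1, 2), (11, 2, 7), (11, 3, 10), (11, 4, 5), (11, 11, 6), (12, 12, 10), (13, 13, 8)])
def p45 : Perm (Fin 7) := ⟨![1, 0, 2, 3, 5, 4, 6], ![1, 0, 2, 3, 5, 4, 6], by decide, by decide⟩
def s46 : Stp := (2, [1, 2, 0, 3, 7, 13, 16, 19], [(11, 0, 5), (11, 2, 7), (11, 3, 5), (11, 6, 10), (11, 11, 2), (12, 12, 6), (13, 13, 0)])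
def p46 : Perm (Fin 7) := ⟨![0, 3, 1, 2, 4, 5, 6], ![0, 2, 3, 1, 4, 5, 6], by decide, by decide⟩
def s47 : Stp := (2, [5, 4, 0, 6, 7, 16, 13, 19], [(11, 0, 7), (11, 1, 10), (11, 2, 3), (11, 6, 10), (11, 8, 9), (11, 11, 0), (12, 12, 5), (13, 13, 1)])
def p47 : Perm (Fin 7) := ⟨![0, 4, 2, 1, 3, 5, 6], ![0, 3, 2, 4, 1, 5, 6], by decide, by decide⟩
def s48 : Stp := (0, [0, 10, 11, 12, 4, 5, 6, 16, 17, 18, 1, 2, 3, 13, 14, 15], [(14, 0, 12), (14, 2, 5), (14, 3, 8), (14, 4, 13), (14, 7, 9)])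
def p48 : Perm (Fin 7) := ⟨![0, 1, 2, 5, 4, 3, 6], ![0, 1, 2, 5, 4, 3, 6], by decide, by decide⟩
def s49 : Stp := (2, [5, 0, 6, 4, 2, 11, 15, 13], [(11, 0, 6), (11, 2, 4), (11, 4, 7), (11, 7, 10), (11, 8, 9), (11, 11, 9), (12, 12, 0), (13, 13, 1)])
def p49 : Perm (Fin 7) := ⟨![2, 0, 4, 1, 3, 5, 6], ![1, 3, 0, 4, 2, 5, 6], by decide, by decide⟩
def s50 : Stp := (2, [12, 17, 6, 18, 10, 14, 1, 13], [(11, 0, 10), (11, 1, 7), (11, 3, 5), (11, 4, 7), (11, 5, 9), (11, 6, 7), (11, 11, 7), (12, 12, 5), (13, 13, 13)])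
def p50 : Perm (Fin 7) := ⟨![1, 5, 2, 4, 0, 3, 6], ![4, 0, 2, 5, 3, 1, 6], by decide, by decide⟩
def s51 : Stp := (2, [10, 17, 4, 16, 12, 14, 3, 15], [(11, 0, 10), (11, 1, 7), (11, 3, 10), (11, 4, 6), (11, 5, 9), (11, 9, 10), (11, 11, 7), (12, 12, 12), (13, 13, 6)])
def p51 : Perm (Fin 7) := ⟨![1, 5, 0, 4, 2, 3, 6], ![2, 0, 4, 5, 3, 1, 6], by decide, by decide⟩
def s52 : Stp := (0, [0, 6, 4, 5, 3, 1, 2, 8, 9, 7, 12, 10, 11, 17, 18, 16], [(14, 1, 4), (14, 2, 11), (14, 3, 9), (14, 6, 12), (14, 7, 10)])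
def p52 : Perm (Fin 7) := ⟨![1, 2, 0, 4, 3, 5, 6], ![2, 0, 1, 4, 3, 5, 6], by decide, by decide⟩
def s53 : Stp := (2, [0, 2, 1, 3, 5, 11, 16, 18], [(11, 0, 5), (11, 1, 4), (11, 3, 5), (11, 4, 8), (11, 7, 10), (11, 11, 10), (12, 12, 2), (13, 13, 0)])
def p53 : Perm (Fin 7) := ⟨![0, 2, 1, 3, 4, 5, 6], ![0, 2, 1, 3, 4, 5, 6], by decide, by decide⟩
def s54 : Stp := (2, [6, 8, 9, 3, 17, 4, 16, 10], [(11, 0, 6), (11, 1, 3), (11, 2, 10), (11, 3, 8), (11, 4, 9), (11, 5, 9), (11, 11, 4), (12, 12, 12), (13, 13, 7)])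
def p54 : Perm (Fin 7) := ⟨![4, 1, 2, 3, 5, 0, 6], ![5, 1, 2, 3, 0, 4, 6], by decide, by decide⟩
def s55 : Stp := (2, [18, 5, 11, 16, 9, 6, 3, 8], [(11, 0, 4), (11, 1, 9), (11, 2, 8), (11, 6, 10), (11, 7, 8), (11, 11, 0), (12, 12, 12), (13, 13, 3)])
def p55 : Perm (Fin 7) := ⟨![2, 4, 5, 0, 3, 1, 6], ![3, 5, 0, 4, 1, 2, 6], by decide, by decide⟩
def s56 : Stp := (0, [0, 1, 3, 2, 4, 6, 5, 8, 7, 9, 10, 12, 11, 14, 13, 15], [(14, 1, 11), (14, 2, 4), (14, 3, 8), (14, 5, 13), (14, 7, 10)])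
def p56 : Perm (Fin 7) := ⟨![1, 0, 2, 3, 4, 5, 6], ![1, 0, 2, 3, 4, 5, 6], by decide, by decide⟩
def s57 : Stp := (2, [1, 13, 10, 14, 7, 2, 5, 9], [(11, 0, 4), (11, 3, 4), (11, 4, 5), (11, 5, 8), (11, 6, 9), (11, 9, 10), (11, 11, 2), (12, 12, 9), (13, 13, 4)])
def p57 : Perm (Fin 7) := ⟨![0, 3, 1, 5, 4, 2, 6], ![0, 2, 5, 1, 4, 3, 6], by decide, by decide⟩
def s58 : Stp := (2, [0, 12, 10, 11, 6, 3, 8, 9], [(11, 0, 2), (11, 1, 7), (11, 2, 5), (11, 3, 5), (11, 4, 5), (11, 5, 8), (11, 9, 10), (11, 11, 8), (12, 12, 12), (13, 13, 13)])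
def p58 : Perm (Fin 7) := ⟨![1, 2, 0, 5, 4, 3, 6], ![2, 0, 1, 5, 4, 3, 6], by decide, by decide⟩
def s59 : Stp := (2, [2, 15, 13, 11, 9, 3, 8, 6], [(11, 1, 7), (11, 2, 9), (11, 3, 4), (11, 5, 10), (11, 8, 9), (11, 11, 3), (12, 12, 0), (13, 13, 13)])
def p59 : Perm (Fin 7) := ⟨![3, 2, 0, 5, 4, 1, 6], ![2, 5, 1, 0, 4, 3, 6], by decide, by decide⟩
def s60 : Stp := (1, [12, 15, 3, 14, 18, 6, 17, 9, 19, 8, 5, 16, 4, 7, 11, 0, 10, 2, 13, 1], [(10, 0, 6), (10, 1, 9), (10, 5, 7)])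
def p60 : Perm (Fin 7) := ⟨![2, 5, 1, 3, 4, 0, 6], ![5, 2, 0, 3, 4, 1, 6], by decide, by decide⟩
def s61 : Stp := (3, [5, 2, 18, 15, 11, 7, 19, 16, 13, 6, 3, 8, 9], [(6, 1, 5), (6, 2, 4), (6, 3, 4), (6, 6, 0), (7, 7, 4), (8, 8, 8), (9, 9, 9)])
def p61 : Perm (Fin 7) := ⟨![2, 4, 3, 0, 5, 1, 6], ![3, 5, 0, 2, 1, 4, 6], by decide, by decide⟩
def s62 : Stp := (3, [4, 1, 17, 14, 10, 7, 19, 16, 13, 6, 3, 9, 8], [(6, 0, 3), (6, 2, 3), (6, 6, 4), (7, 7, 0), (8, 8, 8), (9, 9, 9)])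
def p62 : Perm (Fin 7) := ⟨![1, 4, 3, 0, 5, 2, 6], ![3, 0, 5, 2, 1, 4, 6], by decide, by decide⟩
def s63 : Stp := (3, [0, 5, 12, 18, 11, 4, 17, 10, 16, 3, 9, 8, 6], [(6, 1, 4), (6, 3, 5), (6, 6, 4), (7, 7, 0), (8, 8, 8), (9, 9, 9)])
def p63 : Perm (Fin 7) := ⟨![2, 1, 4, 0, 5, 3, 6], ![3, 1, 0, 5, 2, 4, 6], by decide, by decide⟩
def s64 : Stp := (3, [0, 1, 12, 14, 10, 2, 15, 11, 13, 6, 8, 9, 3], [(6, 2, 3), (6, 3, 5), (6, 6, 4), (7, 7, 0), (8, 8, 8), (9, 9, 9)])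
def p64 : Perm (Fin 7) := ⟨![1, 2, 3, 0, 5, 4, 6], ![3, 0, 1, 2, 5, 4, 6], by decide, by decide⟩
def s65 : Stp := (3, [2, 11, 9, 18, 5, 13, 19, 7, 16, 3, 12, 14, 15], [(6, 0, 5), (6, 1, 4), (6, 6, 6), (7, 7, 3), (8, 8, 2), (9, 9, 9)])
def p65 : Perm (Fin 7) := ⟨![2, 3, 5, 0, 4, 1, 6], ![3, 5, 0, 1, 4, 2, 6], by decide, by decide⟩
def s66 : Stp := (3, [10, 1, 17, 8, 4, 13, 19, 16, 7, 12, 3, 15, 14], [(6, 6, 6), (7, 7, 3), (8, 8, 2), (9, 9, 9)])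
def p66 : Perm (Fin 7) := ⟨![1, 5, 3, 0, 4, 2, 6], ![3, 0, 5, 2, 4, 1, 6], by decide, by decide⟩
def s67 : Stp := (3, [10, 11, 17, 18, 16, 0, 6, 4, 5, 14, 15, 3, 12], [(6, 1, 4), (6, 6, 6), (7, 7, 2), (8, 8, 3), (9, 9, 9)])
def p67 : Perm (Fin 7) := ⟨![5, 1, 2, 0, 4, 3, 6], ![3, 1, 2, 5, 4, 0, 6], by decide, by decide⟩
def s68 : Stp := (3, [2, 1, 9, 8, 7, 0, 6, 5, 4, 15, 14, 12, 3], [(6, 0, 5), (6, 6, 6), (7, 7, 2), (8, 8, 3), (9, 9, 9)])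
def p68 : Perm (Fin 7) := ⟨![3, 2, 1, 0, 4, 5, 6], ![3, 2, 1, 0, 4, 5, 6], by decide, by decide⟩
def s69 : Stp := (3, [11, 5, 15, 9, 2, 16, 19, 13, 7, 12, 6, 17, 18], [(6, 0, 4), (6, 2, 5), (6, 6, 1), (7, 7, 3), (8, 8, 8), (9, 9, 5)])
def p69 : Perm (Fin 7) := ⟨![2, 5, 4, 0, 3, 1, 6], ![3, 5, 0, 4, 2, 1, 6], by decide, by decide⟩
def s70 : Stp := (3, [10, 4, 14, 8, 1, 16, 19, 13, 7, 12, 6, 18, 17], [(6, 1, 2), (6, 6, 5), (7, 7, 3), (8, 8, 8), (9, 9, 1)])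
def p70 : Perm (Fin 7) := ⟨![1, 5, 4, 0, 3, 2, 6], ![3, 0, 5, 4, 2, 1, 6], by decide, by decide⟩
def s71 : Stp := (3, [10, 0, 14, 3, 1, 11, 15, 13, 2, 17, 6, 18, 12], [(6, 2, 3), (6, 3, 4), (6, 6, 5), (7, 7, 1), (8, 8, 8), (9, 9, 3)])
def p71 : Perm (Fin 7) := ⟨![1, 5, 2, 0, 3, 4, 6], ![3, 0, 2, 4, 5, 1, 6], by decide, by decide⟩
def s72 : Stp := (3, [0, 4, 3, 8, 1, 5, 9, 2, 7, 12, 17, 18, 6], [(6, 0, 3), (6, 1, 2), (6, 6, 1), (7, 7, 3), (8, 8, 8), (9, 9, 5)])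
def p72 : Perm (Fin 7) := ⟨![1, 2, 4, 0, 3, 5, 6], ![3, 0, 1, 4, 2, 5, 6], by decide, by decide⟩
def s73 : Stp := (1, [11, 15, 2, 13, 18, 5, 16, 9, 19, 7, 6, 17, 4, 8, 12, 0, 10, 3, 14, 1], [(10, 0, 6), (10, 1, 9), (10, 5, 7)])
def p73 : Perm (Fin 7) := ⟨![2, 5, 0, 3, 4, 1, 6], ![2, 5, 0, 3, 4, 1, 6], by decide, by decide⟩
def s74 : Stp := (3, [3, 12, 9, 18, 6, 14, 19, 8, 17, 2, 11, 13, 15], [(6, 0, 5), (6, 1, 4), (6, 6, 6), (7, 7, 3), (8, 8, 2), (9, 9, 9)])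
def p74 : Perm (Fin 7) := ⟨![2, 3, 5, 1, 4, 0, 6], ![5, 3, 0, 1, 4, 2, 6], by decide, by decide⟩
def s75 : Stp := (3, [10, 1, 16, 7, 4, 14, 19, 17, 8, 11, 2, 15, 13], [(6, 6, 6), (7, 7, 3), (8, 8, 2), (9, 9, 9)])
def p75 : Perm (Fin 7) := ⟨![0, 5, 3, 1, 4, 2, 6], ![0, 3, 5, 2, 4, 1, 6], by decide, by decide⟩
def s76 : Stp := (3, [10, 12, 16, 18, 17, 0, 5, 4, 6, 13, 15, 2, 11], [(6, 1, 4), (6, 6, 6), (7, 7, 2), (8, 8, 3), (9, 9, 9)])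
def p76 : Perm (Fin 7) := ⟨![5, 0, 2, 1, 4, 3, 6], ![1, 3, 2, 5, 4, 0, 6], by decide, by decide⟩
def s77 : Stp := (3, [3, 1, 9, 7, 8, 0, 5, 6, 4, 15, 13, 11, 2], [(6, 0, 5), (6, 6, 6), (7, 7, 2), (8, 8, 3), (9, 9, 9)])
def p77 : Perm (Fin 7) := ⟨![3, 2, 0, 1, 4, 5, 6], ![2, 3, 1, 0, 4, 5, 6], by decide, by decide⟩
def s78 : Stp := (3, [16, 7, 17, 8, 4, 13, 14, 10, 1, 18, 9, 15, 19], [(6, 1, 3), (6, 6, 1), (7, 7, 7), (8, 8, 2), (9, 9, 0)])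
def p78 : Perm (Fin 7) := ⟨![4, 5, 3, 0, 1, 2, 6], ![3, 4, 5, 2, 0, 1, 6], by decide, by decide⟩
def s79 : Stp := (3, [16, 5, 17, 6, 4, 11, 12, 10, 0, 19, 9, 15, 18], [(6, 2, 4), (6, 6, 1), (7, 7, 7), (8, 8, 2), (9, 9, 0)])
def p79 : Perm (Fin 7) := ⟨![4, 5, 2, 0, 1, 3, 6], ![3, 4, 2, 5, 0, 1, 6], by decide, by decide⟩
def s80 : Stp := (3, [2, 13, 3, 14, 1, 11, 12, 0, 10, 9, 19, 18, 15], [(6, 0, 5), (6, 2, 4), (6, 6, 2), (7, 7, 7), (8, 8, 1), (9, 9, 0)])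
def p80 : Perm (Fin 7) := ⟨![3, 2, 5, 0, 1, 4, 6], ![3, 4, 1, 0, 5, 2, 6], by decide, by decide⟩
def s81 : Stp := (3, [2, 7, 3, 8, 1, 5, 6, 0, 4, 15, 19, 18, 9], [(6, 0, 5), (6, 1, 3), (6, 6, 2), (7, 7, 7), (8, 8, 1), (9, 9, 0)])
def p81 : Perm (Fin 7) := ⟨![3, 2, 4, 0, 1, 5, 6], ![3, 4, 1, 0, 2, 5, 6], by decide, by decide⟩
def s82 : Stp := (1, [7, 13, 16, 19, 1, 4, 8, 10, 14, 17, 0, 3, 6, 12, 2, 5, 9, 11, 15, 18], [(10, 0, 3)])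
def p82 : Perm (Fin 7) := ⟨![0, 3, 4, 5, 1, 2, 6], ![0, 4, 5, 1, 2, 3, 6], by decide, by decide⟩
def s83 : Stp := (3, [12, 6, 14, 8, 3, 18, 19, 15, 9, 10, 4, 16, 17], [(6, 1, 2), (6, 6, 6), (7, 7, 4), (8, 8, 8), (9, 9, 1)])
def p83 : Perm (Fin 7) := ⟨![1, 5, 4, 2, 3, 0, 6], ![5, 0, 3, 4, 2, 1, 6], by decide, by decide⟩
def s84 : Stp := (3, [5, 11, 7, 13, 2, 18, 19, 9, 15, 4, 10, 17, 16], [(6, 0, 5), (6, 2, 4), (6, 6, 6), (7, 7, 1), (8, 8, 8), (9, 9, 4)])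
def p84 : Perm (Fin 7) := ⟨![0, 4, 5, 2, 3, 1, 6], ![0, 5, 3, 4, 1, 2, 6], by decide, by decide⟩
def s85 : Stp := (3, [12, 0, 14, 1, 3, 11, 13, 15, 2, 17, 4, 16, 10], [(6, 1, 2), (6, 2, 3), (6, 6, 6), (7, 7, 1), (8, 8, 8), (9, 9, 4)])
def p85 : Perm (Fin 7) := ⟨![1, 5, 0, 2, 3, 4, 6], ![2, 0, 3, 4, 5, 1, 6], by decide, by decide⟩
def s86 : Stp := (3, [5, 0, 7, 1, 2, 6, 8, 9, 3, 16, 10, 17, 4], [(6, 0, 5), (6, 1, 3), (6, 6, 6), (7, 7, 1), (8, 8, 8), (9, 9, 4)])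
def p86 : Perm (Fin 7) := ⟨![0, 4, 1, 2, 3, 5, 6], ![0, 2, 3, 4, 1, 5, 6], by decide, by decide⟩
def s87 : Stp := (3, [14, 17, 15, 18, 12, 8, 9, 3, 6, 13, 16, 7, 19], [(6, 6, 2), (7, 7, 3), (8, 8, 0), (9, 9, 1)])
def p87 : Perm (Fin 7) := ⟨![5, 3, 4, 1, 2, 0, 6], ![5, 3, 4, 1, 2, 0, 6], by decide, by decide⟩
def s88 : Stp := (3, [4, 17, 5, 18, 6, 10, 11, 0, 12, 7, 19, 13, 16], [(6, 0, 5), (6, 6, 3), (7, 7, 2), (8, 8, 0), (9, 9, 1)])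
def p88 : Perm (Fin 7) := ⟨![4, 0, 5, 1, 2, 3, 6], ![1, 3, 4, 5, 0, 2, 6], by decide, by decide⟩
def s89 : Stp := (3, [14, 1, 15, 2, 3, 10, 11, 12, 0, 19, 7, 16, 13], [(6, 1, 4), (6, 6, 3), (7, 7, 2), (8, 8, 0), (9, 9, 1)])
def p89 : Perm (Fin 7) := ⟨![3, 5, 0, 1, 2, 4, 6], ![2, 3, 4, 0, 5, 1, 6], by decide, by decide⟩
def s90 : Stp := (3, [1, 4, 2, 5, 0, 8, 9, 3, 6, 13, 16, 19, 7], [(6, 0, 4), (6, 1, 5), (6, 6, 2), (7, 7, 3), (8, 8, 0), (9, 9, 1)])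
def p90 : Perm (Fin 7) := ⟨![0, 3, 4, 1, 2, 5, 6], ![0, 3, 4, 1, 2, 5, 6], by decide, by decide⟩
def s91 : Stp := (3, [7, 13, 9, 15, 2, 16, 18, 5, 11, 8, 14, 17, 19], [(6, 0, 5), (6, 1, 3), (6, 2, 4), (6, 6, 5), (7, 7, 7), (8, 8, 3), (9, 9, 4)])
def p91 : Perm (Fin 7) := ⟨![3, 4, 5, 0, 2, 1, 6], ![3, 5, 4, 0, 1, 2, 6], by decide, by decide⟩
def s92 : Stp := (3, [10, 16, 12, 18, 11, 4, 6, 0, 5, 14, 19, 8, 17], [(6, 1, 4), (6, 6, 5), (7, 7, 7), (8, 8, 3), (9, 9, 4)])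
def p92 : Perm (Fin 7) := ⟨![5, 1, 4, 0, 2, 3, 6], ![3, 1, 4, 5, 2, 0, 6], by decide, by decide⟩
def s93 : Stp := (3, [10, 1, 12, 3, 0, 13, 15, 11, 2, 17, 8, 19, 14], [(6, 2, 3), (6, 6, 5), (7, 7, 7), (8, 8, 3), (9, 9, 4)])
def p93 : Perm (Fin 7) := ⟨![1, 5, 3, 0, 2, 4, 6], ![3, 0, 4, 2, 5, 1, 6], by decide, by decide⟩
def s94 : Stp := (3, [7, 1, 9, 3, 2, 4, 6, 5, 0, 19, 14, 17, 8], [(6, 0, 5), (6, 6, 5), (7, 7, 7), (8, 8, 3), (9, 9, 4)])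
def p94 : Perm (Fin 7) := ⟨![3, 4, 1, 0, 2, 5, 6], ![3, 2, 4, 0, 1, 5, 6], by decide, by decide⟩
def s95 : Stp := (1, [18, 11, 16, 5, 12, 17, 6, 10, 0, 4, 14, 3, 8, 1, 15, 19, 9, 13, 2, 7], [(10, 5, 9), (10, 7, 8)])
def p95 : Perm (Fin 7) := ⟨![5, 2, 4, 0, 1, 3, 6], ![3, 4, 1, 5, 2, 0, 6], by decide, by decide⟩
def s96 : Stp := (3, [14, 3, 17, 6, 8, 15, 18, 19, 9, 10, 0, 11, 12], [(6, 2, 4), (6, 6, 6), (7, 7, 5), (8, 8, 2), (9, 9, 9)])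
def p96 : Perm (Fin 7) := ⟨![1, 5, 2, 3, 4, 0, 6], ![5, 0, 2, 3, 4, 1, 6], by decide, by decide⟩
def s97 : Stp := (3, [2, 13, 5, 16, 7, 15, 18, 9, 19, 0, 10, 12, 11], [(6, 0, 5), (6, 1, 4), (6, 2, 4), (6, 6, 6), (7, 7, 5), (8, 8, 2), (9, 9, 9)])
def p97 : Perm (Fin 7) := ⟨![0, 2, 5, 3, 4, 1, 6], ![0, 5, 1, 3, 4, 2, 6], by decide, by decide⟩
def s98 : Stp := (3, [14, 1, 17, 4, 8, 13, 16, 19, 7, 12, 0, 11, 10], [(6, 1, 3), (6, 6, 6), (7, 7, 5), (8, 8, 2), (9, 9, 9)])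
def p98 : Perm (Fin 7) := ⟨![1, 5, 0, 3, 4, 2, 6], ![2, 0, 5, 3, 4, 1, 6], by decide, by decide⟩
def s99 : Stp := (3, [1, 3, 4, 6, 8, 2, 5, 7, 9, 10, 12, 11, 0], [(6, 0, 3), (6, 4, 5), (6, 6, 6), (7, 7, 2), (8, 8, 5), (9, 9, 9)])
def p99 : Perm (Fin 7) := ⟨![1, 0, 2, 3, 4, 5, 6], ![1, 0, 2, 3, 4, 5, 6], by decide, by decide⟩
def s100 : Stp := (3, [12, 6, 15, 9, 3, 17, 19, 14, 8, 11, 5, 16, 18], [(6, 0, 4), (6, 6, 1), (7, 7, 3), (8, 8, 0), (9, 9, 2)])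
def p100 : Perm (Fin 7) := ⟨![2, 5, 4, 1, 3, 0, 6], ![5, 3, 0, 4, 2, 1, 6], by decide, by decide⟩
def s101 : Stp := (3, [10, 4, 13, 7, 1, 17, 19, 14, 8, 11, 5, 18, 16], [(6, 1, 5), (6, 6, 1), (7, 7, 3), (8, 8, 0), (9, 9, 2)])
def p101 : Perm (Fin 7) := ⟨![0, 5, 4, 1, 3, 2, 6], ![0, 3, 5, 4, 2, 1, 6], by decide, by decide⟩
def s102 : Stp := (3, [12, 0, 15, 2, 3, 10, 13, 14, 1, 18, 5, 16, 11], [(6, 0, 4), (6, 6, 3), (7, 7, 1), (8, 8, 2), (9, 9, 0)])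
def p102 : Perm (Fin 7) := ⟨![2, 5, 0, 1, 3, 4, 6], ![2, 3, 0, 4, 5, 1, 6], by decide, by decide⟩
def s103 : Stp := (3, [0, 4, 2, 7, 1, 6, 9, 3, 8, 11, 16, 18, 5], [(6, 1, 5), (6, 6, 2), (7, 7, 0), (8, 8, 3), (9, 9, 1)])
def p103 : Perm (Fin 7) := ⟨![0, 2, 4, 1, 3, 5, 6], ![0, 3, 1, 4, 2, 5, 6], by decide, by decide⟩
def s104 : Stp := (1, [15, 2, 11, 13, 3, 12, 14, 0, 1, 10, 6, 8, 17, 4, 9, 18, 19, 5, 7, 16], [(10, 0, 2), (10, 4, 5), (10, 6, 8)])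
def p104 : Perm (Fin 7) := ⟨![2, 3, 5, 0, 1, 4, 6], ![3, 4, 0, 1, 5, 2, 6], by decide, by decide⟩
def s105 : Stp := (3, [6, 8, 12, 14, 17, 9, 15, 18, 19, 0, 1, 2, 3], [(6, 0, 5), (6, 2, 5), (6, 6, 0), (7, 7, 4), (8, 8, 8), (9, 9, 9)])
def p105 : Perm (Fin 7) := ⟨![1, 2, 3, 4, 5, 0, 6], ![5, 0, 1, 2, 3, 4, 6], by decide, by decide⟩
def s106 : Stp := (3, [7, 5, 13, 11, 16, 9, 15, 19, 18, 1, 0, 3, 2], [(6, 1, 4), (6, 2, 5), (6, 6, 0), (7, 7, 4), (8, 8, 8), (9, 9, 9)])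
def p106 : Perm (Fin 7) := ⟨![0, 3, 2, 4, 5, 1, 6], ![0, 5, 2, 1, 3, 4, 6], by decide, by decide⟩
def s107 : Stp := (3, [4, 8, 10, 14, 17, 7, 13, 16, 19, 0, 3, 2, 1], [(6, 0, 2), (6, 2, 3), (6, 6, 0), (7, 7, 4), (8, 8, 8), (9, 9, 9)])
def p107 : Perm (Fin 7) := ⟨![1, 0, 3, 4, 5, 2, 6], ![1, 0, 5, 2, 3, 4, 6], by decide, by decide⟩
def s108 : Stp := (3, [4, 5, 10, 11, 16, 6, 12, 17, 18, 1, 2, 3, 0], [(6, 0, 3), (6, 1, 4), (6, 6, 0), (7, 7, 4), (8, 8, 8), (9, 9, 9)])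
def p108 : Perm (Fin 7) := ⟨![0, 1, 2, 4, 5, 3, 6], ![0, 1, 2, 5, 3, 4, 6], by decide, by decide⟩
def s109 : Stp := (3, [12, 3, 17, 8, 6, 15, 19, 18, 9, 10, 1, 13, 14], [(6, 6, 5), (7, 7, 7), (8, 8, 2), (9, 9, 4)])
def p109 : Perm (Fin 7) := ⟨![1, 5, 3, 2, 4, 0, 6], ![5, 0, 3, 2, 4, 1, 6], by decide, by decide⟩
def s110 : Stp := (3, [2, 11, 7, 16, 5, 15, 19, 9, 18, 1, 10, 14, 13], [(6, 0, 5), (6, 1, 4), (6, 6, 5), (7, 7, 7), (8, 8, 2), (9, 9, 4)])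
def p110 : Perm (Fin 7) := ⟨![0, 3, 5, 2, 4, 1, 6], ![0, 5, 3, 1, 4, 2, 6], by decide, by decide⟩
def s111 : Stp := (3, [12, 0, 17, 4, 6, 11, 16, 18, 5, 14, 1, 13, 10], [(6, 1, 3), (6, 6, 5), (7, 7, 7), (8, 8, 4), (9, 9, 2)])
def p111 : Perm (Fin 7) := ⟨![1, 5, 0, 2, 4, 3, 6], ![2, 0, 3, 5, 4, 1, 6], by decide, by decide⟩
def s112 : Stp := (3, [0, 3, 4, 8, 6, 2, 7, 5, 9, 10, 14, 13, 1], [(6, 0, 3), (6, 6, 2), (7, 7, 7), (8, 8, 5), (9, 9, 4)])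
def p112 : Perm (Fin 7) := ⟨![1, 0, 3, 2, 4, 5, 6], ![1, 0, 3, 2, 4, 5, 6], by decide, by decide⟩
def s113 : Stp := (1, [9, 5, 2, 7, 6, 3, 8, 0, 4, 1, 12, 17, 14, 10, 18, 15, 19, 11, 16, 13], [(10, 1, 2), (10, 4, 6)])
def p113 : Perm (Fin 7) := ⟨![2, 4, 3, 0, 1, 5, 6], ![3, 4, 0, 2, 1, 5, 6], by decide, by decide⟩
def s114 : Stp := (3, [3, 8, 12, 17, 14, 9, 18, 15, 19, 0, 4, 5, 6], [(6, 1, 2), (6, 6, 1), (7, 7, 4), (8, 8, 5), (9, 9, 9)])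
def p114 : Perm (Fin 7) := ⟨![1, 2, 4, 3, 5, 0, 6], ![5, 0, 1, 3, 2, 4, 6], by decide, by decide⟩
def s115 : Stp := (3, [2, 7, 11, 16, 13, 9, 18, 15, 19, 0, 4, 6, 5], [(6, 0, 4), (6, 2, 5), (6, 6, 5), (7, 7, 4), (8, 8, 1), (9, 9, 9)])
def p115 : Perm (Fin 7) := ⟨![0, 2, 4, 3, 5, 1, 6], ![0, 5, 1, 3, 2, 4, 6], by decide, by decide⟩
def s116 : Stp := (3, [1, 7, 10, 16, 13, 8, 17, 14, 19, 0, 5, 6, 4], [(6, 0, 4), (6, 3, 4), (6, 6, 5), (7, 7, 4), (8, 8, 1), (9, 9, 9)])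
def p116 : Perm (Fin 7) := ⟨![0, 1, 4, 3, 5, 2, 6], ![0, 1, 5, 3, 2, 4, 6], by decide, by decide⟩
def s117 : Stp := (3, [3, 1, 12, 10, 14, 2, 11, 15, 13, 6, 4, 5, 0], [(6, 1, 2), (6, 2, 3), (6, 6, 4), (7, 7, 1), (8, 8, 5), (9, 9, 9)])
def p117 : Perm (Fin 7) := ⟨![1, 2, 0, 3, 5, 4, 6], ![2, 0, 1, 3, 5, 4, 6], by decide, by decide⟩
def s118 : Stp := (3, [6, 3, 17, 14, 12, 9, 19, 18, 15, 4, 1, 7, 8], [(6, 0, 4), (6, 2, 4), (6, 6, 6), (7, 7, 7), (8, 8, 0), (9, 9, 5)])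
def p118 : Perm (Fin 7) := ⟨![1, 4, 3, 2, 5, 0, 6], ![5, 0, 3, 2, 1, 4, 6], by decide, by decide⟩
def s119 : Stp := (3, [5, 2, 16, 13, 11, 9, 19, 18, 15, 4, 1, 8, 7], [(6, 1, 5), (6, 2, 4), (6, 6, 6), (7, 7, 7), (8, 8, 0), (9, 9, 5)])
def p119 : Perm (Fin 7) := ⟨![0, 4, 3, 2, 5, 1, 6], ![0, 5, 3, 2, 1, 4, 6], by decide, by decide⟩
def s120 : Stp := (3, [5, 0, 16, 10, 11, 6, 17, 18, 12, 7, 1, 8, 4], [(6, 1, 5), (6, 3, 5), (6, 6, 6), (7, 7, 7), (8, 8, 0), (9, 9, 5)])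
def p120 : Perm (Fin 7) := ⟨![0, 4, 1, 2, 5, 3, 6], ![0, 2, 3, 5, 1, 4, 6], by decide, by decide⟩
def s121 : Stp := (3, [2, 0, 13, 10, 11, 3, 14, 15, 12, 7, 4, 8, 1], [(6, 1, 2), (6, 2, 5), (6, 3, 5), (6, 6, 6), (7, 7, 7), (8, 8, 5), (9, 9, 0)])
def p121 : Perm (Fin 7) := ⟨![0, 3, 1, 2, 5, 4, 6], ![0, 2, 3, 1, 5, 4, 6], by decide, by decide⟩
def s122 : Stp := (3, [3, 6, 15, 18, 12, 8, 19, 14, 17, 2, 5, 7, 9], [(6, 0, 5), (6, 2, 4), (6, 6, 1), (7, 7, 3), (8, 8, 0), (9, 9, 2)])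
def p122 : Perm (Fin 7) := ⟨![2, 3, 4, 1, 5, 0, 6], ![5, 3, 0, 1, 2, 4, 6], by decide, by decide⟩
def s123 : Stp := (3, [4, 1, 16, 13, 10, 8, 19, 17, 14, 5, 2, 9, 7], [(6, 2, 4), (6, 6, 2), (7, 7, 3), (8, 8, 0), (9, 9, 1)])
def p123 : Perm (Fin 7) := ⟨![0, 4, 3, 1, 5, 2, 6], ![0, 3, 5, 2, 1, 4, 6], by decide, by decide⟩
def s124 : Stp := (3, [4, 0, 16, 11, 10, 6, 18, 17, 12, 7, 2, 9, 5], [(6, 6, 2), (7, 7, 1), (8, 8, 0), (9, 9, 3)])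
def p124 : Perm (Fin 7) := ⟨![0, 4, 2, 1, 5, 3, 6], ![0, 3, 2, 5, 1, 4, 6], by decide, by decide⟩
def s125 : Stp := (3, [1, 0, 13, 11, 10, 3, 15, 14, 12, 7, 5, 9, 2], [(6, 2, 5), (6, 6, 2), (7, 7, 1), (8, 8, 3), (9, 9, 0)])
def p125 : Perm (Fin 7) := ⟨![0, 3, 2, 1, 5, 4, 6], ![0, 3, 2, 1, 5, 4, 6], by decide, by decide⟩

/-- groups of steps -/
def GS : List Grp := [(14, [s0, s1, s2, s3], [(14, 14, 3)]), (14, [s4, s5, s6, s7], [(14, 14, 7)]), (14, [s8, s9, s10, s11], [(14, 14, 12)]), (14, [s12, s13, s14, s15], [(14, 14, 13)]), (14, [s16, s17, s18, s19], [(14, 14, 11)]), (14, [s20, s21, s22, s23], [(14, 14, 14)]), (14, [s24, s25, s26, s27], [(14, 14, 1)]), (14, [s28, s29, s30, s31], [(14, 14, 2)]), (14, [s32, s33, s34, s35], [(14, 14, 0)]), (14, [s36, s37, s38, s39], [(14, 14, 5)]), (14, [s40, s41, s42, s43], [(14, 14, 6)]), (14, [s44, s45, s46, s47],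 [(14, 14, 4)]), (14, [s48, s49, s50, s51], [(14, 14, 10)]), (14, [s52, s53, s54, s55], [(14, 14, 8)]), (14, [s56, s57, s58, s59], [(14, 14, 9)]), (10, [s60, s61, s62, s63, s64, s65, s66, s67, s68, s69, s70, s71, s72], [(10, 10, 3), (11, 11, 7), (12, 12, 11), (13, 13, 12), (14, 14, 13)]), (10, [s73, s74, s75, s76, s77, s78, s79, s80, s81], [(10, 10, 3), (11, 11, 0), (12, 12, 1), (13, 13, 2), (14, 14, 14)]), (10, [s82, s83, s84, s85, s86, s87, s88, s89, s90, s91, s92, s93, s94], [(10, 10, 6), (11, 11, 7), (12, 12, 4), (13, 13, 5), (14, 14, 14)]), (10, [s95, s96, s97, s98, s99, s100, s101, s102, s103], [(10, 10, 5), (11, 11, 8), (12, 12, 1), (13, 13, 10), (14, 14, 12)]), (10, [s104, s105, s106, s107, s108, s109, s110, s111, s112], [(10, 10, 2), (11, 11, 9), (12, 12, 6), (13, 13, 10), (14, 14, 13)]), (10, [s113, s114, s115, s116, s117, s118, s119, s120,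 s121, s122, s123, s124, s125], [(10, 10, 4), (11, 11, 0), (12, 12, 9), (13, 13, 8), (14, 14, 11)])]
/-- index bits of the kinds -/
def NN (k : ℕ) : ℕ := if k = 0 then 14 else if k = 1 then 10 else if k = 2 then 11 else 6
/-- triples of the codes of the kinds -/
def CLk (k : ℕ) : List (Finset (Fin 7)) := if k = 0 then CL0 else if k = 1 then CL1 else if k = 2 then CL2 else CL3
/-- triples of the indices of the kinds -/
def LLk (k : ℕ) : List (Finset (Fin 7)) := if k = 0 then LL0 else if k = 1 then RB else if k = 2 then LL2 else LL3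
def q0 : Stp := (s0.1, s0.2.1, s0.2.2 ++ [(14, 14, 3)])
def q1 : Stp := (s1.1, s1.2.1, s1.2.2 ++ [(14, 14, 3)])
def q2 : Stp := (s2.1, s2.2.1, s2.2.2 ++ [(14, 14, 3)])
def q3 : Stp := (s3.1, s3.2.1, s3.2.2 ++ [(14, 14, 3)])
def q4 : Stp := (s4.1, s4.2.1, s4.2.2 ++ [(14, 14, 7)])
def q5 : Stp := (s5.1, s5.2.1, s5.2.2 ++ [(14, 14, 7)])
def q6 : Stp := (s6.1, s6.2.1, s6.2.2 ++ [(14, 14, 7)])
def q7 : Stp := (s7.1, s7.2.1, s7.2.2 ++ [(14, 14, 7)])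
def q8 : Stp := (s8.1, s8.2.1, s8.2.2 ++ [(14, 14, 12)])
def q9 : Stp := (s9.1, s9.2.1, s9.2.2 ++ [(14, 14, 12)])
def q10 : Stp := (s10.1, s10.2.1, s10.2.2 ++ [(14, 14, 12)])
def q11 : Stp := (s11.1, s11.2.1, s11.2.2 ++ [(14, 14, 12)])
def q12 : Stp := (s12.1, s12.2.1, s12.2.2 ++ [(14, 14, 13)])
def q13 : Stp := (s13.1, s13.2.1, s13.2.2 ++ [(14, 14, 13)])
def q14 : Stp := (s14.1, s14.2.1, s14.2.2 ++ [(14, 14, 13)])
def q15 : Stp := (s15.1, s15.2.1, s15.2.2 ++ [(14, 14, 13)])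
def q16 : Stp := (s16.1, s16.2.1, s16.2.2 ++ [(14, 14, 11)])
def q17 : Stp := (s17.1, s17.2.1, s17.2.2 ++ [(14, 14, 11)])
def q18 : Stp := (s18.1, s18.2.1, s18.2.2 ++ [(14, 14, 11)])
def q19 : Stp := (s19.1, s19.2.1, s19.2.2 ++ [(14, 14, 11)])
def q20 : Stp := (s20.1, s20.2.1, s20.2.2 ++ [(14, 14, 14)])
def q21 : Stp := (s21.1, s21.2.1, s21.2.2 ++ [(14, 14, 14)])
def q22 : Stp := (s22.1, s22.2.1, s22.2.2 ++ [(14, 14, 14)])
def q23 : Stp := (s23.1, s23.2.1, s23.2.2 ++ [(14, 14, 14)])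
def q24 : Stp := (s24.1, s24.2.1, s24.2.2 ++ [(14, 14, 1)])
def q25 : Stp := (s25.1, s25.2.1, s25.2.2 ++ [(14, 14, 1)])
def q26 : Stp := (s26.1, s26.2.1, s26.2.2 ++ [(14, 14, 1)])
def q27 : Stp := (s27.1, s27.2.1, s27.2.2 ++ [(14, 14, 1)])
def q28 : Stp := (s28.1, s28.2.1, s28.2.2 ++ [(14, 14, 2)])
def q29 : Stp := (s29.1, s29.2.1, s29.2.2 ++ [(14, 14, 2)])
def q30 : Stp := (s30.1, s30.2.1, s30.2.2 ++ [(14, 14, 2)])
def q31 : Stp := (s31.1, s31.2.1, s31.2.2 ++ [(14, 14, 2)])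
def q32 : Stp := (s32.1, s32.2.1, s32.2.2 ++ [(14, 14, 0)])
def q33 : Stp := (s33.1, s33.2.1, s33.2.2 ++ [(14, 14, 0)])
def q34 : Stp := (s34.1, s34.2.1, s34.2.2 ++ [(14, 14, 0)])
def q35 : Stp := (s35.1, s35.2.1, s35.2.2 ++ [(14, 14, 0)])
def q36 : Stp := (s36.1, s36.2.1, s36.2.2 ++ [(14, 14, 5)])
def q37 : Stp := (s37.1, s37.2.1, s37.2.2 ++ [(14, 14, 5)])
def q38 : Stp := (s38.1, s38.2.1, s38.2.2 ++ [(14, 14, 5)])
def q39 : Stp := (s39.1, s39.2.1, s39.2.2 ++ [(14, 14, 5)])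
def q40 : Stp := (s40.1, s40.2.1, s40.2.2 ++ [(14, 14, 6)])
def q41 : Stp := (s41.1, s41.2.1, s41.2.2 ++ [(14, 14, 6)])
def q42 : Stp := (s42.1, s42.2.1, s42.2.2 ++ [(14, 14, 6)])
def q43 : Stp := (s43.1, s43.2.1, s43.2.2 ++ [(14, 14, 6)])
def q44 : Stp := (s44.1, s44.2.1, s44.2.2 ++ [(14, 14, 4)])
def q45 : Stp := (s45.1, s45.2.1, s45.2.2 ++ [(14, 14, 4)])
def q46 : Stp := (s46.1, s46.2.1, s46.2.2 ++ [(14, 14, 4)])
def q47 : Stp := (s47.1, s47.2.1, s47.2.2 ++ [(14, 14, 4)])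
def q48 : Stp := (s48.1, s48.2.1, s48.2.2 ++ [(14, 14, 10)])
def q49 : Stp := (s49.1, s49.2.1, s49.2.2 ++ [(14, 14, 10)])
def q50 : Stp := (s50.1, s50.2.1, s50.2.2 ++ [(14, 14, 10)])
def q51 : Stp := (s51.1, s51.2.1, s51.2.2 ++ [(14, 14, 10)])
def q52 : Stp := (s52.1, s52.2.1, s52.2.2 ++ [(14, 14, 8)])
def q53 : Stp := (s53.1, s53.2.1, s53.2.2 ++ [(14, 14, 8)])
def q54 : Stp := (s54.1, s54.2.1, s54.2.2 ++ [(14, 14, 8)])
def q55 : Stp := (s55.1, s55.2.1, s55.2.2 ++ [(14, 14, 8)])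
def q56 : Stp := (s56.1, s56.2.1, s56.2.2 ++ [(14, 14, 9)])
def q57 : Stp := (s57.1, s57.2.1, s57.2.2 ++ [(14, 14, 9)])
def q58 : Stp := (s58.1, s58.2.1, s58.2.2 ++ [(14, 14, 9)])
def q59 : Stp := (s59.1, s59.2.1, s59.2.2 ++ [(14, 14, 9)])
def q60 : Stp := (s60.1, s60.2.1, s60.2.2 ++ [(10, 10, 3), (11, 11, 7), (12, 12, 11), (13, 13, 12), (14, 14, 13)])
def q61 : Stp := (s61.1, s61.2.1, s61.2.2 ++ [(10, 10, 3), (11, 11, 7), (12, 12, 11), (13, 13, 12), (14, 14, 13)])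
def q62 : Stp := (s62.1, s62.2.1, s62.2.2 ++ [(10, 10, 3), (11, 11, 7), (12, 12, 11), (13, 13, 12), (14, 14, 13)])
def q63 : Stp := (s63.1, s63.2.1, s63.2.2 ++ [(10, 10, 3), (11, 11, 7), (12, 12, 11), (13, 13, 12), (14, 14, 13)])
def q64 : Stp := (s64.1, s64.2.1, s64.2.2 ++ [(10, 10, 3), (11, 11, 7), (12, 12, 11), (13, 13, 12), (14, 14, 13)])
def q65 : Stp := (s65.1, s65.2.1, s65.2.2 ++ [(10, 10, 3), (11, 11, 7), (12, 12, 11), (13, 13, 12), (14, 14, 13)])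
def q66 : Stp := (s66.1, s66.2.1, s66.2.2 ++ [(10, 10, 3), (11, 11, 7), (12, 12, 11), (13, 13, 12), (14, 14, 13)])
def q67 : Stp := (s67.1, s67.2.1, s67.2.2 ++ [(10, 10, 3), (11, 11, 7), (12, 12, 11), (13, 13, 12), (14, 14, 13)])
def q68 : Stp := (s68.1, s68.2.1, s68.2.2 ++ [(10, 10, 3), (11, 11, 7), (12, 12, 11), (13, 13, 12), (14, 14, 13)])
def q69 : Stp := (s69.1, s69.2.1, s69.2.2 ++ [(10, 10, 3), (11, 11, 7), (12, 12, 11), (13, 13, 12), (14, 14, 13)])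
def q70 : Stp := (s70.1, s70.2.1, s70.2.2 ++ [(10, 10, 3), (11, 11, 7), (12, 12, 11), (13, 13, 12), (14, 14, 13)])
def q71 : Stp := (s71.1, s71.2.1, s71.2.2 ++ [(10, 10, 3), (11, 11, 7), (12, 12, 11), (13, 13, 12), (14, 14, 13)])
def q72 : Stp := (s72.1, s72.2.1, s72.2.2 ++ [(10, 10, 3), (11, 11, 7), (12, 12, 11), (13, 13, 12), (14, 14, 13)])
def q73 : Stp := (s73.1, s73.2.1, s73.2.2 ++ [(10, 10, 3), (11, 11, 0), (12, 12, 1), (13, 13, 2), (14, 14, 14)])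
def q74 : Stp := (s74.1, s74.2.1, s74.2.2 ++ [(10, 10, 3), (11, 11, 0), (12, 12, 1), (13, 13, 2), (14, 14, 14)])
def q75 : Stp := (s75.1, s75.2.1, s75.2.2 ++ [(10, 10, 3), (11, 11, 0), (12, 12, 1), (13, 13, 2), (14, 14, 14)])
def q76 : Stp := (s76.1, s76.2.1, s76.2.2 ++ [(10, 10, 3), (11, 11, 0), (12, 12, 1), (13, 13, 2), (14, 14, 14)])
def q77 : Stp := (s77.1, s77.2.1, s77.2.2 ++ [(10, 10, 3), (11, 11, 0), (12, 12, 1), (13, 13, 2), (14, 14, 14)])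
def q78 : Stp := (s78.1, s78.2.1, s78.2.2 ++ [(10, 10, 3), (11, 11, 0), (12, 12, 1), (13, 13, 2), (14, 14, 14)])
def q79 : Stp := (s79.1, s79.2.1, s79.2.2 ++ [(10, 10, 3), (11, 11, 0), (12, 12, 1), (13, 13, 2), (14, 14, 14)])
def q80 : Stp := (s80.1, s80.2.1, s80.2.2 ++ [(10, 10, 3), (11, 11, 0), (12, 12, 1), (13, 13, 2), (14, 14, 14)])
def q81 : Stp := (s81.1, s81.2.1, s81.2.2 ++ [(10, 10, 3), (11, 11, 0), (12, 12, 1), (13, 13, 2), (14, 14, 14)])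
def q82 : Stp := (s82.1, s82.2.1, s82.2.2 ++ [(10, 10, 6), (11, 11, 7), (12, 12, 4), (13, 13, 5), (14, 14, 14)])
def q83 : Stp := (s83.1, s83.2.1, s83.2.2 ++ [(10, 10, 6), (11, 11, 7), (12, 12, 4), (13, 13, 5), (14, 14, 14)])
def q84 : Stp := (s84.1, s84.2.1, s84.2.2 ++ [(10, 10, 6), (11, 11, 7), (12, 12, 4), (13, 13, 5), (14, 14, 14)])
def q85 : Stp := (s85.1, s85.2.1, s85.2.2 ++ [(10, 10, 6), (11, 11, 7), (12, 12, 4), (13, 13, 5), (14, 14, 14)])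
def q86 : Stp := (s86.1, s86.2.1, s86.2.2 ++ [(10, 10, 6), (11, 11, 7), (12, 12, 4), (13, 13, 5), (14, 14, 14)])
def q87 : Stp := (s87.1, s87.2.1, s87.2.2 ++ [(10, 10, 6), (11, 11, 7), (12, 12, 4), (13, 13, 5), (14, 14, 14)])
def q88 : Stp := (s88.1, s88.2.1, s88.2.2 ++ [(10, 10, 6), (11, 11, 7), (12, 12, 4), (13, 13, 5), (14, 14, 14)])
def q89 : Stp := (s89.1, s89.2.1, s89.2.2 ++ [(10, 10, 6), (11, 11, 7), (12, 12, 4), (13, 13, 5), (14, 14, 14)])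
def q90 : Stp := (s90.1, s90.2.1, s90.2.2 ++ [(10, 10, 6), (11, 11, 7), (12, 12, 4), (13, 13, 5), (14, 14, 14)])
def q91 : Stp := (s91.1, s91.2.1, s91.2.2 ++ [(10, 10, 6), (11, 11, 7), (12, 12, 4), (13, 13, 5), (14, 14, 14)])
def q92 : Stp := (s92.1, s92.2.1, s92.2.2 ++ [(10, 10, 6), (11, 11, 7), (12, 12, 4), (13, 13, 5), (14, 14, 14)])
def q93 : Stp := (s93.1, s93.2.1, s93.2.2 ++ [(10, 10, 6), (11, 11, 7), (12, 12, 4), (13, 13, 5), (14, 14, 14)])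
def q94 : Stp := (s94.1, s94.2.1, s94.2.2 ++ [(10, 10, 6), (11, 11, 7), (12, 12, 4), (13, 13, 5), (14, 14, 14)])
def q95 : Stp := (s95.1, s95.2.1, s95.2.2 ++ [(10, 10, 5), (11, 11, 8), (12, 12, 1), (13, 13, 10), (14, 14, 12)])
def q96 : Stp := (s96.1, s96.2.1, s96.2.2 ++ [(10, 10, 5), (11, 11, 8), (12, 12, 1), (13, 13, 10), (14, 14, 12)])
def q97 : Stp := (s97.1, s97.2.1, s97.2.2 ++ [(10, 10, 5), (11, 11, 8), (12, 12, 1), (13, 13, 10), (14, 14, 12)])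
def q98 : Stp := (s98.1, s98.2.1, s98.2.2 ++ [(10, 10, 5), (11, 11, 8), (12, 12, 1), (13, 13, 10), (14, 14, 12)])
def q99 : Stp := (s99.1, s99.2.1, s99.2.2 ++ [(10, 10, 5), (11, 11, 8), (12, 12, 1), (13, 13, 10), (14, 14, 12)])
def q100 : Stp := (s100.1, s100.2.1, s100.2.2 ++ [(10, 10, 5), (11, 11, 8), (12, 12, 1), (13, 13, 10), (14, 14, 12)])
def q101 : Stp := (s101.1, s101.2.1, s101.2.2 ++ [(10, 10, 5), (11, 11, 8), (12, 12, 1), (13, 13, 10), (14, 14, 12)])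
def q102 : Stp := (s102.1, s102.2.1, s102.2.2 ++ [(10, 10, 5), (11, 11, 8), (12, 12, 1), (13, 13, 10), (14, 14, 12)])
def q103 : Stp := (s103.1, s103.2.1, s103.2.2 ++ [(10, 10, 5), (11, 11, 8), (12, 12, 1), (13, 13, 10), (14, 14, 12)])
def q104 : Stp := (s104.1, s104.2.1, s104.2.2 ++ [(10, 10, 2), (11, 11, 9), (12, 12, 6), (13, 13, 10), (14, 14, 13)])
def q105 : Stp := (s105.1, s105.2.1, s105.2.2 ++ [(10, 10, 2), (11, 11, 9), (12, 12, 6), (13, 13, 10), (14, 14, 13)])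
def q106 : Stp := (s106.1, s106.2.1, s106.2.2 ++ [(10, 10, 2), (11, 11, 9), (12, 12, 6), (13, 13, 10), (14, 14, 13)])
def q107 : Stp := (s107.1, s107.2.1, s107.2.2 ++ [(10, 10, 2), (11, 11, 9), (12, 12, 6), (13, 13, 10), (14, 14, 13)])
def q108 : Stp := (s108.1, s108.2.1, s108.2.2 ++ [(10, 10, 2), (11, 11, 9), (12, 12, 6), (13, 13, 10), (14, 14, 13)])
def q109 : Stp := (s109.1, s109.2.1, s109.2.2 ++ [(10, 10, 2), (11, 11, 9), (12, 12, 6), (13, 13, 10), (14, 14, 13)])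
def q110 : Stp := (s110.1, s110.2.1, s110.2.2 ++ [(10, 10, 2), (11, 11, 9), (12, 12, 6), (13, 13, 10), (14, 14, 13)])
def q111 : Stp := (s111.1, s111.2.1, s111.2.2 ++ [(10, 10, 2), (11, 11, 9), (12, 12, 6), (13, 13, 10), (14, 14, 13)])
def q112 : Stp := (s112.1, s112.2.1, s112.2.2 ++ [(10, 10, 2), (11, 11, 9), (12, 12, 6), (13, 13, 10), (14, 14, 13)])
def q113 : Stp := (s113.1, s113.2.1, s113.2.2 ++ [(10, 10, 4), (11, 11, 0), (12, 12, 9), (13, 13, 8), (14, 14, 11)])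
def q114 : Stp := (s114.1, s114.2.1, s114.2.2 ++ [(10, 10, 4), (11, 11, 0), (12, 12, 9), (13, 13, 8), (14, 14, 11)])
def q115 : Stp := (s115.1, s115.2.1, s115.2.2 ++ [(10, 10, 4), (11, 11, 0), (12, 12, 9), (13, 13, 8), (14, 14, 11)])
def q116 : Stp := (s116.1, s116.2.1, s116.2.2 ++ [(10, 10, 4), (11, 11, 0), (12, 12, 9), (13, 13, 8), (14, 14, 11)])
def q117 : Stp := (s117.1, s117.2.1, s117.2.2 ++ [(10, 10, 4), (11, 11, 0), (12, 12, 9), (13, 13, 8), (14, 14, 11)])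
def q118 : Stp := (s118.1, s118.2.1, s118.2.2 ++ [(10, 10, 4), (11, 11, 0), (12, 12, 9), (13, 13, 8), (14, 14, 11)])
def q119 : Stp := (s119.1, s119.2.1, s119.2.2 ++ [(10, 10, 4), (11, 11, 0), (12, 12, 9), (13, 13, 8), (14, 14, 11)])
def q120 : Stp := (s120.1, s120.2.1, s120.2.2 ++ [(10, 10, 4), (11, 11, 0), (12, 12, 9), (13, 13, 8), (14, 14, 11)])
def q121 : Stp := (s121.1, s121.2.1, s121.2.2 ++ [(10, 10, 4), (11, 11, 0), (12, 12, 9), (13, 13, 8), (14, 14, 11)])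
def q122 : Stp := (s122.1, s122.2.1, s122.2.2 ++ [(10, 10, 4), (11, 11, 0), (12, 12, 9), (13, 13, 8), (14, 14, 11)])
def q123 : Stp := (s123.1, s123.2.1, s123.2.2 ++ [(10, 10, 4), (11, 11, 0), (12, 12, 9), (13, 13, 8), (14, 14, 11)])
def q124 : Stp := (s124.1, s124.2.1, s124.2.2 ++ [(10, 10, 4), (11, 11, 0), (12, 12, 9), (13, 13, 8), (14, 14, 11)])
def q125 : Stp := (s125.1, s125.2.1, s125.2.2 ++ [(10, 10, 4), (11, 11, 0), (12, 12, 9), (13, 13, 8), (14, 14, 11)])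
theorem ok0 : okS (NN q0.1) 15 20 CQ (CLk q0.1) (LLk q0.1) LF q0 p0 = true := by decide +kernel
theorem ok1 : okS (NN q1.1) 15 20 CQ (CLk q1.1) (LLk q1.1) LF q1 p1 = true := by decide +kernel
theorem ok2 : okS (NN q2.1) 15 20 CQ (CLk q2.1) (LLk q2.1) LF q2 p2 = true := by decide +kernel
theorem ok3 : okS (NN q3.1) 15 20 CQ (CLk q3.1) (LLk q3.1) LF q3 p3 = true := by decide +kernel
theorem ok4 : okS (NN q4.1) 15 20 CQ (CLk q4.1) (LLk q4.1) LF q4 p4 = true := by decide +kernel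
theorem ok5 : okS (NN q5.1) 15 20 CQ (CLk q5.1) (LLk q5.1) LF q5 p5 = true := by decide +kernel
theorem ok6 : okS (NN q6.1) 15 20 CQ (CLk q6.1) (LLk q6.1) LF q6 p6 = true := by decide +kernel
theorem ok7 : okS (NN q7.1) 15 20 CQ (CLk q7.1) (LLk q7.1) LF q7 p7 = true := by decide +kernel
theorem ok8 : okS (NN q8.1) 15 20 CQ (CLk q8.1) (LLk q8.1) LF q8 p8 = true := by decide +kernel
theorem ok9 : okS (NN q9.1) 15 20 CQ (CLk q9.1) (LLk q9.1) LF q9 p9 = true := by decide +kernel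
theorem ok10 : okS (NN q10.1) 15 20 CQ (CLk q10.1) (LLk q10.1) LF q10 p10 = true := by decide +kernel
theorem ok11 : okS (NN q11.1) 15 20 CQ (CLk q11.1) (LLk q11.1) LF q11 p11 = true := by decide +kernel
theorem ok12 : okS (NN q12.1) 15 20 CQ (CLk q12.1) (LLk q12.1) LF q12 p12 = true := by decide +kernel
theorem ok13 : okS (NN q13.1) 15 20 CQ (CLk q13.1) (LLk q13.1) LF q13 p13 = true := by decide +kernel
theorem ok14 : okS (NN q14.1) 15 20 CQ (CLk q14.1) (LLk q14.1) LF q14 p14 = true := by decide +kernel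
theorem ok15 : okS (NN q15.1) 15 20 CQ (CLk q15.1) (LLk q15.1) LF q15 p15 = true := by decide +kernel
theorem ok16 : okS (NN q16.1) 15 20 CQ (CLk q16.1) (LLk q16.1) LF q16 p16 = true := by decide +kernel
theorem ok17 : okS (NN q17.1) 15 20 CQ (CLk q17.1) (LLk q17.1) LF q17 p17 = true := by decide +kernel
theorem ok18 : okS (NN q18.1) 15 20 CQ (CLk q18.1) (LLk q18.1) LF q18 p18 = true := by decide +kernel
theorem ok19 : okS (NN q19.1) 15 20 CQ (CLk q19.1) (LLk q19.1) LF q19 p19 = true := by decide +kernel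
theorem ok20 : okS (NN q20.1) 15 20 CQ (CLk q20.1) (LLk q20.1) LF q20 p20 = true := by decide +kernel
theorem ok21 : okS (NN q21.1) 15 20 CQ (CLk q21.1) (LLk q21.1) LF q21 p21 = true := by decide +kernel
theorem ok22 : okS (NN q22.1) 15 20 CQ (CLk q22.1) (LLk q22.1) LF q22 p22 = true := by decide +kernel
theorem ok23 : okS (NN q23.1) 15 20 CQ (CLk q23.1) (LLk q23.1) LF q23 p23 = true := by decide +kernel
theorem ok24 : okS (NN q24.1) 15 20 CQ (CLk q24.1) (LLk q24.1) LF q24 p24 = true := by decide +kernel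
theorem ok25 : okS (NN q25.1) 15 20 CQ (CLk q25.1) (LLk q25.1) LF q25 p25 = true := by decide +kernel
theorem ok26 : okS (NN q26.1) 15 20 CQ (CLk q26.1) (LLk q26.1) LF q26 p26 = true := by decide +kernel
theorem ok27 : okS (NN q27.1) 15 20 CQ (CLk q27.1) (LLk q27.1) LF q27 p27 = true := by decide +kernel
theorem ok28 : okS (NN q28.1) 15 20 CQ (CLk q28.1) (LLk q28.1) LF q28 p28 = true := by decide +kernel
theorem ok29 : okS (NN q29.1) 15 20 CQ (CLk q29.1) (LLk q29.1) LF q29 p29 = true := by decide +kernel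
theorem ok30 : okS (NN q30.1) 15 20 CQ (CLk q30.1) (LLk q30.1) LF q30 p30 = true := by decide +kernel
theorem ok31 : okS (NN q31.1) 15 20 CQ (CLk q31.1) (LLk q31.1) LF q31 p31 = true := by decide +kernel
theorem ok32 : okS (NN q32.1) 15 20 CQ (CLk q32.1) (LLk q32.1) LF q32 p32 = true := by decide +kernel
theorem ok33 : okS (NN q33.1) 15 20 CQ (CLk q33.1) (LLk q33.1) LF q33 p33 = true := by decide +kernel
theorem ok34 : okS (NN q34.1) 15 20 CQ (CLk q34.1) (LLk q34.1) LF q34 p34 = true := by decide +kernel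
theorem ok35 : okS (NN q35.1) 15 20 CQ (CLk q35.1) (LLk q35.1) LF q35 p35 = true := by decide +kernel
theorem ok36 : okS (NN q36.1) 15 20 CQ (CLk q36.1) (LLk q36.1) LF q36 p36 = true := by decide +kernel
theorem ok37 : okS (NN q37.1) 15 20 CQ (CLk q37.1) (LLk q37.1) LF q37 p37 = true := by decide +kernel
theorem ok38 : okS (NN q38.1) 15 20 CQ (CLk q38.1) (LLk q38.1) LF q38 p38 = true := by decide +kernel
theorem ok39 : okS (NN q39.1) 15 20 CQ (CLk q39.1) (LLk q39.1) LF q39 p39 = true := by decide +kernel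
theorem ok40 : okS (NN q40.1) 15 20 CQ (CLk q40.1) (LLk q40.1) LF q40 p40 = true := by decide +kernel
theorem ok41 : okS (NN q41.1) 15 20 CQ (CLk q41.1) (LLk q41.1) LF q41 p41 = true := by decide +kernel
theorem ok42 : okS (NN q42.1) 15 20 CQ (CLk q42.1) (LLk q42.1) LF q42 p42 = true := by decide +kernel
theorem ok43 : okS (NN q43.1) 15 20 CQ (CLk q43.1) (LLk q43.1) LF q43 p43 = true := by decide +kernel
theorem ok44 : okS (NN q44.1) 15 20 CQ (CLk q44.1) (LLk q44.1) LF q44 p44 = true := by decide +kernel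
theorem ok45 : okS (NN q45.1) 15 20 CQ (CLk q45.1) (LLk q45.1) LF q45 p45 = true := by decide +kernel
theorem ok46 : okS (NN q46.1) 15 20 CQ (CLk q46.1) (LLk q46.1) LF q46 p46 = true := by decide +kernel
theorem ok47 : okS (NN q47.1) 15 20 CQ (CLk q47.1) (LLk q47.1) LF q47 p47 = true := by decide +kernel
theorem ok48 : okS (NN q48.1) 15 20 CQ (CLk q48.1) (LLk q48.1) LF q48 p48 = true := by decide +kernel
theorem ok49 : okS (NN q49.1) 15 20 CQ (CLk q49.1) (LLk q49.1) LF q49 p49 = true := by decide +kernel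
theorem ok50 : okS (NN q50.1) 15 20 CQ (CLk q50.1) (LLk q50.1) LF q50 p50 = true := by decide +kernel
theorem ok51 : okS (NN q51.1) 15 20 CQ (CLk q51.1) (LLk q51.1) LF q51 p51 = true := by decide +kernel
theorem ok52 : okS (NN q52.1) 15 20 CQ (CLk q52.1) (LLk q52.1) LF q52 p52 = true := by decide +kernel
theorem ok53 : okS (NN q53.1) 15 20 CQ (CLk q53.1) (LLk q53.1) LF q53 p53 = true := by decide +kernel
theorem ok54 : okS (NN q54.1) 15 20 CQ (CLk q54.1) (LLk q54.1) LF q54 p54 = true := by decide +kernel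
theorem ok55 : okS (NN q55.1) 15 20 CQ (CLk q55.1) (LLk q55.1) LF q55 p55 = true := by decide +kernel
theorem ok56 : okS (NN q56.1) 15 20 CQ (CLk q56.1) (LLk q56.1) LF q56 p56 = true := by decide +kernel
theorem ok57 : okS (NN q57.1) 15 20 CQ (CLk q57.1) (LLk q57.1) LF q57 p57 = true := by decide +kernel
theorem ok58 : okS (NN q58.1) 15 20 CQ (CLk q58.1) (LLk q58.1) LF q58 p58 = true := by decide +kernel
theorem ok59 : okS (NN q59.1) 15 20 CQ (CLk q59.1) (LLk q59.1) LF q59 p59 = true := by decide +kernel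
theorem ok60 : okS (NN q60.1) 15 20 CQ (CLk q60.1) (LLk q60.1) LF q60 p60 = true := by decide +kernel
theorem ok61 : okS (NN q61.1) 15 20 CQ (CLk q61.1) (LLk q61.1) LF q61 p61 = true := by decide +kernel
theorem ok62 : okS (NN q62.1) 15 20 CQ (CLk q62.1) (LLk q62.1) LF q62 p62 = true := by decide +kernel
theorem ok63 : okS (NN q63.1) 15 20 CQ (CLk q63.1) (LLk q63.1) LF q63 p63 = true := by decide +kernel
theorem ok64 : okS (NN q64.1) 15 20 CQ (CLk q64.1) (LLk q64.1) LF q64 p64 = true := by decide +kernel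
theorem ok65 : okS (NN q65.1) 15 20 CQ (CLk q65.1) (LLk q65.1) LF q65 p65 = true := by decide +kernel
theorem ok66 : okS (NN q66.1) 15 20 CQ (CLk q66.1) (LLk q66.1) LF q66 p66 = true := by decide +kernel
theorem ok67 : okS (NN q67.1) 15 20 CQ (CLk q67.1) (LLk q67.1) LF q67 p67 = true := by decide +kernel
theorem ok68 : okS (NN q68.1) 15 20 CQ (CLk q68.1) (LLk q68.1) LF q68 p68 = true := by decide +kernel
theorem ok69 : okS (NN q69.1) 15 20 CQ (CLk q69.1) (LLk q69.1) LF q69 p69 = true := by decide +kernel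
theorem ok70 : okS (NN q70.1) 15 20 CQ (CLk q70.1) (LLk q70.1) LF q70 p70 = true := by decide +kernel
theorem ok71 : okS (NN q71.1) 15 20 CQ (CLk q71.1) (LLk q71.1) LF q71 p71 = true := by decide +kernel
theorem ok72 : okS (NN q72.1) 15 20 CQ (CLk q72.1) (LLk q72.1) LF q72 p72 = true := by decide +kernel
theorem ok73 : okS (NN q73.1) 15 20 CQ (CLk q73.1) (LLk q73.1) LF q73 p73 = true := by decide +kernel
theorem ok74 : okS (NN q74.1) 15 20 CQ (CLk q74.1) (LLk q74.1) LF q74 p74 = true := by decide +kernel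
theorem ok75 : okS (NN q75.1) 15 20 CQ (CLk q75.1) (LLk q75.1) LF q75 p75 = true := by decide +kernel
theorem ok76 : okS (NN q76.1) 15 20 CQ (CLk q76.1) (LLk q76.1) LF q76 p76 = true := by decide +kernel
theorem ok77 : okS (NN q77.1) 15 20 CQ (CLk q77.1) (LLk q77.1) LF q77 p77 = true := by decide +kernel
theorem ok78 : okS (NN q78.1) 15 20 CQ (CLk q78.1) (LLk q78.1) LF q78 p78 = true := by decide +kernel
theorem ok79 : okS (NN q79.1) 15 20 CQ (CLk q79.1) (LLk q79.1) LF q79 p79 = true := by decide +kernel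
theorem ok80 : okS (NN q80.1) 15 20 CQ (CLk q80.1) (LLk q80.1) LF q80 p80 = true := by decide +kernel
theorem ok81 : okS (NN q81.1) 15 20 CQ (CLk q81.1) (LLk q81.1) LF q81 p81 = true := by decide +kernel
theorem ok82 : okS (NN q82.1) 15 20 CQ (CLk q82.1) (LLk q82.1) LF q82 p82 = true := by decide +kernel
theorem ok83 : okS (NN q83.1) 15 20 CQ (CLk q83.1) (LLk q83.1) LF q83 p83 = true := by decide +kernel
theorem ok84 : okS (NN q84.1) 15 20 CQ (CLk q84.1) (LLk q84.1) LF q84 p84 = true := by decide +kernel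
theorem ok85 : okS (NN q85.1) 15 20 CQ (CLk q85.1) (LLk q85.1) LF q85 p85 = true := by decide +kernel
theorem ok86 : okS (NN q86.1) 15 20 CQ (CLk q86.1) (LLk q86.1) LF q86 p86 = true := by decide +kernel
theorem ok87 : okS (NN q87.1) 15 20 CQ (CLk q87.1) (LLk q87.1) LF q87 p87 = true := by decide +kernel
theorem ok88 : okS (NN q88.1) 15 20 CQ (CLk q88.1) (LLk q88.1) LF q88 p88 = true := by decide +kernel
theorem ok89 : okS (NN q89.1) 15 20 CQ (CLk q89.1) (LLk q89.1) LF q89 p89 = true := by decide +kernel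
theorem ok90 : okS (NN q90.1) 15 20 CQ (CLk q90.1) (LLk q90.1) LF q90 p90 = true := by decide +kernel
theorem ok91 : okS (NN q91.1) 15 20 CQ (CLk q91.1) (LLk q91.1) LF q91 p91 = true := by decide +kernel
theorem ok92 : okS (NN q92.1) 15 20 CQ (CLk q92.1) (LLk q92.1) LF q92 p92 = true := by decide +kernel
theorem ok93 : okS (NN q93.1) 15 20 CQ (CLk q93.1) (LLk q93.1) LF q93 p93 = true := by decide +kernel
theorem ok94 : okS (NN q94.1) 15 20 CQ (CLk q94.1) (LLk q94.1) LF q94 p94 = true := by decide +kernel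
theorem ok95 : okS (NN q95.1) 15 20 CQ (CLk q95.1) (LLk q95.1) LF q95 p95 = true := by decide +kernel
theorem ok96 : okS (NN q96.1) 15 20 CQ (CLk q96.1) (LLk q96.1) LF q96 p96 = true := by decide +kernel
theorem ok97 : okS (NN q97.1) 15 20 CQ (CLk q97.1) (LLk q97.1) LF q97 p97 = true := by decide +kernel
theorem ok98 : okS (NN q98.1) 15 20 CQ (CLk q98.1) (LLk q98.1) LF q98 p98 = true := by decide +kernel
theorem ok99 : okS (NN q99.1) 15 20 CQ (CLk q99.1) (LLk q99.1) LF q99 p99 = true := by decide +kernel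
theorem ok100 : okS (NN q100.1) 15 20 CQ (CLk q100.1) (LLk q100.1) LF q100 p100 = true := by decide +kernel
theorem ok101 : okS (NN q101.1) 15 20 CQ (CLk q101.1) (LLk q101.1) LF q101 p101 = true := by decide +kernel
theorem ok102 : okS (NN q102.1) 15 20 CQ (CLk q102.1) (LLk q102.1) LF q102 p102 = true := by decide +kernel
theorem ok103 : okS (NN q103.1) 15 20 CQ (CLk q103.1) (LLk q103.1) LF q103 p103 = true := by decide +kernel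
theorem ok104 : okS (NN q104.1) 15 20 CQ (CLk q104.1) (LLk q104.1) LF q104 p104 = true := by decide +kernel
theorem ok105 : okS (NN q105.1) 15 20 CQ (CLk q105.1) (LLk q105.1) LF q105 p105 = true := by decide +kernel
theorem ok106 : okS (NN q106.1) 15 20 CQ (CLk q106.1) (LLk q106.1) LF q106 p106 = true := by decide +kernel
theorem ok107 : okS (NN q107.1) 15 20 CQ (CLk q107.1) (LLk q107.1) LF q107 p107 = true := by decide +kernel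
theorem ok108 : okS (NN q108.1) 15 20 CQ (CLk q108.1) (LLk q108.1) LF q108 p108 = true := by decide +kernel
theorem ok109 : okS (NN q109.1) 15 20 CQ (CLk q109.1) (LLk q109.1) LF q109 p109 = true := by decide +kernel
theorem ok110 : okS (NN q110.1) 15 20 CQ (CLk q110.1) (LLk q110.1) LF q110 p110 = true := by decide +kernel
theorem ok111 : okS (NN q111.1) 15 20 CQ (CLk q111.1) (LLk q111.1) LF q111 p111 = true := by decide +kernel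
theorem ok112 : okS (NN q112.1) 15 20 CQ (CLk q112.1) (LLk q112.1) LF q112 p112 = true := by decide +kernel
theorem ok113 : okS (NN q113.1) 15 20 CQ (CLk q113.1) (LLk q113.1) LF q113 p113 = true := by decide +kernel
theorem ok114 : okS (NN q114.1) 15 20 CQ (CLk q114.1) (LLk q114.1) LF q114 p114 = true := by decide +kernel
theorem ok115 : okS (NN q115.1) 15 20 CQ (CLk q115.1) (LLk q115.1) LF q115 p115 = true := by decide +kernel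
theorem ok116 : okS (NN q116.1) 15 20 CQ (CLk q116.1) (LLk q116.1) LF q116 p116 = true := by decide +kernel
theorem ok117 : okS (NN q117.1) 15 20 CQ (CLk q117.1) (LLk q117.1) LF q117 p117 = true := by decide +kernel
theorem ok118 : okS (NN q118.1) 15 20 CQ (CLk q118.1) (LLk q118.1) LF q118 p118 = true := by decide +kernel
theorem ok119 : okS (NN q119.1) 15 20 CQ (CLk q119.1) (LLk q119.1) LF q119 p119 = true := by decide +kernel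
theorem ok120 : okS (NN q120.1) 15 20 CQ (CLk q120.1) (LLk q120.1) LF q120 p120 = true := by decide +kernel
theorem ok121 : okS (NN q121.1) 15 20 CQ (CLk q121.1) (LLk q121.1) LF q121 p121 = true := by decide +kernel
theorem ok122 : okS (NN q122.1) 15 20 CQ (CLk q122.1) (LLk q122.1) LF q122 p122 = true := by decide +kernel
theorem ok123 : okS (NN q123.1) 15 20 CQ (CLk q123.1) (LLk q123.1) LF q123 p123 = true := by decide +kernel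
theorem ok124 : okS (NN q124.1) 15 20 CQ (CLk q124.1) (LLk q124.1) LF q124 p124 = true := by decide +kernel
theorem ok125 : okS (NN q125.1) 15 20 CQ (CLk q125.1) (LLk q125.1) LF q125 p125 = true := by decide +kernel

/-- steps with permutations -/
def SP : List (Stp × Perm (Fin 7)) := [(q0, p0), (q1, p1), (q2, p2), (q3, p3), (q4, p4), (q5, p5), (q6, p6), (q7, p7), (q8, p8), (q9, p9), (q10, p10), (q11, p11), (q12, p12), (q13, p13), (q14, p14), (q15, p15), (q16, p16), (q17, p17), (q18, p18), (q19, p19), (q20, p20), (q21, p21), (q22, p22), (q23, p23), (q24, p24), (q25, p25), (q26, p26), (q27, p27), (q28, p28), (q29, p29), (q30, p30), (q31, p31), (q32, p32), (q33, p33), (q34, p34), (q35, p35), (q36, p36), (q37, p37), (q38, p38), (q39, p39), (q40, p40), (q41, p41), (q42, p42), (q43, p43), (q44, p44), (q45, p45), (q46, p46), (q47, p47), (q48, p48), (q49,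 p49), (q50, p50), (q51, p51), (q52, p52), (q53, p53), (q54, p54), (q55, p55), (q56, p56), (q57, p57), (q58, p58), (q59, p59), (q60, p60), (q61, p61), (q62, p62), (q63, p63), (q64, p64), (q65, p65), (q66, p66), (q67, p67), (q68, p68), (q69, p69), (q70, p70), (q71, p71), (q72, p72), (q73, p73), (q74, p74), (q75, p75), (q76, p76), (q77, p77), (q78, p78), (q79, p79), (q80, p80), (q81, p81), (q82, p82), (q83, p83), (q84, p84), (q85, p85), (q86, p86), (q87, p87), (q88, p88), (q89, p89), (q90, p90), (q91, p91), (q92, p92), (q93, p93), (q94, p94), (q95, p95), (q96, p96), (q97, p97), (q98, p98), (q99, p99), (q100, p100), (q101, p101), (q102, p102), (q103, p103), (q104, p104), (q105, p105), (q106, p106), (q107, p107), (q108, p108), (q109, p109), (q110, p110), (q111, p111), (q112, p112), (q113, p113), (q114, p114), (q115, p115), (q116, p116), (q117, p117), (q118,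 p118), (q119, p119), (q120, p120), (q121, p121), (q122, p122), (q123, p123), (q124, p124), (q125, p125)]

theorem SP_fst : SP.map Prod.fst = fl3 GS := rfl
theorem SP_ok : ∀ x ∈ SP, okS (NN x.1.1) 15 20 CQ (CLk x.1.1) (LLk x.1.1) LF x.1 x.2 = true := by
  simp only [SP, List.forall_mem_cons, List.not_mem_nil, false_implies, implies_true, and_true]
  exact ⟨ok0, ok1, ok2, ok3, ok4, ok5, ok6, ok7, ok8, ok9, ok10, ok11, ok12, ok13, ok14, ok15, ok16, ok17, ok18, ok19, ok20, ok21, ok22, ok23, ok24, ok25, ok26, ok27, ok28, ok29, ok30, ok31, ok32, ok33, ok34, ok35, ok36, ok37, ok38, ok39, ok40, ok41, ok42, ok43, ok44, ok45, ok46, ok47, ok48, ok49, ok50, ok51, ok52, ok53, ok54, ok55, ok56, ok57, ok58, ok59, ok60, ok61, ok62, ok63, ok64, ok65, ok66, ok67, ok68, ok69, ok70, ok71, ok72, ok73, ok74, ok75, ok76, ok77, ok78, ok79, ok80, ok81, ok82, ok83, ok84, ok85,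 ok86, ok87, ok88, ok89, ok90, ok91, ok92, ok93, ok94, ok95, ok96, ok97, ok98, ok99, ok100, ok101, ok102, ok103, ok104, ok105, ok106, ok107, ok108, ok109, ok110, ok111, ok112, ok113, ok114, ok115, ok116, ok117, ok118, ok119, ok120, ok121, ok122, ok123, ok124, ok125⟩
def a0 : Perm (Fin 7) := ⟨![5, 3, 4, 2, 6, 0, 1], ![5, 6, 3, 1, 2, 0, 4], by decide, by decide⟩
theorem ea0 : a0 = p0 * al0 := by decide +kernel
def a4 : Perm (Fin 7) := ⟨![5, 3, 4, 1, 6, 2, 0], ![6, 3, 5, 1, 2, 0, 4], by decide, by decide⟩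
theorem ea4 : a4 = p4 * al0 := by decide +kernel
def a8 : Perm (Fin 7) := ⟨![4, 1, 5, 2, 6, 0, 3], ![5, 1, 3, 6, 0, 2, 4], by decide, by decide⟩
theorem ea8 : a8 = p8 * al0 := by decide +kernel
def a12 : Perm (Fin 7) := ⟨![3, 5, 1, 2, 6, 0, 4], ![5, 2, 3, 0, 6, 1, 4], by decide, by decide⟩
theorem ea12 : a12 = p12 * al0 := by decide +kernel
def a16 : Perm (Fin 7) := ⟨![1, 3, 4, 2, 6, 0, 5], ![5, 0, 3, 1, 2, 6, 4], by decide, by decide⟩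
theorem ea16 : a16 = p16 * al0 := by decide +kernel
def a20 : Perm (Fin 7) := ⟨![5, 3, 4, 0, 6, 2, 1], ![3, 6, 5, 1, 2, 0, 4], by decide, by decide⟩
theorem ea20 : a20 = p20 * al0 := by decide +kernel
def a24 : Perm (Fin 7) := ⟨![5, 2, 4, 0, 6, 3, 1], ![3, 6, 1, 5, 2, 0, 4], by decide, by decide⟩
theorem ea24 : a24 = p24 * al0 := by decide +kernel
def a28 : Perm (Fin 7) := ⟨![5, 3, 2, 0, 6, 4, 1], ![3, 6, 2, 1, 5, 0, 4], by decide, by decide⟩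
theorem ea28 : a28 = p28 * al0 := by decide +kernel
def a32 : Perm (Fin 7) := ⟨![2, 3, 4, 0, 6, 5, 1], ![3, 6, 0, 1, 2, 5, 4], by decide, by decide⟩
theorem ea32 : a32 = p32 * al0 := by decide +kernel
def a36 : Perm (Fin 7) := ⟨![5, 1, 4, 0, 6, 2, 3], ![3, 1, 5, 6, 2, 0, 4], by decide, by decide⟩
theorem ea36 : a36 = p36 * al0 := by decide +kernel
def a40 : Perm (Fin 7) := ⟨![5, 3, 1, 0, 6, 2, 4], ![3, 2, 5, 1, 6, 0, 4], by decide, by decide⟩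
theorem ea40 : a40 = p40 * al0 := by decide +kernel
def a44 : Perm (Fin 7) := ⟨![1, 3, 4, 0, 6, 2, 5], ![3, 0, 5, 1, 2, 6, 4], by decide, by decide⟩
theorem ea44 : a44 = p44 * al0 := by decide +kernel
def a48 : Perm (Fin 7) := ⟨![0, 1, 2, 5, 6, 4, 3], ![0, 1, 2, 6, 5, 3, 4], by decide, by decide⟩
theorem ea48 : a48 = p48 * al0 := by decide +kernel
def a52 : Perm (Fin 7) := ⟨![1, 2, 0, 4, 6, 3, 5], ![2, 0, 1, 5, 3, 6, 4], by decide, by decide⟩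
theorem ea52 : a52 = p52 * al0 := by decide +kernel
def a56 : Perm (Fin 7) := ⟨![1, 0, 2, 3, 6, 4, 5], ![1, 0, 2, 3, 5, 6, 4], by decide, by decide⟩
theorem ea56 : a56 = p56 * al0 := by decide +kernel
def a1 : Perm (Fin 7) := ⟨![6, 3, 4, 1, 5, 2, 0], ![6, 3, 5, 1, 2, 4, 0], by decide, by decide⟩
theorem ea1 : a1 = p1 * al2 := by decide +kernel
def a2 : Perm (Fin 7) := ⟨![6, 3, 4, 0, 5, 2, 1], ![3, 6, 5, 1, 2, 4, 0], by decide, by decide⟩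
theorem ea2 : a2 = p2 * al2 := by decide +kernel
def a3 : Perm (Fin 7) := ⟨![6, 5, 4, 0, 3, 2, 1], ![3, 6, 5, 4, 2, 1, 0], by decide, by decide⟩
theorem ea3 : a3 = p3 * al2 := by decide +kernel
def a5 : Perm (Fin 7) := ⟨![6, 1, 3, 2, 4, 0, 5], ![5, 1, 3, 2, 4, 6, 0], by decide, by decide⟩
theorem ea5 : a5 = p5 * al2 := by decide +kernel
def a6 : Perm (Fin 7) := ⟨![6, 3, 4, 2, 5, 0, 1], ![5, 6, 3, 1, 2, 4, 0], by decide, by decide⟩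
theorem ea6 : a6 = p6 * al2 := by decide +kernel
def a7 : Perm (Fin 7) := ⟨![6, 5, 3, 1, 0, 2, 4], ![4, 3, 5, 2, 6, 1, 0], by decide, by decide⟩
theorem ea7 : a7 = p7 * al2 := by decide +kernel
def a9 : Perm (Fin 7) := ⟨![6, 1, 2, 3, 5, 4, 0], ![6, 1, 2, 3, 5, 4, 0], by decide, by decide⟩
theorem ea9 : a9 = p9 * al2 := by decide +kernel
def a10 : Perm (Fin 7) := ⟨![6, 2, 5, 4, 0, 1, 3], ![4, 5, 1, 6, 3, 2, 0], by decide, by decide⟩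
theorem ea10 : a10 = p10 * al2 := by decide +kernel
def a11 : Perm (Fin 7) := ⟨![6, 4, 5, 0, 1, 2, 3], ![3, 4, 5, 6, 1, 2, 0], by decide, by decide⟩
theorem ea11 : a11 = p11 * al2 := by decide +kernel
def a13 : Perm (Fin 7) := ⟨![6, 1, 2, 0, 3, 4, 5], ![3, 1, 2, 4, 5, 6, 0], by decide, by decide⟩
theorem ea13 : a13 = p13 * al2 := by decide +kernel
def a14 : Perm (Fin 7) := ⟨![6, 1, 3, 4, 5, 0, 2], ![5, 1, 6, 2, 3, 4, 0], by decide, by decide⟩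
theorem ea14 : a14 = p14 * al2 := by decide +kernel
def a15 : Perm (Fin 7) := ⟨![6, 5, 3, 1, 4, 0, 2], ![5, 3, 6, 2, 4, 1, 0], by decide, by decide⟩
theorem ea15 : a15 = p15 * al2 := by decide +kernel
def a17 : Perm (Fin 7) := ⟨![6, 1, 3, 5, 2, 0, 4], ![5, 1, 4, 2, 6, 3, 0], by decide, by decide⟩
theorem ea17 : a17 = p17 * al2 := by decide +kernel
def a18 : Perm (Fin 7) := ⟨![6, 1, 4, 3, 5, 2, 0], ![6, 1, 5, 3, 2, 4, 0], by decide, by decide⟩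
theorem ea18 : a18 = p18 * al2 := by decide +kernel
def a19 : Perm (Fin 7) := ⟨![6, 2, 4, 5, 1, 3, 0], ![6, 4, 1, 5, 2, 3, 0], by decide, by decide⟩
theorem ea19 : a19 = p19 * al2 := by decide +kernel
def a21 : Perm (Fin 7) := ⟨![6, 0, 4, 5, 1, 2, 3], ![1, 4, 5, 6, 2, 3, 0], by decide, by decide⟩
theorem ea21 : a21 = p21 * al2 := by decide +kernel
def a22 : Perm (Fin 7) := ⟨![6, 0, 5, 1, 3, 4, 2], ![1, 3, 6, 4, 5, 2, 0], by decide, by decide⟩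
theorem ea22 : a22 = p22 * al2 := by decide +kernel
def a23 : Perm (Fin 7) := ⟨![6, 4, 5, 2, 0, 1, 3], ![4, 5, 3, 6, 1, 2, 0], by decide, by decide⟩
theorem ea23 : a23 = p23 * al2 := by decide +kernel
def a25 : Perm (Fin 7) := ⟨![6, 0, 5, 1, 2, 4, 3], ![1, 3, 4, 6, 5, 2, 0], by decide, by decide⟩
theorem ea25 : a25 = p25 * al2 := by decide +kernel
def a26 : Perm (Fin 7) := ⟨![6, 5, 2, 1, 0, 3, 4], ![4, 3, 2, 5, 6, 1, 0], by decide, by decide⟩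
theorem ea26 : a26 = p26 * al2 := by decide +kernel
def a27 : Perm (Fin 7) := ⟨![6, 2, 5, 1, 4, 0, 3], ![5, 3, 1, 6, 4, 2, 0], by decide, by decide⟩
theorem ea27 : a27 = p27 * al2 := by decide +kernel
def a29 : Perm (Fin 7) := ⟨![6, 2, 0, 5, 1, 3, 4], ![2, 4, 1, 5, 6, 3, 0], by decide, by decide⟩
theorem ea29 : a29 = p29 * al2 := by decide +kernel
def a30 : Perm (Fin 7) := ⟨![6, 2, 3, 1, 5, 4, 0], ![6, 3, 1, 2, 5, 4, 0], by decide, by decide⟩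
theorem ea30 : a30 = p30 * al2 := by decide +kernel
def a31 : Perm (Fin 7) := ⟨![6, 5, 3, 1, 2, 0, 4], ![5, 3, 4, 2, 6, 1, 0], by decide, by decide⟩
theorem ea31 : a31 = p31 * al2 := by decide +kernel
def a33 : Perm (Fin 7) := ⟨![6, 0, 4, 3, 1, 2, 5], ![1, 4, 5, 3, 2, 6, 0], by decide, by decide⟩
theorem ea33 : a33 = p33 * al2 := by decide +kernel
def a34 : Perm (Fin 7) := ⟨![6, 2, 3, 1, 0, 4, 5], ![4, 3, 1, 2, 5, 6, 0], by decide, by decide⟩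
theorem ea34 : a34 = p34 * al2 := by decide +kernel
def a35 : Perm (Fin 7) := ⟨![6, 2, 4, 0, 1, 3, 5], ![3, 4, 1, 5, 2, 6, 0], by decide, by decide⟩
theorem ea35 : a35 = p35 * al2 := by decide +kernel
def a37 : Perm (Fin 7) := ⟨![6, 1, 0, 2, 4, 5, 3], ![2, 1, 3, 6, 4, 5, 0], by decide, by decide⟩
theorem ea37 : a37 = p37 * al2 := by decide +kernel
def a38 : Perm (Fin 7) := ⟨![6, 1, 0, 2, 5, 4, 3], ![2, 1, 3, 6, 5, 4, 0], by decide, by decide⟩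
theorem ea38 : a38 = p38 * al2 := by decide +kernel
def a39 : Perm (Fin 7) := ⟨![6, 4, 1, 0, 3, 2, 5], ![3, 2, 5, 4, 1, 6, 0], by decide, by decide⟩
theorem ea39 : a39 = p39 * al2 := by decide +kernel
def a41 : Perm (Fin 7) := ⟨![6, 0, 3, 1, 4, 2, 5], ![1, 3, 5, 2, 4, 6, 0], by decide, by decide⟩
theorem ea41 : a41 = p41 * al2 := by decide +kernel
def a42 : Perm (Fin 7) := ⟨![6, 5, 0, 1, 4, 2, 3], ![2, 3, 5, 6, 4, 1, 0], by decide, by decide⟩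
theorem ea42 : a42 = p42 * al2 := by decide +kernel
def a43 : Perm (Fin 7) := ⟨![6, 1, 5, 2, 0, 4, 3], ![4, 1, 3, 6, 5, 2, 0], by decide, by decide⟩
theorem ea43 : a43 = p43 * al2 := by decide +kernel
def a45 : Perm (Fin 7) := ⟨![6, 1, 0, 2, 3, 5, 4], ![2, 1, 3, 4, 6, 5, 0], by decide, by decide⟩
theorem ea45 : a45 = p45 * al2 := by decide +kernel
def a46 : Perm (Fin 7) := ⟨![6, 0, 3, 1, 2, 4, 5], ![1, 3, 4, 2, 5, 6, 0], by decide, by decide⟩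
theorem ea46 : a46 = p46 * al2 := by decide +kernel
def a47 : Perm (Fin 7) := ⟨![6, 0, 4, 2, 1, 3, 5], ![1, 4, 3, 5, 2, 6, 0], by decide, by decide⟩
theorem ea47 : a47 = p47 * al2 := by decide +kernel
def a49 : Perm (Fin 7) := ⟨![6, 2, 0, 4, 1, 3, 5], ![2, 4, 1, 5, 3, 6, 0], by decide, by decide⟩
theorem ea49 : a49 = p49 * al2 := by decide +kernel
def a50 : Perm (Fin 7) := ⟨![6, 1, 5, 2, 4, 0, 3], ![5, 1, 3, 6, 4, 2, 0], by decide, by decide⟩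
theorem ea50 : a50 = p50 * al2 := by decide +kernel
def a51 : Perm (Fin 7) := ⟨![6, 1, 5, 0, 4, 2, 3], ![3, 1, 5, 6, 4, 2, 0], by decide, by decide⟩
theorem ea51 : a51 = p51 * al2 := by decide +kernel
def a53 : Perm (Fin 7) := ⟨![6, 0, 2, 1, 3, 4, 5], ![1, 3, 2, 4, 5, 6, 0], by decide, by decide⟩
theorem ea53 : a53 = p53 * al2 := by decide +kernel
def a54 : Perm (Fin 7) := ⟨![6, 4, 1, 2, 3, 5, 0], ![6, 2, 3, 4, 1, 5, 0], by decide, by decide⟩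
theorem ea54 : a54 = p54 * al2 := by decide +kernel
def a55 : Perm (Fin 7) := ⟨![6, 2, 4, 5, 0, 3, 1], ![4, 6, 1, 5, 2, 3, 0], by decide, by decide⟩
theorem ea55 : a55 = p55 * al2 := by decide +kernel
def a57 : Perm (Fin 7) := ⟨![6, 0, 3, 1, 5, 4, 2], ![1, 3, 6, 2, 5, 4, 0], by decide, by decide⟩
theorem ea57 : a57 = p57 * al2 := by decide +kernel
def a58 : Perm (Fin 7) := ⟨![6, 1, 2, 0, 5, 4, 3], ![3, 1, 2, 6, 5, 4, 0], by decide, by decide⟩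
theorem ea58 : a58 = p58 * al2 := by decide +kernel
def a59 : Perm (Fin 7) := ⟨![6, 3, 2, 0, 5, 4, 1], ![3, 6, 2, 1, 5, 4, 0], by decide, by decide⟩
theorem ea59 : a59 = p59 * al2 := by decide +kernel

/-- permutations of the terms of the two sorts -/
def PL5 : List (Perm (Fin 7)) := [a0, a4, a8, a12, a16, a20, a24, a28, a32, a36, a40, a44, a48, a52, a56, p60, p73, p82, p95, p104, p113]
def PL3 : List (Perm (Fin 7)) := [a1, a2, a3, a5, a6, a7, a9, a10, a11, a13, a14, a15, a17, a18, a19, a21, a22, a23, a25, a26, a27, a29, a30, a31, a33, a34, a35, a37, a38, a39, a41, a42, a43, a45, a46, a47, a49, a50, a51, a53, a54, a55, a57, a58, a59, p61, p62, p63, p64, p65, p66, p67, p68, p69, p70, p71, p72, p74, p75, p76, p77, p78, p79, p80, p81, p83, p84, p85, p86, p87, p88, p89, p90, p91, p92, p93, p94, p96, p97, p98, p99, p100, p101, p102, p103, p105, p106, p107,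 p108, p109, p110, p111, p112, p114, p115, p116, p117, p118, p119, p120, p121, p122, p123, p124, p125]

def f5 (x : Stp × Perm (Fin 7)) : List (Perm (Fin 7)) := if x.1.1 = 0 then [x.2 * al0] else if x.1.1 = 1 then [x.2] else []
def f3 (x : Stp × Perm (Fin 7)) : List (Perm (Fin 7)) := if x.1.1 = 0 then [] else if x.1.1 = 1 then [] else if x.1.1 = 2 then [x.2 * al2] else [x.2]
theorem PL5_eq : SP.flatMap f5 = PL5 := by
  unfold PL5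
  rw [ea0, ea4, ea8, ea12, ea16, ea20, ea24, ea28, ea32, ea36, ea40, ea44, ea48, ea52, ea56]
  rfl
theorem PL3_eq : SP.flatMap f3 = PL3 := by
  unfold PL3
  rw [ea1, ea2, ea3, ea5, ea6, ea7, ea9, ea10, ea11, ea13, ea14, ea15, ea17, ea18, ea19, ea21, ea22, ea23, ea25, ea26, ea27, ea29, ea30, ea31, ea33, ea34, ea35, ea37, ea38, ea39, ea41, ea42, ea43, ea45, ea46, ea47, ea49, ea50, ea51, ea53, ea54, ea55, ea57, ea58, ea59]
  rfl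

theorem PL5_len : PL5.length = 21 := rfl
theorem PL3_len : PL3.length = 105 := rfl
theorem PL5_nodup : (PL5.map pr).Nodup := by decide +kernel
theorem PL3_nodup : (PL3.map lab).Nodup := by
  refine List.Nodup.of_map kl ?_
  rw [List.map_map]
  decide +kernel

/-- bounds of the kinds -/
def MM (k : ℕ) : ℕ := if k < 2 then 2 ^ 34 else 2 ^ 33
theorem GS_wf : wfG NN MM 15 GS = true := by decide +kernel
theorem MM_lt (k : ℕ) : MM k < 2 ^ 40 := by unfold MM; split_ifs <;> norm_num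

/-- exchanges for the rearrangement of the flags of three roots -/
def opD : List (ℕ × ℕ × ℕ) := [(9, 0, 2), (9, 1, 3), (9, 2, 6), (9, 3, 4), (9, 4, 7), (9, 5, 8)]
/-- rearranged triples -/
def LQ : List (Finset (Fin 7)) := [{0, 1, 6}, {0, 2, 6}, {1, 2, 6}, {0, 5, 6}, {1, 5, 6}, {2, 5, 6}, {0, 1, 5}, {0, 2, 5}, {1, 2, 5}]
theorem opD_wf : wf3 9 opD 9 = true := by decide +kernel
theorem opD_tau : ∀ j < 9, Q2.getD j ∅ = LQ.getD (tau3 opD j) ∅ := by decide +kernel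

end

end Pool.Agent.H68.F7
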