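import Pool.Agent.H68.F7.Dens

set_option autoImplicit false
open Finset

namespace Pool.Agent.H68.F7

open Pool.Agent.H120R2.Clique

/-- the largest number of edges, written as a supremum -/
theorem sup_eq (n κ : ℕ) (hκ : 3 ≤ κ) : sSup {m : ℕ | ∃ E : Finset (Finset (Fin n)),
            (∀ e ∈ E, e.card = 3) ∧
            (∀ S : Finset (Fin n), S.card = κ → ∃ T ⊆ S, T.card = 3 ∧ T ∉ E) ∧
            E.card = m} = ex n 3 κ := by
  classical
  have hfree : ∀ E : Finset (Finset (Fin n)), (¬ HasClique E 3 κ ↔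
      ∀ S : Finset (Fin n), S.card = κ → ∃ T ⊆ S, T.card = 3 ∧ T ∉ E) := by
    intro E
    constructor
    · intro h S hS
      by_contra hcon
      push Not at hcon
      refine h ⟨S, hS, fun T hT => ?_⟩
      exact hcon T (mem_powersetCard.mp hT).1 (mem_powersetCard.mp hT).2
    · rintro h ⟨S, hS, hs⟩
      obtain ⟨T, h1, h2, h3⟩ := h S hS
      exact h3 (hs (mem_powersetCard.mpr ⟨h1, h2⟩))
  apply le_antisymm
  · refine csSup_le ?_ ?_
    · refine ⟨0, ∅, by simp, ?_, by simp⟩
      intro S hS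
      obtain ⟨T, hT, hc⟩ := exists_subset_card_eq (show 3 ≤ S.card by omega)
      exact ⟨T, hT, hc, by simp⟩
    · rintro m ⟨E, h1, h2, rfl⟩
      exact le_ex h1 ((hfree E).mpr h2)
  · unfold ex
    refine Finset.sup_le fun E hE => ?_
    rw [mem_filter, mem_powerset] at hE
    refine le_csSup ?_ ⟨E, fun e he => (mem_powersetCard.mp (hE.1 he)).2, (hfree E).mp hE.2, rfl⟩
    refine ⟨(univ : Finset (Finset (Fin n))).card, ?_⟩
    rintro m ⟨E, -, -, rfl⟩
    exact card_le_card (subset_univ _)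

end Pool.Agent.H68.F7
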