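import Pool.Agent.H68.F7.Gen
import Pool.Agent.H68.F7.Grp
import Pool.Graph.R_pool_sql_team_seeded_63374d34.N443.Core.Avg
import Pool.Graph.R_seed8.W843.Lnk.Link

/-! Admissible set functions; the codes of the frames and exchanges of positions. -/

set_option autoImplicit false
set_option maxRecDepth 100000
set_option maxHeartbeats 4000000
open Finset Equiv

namespace Pool.Agent.H68.F7

noncomputable section

open Pool.Agent.Y435.T7 (bt sb st cnd al swp enc enc_congr swp_enc sb_lt)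
open Pool.Agent.N443 (mkN mkN_congr mkN_lt mkN_add mkN_div mkN_mod bt_mkN sb_mkN sx codeN act Cl Kp gv gv_act sum_act psd_sum
  sum7 sum_gv_perm card_tuples)

/-- set functions of hypergraphs without a complete set of `κ` -/
def Val (κ : ℕ) (g : Finset (Fin 7) → ℕ) : Prop :=
  (∀ Q, g Q ≤ 1) ∧ ∀ P : Finset (Fin 7), P.card = κ → ∃ Q ∈ powersetCard 3 P, g Q = 0

theorem Val_cl (κ : ℕ) : Cl (Val κ) := by
  rintro g ⟨h1, h2⟩ σ
  refine ⟨fun Q => h1 _, fun P hP => ?_⟩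
  obtain ⟨Q, hQ, h0⟩ := h2 (P.image σ) (by rw [card_image_of_injective _ σ.injective, hP])
  rw [mem_powersetCard] at hQ
  refine ⟨Q.image σ.symm, ?_, ?_⟩
  · rw [mem_powersetCard]
    refine ⟨?_, by rw [card_image_of_injective _ σ.symm.injective, hQ.2]⟩
    intro x hx
    obtain ⟨y, hy, rfl⟩ := mem_image.mp hx
    obtain ⟨z, hz, rfl⟩ := mem_image.mp (hQ.1 hy)
    rwa [Equiv.symm_apply_apply]
  · unfold act
    rw [image_image]
    simpa using h0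

theorem code_perm {n : ℕ} {L : List (Finset (Fin 7))} {τ : Perm (Fin 7)} {π : ℕ → ℕ} (L' : List (Finset (Fin 7)))
    (h : ∀ j < n, (L.getD j ∅).image τ = L'.getD (π j) ∅) (g : Finset (Fin 7) → ℕ) :
    codeN n L (act τ g) = mkN n (fun j => g (L'.getD (π j) ∅)) :=
  mkN_congr fun j hj => by rw [← h j hj]; rfl

theorem code_lt {n : ℕ} {L : List (Finset (Fin 7))} {g : Finset (Fin 7) → ℕ} (hg : ∀ Q, g Q ≤ 1) : codeN n L g < 2 ^ n :=
  mkN_lt fun _ => hg _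

/-- triples of the first six positions -/
def CQ : List (Finset (Fin 7)) := [{0, 1, 2}, {0, 1, 3}, {0, 2, 3}, {1, 2, 3}, {0, 1, 4}, {0, 2, 4}, {1, 2, 4}, {0, 3, 4}, {1, 3, 4}, {2, 3, 4}, {0, 1, 5}, {0, 2, 5}, {1, 2, 5}, {0, 3, 5}, {1, 3, 5}, {2, 3, 5}, {0, 4, 5}, {1, 4, 5}, {2, 4, 5}, {3, 4, 5}]
/-- triples with the last position, order of the final index -/
def LF : List (Finset (Fin 7)) := [{1, 5, 6}, {1, 3, 6}, {1, 4, 6}, {0, 1, 6}, {2, 5, 6}, {2, 3, 6}, {2, 4, 6}, {0, 2, 6}, {3, 5, 6}, {4, 5, 6}, {3, 4, 6}, {0, 5, 6}, {0, 3, 6}, {0, 4, 6}, {1, 2, 6}]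
/-- triples of the roots -/
def RM : List (Finset (Fin 7)) := [{0, 1, 2}, {0, 1, 3}, {0, 2, 3}, {1, 2, 3}, {0, 1, 4}, {0, 2, 4}, {1, 2, 4}, {0, 3, 4}, {1, 3, 4}, {2, 3, 4}]
/-- triples with the position 5 -/
def RA : List (Finset (Fin 7)) := [{0, 4, 5}, {1, 4, 5}, {2, 4, 5}, {3, 4, 5}, {0, 1, 5}, {0, 2, 5}, {1, 2, 5}, {0, 3, 5}, {1, 3, 5}, {2, 3, 5}]
/-- triples with the position 6 -/
def RB : List (Finset (Fin 7)) := [{0, 4, 6}, {1, 4, 6}, {2, 4, 6}, {3, 4, 6}, {0, 1, 6}, {0, 2, 6}, {1, 2, 6}, {0, 3, 6}, {1, 3, 6}, {2, 3, 6}]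
/-- flags of three roots: the positions 3 and 4 -/
def Q1 : List (Finset (Fin 7)) := [{0, 1, 3}, {0, 2, 3}, {0, 1, 4}, {0, 2, 4}, {0, 3, 4}, {1, 2, 3}, {1, 2, 4}, {1, 3, 4}, {2, 3, 4}]
/-- flags of three roots: the positions 5 and 6 -/
def Q2 : List (Finset (Fin 7)) := [{0, 1, 5}, {0, 2, 5}, {0, 1, 6}, {0, 2, 6}, {0, 5, 6}, {1, 2, 5}, {1, 2, 6}, {1, 5, 6}, {2, 5, 6}]

/-! codes and index triples of the four kinds of steps -/
def LL0 : List (Finset (Fin 7)) := [{0, 5, 6}, {1, 5, 6}, {2, 5, 6}, {3, 5, 6}, {0, 4, 6}, {1, 4, 6}, {2, 4, 6}, {3, 4, 6}, {0, 1, 6}, {0, 2, 6}, {1, 2, 6}, {0, 3, 6}, {1, 3, 6}, {2, 3, 6}]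
def CL0 : List (Finset (Fin 7)) := [{0, 1, 2}, {0, 1, 3}, {0, 2, 3}, {1, 2, 3}, {0, 1, 4}, {0, 2, 4}, {1, 2, 4}, {0, 3, 4}, {1, 3, 4}, {2, 3, 4}, {0, 1, 5}, {0, 2, 5}, {1, 2, 5}, {0, 3, 5}, {1, 3, 5}, {2, 3, 5}]
def CL1 : List (Finset (Fin 7)) := [{0, 1, 2}, {0, 1, 3}, {0, 2, 3}, {1, 2, 3}, {0, 1, 4}, {0, 2, 4}, {1, 2, 4}, {0, 3, 4}, {1, 3, 4}, {2, 3, 4}, {0, 4, 5}, {1, 4, 5}, {2, 4, 5}, {3, 4, 5}, {0, 1, 5}, {0, 2, 5}, {1, 2, 5}, {0, 3, 5}, {1, 3, 5}, {2, 3, 5}]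
def CL2 : List (Finset (Fin 7)) := [{0, 1, 2}, {0, 1, 3}, {0, 2, 3}, {1, 2, 3}, {0, 1, 4}, {0, 1, 5}, {0, 4, 5}, {1, 4, 5}]
def LL2 : List (Finset (Fin 7)) := [{0, 2, 6}, {1, 2, 6}, {0, 3, 6}, {1, 3, 6}, {2, 3, 6}, {0, 4, 6}, {1, 4, 6}, {0, 5, 6}, {1, 5, 6}, {4, 5, 6}, {0, 1, 6}]
def CL3 : List (Finset (Fin 7)) := [{0, 1, 3}, {0, 2, 3}, {0, 1, 4}, {0, 2, 4}, {0, 3, 4}, {1, 2, 3}, {1, 2, 4}, {1, 3, 4}, {2, 3, 4}, {0, 1, 5}, {0, 2, 5}, {1, 2, 5}, {0, 1, 2}]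
def LL3 : List (Finset (Fin 7)) := [{0, 1, 6}, {0, 2, 6}, {1, 2, 6}, {0, 5, 6}, {1, 5, 6}, {2, 5, 6}]

/-- positions of the first frame -/
def al0 : Perm (Fin 7) := ⟨![0, 1, 2, 3, 6, 4, 5], ![0, 1, 2, 3, 5, 6, 4], by decide, by decide⟩
/-- positions of the third frame -/
def al2 : Perm (Fin 7) := ⟨![6, 0, 1, 2, 3, 4, 5], ![1, 2, 3, 4, 5, 6, 0], by decide, by decide⟩

/-! exchanges of roots: five roots -/

def mi0 (m : ℕ) : ℕ := (sb 2 3 (sb 5 6 (sb 7 8 m)))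
def pf0 (f : ℕ) : ℕ := (sb 5 6 (sb 7 8 (sb 0 1 f)))
def PT0 (x : ℕ) : ℕ := (swp 40 10 0 1 (swp 40 10 7 8 (swp 40 10 5 6 x)))
def mi1 (m : ℕ) : ℕ := (sb 1 2 (sb 4 5 (sb 8 9 m)))
def pf1 (f : ℕ) : ℕ := (sb 4 5 (sb 8 9 (sb 1 2 f)))
def PT1 (x : ℕ) : ℕ := (swp 40 10 1 2 (swp 40 10 8 9 (swp 40 10 4 5 x)))
def mi2 (m : ℕ) : ℕ := (sb 0 1 (sb 5 7 (sb 6 8 m)))
def pf2 (f : ℕ) : ℕ := (sb 5 7 (sb 6 8 (sb 2 3 f)))
def PT2 (x : ℕ) : ℕ := (swp 40 10 2 3 (swp 40 10 6 8 (swp 40 10 5 7 x)))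
def mi3 (m : ℕ) : ℕ := (sb 1 4 (sb 2 5 (sb 3 6 m)))
def pf3 (f : ℕ) : ℕ := (sb 0 7 (sb 1 8 (sb 2 9 f)))
def PT3 (x : ℕ) : ℕ := (swp 40 10 2 9 (swp 40 10 1 8 (swp 40 10 0 7 x)))

theorem RM_s0 {g : Finset (Fin 7) → ℕ} (hg : ∀ Q, g Q ≤ 1) : codeN 10 RM (act (swap 0 1) g) = mi0 (codeN 10 RM g) := by
  rw [code_perm (π := fun j => sx 7 8 (sx 5 6 (sx 2 3 j))) RM (by decide +kernel) g]
  unfold mi0 codeN
  rw [sb_mkN (by norm_num) (by norm_num) fun j => hg _, sb_mkN (by norm_num) (by norm_num) fun j => hg _,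
    sb_mkN (by norm_num) (by norm_num) fun j => hg _]
theorem RA_s0 {g : Finset (Fin 7) → ℕ} (hg : ∀ Q, g Q ≤ 1) : codeN 10 RA (act (swap 0 1) g) = pf0 (codeN 10 RA g) := by
  rw [code_perm (π := fun j => sx 0 1 (sx 7 8 (sx 5 6 j))) RA (by decide +kernel) g]
  unfold pf0 codeN
  rw [sb_mkN (by norm_num) (by norm_num) fun j => hg _, sb_mkN (by norm_num) (by norm_num) fun j => hg _,
    sb_mkN (by norm_num) (by norm_num) fun j => hg _]
theorem RB_s0 {g : Finset (Fin 7) → ℕ} (hg : ∀ Q, g Q ≤ 1) : codeN 10 RB (act (swap 0 1) g) = pf0 (codeN 10 RB g) := by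
  rw [code_perm (π := fun j => sx 0 1 (sx 7 8 (sx 5 6 j))) RB (by decide +kernel) g]
  unfold pf0 codeN
  rw [sb_mkN (by norm_num) (by norm_num) fun j => hg _, sb_mkN (by norm_num) (by norm_num) fun j => hg _,
    sb_mkN (by norm_num) (by norm_num) fun j => hg _]
theorem RM_s1 {g : Finset (Fin 7) → ℕ} (hg : ∀ Q, g Q ≤ 1) : codeN 10 RM (act (swap 1 2) g) = mi1 (codeN 10 RM g) := by
  rw [code_perm (π := fun j => sx 8 9 (sx 4 5 (sx 1 2 j))) RM (by decide +kernel) g]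
  unfold mi1 codeN
  rw [sb_mkN (by norm_num) (by norm_num) fun j => hg _, sb_mkN (by norm_num) (by norm_num) fun j => hg _,
    sb_mkN (by norm_num) (by norm_num) fun j => hg _]
theorem RA_s1 {g : Finset (Fin 7) → ℕ} (hg : ∀ Q, g Q ≤ 1) : codeN 10 RA (act (swap 1 2) g) = pf1 (codeN 10 RA g) := by
  rw [code_perm (π := fun j => sx 1 2 (sx 8 9 (sx 4 5 j))) RA (by decide +kernel) g]
  unfold pf1 codeN
  rw [sb_mkN (by norm_num) (by norm_num) fun j => hg _, sb_mkN (by norm_num) (by norm_num) fun j => hg _,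
    sb_mkN (by norm_num) (by norm_num) fun j => hg _]
theorem RB_s1 {g : Finset (Fin 7) → ℕ} (hg : ∀ Q, g Q ≤ 1) : codeN 10 RB (act (swap 1 2) g) = pf1 (codeN 10 RB g) := by
  rw [code_perm (π := fun j => sx 1 2 (sx 8 9 (sx 4 5 j))) RB (by decide +kernel) g]
  unfold pf1 codeN
  rw [sb_mkN (by norm_num) (by norm_num) fun j => hg _, sb_mkN (by norm_num) (by norm_num) fun j => hg _,
    sb_mkN (by norm_num) (by norm_num) fun j => hg _]
theorem RM_s2 {g : Finset (Fin 7) → ℕ} (hg : ∀ Q, g Q ≤ 1) : codeN 10 RM (act (swap 2 3) g) = mi2 (codeN 10 RM g) := by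
  rw [code_perm (π := fun j => sx 6 8 (sx 5 7 (sx 0 1 j))) RM (by decide +kernel) g]
  unfold mi2 codeN
  rw [sb_mkN (by norm_num) (by norm_num) fun j => hg _, sb_mkN (by norm_num) (by norm_num) fun j => hg _,
    sb_mkN (by norm_num) (by norm_num) fun j => hg _]
theorem RA_s2 {g : Finset (Fin 7) → ℕ} (hg : ∀ Q, g Q ≤ 1) : codeN 10 RA (act (swap 2 3) g) = pf2 (codeN 10 RA g) := by
  rw [code_perm (π := fun j => sx 2 3 (sx 6 8 (sx 5 7 j))) RA (by decide +kernel) g]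
  unfold pf2 codeN
  rw [sb_mkN (by norm_num) (by norm_num) fun j => hg _, sb_mkN (by norm_num) (by norm_num) fun j => hg _,
    sb_mkN (by norm_num) (by norm_num) fun j => hg _]
theorem RB_s2 {g : Finset (Fin 7) → ℕ} (hg : ∀ Q, g Q ≤ 1) : codeN 10 RB (act (swap 2 3) g) = pf2 (codeN 10 RB g) := by
  rw [code_perm (π := fun j => sx 2 3 (sx 6 8 (sx 5 7 j))) RB (by decide +kernel) g]
  unfold pf2 codeN
  rw [sb_mkN (by norm_num) (by norm_num) fun j => hg _, sb_mkN (by norm_num) (by norm_num) fun j => hg _,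
    sb_mkN (by norm_num) (by norm_num) fun j => hg _]
theorem RM_s3 {g : Finset (Fin 7) → ℕ} (hg : ∀ Q, g Q ≤ 1) : codeN 10 RM (act (swap 3 4) g) = mi3 (codeN 10 RM g) := by
  rw [code_perm (π := fun j => sx 3 6 (sx 2 5 (sx 1 4 j))) RM (by decide +kernel) g]
  unfold mi3 codeN
  rw [sb_mkN (by norm_num) (by norm_num) fun j => hg _, sb_mkN (by norm_num) (by norm_num) fun j => hg _,
    sb_mkN (by norm_num) (by norm_num) fun j => hg _]
theorem RA_s3 {g : Finset (Fin 7) → ℕ} (hg : ∀ Q, g Q ≤ 1) : codeN 10 RA (act (swap 3 4) g) = pf3 (codeN 10 RA g) := by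
  rw [code_perm (π := fun j => sx 2 9 (sx 1 8 (sx 0 7 j))) RA (by decide +kernel) g]
  unfold pf3 codeN
  rw [sb_mkN (by norm_num) (by norm_num) fun j => hg _, sb_mkN (by norm_num) (by norm_num) fun j => hg _,
    sb_mkN (by norm_num) (by norm_num) fun j => hg _]
theorem RB_s3 {g : Finset (Fin 7) → ℕ} (hg : ∀ Q, g Q ≤ 1) : codeN 10 RB (act (swap 3 4) g) = pf3 (codeN 10 RB g) := by
  rw [code_perm (π := fun j => sx 2 9 (sx 1 8 (sx 0 7 j))) RB (by decide +kernel) g]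
  unfold pf3 codeN
  rw [sb_mkN (by norm_num) (by norm_num) fun j => hg _, sb_mkN (by norm_num) (by norm_num) fun j => hg _,
    sb_mkN (by norm_num) (by norm_num) fun j => hg _]

theorem RM_s5 (g : Finset (Fin 7) → ℕ) : codeN 10 RM (act (swap 5 6) g) = codeN 10 RM g :=
  code_perm (π := fun j => j) RM (by decide +kernel) g
theorem RA_s5 (g : Finset (Fin 7) → ℕ) : codeN 10 RA (act (swap 5 6) g) = codeN 10 RB g :=
  code_perm (π := fun j => j) RB (by decide +kernel) g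
theorem RB_s5 (g : Finset (Fin 7) → ℕ) : codeN 10 RB (act (swap 5 6) g) = codeN 10 RA g :=
  code_perm (π := fun j => j) RA (by decide +kernel) g

/-! exchanges of roots: three roots -/

def pg0 (f : ℕ) : ℕ := (sb 1 5 (sb 3 6 (sb 4 7 f)))
def PG0 (x : ℕ) : ℕ := (swp 40 9 4 7 (swp 40 9 3 6 (swp 40 9 1 5 x)))
def pg1 (f : ℕ) : ℕ := (sb 0 1 (sb 2 3 (sb 7 8 f)))
def PG1 (x : ℕ) : ℕ := (swp 40 9 7 8 (swp 40 9 2 3 (swp 40 9 0 1 x)))
def pg3 (f : ℕ) : ℕ := (sb 0 2 (sb 1 3 (sb 5 6 f)))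
def PG3 (x : ℕ) : ℕ := (swp 40 9 5 6 (swp 40 9 1 3 (swp 40 9 0 2 x)))

theorem Q1_s0 {g : Finset (Fin 7) → ℕ} (hg : ∀ Q, g Q ≤ 1) : codeN 9 Q1 (act t01 g) = pg0 (codeN 9 Q1 g) := by
  rw [code_perm (π := fun j => sx 4 7 (sx 3 6 (sx 1 5 j))) Q1 (by decide +kernel) g]
  unfold pg0 codeN
  rw [sb_mkN (by norm_num) (by norm_num) fun j => hg _, sb_mkN (by norm_num) (by norm_num) fun j => hg _,
    sb_mkN (by norm_num) (by norm_num) fun j => hg _]
theorem Q2_s0 {g : Finset (Fin 7) → ℕ} (hg : ∀ Q, g Q ≤ 1) : codeN 9 Q2 (act t01 g) = pg0 (codeN 9 Q2 g) := by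
  rw [code_perm (π := fun j => sx 4 7 (sx 3 6 (sx 1 5 j))) Q2 (by decide +kernel) g]
  unfold pg0 codeN
  rw [sb_mkN (by norm_num) (by norm_num) fun j => hg _, sb_mkN (by norm_num) (by norm_num) fun j => hg _,
    sb_mkN (by norm_num) (by norm_num) fun j => hg _]
theorem Q1_s1 {g : Finset (Fin 7) → ℕ} (hg : ∀ Q, g Q ≤ 1) : codeN 9 Q1 (act t12 g) = pg1 (codeN 9 Q1 g) := by
  rw [code_perm (π := fun j => sx 7 8 (sx 2 3 (sx 0 1 j))) Q1 (by decide +kernel) g]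
  unfold pg1 codeN
  rw [sb_mkN (by norm_num) (by norm_num) fun j => hg _, sb_mkN (by norm_num) (by norm_num) fun j => hg _,
    sb_mkN (by norm_num) (by norm_num) fun j => hg _]
theorem Q2_s1 {g : Finset (Fin 7) → ℕ} (hg : ∀ Q, g Q ≤ 1) : codeN 9 Q2 (act t12 g) = pg1 (codeN 9 Q2 g) := by
  rw [code_perm (π := fun j => sx 7 8 (sx 2 3 (sx 0 1 j))) Q2 (by decide +kernel) g]
  unfold pg1 codeN
  rw [sb_mkN (by norm_num) (by norm_num) fun j => hg _, sb_mkN (by norm_num) (by norm_num) fun j => hg _,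
    sb_mkN (by norm_num) (by norm_num) fun j => hg _]
theorem Q1_s3 {g : Finset (Fin 7) → ℕ} (hg : ∀ Q, g Q ≤ 1) : codeN 9 Q1 (act t34 g) = pg3 (codeN 9 Q1 g) := by
  rw [code_perm (π := fun j => sx 5 6 (sx 1 3 (sx 0 2 j))) Q1 (by decide +kernel) g]
  unfold pg3 codeN
  rw [sb_mkN (by norm_num) (by norm_num) fun j => hg _, sb_mkN (by norm_num) (by norm_num) fun j => hg _,
    sb_mkN (by norm_num) (by norm_num) fun j => hg _]
theorem Q2_s3 (g : Finset (Fin 7) → ℕ) : codeN 9 Q2 (act t34 g) = codeN 9 Q2 g :=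
  code_perm (π := fun j => j) Q2 (by decide +kernel) g
theorem Q2_s5 {g : Finset (Fin 7) → ℕ} (hg : ∀ Q, g Q ≤ 1) : codeN 9 Q2 (act t56 g) = pg3 (codeN 9 Q2 g) := by
  rw [code_perm (π := fun j => sx 5 6 (sx 1 3 (sx 0 2 j))) Q2 (by decide +kernel) g]
  unfold pg3 codeN
  rw [sb_mkN (by norm_num) (by norm_num) fun j => hg _, sb_mkN (by norm_num) (by norm_num) fun j => hg _,
    sb_mkN (by norm_num) (by norm_num) fun j => hg _]
theorem Q1_s5 (g : Finset (Fin 7) → ℕ) : codeN 9 Q1 (act t56 g) = codeN 9 Q1 g :=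
  code_perm (π := fun j => j) Q1 (by decide +kernel) g
theorem Q1_s9 (g : Finset (Fin 7) → ℕ) : codeN 9 Q1 (act tD g) = codeN 9 Q2 g :=
  code_perm (π := fun j => j) Q2 (by decide +kernel) g
theorem Q2_s9 (g : Finset (Fin 7) → ℕ) : codeN 9 Q2 (act tD g) = codeN 9 Q1 g :=
  code_perm (π := fun j => j) Q1 (by decide +kernel) g
theorem r_s0 (g : Finset (Fin 7) → ℕ) : act t01 g {0, 1, 2} = g {0, 1, 2} := by
  unfold act
  rw [show ({0, 1, 2} : Finset (Fin 7)).image t01 = {0, 1, 2} by decide +kernel]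
theorem r_s1 (g : Finset (Fin 7) → ℕ) : act t12 g {0, 1, 2} = g {0, 1, 2} := by
  unfold act
  rw [show ({0, 1, 2} : Finset (Fin 7)).image t12 = {0, 1, 2} by decide +kernel]
theorem r_s3 (g : Finset (Fin 7) → ℕ) : act t34 g {0, 1, 2} = g {0, 1, 2} := by
  unfold act
  rw [show ({0, 1, 2} : Finset (Fin 7)).image t34 = {0, 1, 2} by decide +kernel]
theorem r_s5 (g : Finset (Fin 7) → ℕ) : act t56 g {0, 1, 2} = g {0, 1, 2} := by
  unfold act
  rw [show ({0, 1, 2} : Finset (Fin 7)).image t56 = {0, 1, 2} by decide +kernel]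
theorem r_s9 (g : Finset (Fin 7) → ℕ) : act tD g {0, 1, 2} = g {0, 1, 2} := by
  unfold act
  rw [show ({0, 1, 2} : Finset (Fin 7)).image tD = {0, 1, 2} by decide +kernel]

/-! exchanges of entries -/

/-- an exchange of the flags -/
def PTs (n : ℕ) (PT pf : ℕ → ℕ) : Prop := (∀ F : ℕ → ℕ, (∀ i, F i < 2 ^ 40) → PT (enc 40 n F) = enc 40 n (fun f => F (pf f))) ∧
  ∀ f < 2 ^ n, pf f < 2 ^ n

theorem swpn {n p q : ℕ} (h : p < q) (hq : q < n) {F : ℕ → ℕ} (hF : ∀ i, F i < 2 ^ 40) :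
    swp 40 n p q (enc 40 n F) = enc 40 n (fun i => F (sb p q i)) := swp_enc (by norm_num) h hq fun i _ => hF i

theorem PTs0 : PTs 10 PT0 pf0 := by
  refine ⟨fun F hF => ?_, fun f hf => ?_⟩
  · unfold PT0
    rw [swpn (by norm_num) (by norm_num) hF, swpn (by norm_num) (by norm_num) fun i => hF _,
      swpn (by norm_num) (by norm_num) fun i => hF _]
    rfl
  · unfold pf0
    exact sb_lt (by norm_num) (by norm_num) (sb_lt (by norm_num) (by norm_num) (sb_lt (by norm_num) (by norm_num) hf))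
theorem PTs1 : PTs 10 PT1 pf1 := by
  refine ⟨fun F hF => ?_, fun f hf => ?_⟩
  · unfold PT1
    rw [swpn (by norm_num) (by norm_num) hF, swpn (by norm_num) (by norm_num) fun i => hF _,
      swpn (by norm_num) (by norm_num) fun i => hF _]
    rfl
  · unfold pf1
    exact sb_lt (by norm_num) (by norm_num) (sb_lt (by norm_num) (by norm_num) (sb_lt (by norm_num) (by norm_num) hf))
theorem PTs2 : PTs 10 PT2 pf2 := by
  refine ⟨fun F hF => ?_, fun f hf => ?_⟩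
  · unfold PT2
    rw [swpn (by norm_num) (by norm_num) hF, swpn (by norm_num) (by norm_num) fun i => hF _,
      swpn (by norm_num) (by norm_num) fun i => hF _]
    rfl
  · unfold pf2
    exact sb_lt (by norm_num) (by norm_num) (sb_lt (by norm_num) (by norm_num) (sb_lt (by norm_num) (by norm_num) hf))
theorem PTs3 : PTs 10 PT3 pf3 := by
  refine ⟨fun F hF => ?_, fun f hf => ?_⟩
  · unfold PT3
    rw [swpn (by norm_num) (by norm_num) hF, swpn (by norm_num) (by norm_num) fun i => hF _,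
      swpn (by norm_num) (by norm_num) fun i => hF _]
    rfl
  · unfold pf3
    exact sb_lt (by norm_num) (by norm_num) (sb_lt (by norm_num) (by norm_num) (sb_lt (by norm_num) (by norm_num) hf))
theorem PGs0 : PTs 9 PG0 pg0 := by
  refine ⟨fun F hF => ?_, fun f hf => ?_⟩
  · unfold PG0
    rw [swpn (by norm_num) (by norm_num) hF, swpn (by norm_num) (by norm_num) fun i => hF _,
      swpn (by norm_num) (by norm_num) fun i => hF _]
    rfl
  · unfold pg0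
    exact sb_lt (by norm_num) (by norm_num) (sb_lt (by norm_num) (by norm_num) (sb_lt (by norm_num) (by norm_num) hf))
theorem PGs1 : PTs 9 PG1 pg1 := by
  refine ⟨fun F hF => ?_, fun f hf => ?_⟩
  · unfold PG1
    rw [swpn (by norm_num) (by norm_num) hF, swpn (by norm_num) (by norm_num) fun i => hF _,
      swpn (by norm_num) (by norm_num) fun i => hF _]
    rfl
  · unfold pg1
    exact sb_lt (by norm_num) (by norm_num) (sb_lt (by norm_num) (by norm_num) (sb_lt (by norm_num) (by norm_num) hf))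
theorem PGs3 : PTs 9 PG3 pg3 := by
  refine ⟨fun F hF => ?_, fun f hf => ?_⟩
  · unfold PG3
    rw [swpn (by norm_num) (by norm_num) hF, swpn (by norm_num) (by norm_num) fun i => hF _,
      swpn (by norm_num) (by norm_num) fun i => hF _]
    rfl
  · unfold pg3
    exact sb_lt (by norm_num) (by norm_num) (sb_lt (by norm_num) (by norm_num) (sb_lt (by norm_num) (by norm_num) hf))

end

end Pool.Agent.H68.F7
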