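import Pool.Agent.H68.F7.WDens

/-! Pairs of equal vertices: the squares of special columns. -/

set_option autoImplicit false
set_option maxRecDepth 100000
set_option maxHeartbeats 4000000
open Finset Equiv

namespace Pool.Agent.H68.F7

noncomputable section

open Pool.Agent.Y435.T7 (bt al)
open Pool.Agent.N443 (osum osum_eq mkN mkN_congr mkN_lt bt_mkN codeN act Cl Kp Inv7 Psi gv gv_act sum7)

variable {V : Type} [Fintype V] [DecidableEq V] {κ : ℕ}

open Classical in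
/-- the edges as a function -/
def ge (H : Finset V → Prop) (a b c : V) : ℕ := if H {a, b, c} then 1 else 0

/-- weighted degree -/
def LW (w : V → ℝ) (H : Finset V → Prop) (x : V) : ℝ := ∑ d, ∑ e, w d * w e * (ge H x d e : ℝ)
/-- weighted codegree -/
def CW (w : V → ℝ) (H : Finset V → Prop) (x y : V) : ℝ := ∑ d, w d * (ge H x y d : ℝ)

omit [Fintype V] in
theorem gv_ge {H : Finset V → Prop} {u : Fin 7 → V} {Q : Finset (Fin 7)} {a b c : V} (h : Q.image u = {a, b, c}) :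
    gv H u Q = ge H a b c := by
  unfold gv ge
  rw [h]

omit [Fintype V] in
theorem ge_zero {H : Finset V → Prop} (h : Free κ H) {a b c : V} (hab : a = b ∨ a = c ∨ b = c) : ge H a b c = 0 := by
  unfold ge
  rw [if_neg]
  intro hH
  have h3 := h.c3 _ hH
  have : ({a, b, c} : Finset V).card ≤ 2 := by
    rcases hab with rfl | rfl | rfl
    · rw [insert_eq_of_mem (mem_insert_self _ _)]; exact card_le_two
    · rw [insert_eq_of_mem (by simp)]; exact card_le_two
    · rw [show ({a, b, b} : Finset V) = {a, b} by simp]; exact card_le_two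
  omega

omit [Fintype V] in
theorem ge_one {H : Finset V → Prop} {a b c : V} (h : ge H a b c = 1) : H {a, b, c} := by
  unfold ge at h
  by_contra hh
  rw [if_neg hh] at h
  exact absurd h (by norm_num)

omit [Fintype V] in
/-- four triples of four vertices -/
theorem no_four {H : Finset V → Prop} (h : Free 4 H) {x y d e : V} (h1 : ge H x y d = 1) (h2 : ge H x y e = 1)
    (h3 : ge H x d e = 1) (h4 : ge H y d e = 1) : False := by
  have d1 : x ≠ y := fun hh => by rw [ge_zero h (Or.inl hh)] at h1; exact absurd h1 (by norm_num)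
  have d2 : x ≠ d := fun hh => by rw [ge_zero h (Or.inr (Or.inl hh))] at h1; exact absurd h1 (by norm_num)
  have d3 : y ≠ d := fun hh => by rw [ge_zero h (Or.inr (Or.inr hh))] at h1; exact absurd h1 (by norm_num)
  have d4 : x ≠ e := fun hh => by rw [ge_zero h (Or.inr (Or.inl hh))] at h2; exact absurd h2 (by norm_num)
  have d5 : y ≠ e := fun hh => by rw [ge_zero h (Or.inr (Or.inr hh))] at h2; exact absurd h2 (by norm_num)
  have d6 : d ≠ e := fun hh => by rw [ge_zero h (Or.inr (Or.inr hh))] at h3; exact absurd h3 (by norm_num)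
  have hc : ({x, y, d, e} : Finset V).card = 4 := by
    rw [card_insert_of_notMem (by simp [d1, d2, d4]), card_insert_of_notMem (by simp [d3, d5]), card_insert_of_notMem (by simp [d6]),
      card_singleton]
  obtain ⟨Q, hQ, hn⟩ := h.f5 _ hc
  rw [mem_powersetCard] at hQ
  obtain ⟨hs, hc3⟩ := hQ
  -- the missing element
  have hex : ∃ z ∈ ({x, y, d, e} : Finset V), z ∉ Q := by
    by_contra hcon
    push Not at hcon
    have : ({x, y, d, e} : Finset V) ⊆ Q := fun z hz => hcon z hz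
    have := card_le_card this
    omega
  obtain ⟨z, hz, hzQ⟩ := hex
  have hQe : Q = ({x, y, d, e} : Finset V).erase z := by
    refine eq_of_subset_of_card_le (fun t ht => mem_erase.mpr ⟨fun hh => hzQ (hh ▸ ht), hs ht⟩) ?_
    rw [card_erase_of_mem hz, hc, hc3]
  rw [mem_insert, mem_insert, mem_insert, mem_singleton] at hz
  rcases hz with rfl | rfl | rfl | rfl
  · apply hn; rw [hQe, show ({z, y, d, e} : Finset V).erase z = {y, d, e} by
      rw [erase_insert (by simp [d1, d2, d4])]]; exact ge_one h4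
  · apply hn; rw [hQe, show ({x, z, d, e} : Finset V).erase z = {x, d, e} by
      ext t; simp only [mem_erase, mem_insert, mem_singleton]
      constructor
      · rintro ⟨a, b⟩; tauto
      · rintro (rfl | rfl | rfl)
        · exact ⟨d1, by tauto⟩
        · exact ⟨Ne.symm d3, by tauto⟩
        · exact ⟨Ne.symm d5, by tauto⟩]; exact ge_one h3
  · apply hn; rw [hQe, show ({x, y, z, e} : Finset V).erase z = {x, y, e} by
      ext t; simp only [mem_erase, mem_insert, mem_singleton]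
      constructor
      · rintro ⟨a, b⟩; tauto
      · rintro (rfl | rfl | rfl)
        · exact ⟨d2, by tauto⟩
        · exact ⟨d3, by tauto⟩
        · exact ⟨Ne.symm d6, by tauto⟩]; exact ge_one h2
  · apply hn; rw [hQe, show ({x, y, d, z} : Finset V).erase z = {x, y, d} by
      ext t; simp only [mem_erase, mem_insert, mem_singleton]
      constructor
      · rintro ⟨a, b⟩; tauto
      · rintro (rfl | rfl | rfl)
        · exact ⟨d4, by tauto⟩
        · exact ⟨d5, by tauto⟩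
        · exact ⟨d6, by tauto⟩]; exact ge_one h1

/-- the columns are linear on the flags with two equal roots -/
structure SpC (κ : ℕ) (a : ℕ → ℤ) (α β γ δ : ℤ) (z1 z2 p1 q1 p2 q2 p3 q3 r : ℕ) : Prop where
  lin : ∀ f < 512, bt z1 f = 0 → bt z2 f = 0 → bt p1 f = bt q1 f → bt p2 f = bt q2 f → bt p3 f = bt q3 f →
    (κ = 4 → ¬ (bt p1 f = 1 ∧ bt p2 f = 1 ∧ bt p3 f = 1 ∧ bt r f = 1)) →
    a f = α + β * (bt p3 f : ℤ) + γ * ((bt p1 f : ℤ) + (bt p2 f : ℤ)) + δ * (bt r f : ℤ)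

variable {F5 F3 : ℕ → ℕ → ℕ → ℕ} {K5 : ℕ → ℕ} {a5 : ℕ → ℕ → ℕ → ℤ} {K3 : ℕ → ℕ} {a3 : ℕ → ℕ → ℕ → ℤ} {cC B5 B3 S : ℕ}

/-- the value of a special column at a pair of equal vertices -/
def yv (w : V → ℝ) (H : Finset V → Prop) (α β γ δ : ℤ) (x y : V) : ℝ :=
  α + β * LW w H x + 2 * γ * CW w H x y + δ * LW w H y

omit [DecidableEq V] in
theorem sum_w2 {w : V → ℝ} (h1 : ∑ v, w v = 1) (c : ℝ) : ∑ d, ∑ e, w d * w e * c = c := by
  have : ∀ d, ∑ e, w d * w e * c = w d * c := fun d => by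
    rw [← sum_mul, ← mul_sum, h1, mul_one]
  rw [sum_congr rfl fun d _ => this d, ← sum_mul, h1, one_mul]

theorem sum_yv {w : V → ℝ} (h1 : ∑ v, w v = 1) (H : Finset V → Prop) (α β γ δ : ℤ) (x y : V) :
    ∑ d, ∑ e, w d * w e * ((α + β * (ge H x d e : ℤ) + γ * ((ge H x y d : ℤ) + (ge H x y e : ℤ)) + δ * (ge H y d e : ℤ) : ℤ) : ℝ)
      = yv w H α β γ δ x y := by
  unfold yv
  have e1 : ∀ d e, w d * w e * ((α + β * (ge H x d e : ℤ) + γ * ((ge H x y d : ℤ) + (ge H x y e : ℤ)) + δ * (ge H y d e : ℤ) : ℤ) : ℝ)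
      = w d * w e * (α : ℝ) + β * (w d * w e * (ge H x d e : ℝ)) + γ * (w d * (ge H x y d : ℝ) * w e) + γ * (w d * (w e * (ge H x y e : ℝ)))
        + δ * (w d * w e * (ge H y d e : ℝ)) := by
    intro d e
    push_cast
    ring
  simp only [e1, sum_add_distrib]
  rw [sum_w2 h1]
  have e2 : ∑ d, ∑ e, (β : ℝ) * (w d * w e * (ge H x d e : ℝ)) = β * LW w H x := by
    unfold LW
    rw [mul_sum]
    exact sum_congr rfl fun d _ => by rw [mul_sum]
  have e3 : ∑ d, ∑ e, (δ : ℝ) * (w d * w e * (ge H y d e : ℝ)) = δ * LW w H y := by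
    unfold LW
    rw [mul_sum]
    exact sum_congr rfl fun d _ => by rw [mul_sum]
  have e4 : ∑ d, ∑ e, (γ : ℝ) * (w d * (ge H x y d : ℝ) * w e) = γ * CW w H x y := by
    unfold CW
    rw [mul_sum]
    refine sum_congr rfl fun d _ => ?_
    rw [← mul_sum, ← mul_sum, h1, mul_one]
  have e5 : ∑ d, ∑ e, (γ : ℝ) * (w d * (w e * (ge H x y e : ℝ))) = γ * CW w H x y := by
    unfold CW
    rw [sum_comm, mul_sum]
    refine sum_congr rfl fun e _ => ?_
    rw [← mul_sum, ← sum_mul, h1, one_mul]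
  rw [e2, e3, e4, e5]
  ring

omit [Fintype V] in
/-- the value of a column with the nine triples of a tuple of five vertices -/
theorem col_lin {k : ℕ} {α β γ δ : ℤ} {z1 z2 p1 q1 p2 q2 p3 q3 r : ℕ}
    (hS : SpC κ (fun f => a3 0 f k) α β γ δ z1 z2 p1 q1 p2 q2 p3 q3 r)
    (hi : z1 < 9 ∧ z2 < 9 ∧ p1 < 9 ∧ q1 < 9 ∧ p2 < 9 ∧ q2 < 9 ∧ p3 < 9 ∧ q3 < 9 ∧ r < 9)
    {H : Finset V → Prop} (h : Free κ H) {u : Fin 7 → V} {x y d e : V}
    (i1 : (Q1.getD z1 ∅).image u = {x, x, d}) (i2 : (Q1.getD z2 ∅).image u = {x, x, e})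
    (i3 : (Q1.getD p1 ∅).image u = {x, y, d}) (i4 : (Q1.getD q1 ∅).image u = {x, y, d})
    (i5 : (Q1.getD p2 ∅).image u = {x, y, e}) (i6 : (Q1.getD q2 ∅).image u = {x, y, e})
    (i7 : (Q1.getD p3 ∅).image u = {x, d, e}) (i8 : (Q1.getD q3 ∅).image u = {x, d, e})
    (i9 : (Q1.getD r ∅).image u = {y, d, e}) :
    a3 0 (codeN 9 Q1 (gv H u)) k
      = α + β * (ge H x d e : ℤ) + γ * ((ge H x y d : ℤ) + (ge H x y e : ℤ)) + δ * (ge H y d e : ℤ) := by
  have hb : ∀ Q, gv H u Q ≤ 1 := fun Q => by unfold gv; split_ifs <;> norm_num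
  obtain ⟨l1, l2, l3, l4, l5, l6, l7, l8, l9⟩ := hi
  have b1 : bt z1 (codeN 9 Q1 (gv H u)) = 0 := by
    rw [show bt z1 (codeN 9 Q1 (gv H u)) = gv H u (Q1.getD z1 ∅) from bt_mkN l1 fun j => hb _, gv_ge i1,
      ge_zero h (Or.inl rfl)]
  have b2 : bt z2 (codeN 9 Q1 (gv H u)) = 0 := by
    rw [show bt z2 (codeN 9 Q1 (gv H u)) = gv H u (Q1.getD z2 ∅) from bt_mkN l2 fun j => hb _, gv_ge i2,
      ge_zero h (Or.inl rfl)]
  have b3 : bt p1 (codeN 9 Q1 (gv H u)) = ge H x y d := by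
    rw [show bt p1 (codeN 9 Q1 (gv H u)) = gv H u (Q1.getD p1 ∅) from bt_mkN l3 fun j => hb _, gv_ge i3]
  have b4 : bt q1 (codeN 9 Q1 (gv H u)) = ge H x y d := by
    rw [show bt q1 (codeN 9 Q1 (gv H u)) = gv H u (Q1.getD q1 ∅) from bt_mkN l4 fun j => hb _, gv_ge i4]
  have b5 : bt p2 (codeN 9 Q1 (gv H u)) = ge H x y e := by
    rw [show bt p2 (codeN 9 Q1 (gv H u)) = gv H u (Q1.getD p2 ∅) from bt_mkN l5 fun j => hb _, gv_ge i5]
  have b6 : bt q2 (codeN 9 Q1 (gv H u)) = ge H x y e := by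
    rw [show bt q2 (codeN 9 Q1 (gv H u)) = gv H u (Q1.getD q2 ∅) from bt_mkN l6 fun j => hb _, gv_ge i6]
  have b7 : bt p3 (codeN 9 Q1 (gv H u)) = ge H x d e := by
    rw [show bt p3 (codeN 9 Q1 (gv H u)) = gv H u (Q1.getD p3 ∅) from bt_mkN l7 fun j => hb _, gv_ge i7]
  have b8 : bt q3 (codeN 9 Q1 (gv H u)) = ge H x d e := by
    rw [show bt q3 (codeN 9 Q1 (gv H u)) = gv H u (Q1.getD q3 ∅) from bt_mkN l8 fun j => hb _, gv_ge i8]
  have b9 : bt r (codeN 9 Q1 (gv H u)) = ge H y d e := by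
    rw [show bt r (codeN 9 Q1 (gv H u)) = gv H u (Q1.getD r ∅) from bt_mkN l9 fun j => hb _, gv_ge i9]
  have hlt : codeN 9 Q1 (gv H u) < 512 := mkN_lt fun j => hb _
  have := hS.lin _ hlt b1 b2 (b3.trans b4.symm) (b5.trans b6.symm) (b7.trans b8.symm) (fun h4 hh => by
    subst h4
    rw [b3, b5, b7, b9] at hh
    exact no_four h hh.1 hh.2.1 hh.2.2.1 hh.2.2.2)
  rw [b3, b5, b7, b9] at this
  exact this

omit [Fintype V] in
theorem rt_zero {H : Finset V → Prop} (h : Free κ H) {a b c : V} (hab : a = b ∨ a = c ∨ b = c) : rt H a b c = 0 := by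
  unfold rt
  rw [gv_ge (a := a) (b := b) (c := c) (by rw [image_insert, image_insert, image_singleton]; simp), ge_zero h hab]

theorem yy01 {H : Finset V → Prop} (h : Free κ H) {w : V → ℝ} (h1 : ∑ v, w v = 1) {k : ℕ} {α β γ δ : ℤ}
    (hS : SpC κ (fun f => a3 0 f k) α β γ δ 0 2 1 5 3 6 4 7 8) (x y : V) :
    YY a3 w H k x x y = yv w H α β γ δ x y := by
  unfold YY
  rw [rt_zero h (Or.inl rfl), ← sum_yv h1]
  refine sum_congr rfl fun d _ => sum_congr rfl fun e _ => ?_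
  rw [col_lin hS (by norm_num) h (x := x) (y := y) (d := d) (e := e)] <;>
  · show ((_ : Finset (Fin 7)).image _) = _
    simp only [Q1, List.getD_cons_zero, List.getD_cons_succ]
    rw [image_insert, image_insert, image_singleton]
    ext t
    simp
    try tauto

theorem yy02 {H : Finset V → Prop} (h : Free κ H) {w : V → ℝ} (h1 : ∑ v, w v = 1) {k : ℕ} {α β γ δ : ℤ}
    (hS : SpC κ (fun f => a3 0 f k) α β γ δ 1 3 0 5 2 6 4 8 7) (x y : V) :
    YY a3 w H k x y x = yv w H α β γ δ x y := by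
  unfold YY
  rw [rt_zero h (Or.inr (Or.inl rfl)), ← sum_yv h1]
  refine sum_congr rfl fun d _ => sum_congr rfl fun e _ => ?_
  rw [col_lin hS (by norm_num) h (x := x) (y := y) (d := d) (e := e)] <;>
  · show ((_ : Finset (Fin 7)).image _) = _
    simp only [Q1, List.getD_cons_zero, List.getD_cons_succ]
    rw [image_insert, image_insert, image_singleton]
    ext t
    simp
    try tauto

theorem yy12 {H : Finset V → Prop} (h : Free κ H) {w : V → ℝ} (h1 : ∑ v, w v = 1) {k : ℕ} {α β γ δ : ℤ}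
    (hS : SpC κ (fun f => a3 0 f k) α β γ δ 5 6 0 1 2 3 7 8 4) (x y : V) :
    YY a3 w H k y x x = yv w H α β γ δ x y := by
  unfold YY
  rw [rt_zero h (Or.inr (Or.inr rfl)), ← sum_yv h1]
  refine sum_congr rfl fun d _ => sum_congr rfl fun e _ => ?_
  rw [col_lin hS (by norm_num) h (x := x) (y := y) (d := d) (e := e)] <;>
  · show ((_ : Finset (Fin 7)).image _) = _
    simp only [Q1, List.getD_cons_zero, List.getD_cons_succ]
    rw [image_insert, image_insert, image_singleton]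
    ext t
    simp
    try tauto

/-- the sum over the triples of vertices -/
theorem rho_eq {w : V → ℝ} (h1 : ∑ v, w v = 1) (H : Finset V → Prop) : rho w H = ∑ x, w x * LW w H x := by
  unfold rho EW LW
  rw [sum7]
  refine sum_congr rfl fun a _ => ?_
  rw [mul_sum]
  refine sum_congr rfl fun b _ => ?_
  rw [mul_sum]
  refine sum_congr rfl fun c _ => ?_
  have e : ∀ d e x y, Wt w ![a, b, c, d, e, x, y] * (gv H ![a, b, c, d, e, x, y] {0, 1, 2} : ℝ)
      = w a * (w b * w c * (ge H a b c : ℝ)) * w d * w e * w x * w y := fun d e x y => by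
    rw [gv_ge (a := a) (b := b) (c := c) (by rw [image_insert, image_insert, image_singleton]; simp), Wt_vec]
    ring
  simp only [e, ← mul_sum, h1, mul_one]

omit [DecidableEq V] in
theorem sq_le {w : V → ℝ} (hw : ∀ v, 0 ≤ w v) (h1 : ∑ v, w v = 1) (f : V → ℝ) : (∑ v, w v * f v) ^ 2 ≤ ∑ v, w v * f v ^ 2 := by
  set m := ∑ v, w v * f v with hm
  have h0 : 0 ≤ ∑ v, w v * (f v - m) ^ 2 := sum_nonneg fun v _ => mul_nonneg (hw v) (sq_nonneg _)
  have e : ∀ c : ℝ, ∑ v, w v * (f v - c) ^ 2 = ∑ v, w v * f v ^ 2 - 2 * c * ∑ v, w v * f v + c ^ 2 * ∑ v, w v := by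
    intro c
    rw [mul_sum, mul_sum, ← sum_sub_distrib, ← sum_add_distrib]
    exact sum_congr rfl fun v _ => by ring
  rw [e, h1, ← hm] at h0
  nlinarith

theorem sum_y {w : V → ℝ} (h1 : ∑ v, w v = 1) (H : Finset V → Prop) (α β γ δ : ℤ) (x : V) :
    ∑ y, w y * yv w H α β γ δ x y = α + (β + 2 * γ) * LW w H x + δ * rho w H := by
  rw [rho_eq h1]
  unfold yv
  have e : ∀ y, w y * ((α : ℝ) + β * LW w H x + 2 * γ * CW w H x y + δ * LW w H y)
      = w y * ((α : ℝ) + β * LW w H x) + 2 * γ * (w y * CW w H x y) + δ * (w y * LW w H y) := fun y => by ring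
  simp only [e, sum_add_distrib]
  rw [← sum_mul, h1, ← mul_sum, ← mul_sum]
  have e2 : ∑ y, w y * CW w H x y = LW w H x := by
    unfold CW LW
    refine sum_congr rfl fun y _ => ?_
    rw [mul_sum]
    exact sum_congr rfl fun z _ => by ring
  rw [e2]
  ring

/-- the squares of three columns at the pairs of equal vertices -/
theorem diag_ge {H : Finset V → Prop} (h : Free κ H) {w : V → ℝ} (hw : ∀ v, 0 ≤ w v) (h1 : ∑ v, w v = 1)
    (hL : ∀ x, w x ≠ 0 → LW w H x = rho w H) {α β γ δ : ℤ} {k0 k1 k2 : ℕ}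
    (hk : k0 < K3 0 ∧ k1 < K3 0 ∧ k2 < K3 0 ∧ k0 ≠ k1 ∧ k0 ≠ k2 ∧ k1 ≠ k2)
    (h01 : SpC κ (fun f => a3 0 f k0) α β γ δ 0 2 1 5 3 6 4 7 8)
    (h02 : SpC κ (fun f => a3 0 f k1) α β γ δ 1 3 0 5 2 6 4 8 7)
    (h12 : SpC κ (fun f => a3 0 f k2) α β γ δ 5 6 0 1 2 3 7 8 4) :
    3 * (∑ v, w v ^ 2) * (α + (β + 2 * γ + δ) * rho w H) ^ 2 ≤ ∑ a, ∑ b, ∑ c, w a * w b * w c *
      ∑ k ∈ range (K3 (rt H a b c)), YY a3 w H k a b c ^ 2 := by
  obtain ⟨l0, l1, l2, n01, n02, n12⟩ := hk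
  have hpt : ∀ a b c, (if a = b then YY a3 w H k0 a b c ^ 2 else 0) + (if a = c then YY a3 w H k1 a b c ^ 2 else 0)
      + (if b = c then YY a3 w H k2 a b c ^ 2 else 0) ≤ ∑ k ∈ range (K3 (rt H a b c)), YY a3 w H k a b c ^ 2 := by
    intro a b c
    by_cases hab : a = b ∨ a = c ∨ b = c
    · rw [rt_zero h hab]
      have hsub : ({k0, k1, k2} : Finset ℕ) ⊆ range (K3 0) := by
        intro t ht
        rw [mem_insert, mem_insert, mem_singleton] at ht
        rcases ht with rfl | rfl | rfl <;> exact mem_range.mpr (by assumption)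
      have := sum_le_sum_of_subset_of_nonneg (f := fun k => YY a3 w H k a b c ^ 2) hsub fun k _ _ => sq_nonneg _
      refine le_trans ?_ this
      rw [sum_insert (by simp [n01, n02]), sum_insert (by simp [n12]), sum_singleton]
      have q0 := sq_nonneg (YY a3 w H k0 a b c)
      have q1 := sq_nonneg (YY a3 w H k1 a b c)
      have q2 := sq_nonneg (YY a3 w H k2 a b c)
      split_ifs <;> linarith
    · push Not at hab
      rw [if_neg hab.1, if_neg hab.2.1, if_neg hab.2.2, add_zero, add_zero]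
      exact sum_nonneg fun k _ => sq_nonneg _
  have hsum : ∑ a, ∑ b, ∑ c, w a * w b * w c * ((if a = b then YY a3 w H k0 a b c ^ 2 else 0)
      + (if a = c then YY a3 w H k1 a b c ^ 2 else 0) + (if b = c then YY a3 w H k2 a b c ^ 2 else 0))
      ≤ ∑ a, ∑ b, ∑ c, w a * w b * w c * ∑ k ∈ range (K3 (rt H a b c)), YY a3 w H k a b c ^ 2 :=
    sum_le_sum fun a _ => sum_le_sum fun b _ => sum_le_sum fun c _ =>
      mul_le_mul_of_nonneg_left (hpt a b c) (mul_nonneg (mul_nonneg (hw a) (hw b)) (hw c))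
  refine le_trans ?_ hsum
  simp only [mul_add, sum_add_distrib, mul_ite, mul_zero]
  have hval : ∀ x, w x ^ 2 * (α + (β + 2 * γ + δ) * rho w H) ^ 2 ≤ w x ^ 2 * ∑ y, w y * yv w H α β γ δ x y ^ 2 := by
    intro x
    by_cases hx : w x = 0
    · rw [hx]; simp
    · refine mul_le_mul_of_nonneg_left ?_ (sq_nonneg _)
      have := sq_le hw h1 (fun y => yv w H α β γ δ x y)
      rw [sum_y h1, hL x hx] at this
      refine le_trans (le_of_eq ?_) this
      ring
  have hS := sum_le_sum fun x (_ : x ∈ (univ : Finset V)) => hval x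
  rw [← sum_mul] at hS
  have s1 : ∑ a, ∑ b, ∑ c, (if a = b then w a * w b * w c * YY a3 w H k0 a b c ^ 2 else 0)
      = ∑ x, w x ^ 2 * ∑ y, w y * yv w H α β γ δ x y ^ 2 := by
    refine sum_congr rfl fun a _ => ?_
    rw [sum_comm, mul_sum]
    refine sum_congr rfl fun c _ => ?_
    rw [sum_ite_eq, if_pos (mem_univ _), yy01 h h1 h01]
    ring
  have s2 : ∑ a, ∑ b, ∑ c, (if a = c then w a * w b * w c * YY a3 w H k1 a b c ^ 2 else 0)
      = ∑ x, w x ^ 2 * ∑ y, w y * yv w H α β γ δ x y ^ 2 := by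
    refine sum_congr rfl fun a _ => ?_
    rw [mul_sum]
    refine sum_congr rfl fun b _ => ?_
    rw [sum_ite_eq, if_pos (mem_univ _), yy02 h h1 h02]
    ring
  have s3 : ∑ a, ∑ b, ∑ c, (if b = c then w a * w b * w c * YY a3 w H k2 a b c ^ 2 else 0)
      = ∑ x, w x ^ 2 * ∑ y, w y * yv w H α β γ δ x y ^ 2 := by
    rw [sum_comm]
    refine sum_congr rfl fun b _ => ?_
    rw [mul_sum]
    refine sum_congr rfl fun a _ => ?_
    rw [sum_ite_eq, if_pos (mem_univ _), yy12 h h1 h12]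
    ring
  rw [s1, s2, s3]
  linarith

/-- the bound for weights with a large sum of squares -/
theorem cov_bound (C : Cert κ F5 F3 K5 a5 K3 a3 cC B5 B3 S) (hκ : 3 ≤ κ) {H : Finset V → Prop} (h : Free κ H) {w : V → ℝ}
    (hw : ∀ v, 0 ≤ w v) (h1 : ∑ v, w v = 1) (hL : ∀ x, w x ≠ 0 → LW w H x = rho w H) {α β γ δ : ℤ} {k0 k1 k2 : ℕ}
    (hk : k0 < K3 0 ∧ k1 < K3 0 ∧ k2 < K3 0 ∧ k0 ≠ k1 ∧ k0 ≠ k2 ∧ k1 ≠ k2)
    (h01 : SpC κ (fun f => a3 0 f k0) α β γ δ 0 2 1 5 3 6 4 7 8)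
    (h02 : SpC κ (fun f => a3 0 f k1) α β γ δ 1 3 0 5 2 6 4 8 7)
    (h12 : SpC κ (fun f => a3 0 f k2) α β γ δ 5 6 0 1 2 3 7 8 4)
    {N : ℝ} (hN : 0 < N) (hp : 1 ≤ N * ∑ v, w v ^ 2) {τ : ℝ}
    (n1 : (cC : ℝ) ≤ 210 * S * τ + (21 * B5 + 105 * B3) + 315 / N * (α + (β + 2 * γ + δ) * τ) ^ 2)
    (n2 : 0 < 210 * (S : ℝ) + 630 / N * ((α + (β + 2 * γ + δ) * τ) * (β + 2 * γ + δ))) : rho w H ≤ τ := by
  by_contra hcon
  push Not at hcon
  have hc := core_w C hκ h hw h1
  have hd := diag_ge (K3 := K3) (a3 := a3) h hw h1 hL hk h01 h02 h12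
  have hp2 : 1 / N ≤ ∑ v, w v ^ 2 := by rw [div_le_iff₀ hN]; linarith
  have hd2 : 3 * (1 / N) * (α + (β + 2 * γ + δ) * rho w H) ^ 2 ≤ 3 * (∑ v, w v ^ 2) * (α + (β + 2 * γ + δ) * rho w H) ^ 2 :=
    mul_le_mul_of_nonneg_right (by linarith) (sq_nonneg _)
  set m : ℝ := β + 2 * γ + δ with hm
  have hsq : (α + m * τ) ^ 2 + 2 * ((α + m * τ) * m) * (rho w H - τ) ≤ (α + m * rho w H) ^ 2 := by
    nlinarith [sq_nonneg (m * (rho w H - τ))]
  have hN3 : 0 < 315 / N := by positivity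
  have hsq2 := mul_le_mul_of_nonneg_left hsq hN3.le
  have e1 : 105 * (3 * (1 / N) * (α + m * rho w H) ^ 2) = 315 / N * (α + m * rho w H) ^ 2 := by ring
  have hpos : 0 < (rho w H - τ) * (210 * (S : ℝ) + 630 / N * ((α + m * τ) * m)) := mul_pos (by linarith) n2
  have e2 : 315 / N * ((α + m * τ) ^ 2 + 2 * ((α + m * τ) * m) * (rho w H - τ))
      = 315 / N * (α + m * τ) ^ 2 + (rho w H - τ) * (630 / N * ((α + m * τ) * m)) := by ring
  rw [e2] at hsq2
  nlinarith [hc, hd, hd2, hsq2, hpos, e1]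

end

end Pool.Agent.H68.F7
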