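import Pool.Agent.H68.F7.Dens

/-! Averages over weighted vertices; the squares of three roots are kept. -/

set_option autoImplicit false
set_option maxRecDepth 100000
set_option maxHeartbeats 4000000
open Finset Equiv

namespace Pool.Agent.H68.F7

noncomputable section

open Pool.Agent.Y435.T7 (bt al)
open Pool.Agent.N443 (osum osum_eq mkN mkN_congr mkN_lt bt_mkN codeN act Cl Kp Inv7 Psi gv gv_act sum7)

variable {V : Type} [Fintype V] [DecidableEq V] {κ : ℕ}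

/-- the weight of a tuple -/
def Wt (w : V → ℝ) (u : Fin 7 → V) : ℝ := ∏ i, w (u i)

omit [Fintype V] [DecidableEq V] in
theorem Wt_comp (w : V → ℝ) (u : Fin 7 → V) (σ : Perm (Fin 7)) : Wt w (u ∘ σ) = Wt w u :=
  Equiv.prod_comp σ (fun i => w (u i))

omit [Fintype V] [DecidableEq V] in
theorem Wt_vec (w : V → ℝ) (a b c d e x y : V) : Wt w ![a, b, c, d, e, x, y] = w a * w b * w c * w d * w e * w x * w y := by
  unfold Wt
  simp [Fin.prod_univ_succ]
  ring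

/-- the weighted sum over the tuples -/
def EW (w : V → ℝ) (f : (Fin 7 → V) → ℝ) : ℝ := ∑ u : Fin 7 → V, Wt w u * f u

omit [DecidableEq V] in
theorem EW_comp (w : V → ℝ) (f : (Fin 7 → V) → ℝ) (σ : Perm (Fin 7)) : EW w (fun u => f (u ∘ σ)) = EW w f := by
  unfold EW
  rw [← Equiv.sum_comp (Equiv.arrowCongr σ.symm (Equiv.refl V)) (fun u => Wt w u * f u)]
  refine sum_congr rfl fun u _ => ?_
  have e : (Equiv.arrowCongr σ.symm (Equiv.refl V)) u = u ∘ σ := rfl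
  rw [e, Wt_comp]

theorem EW_act (w : V → ℝ) (H : Finset V → Prop) (σ : Perm (Fin 7)) (G : (Finset (Fin 7) → ℕ) → ℕ) :
    EW w (fun u => (G (act σ (gv H u)) : ℝ)) = EW w (fun u => (G (gv H u) : ℝ)) := by
  rw [← EW_comp w (fun u => (G (gv H u) : ℝ)) σ]
  refine sum_congr rfl fun u _ => ?_
  show Wt w u * (G (act σ (gv H u)) : ℝ) = Wt w u * (G (gv H (u ∘ σ)) : ℝ)
  rw [gv_act]

omit [DecidableEq V] in
theorem EW_sum {ι : Type} (w : V → ℝ) (s : Finset ι) (f : ι → (Fin 7 → V) → ℝ) :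
    EW w (fun u => ∑ i ∈ s, f i u) = ∑ i ∈ s, EW w (f i) := by
  unfold EW
  rw [sum_comm]
  exact sum_congr rfl fun u _ => by rw [mul_sum]

omit [DecidableEq V] in
theorem EW_mul (w : V → ℝ) (c : ℝ) (f : (Fin 7 → V) → ℝ) : EW w (fun u => c * f u) = c * EW w f := by
  unfold EW
  rw [mul_sum]
  exact sum_congr rfl fun u _ => by ring

omit [DecidableEq V] in
theorem EW_add (w : V → ℝ) (f g : (Fin 7 → V) → ℝ) : EW w (fun u => f u + g u) = EW w f + EW w g := by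
  unfold EW
  rw [← sum_add_distrib]
  exact sum_congr rfl fun u _ => by ring

omit [DecidableEq V] in
theorem EW_const {w : V → ℝ} (h1 : ∑ v, w v = 1) (c : ℝ) : EW w (fun _ => c) = c := by
  unfold EW
  have h : ∑ u : Fin 7 → V, Wt w u = 1 := by
    unfold Wt
    have := (Finset.prod_univ_sum (fun _ : Fin 7 => (univ : Finset V)) (fun _ v => w v)).symm
    rw [Fintype.piFinset_univ] at this
    rw [this, h1]
    simp
  rw [← sum_mul, h, one_mul]

omit [DecidableEq V] in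
theorem EW_mono {w : V → ℝ} (hw : ∀ v, 0 ≤ w v) {f g : (Fin 7 → V) → ℝ} (h : ∀ u, f u ≤ g u) : EW w f ≤ EW w g := by
  unfold EW
  exact sum_le_sum fun u _ => mul_le_mul_of_nonneg_left (h u) (prod_nonneg fun i _ => hw _)

theorem EW_Psi (w : V → ℝ) (H : Finset V → Prop) (G : (Finset (Fin 7) → ℕ) → ℕ) :
    EW w (fun u => (Psi G (gv H u) : ℝ)) = 21 * EW w (fun u => (G (gv H u) : ℝ)) := by
  have e : (fun u => (Psi G (gv H u) : ℝ)) = fun u => ∑ S ∈ powersetCard 2 univ, (G (act (Pool.Agent.N443.rp S) (gv H u)) : ℝ) := by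
    funext u
    unfold Psi
    push_cast
    rfl
  rw [e, EW_sum, sum_congr rfl fun S _ => EW_act w H _ G, sum_const, card_powersetCard, nsmul_eq_mul]
  norm_num [Nat.choose]

theorem EW_SG (w : V → ℝ) (H : Finset V → Prop) (G : (Finset (Fin 7) → ℕ) → ℕ) :
    EW w (fun u => (SG G (gv H u) : ℝ)) = 5040 * EW w (fun u => (G (gv H u) : ℝ)) := by
  have e : (fun u => (SG G (gv H u) : ℝ)) = fun u => ∑ σ : Perm (Fin 7), (G (act σ (gv H u)) : ℝ) := by
    funext u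
    unfold SG
    push_cast
    rfl
  rw [e, EW_sum, sum_congr rfl fun σ _ => EW_act w H _ G, sum_const, card_univ, Fintype.card_perm, Fintype.card_fin, nsmul_eq_mul]
  norm_num [Nat.factorial]

omit [DecidableEq V] in
/-- weighted sums of squares -/
theorem wpsd {X : Type} [Fintype X] (w : X → ℝ) (c : ℝ) (K : ℕ) (a : X → ℕ → ℝ) :
    ∑ x, ∑ y, w x * w y * (c + ∑ k ∈ range K, a x k * a y k) = c * (∑ x, w x) ^ 2 + ∑ k ∈ range K, (∑ x, w x * a x k) ^ 2 := by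
  have h1 : ∀ x, ∑ y, w x * w y * (c + ∑ k ∈ range K, a x k * a y k)
      = w x * c * ∑ y, w y + ∑ k ∈ range K, (w x * a x k) * ∑ y, w y * a y k := by
    intro x
    have h2 : ∑ k ∈ range K, (w x * a x k) * ∑ y, w y * a y k = ∑ y, ∑ k ∈ range K, (w x * a x k) * (w y * a y k) := by
      rw [sum_comm]
      exact sum_congr rfl fun k _ => by rw [mul_sum]
    rw [h2, mul_sum, ← sum_add_distrib]
    refine sum_congr rfl fun y _ => ?_
    rw [mul_add, mul_sum]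
    congr 1
    · ring
    · exact sum_congr rfl fun k _ => by ring
  rw [sum_congr rfl fun x _ => h1 x, sum_add_distrib]
  congr 1
  · rw [← sum_mul, ← sum_mul]; ring
  · rw [sum_comm]
    refine sum_congr rfl fun k _ => ?_
    rw [← sum_mul, sq]

variable {F5 F3 : ℕ → ℕ → ℕ → ℕ} {K5 : ℕ → ℕ} {a5 : ℕ → ℕ → ℕ → ℤ} {K3 : ℕ → ℕ} {a3 : ℕ → ℕ → ℕ → ℤ} {cC B5 B3 S : ℕ}

/-- the density of the edges -/
def rho (w : V → ℝ) (H : Finset V → Prop) : ℝ := EW w (fun u => (gv H u {0, 1, 2} : ℝ))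

theorem pc_EW (w : V → ℝ) (H : Finset V → Prop) : EW w (fun u => (pc (codeN 10 RM (gv H u)) : ℝ)) = 10 * rho w H := by
  have hb : ∀ u : Fin 7 → V, ∀ Q, gv H u Q ≤ 1 := fun u Q => by unfold gv; split_ifs <;> norm_num
  have h1 : (fun u : Fin 7 → V => (pc (codeN 10 RM (gv H u)) : ℝ)) = fun u => ∑ i ∈ range 10, (gv H u (RM.getD i ∅) : ℝ) := by
    funext u
    unfold pc
    rw [osum_eq]
    push_cast
    exact sum_congr rfl fun i hi => by
      have : bt i (codeN 10 RM (gv H u)) = gv H u (RM.getD i ∅) := bt_mkN (mem_range.mp hi) fun j => hb u _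
      rw [this]
  rw [h1, EW_sum]
  have h2 : ∀ i ∈ range 10, EW w (fun u => (gv H u (RM.getD i ∅) : ℝ)) = rho w H := fun i hi => by
    have h3 := EW_act w H (sg.getD i 1 : Perm (Fin 7)) (fun g => g {0, 1, 2})
    unfold rho
    rw [← h3]
    refine sum_congr rfl fun u _ => ?_
    show Wt w u * (gv H u (RM.getD i ∅) : ℝ) = Wt w u * (act (sg.getD i 1 : Perm (Fin 7)) (gv H u) {0, 1, 2} : ℝ)
    unfold act
    rw [sg_ok i (mem_range.mp hi)]
  rw [sum_congr rfl h2, sum_const, card_range, nsmul_eq_mul]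
  norm_num

theorem GG_EW (C : Cert κ F5 F3 K5 a5 K3 a3 cC B5 B3 S) (hκ : 3 ≤ κ) {H : Finset V → Prop} (h : Free κ H) {w : V → ℝ}
    (hw : ∀ v, 0 ≤ w v) (h1 : ∑ v, w v = 1) :
    (B5 : ℝ) + S * (10 * rho w H) ≤ EW w (fun u => (GG F5 (gv H u) : ℝ)) := by
  have h0 : (B5 : ℝ) + S * (10 * rho w H) = EW w (fun u => (B5 : ℝ) + S * (pc (codeN 10 RM (gv H u)) : ℝ)) := by
    rw [EW_add, EW_const h1, EW_mul, pc_EW]
  rw [h0]
  unfold EW
  rw [sum7, sum7 (V := V) fun u => Wt w u * (GG F5 (gv H u) : ℝ)]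
  refine sum_le_sum fun a _ => sum_le_sum fun b _ => sum_le_sum fun c _ => sum_le_sum fun d _ => sum_le_sum fun e _ => ?_
  set m := codeN 10 RM (gv H ![a, b, c, d, e, a, a]) with hm
  have e1 : ∀ x y, codeN 10 RM (gv H ![a, b, c, d, e, x, y]) = m := fun x y => code_gv fun j hj i hi => vec5 (hRM j hj i hi)
  have e2 : ∀ x y, codeN 10 RA (gv H ![a, b, c, d, e, x, y]) = codeN 10 RA (gv H ![a, b, c, d, e, x, a]) := fun x y =>
    code_gv fun j hj i hi => vec6 (hRA j hj i hi)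
  have e3 : ∀ x y, codeN 10 RB (gv H ![a, b, c, d, e, x, y]) = codeN 10 RA (gv H ![a, b, c, d, e, y, a]) := fun x y => by
    rw [← RA_s5, gv_act, vecs, e2]
  have h2 : ∀ x y, (GG F5 (gv H ![a, b, c, d, e, x, y]) : ℝ) = ((B5 : ℝ) + S * (pc m : ℝ)) + ∑ k ∈ range (K5 m),
      (a5 m (codeN 10 RA (gv H ![a, b, c, d, e, x, a])) k : ℝ) * (a5 m (codeN 10 RA (gv H ![a, b, c, d, e, y, a])) k : ℝ) := by
    intro x y
    have := C.h5 _ (val_gv hκ h ![a, b, c, d, e, x, y])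
    rw [e1, e2, e3] at this
    exact_mod_cast this
  have h3 := wpsd w ((B5 : ℝ) + S * (pc m : ℝ)) (K5 m) fun x k => (a5 m (codeN 10 RA (gv H ![a, b, c, d, e, x, a])) k : ℝ)
  have h4 := wpsd w ((B5 : ℝ) + S * (pc m : ℝ)) 0 fun (x : V) (k : ℕ) => (0 : ℝ)
  simp only [range_zero, sum_empty, add_zero] at h4
  have hp : 0 ≤ w a * w b * w c * w d * w e :=
    mul_nonneg (mul_nonneg (mul_nonneg (mul_nonneg (hw a) (hw b)) (hw c)) (hw d)) (hw e)
  have h5 : ∑ x, ∑ y, w x * w y * ((B5 : ℝ) + S * (pc m : ℝ)) ≤ ∑ x, ∑ y, w x * w y * (((B5 : ℝ) + S * (pc m : ℝ)) +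
      ∑ k ∈ range (K5 m), (a5 m (codeN 10 RA (gv H ![a, b, c, d, e, x, a])) k : ℝ) *
        (a5 m (codeN 10 RA (gv H ![a, b, c, d, e, y, a])) k : ℝ)) := by
    rw [h3, h4]
    have : 0 ≤ ∑ k ∈ range (K5 m), (∑ x, w x * (a5 m (codeN 10 RA (gv H ![a, b, c, d, e, x, a])) k : ℝ)) ^ 2 :=
      sum_nonneg fun k _ => sq_nonneg _
    linarith
  refine le_trans (le_of_eq ?_) ((mul_le_mul_of_nonneg_left h5 hp).trans (le_of_eq ?_))
  · rw [mul_sum]
    refine sum_congr rfl fun x _ => ?_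
    rw [mul_sum]
    refine sum_congr rfl fun y _ => ?_
    rw [Wt_vec]
    show w a * w b * w c * w d * w e * w x * w y * ((B5 : ℝ) + S * (pc (codeN 10 RM (gv H ![a, b, c, d, e, x, y])) : ℝ)) = _
    rw [e1]
    ring
  · rw [mul_sum]
    refine sum_congr rfl fun x _ => ?_
    rw [mul_sum]
    refine sum_congr rfl fun y _ => ?_
    rw [Wt_vec, h2]
    ring

/-- the value of the third root -/
def rt (H : Finset V → Prop) (a b c : V) : ℕ := gv H ![a, b, c, a, a, a, a] {0, 1, 2}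
/-- the weighted columns for three roots -/
def YY (a3 : ℕ → ℕ → ℕ → ℤ) (w : V → ℝ) (H : Finset V → Prop) (k : ℕ) (a b c : V) : ℝ :=
  ∑ d, ∑ e, w d * w e * (a3 (rt H a b c) (codeN 9 Q1 (gv H ![a, b, c, d, e, a, a])) k : ℝ)

theorem GH_EW (C : Cert κ F5 F3 K5 a5 K3 a3 cC B5 B3 S) (hκ : 3 ≤ κ) {H : Finset V → Prop} (h : Free κ H) {w : V → ℝ}
    (h1 : ∑ v, w v = 1) :
    EW w (fun u => (GH F3 (gv H u) : ℝ)) = (B3 : ℝ) + ∑ a, ∑ b, ∑ c, w a * w b * w c *
      ∑ k ∈ range (K3 (rt H a b c)), YY a3 w H k a b c ^ 2 := by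
  have hB : (B3 : ℝ) = ∑ a, ∑ b, ∑ c, w a * w b * w c * B3 := by
    have e : ∀ a b, ∑ c, w a * w b * w c * (B3 : ℝ) = w a * w b * B3 := fun a b => by
      rw [← sum_mul, ← mul_sum, h1, mul_one]
    have e' : ∀ a, ∑ b, w a * w b * (B3 : ℝ) = w a * B3 := fun a => by
      rw [← sum_mul, ← mul_sum, h1, mul_one]
    rw [sum_congr rfl fun a _ => sum_congr rfl fun b _ => e a b, sum_congr rfl fun a _ => e' a, ← sum_mul, h1, one_mul]
  conv_rhs => rw [hB]
  rw [← sum_add_distrib]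
  unfold EW
  rw [sum7]
  refine sum_congr rfl fun a _ => ?_
  rw [← sum_add_distrib]
  refine sum_congr rfl fun b _ => ?_
  rw [← sum_add_distrib]
  refine sum_congr rfl fun c _ => ?_
  have e0 : ∀ d e x y : V, (({0, 1, 2} : Finset (Fin 7)).image ![a, b, c, d, e, x, y] : Finset V) = {a, b, c} := by
    intro d e x y
    rw [image_insert, image_insert, image_singleton]
    simp
  have e1 : ∀ d e x y, gv H ![a, b, c, d, e, x, y] {0, 1, 2} = rt H a b c := by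
    intro d e x y
    unfold rt gv
    rw [e0, e0]
  have e2 : ∀ d e x y, codeN 9 Q1 (gv H ![a, b, c, d, e, x, y]) = codeN 9 Q1 (gv H ![a, b, c, d, e, a, a]) := fun d e x y =>
    code_gv fun j hj i hi => vec5 (hQ1 j hj i hi)
  have e3 : ∀ d e x y, codeN 9 Q2 (gv H ![a, b, c, d, e, x, y]) = codeN 9 Q1 (gv H ![a, b, c, x, y, a, a]) := fun d e x y => by
    rw [← Q1_s9, gv_act, vecD, e2]
  have h2 : ∀ d e x y, (GH F3 (gv H ![a, b, c, d, e, x, y]) : ℝ) = (B3 : ℝ) + ∑ k ∈ range (K3 (rt H a b c)),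
      (a3 (rt H a b c) (codeN 9 Q1 (gv H ![a, b, c, d, e, a, a])) k : ℝ) *
      (a3 (rt H a b c) (codeN 9 Q1 (gv H ![a, b, c, x, y, a, a])) k : ℝ) := by
    intro d e x y
    have := C.h3 _ (val_gv hκ h ![a, b, c, d, e, x, y])
    rw [e1, e2, e3] at this
    exact_mod_cast this
  have h3 := wpsd (X := V × V) (fun p => w p.1 * w p.2) (B3 : ℝ) (K3 (rt H a b c)) fun p k =>
    (a3 (rt H a b c) (codeN 9 Q1 (gv H ![a, b, c, p.1, p.2, a, a])) k : ℝ)
  simp only [Fintype.sum_prod_type] at h3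
  have hs : ∑ x, ∑ y, w x * w y = 1 := by
    rw [← sum_mul_sum, h1, one_mul]
  rw [hs, one_pow, mul_one] at h3
  have h4 : ∑ d, ∑ e, ∑ x, ∑ y, Wt w ![a, b, c, d, e, x, y] * (GH F3 (gv H ![a, b, c, d, e, x, y]) : ℝ)
      = w a * w b * w c * ∑ d, ∑ e, ∑ x, ∑ y, w d * w e * (w x * w y) * ((B3 : ℝ) + ∑ k ∈ range (K3 (rt H a b c)),
      (a3 (rt H a b c) (codeN 9 Q1 (gv H ![a, b, c, d, e, a, a])) k : ℝ) *
      (a3 (rt H a b c) (codeN 9 Q1 (gv H ![a, b, c, x, y, a, a])) k : ℝ)) := by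
    simp only [mul_sum]
    refine sum_congr rfl fun d _ => sum_congr rfl fun e _ => sum_congr rfl fun x _ => sum_congr rfl fun y _ => ?_
    rw [Wt_vec, h2]
    ring
  rw [h4, h3, mul_add]
  congr 1

theorem core_w (C : Cert κ F5 F3 K5 a5 K3 a3 cC B5 B3 S) (hκ : 3 ≤ κ) {H : Finset V → Prop} (h : Free κ H) {w : V → ℝ}
    (hw : ∀ v, 0 ≤ w v) (h1 : ∑ v, w v = 1) :
    210 * S * rho w H + (21 * B5 + 105 * B3) + 105 * (∑ a, ∑ b, ∑ c, w a * w b * w c *
      ∑ k ∈ range (K3 (rt H a b c)), YY a3 w H k a b c ^ 2) ≤ cC := by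
  have h2 : EW w (fun u => ((48 * Psi (GG F5) (gv H u) + SG (GH F3) (gv H u) : ℕ) : ℝ)) ≤ 48 * cC := by
    refine (EW_mono hw (g := fun _ => (48 * cC : ℝ)) fun u => ?_).trans (le_of_eq (EW_const h1 _))
    exact_mod_cast C.hP _ (val_gv hκ h u)
  have h3 : EW w (fun u => ((48 * Psi (GG F5) (gv H u) + SG (GH F3) (gv H u) : ℕ) : ℝ))
      = 48 * (21 * EW w (fun u => (GG F5 (gv H u) : ℝ))) + 5040 * EW w (fun u => (GH F3 (gv H u) : ℝ)) := by
    rw [← EW_Psi, ← EW_SG, ← EW_mul, ← EW_add]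
    refine sum_congr rfl fun u _ => ?_
    push_cast
    rfl
  have h4 := GG_EW C hκ h hw h1
  have h5 := GH_EW C hκ h h1
  rw [h3, h5] at h2
  nlinarith

end

end Pool.Agent.H68.F7
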