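import Pool.Agent.H68.F7.WCov
import Pool.Graph.R_pool_sql_team_seeded_3997aac3.Q113.Cov.Lag

/-! Covering sets: from maximizing weights to all weights. -/

set_option autoImplicit false
open Finset

namespace Pool.Agent.H68.F7

noncomputable section

open Pool.Agent.Q113.Cov (T3 LL SE sp main_lagr T3_LL)

variable {V : Type} [Fintype V] [DecidableEq V] {κ : ℕ}

omit [Fintype V] in
theorem SE_ge {H : Finset V → Prop} (h : Free κ H) : SE (ge H) := by
  refine ⟨fun x y z => ?_, fun x y z => ?_, fun x y z => ?_, fun x y => ge_zero h (Or.inl rfl)⟩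
  · unfold ge; split_ifs <;> simp
  · unfold ge; rw [insert_comm]
  · unfold ge; rw [pair_comm]

omit [Fintype V] in
theorem six_le [Fintype V] {H : Finset V → Prop} {K : Finset (Finset V)} (hHK : ∀ e ∈ K, H e) (hK : ∀ e ∈ K, e.card = 3)
    {w : V → ℝ} (hw : ∀ v, 0 ≤ w v) : 6 * ∑ e ∈ K, ∏ v ∈ e, w v ≤ T3 (ge H) w w w := by
  set T : Finset (V × V × V) := univ.filter fun t => ({t.1, t.2.1, t.2.2} : Finset V) ∈ K with hT
  have e : ∑ t ∈ T, w t.1 * w t.2.1 * w t.2.2 ≤ T3 (ge H) w w w := by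
    rw [hT, sum_filter, Fintype.sum_prod_type]
    unfold T3
    refine sum_le_sum fun a _ => ?_
    rw [Fintype.sum_prod_type]
    refine sum_le_sum fun b _ => sum_le_sum fun c _ => ?_
    by_cases h : ({a, b, c} : Finset V) ∈ K
    · rw [if_pos h]
      have : ge H a b c = 1 := by unfold ge; rw [if_pos (hHK _ h)]
      rw [this]; simp
    · rw [if_neg h]
      exact mul_nonneg (mul_nonneg (mul_nonneg (hw _) (hw _)) (hw _)) (Nat.cast_nonneg _)
  have hfw := sum_fiberwise_of_maps_to (s := T) (t := K)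
    (g := fun t : V × V × V => ({t.1, t.2.1, t.2.2} : Finset V))
    (fun t ht => (mem_filter.mp ht).2) (fun t => w t.1 * w t.2.1 * w t.2.2)
  refine le_trans ?_ e
  rw [← hfw, mul_sum]
  refine sum_le_sum fun s hs => ?_
  obtain ⟨x, y, z, hxy, hxz, hyz, rfl⟩ := Finset.card_eq_three.mp (hK s hs)
  have hprod : ∏ v ∈ ({x, y, z} : Finset V), w v = w x * w y * w z := by
    rw [prod_insert (by simp [hxy, hxz]), prod_insert (by simp [hyz]), prod_singleton]
    ring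
  rw [hprod]
  set U : Finset (V × V × V) := {(x, y, z), (x, z, y), (y, x, z), (y, z, x), (z, x, y), (z, y, x)} with hU
  have hsub : U ⊆ T.filter (fun t : V × V × V => ({t.1, t.2.1, t.2.2} : Finset V) = {x, y, z}) := by
    have key : ∀ u v t : V, ({u, v, t} : Finset V) = {x, y, z} →
        (u, v, t) ∈ T.filter (fun t : V × V × V => ({t.1, t.2.1, t.2.2} : Finset V) = {x, y, z}) := by
      intro u v t h
      have hm : ({u, v, t} : Finset V) ∈ K := by rw [h]; exact hs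
      rw [mem_filter, hT, mem_filter]
      exact ⟨⟨mem_univ _, hm⟩, h⟩
    intro t ht
    rw [hU] at ht
    simp only [mem_insert, mem_singleton] at ht
    rcases ht with rfl | rfl | rfl | rfl | rfl | rfl
    · exact key _ _ _ rfl
    · exact key _ _ _ (by ext t; simp; tauto)
    · exact key _ _ _ (by ext t; simp; tauto)
    · exact key _ _ _ (by ext t; simp; tauto)
    · exact key _ _ _ (by ext t; simp; tauto)
    · exact key _ _ _ (by ext t; simp; tauto)
  refine le_trans (le_of_eq ?_) (sum_le_sum_of_subset_of_nonneg hsub fun t _ _ =>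
    mul_nonneg (mul_nonneg (hw _) (hw _)) (hw _))
  rw [hU, sum_insert, sum_insert, sum_insert, sum_insert, sum_insert, sum_singleton]
  · ring
  all_goals simp [hxy, hxz, hyz, hxy.symm, hxz.symm, hyz.symm]

/-- the bound for all weights with sum one -/
theorem all_weights {H : Finset V → Prop} (h : Free κ H) {N : ℕ} {τ : ℝ}
    (hc : ∀ S : Finset V, (∀ x ∈ S, ∀ y ∈ S, x ≠ y → ∃ z ∈ S, H {x, y, z}) → S.card ≤ N)
    (hb : ∀ w : V → ℝ, (∀ v, 0 ≤ w v) → ∑ v, w v = 1 → (∀ x, w x ≠ 0 → LW w H x = rho w H) → 1 ≤ (N : ℝ) * ∑ v, w v ^ 2 →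
      rho w H ≤ τ) {w : V → ℝ} (hw : w ∈ stdSimplex ℝ V) : T3 (ge H) w w w ≤ τ := by
  have : Nonempty V := by
    by_contra hcon
    rw [not_nonempty_iff] at hcon
    have := hw.2
    simp at this
  obtain ⟨v, hv, hmax, hdeg, hcov⟩ := main_lagr (E := ge H) (SE_ge h)
  refine (hmax w hw).trans ?_
  have e0 : T3 (ge H) v v v = rho v H := by rw [rho_eq hv.2, T3_LL]; rfl
  rw [e0]
  refine hb v hv.1 hv.2 (fun x hx => ?_) ?_
  · have := hdeg x hx
    rw [e0] at this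
    exact this
  · have hcard := hc (sp v) fun x hx y hy hxy => by
      obtain ⟨z, hz, h1⟩ := hcov x y (mem_filter.mp hx).2 (mem_filter.mp hy).2 hxy
      exact ⟨z, mem_filter.mpr ⟨mem_univ _, hz⟩, ge_one h1⟩
    have h1 : ∑ x ∈ sp v, v x = 1 := by
      rw [← hv.2]
      exact sum_subset (subset_univ _) fun x _ hx => by
        by_contra hne
        exact hx (mem_filter.mpr ⟨mem_univ _, hne⟩)
    have h2 := sum_mul_sq_le_sq_mul_sq (sp v) (fun _ => (1 : ℝ)) v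
    simp only [one_mul, one_pow, sum_const, nsmul_eq_mul, mul_one] at h2
    rw [h1, one_pow] at h2
    refine h2.trans ?_
    have h3 : ∑ x ∈ sp v, v x ^ 2 ≤ ∑ x, v x ^ 2 := sum_le_sum_of_subset_of_nonneg (subset_univ _) fun _ _ _ => sq_nonneg _
    have h4 : ((sp v).card : ℝ) ≤ N := by exact_mod_cast hcard
    have h5 : 0 ≤ ∑ x ∈ sp v, v x ^ 2 := sum_nonneg fun _ _ => sq_nonneg _
    calc ((sp v).card : ℝ) * ∑ x ∈ sp v, v x ^ 2 ≤ N * ∑ x ∈ sp v, v x ^ 2 := mul_le_mul_of_nonneg_right h4 h5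
      _ ≤ N * ∑ x, v x ^ 2 := mul_le_mul_of_nonneg_left h3 (Nat.cast_nonneg _)

omit [DecidableEq V] in
/-- from weights with sum one to all weights -/
theorem scale {K : Finset (Finset V)} {t : ℝ} (h3 : ∀ e ∈ K, e.card = 3)
    (hd : ∀ w ∈ stdSimplex ℝ V, 6 * ∑ e ∈ K, ∏ v ∈ e, w v ≤ t) {w : V → ℝ} (hw : ∀ v, 0 ≤ w v) :
    6 * ∑ e ∈ K, ∏ v ∈ e, w v ≤ t * (∑ v, w v) ^ 3 := by
  have hs0 : 0 ≤ ∑ v, w v := sum_nonneg fun v _ => hw v
  rcases hs0.eq_or_lt with hs | hs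
  · have hz : ∀ v, w v = 0 := fun v =>
      (sum_eq_zero_iff_of_nonneg fun v _ => hw v).mp hs.symm v (mem_univ v)
    have h0 : ∑ e ∈ K, ∏ v ∈ e, w v = 0 := by
      refine sum_eq_zero fun e he => ?_
      obtain ⟨x, hx⟩ := card_pos.mp (by rw [h3 e he]; norm_num : 0 < e.card)
      exact prod_eq_zero hx (hz x)
    rw [h0, ← hs]
    norm_num
  · set s := ∑ v, w v with hsd
    have hw' : (fun v => w v / s) ∈ stdSimplex ℝ V := by
      refine ⟨fun v => div_nonneg (hw v) hs.le, ?_⟩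
      show ∑ v, w v / s = 1
      rw [← sum_div, ← hsd, div_self hs.ne']
    have h6 := hd _ hw'
    have hscale : ∑ e ∈ K, ∏ v ∈ e, w v / s = (∑ e ∈ K, ∏ v ∈ e, w v) / s ^ 3 := by
      rw [sum_div]
      refine sum_congr rfl fun e he => ?_
      rw [prod_div_distrib, prod_const, h3 e he]
    rw [hscale] at h6
    have hs3 : 0 < s ^ 3 := by positivity
    have hmul : (∑ e ∈ K, ∏ v ∈ e, w v) = (∑ e ∈ K, ∏ v ∈ e, w v) / s ^ 3 * s ^ 3 := by
      field_simp
    rw [hmul]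
    have := mul_le_mul_of_nonneg_right h6 hs3.le
    linarith

/-- the bound for 3-graphs whose covering sets are small -/
theorem covering {K : Finset (Finset V)} (h3 : ∀ e ∈ K, e.card = 3) (hK : ∀ P : Finset V, P.card = κ → ∃ Q ⊆ P, Q.card = 3 ∧ Q ∉ K)
    {N : ℕ} {τ : ℝ} (hc : ∀ S : Finset V, (∀ x ∈ S, ∀ y ∈ S, x ≠ y → ∃ e ∈ K, x ∈ e ∧ y ∈ e ∧ e ⊆ S) → S.card ≤ N)
    (hb : ∀ H : Finset V → Prop, Free κ H → ∀ w : V → ℝ, (∀ v, 0 ≤ w v) → ∑ v, w v = 1 →
      (∀ x, w x ≠ 0 → LW w H x = rho w H) → 1 ≤ (N : ℝ) * ∑ v, w v ^ 2 → rho w H ≤ τ) {w : V → ℝ} (hw : ∀ v, 0 ≤ w v) :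
    6 * ∑ e ∈ K, ∏ v ∈ e, w v ≤ τ * (∑ v, w v) ^ 3 := by
  have hF : Free κ (fun e => e ∈ K) := ⟨fun Q hQ => h3 Q hQ, fun P hP => by
    obtain ⟨Q, h1, h2, h3⟩ := hK P hP
    exact ⟨Q, mem_powersetCard.mpr ⟨h1, h2⟩, h3⟩⟩
  refine scale h3 (fun w hw => ?_) hw
  refine (six_le (H := fun e => e ∈ K) (fun e he => he) h3 hw.1).trans ?_
  refine all_weights hF (N := N) (fun S hS => hc S fun x hx y hy hxy => ?_) (hb _ hF) hw
  obtain ⟨z, hz, he⟩ := hS x hx y hy hxy
  refine ⟨_, he, by simp, by simp, fun t ht => ?_⟩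
  rw [mem_insert, mem_insert, mem_singleton] at ht
  rcases ht with rfl | rfl | rfl
  exacts [hx, hy, hz]

end

end Pool.Agent.H68.F7
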